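import Mathlib
import Pool.Agent.Ex.P2Form

/-!
EXG/GTrip (helper42): the triplication formula of the Gamma function (Bohr-Mollerup) and the closed form of the
constant of the bridge weights.
-/

set_option autoImplicit false

namespace EXG

open Real Set

noncomputable section

/-- Gauss triplication: auxiliary function -/
def tg (s : ℝ) : ℝ := Gamma (s / 3) * Gamma ((s + 1) / 3) * Gamma ((s + 2) / 3) * 3 ^ s / (2 * π * √3)

lemma tg_pos {s : ℝ} (hs : 0 < s) : 0 < tg s := by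
  unfold tg
  have h1 := Gamma_pos_of_pos (s := s / 3) (by positivity)
  have h2 := Gamma_pos_of_pos (s := (s + 1) / 3) (by positivity)
  have h3 := Gamma_pos_of_pos (s := (s + 2) / 3) (by positivity)
  positivity

lemma tg_add_one {s : ℝ} (hs : 0 < s) : tg (s + 1) = s * tg s := by
  unfold tg
  have h1 : (s + 1 + 2) / 3 = s / 3 + 1 := by ring
  have h2 : s + 1 + 1 = s + 2 := by ring
  rw [h1, h2, Gamma_add_one (by positivity), rpow_add (by norm_num), rpow_one]
  ring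

lemma tg_one : tg 1 = 1 := by
  unfold tg
  have h1 : ((1 : ℝ) + 1) / 3 = 1 - 1 / 3 := by norm_num
  have h2 : ((1 : ℝ) + 2) / 3 = 1 := by norm_num
  rw [h1, h2, Gamma_one, Gamma_mul_Gamma_one_sub, mul_one, rpow_one, show π * (1 / 3) = π / 3 by ring,
    sin_pi_div_three]
  have := pi_pos
  have h3 : √3 * √3 = 3 := Real.mul_self_sqrt (by norm_num)
  have h4 : 0 < √3 := by positivity
  field_simp
  nlinarith

lemma conv_aux {c : ℝ} (hc : 0 ≤ c) : ConvexOn ℝ (Ioi (0 : ℝ)) (fun s => log (Gamma ((s + c) / 3))) := by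
  refine ⟨convex_Ioi 0, fun x hx y hy a b ha hb hab => ?_⟩
  have hx0 : 0 < x := hx
  have hy0 : 0 < y := hy
  have h := convexOn_log_Gamma.2 (x := (x + c) / 3) (show (0 : ℝ) < (x + c) / 3 by positivity) (y := (y + c) / 3)
    (show (0 : ℝ) < (y + c) / 3 by positivity) ha hb hab
  simp only [Function.comp_apply, smul_eq_mul] at h ⊢
  have e : (a * x + b * y + c) / 3 = a * ((x + c) / 3) + b * ((y + c) / 3) := by
    have : c = (a + b) * c := by rw [hab, one_mul]
    linear_combination (1 / 3) * this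
  rw [e]
  exact h

lemma tg_conv : ConvexOn ℝ (Ioi (0 : ℝ)) (log ∘ tg) := by
  have h1 := (((conv_aux (c := 0) le_rfl).add (conv_aux (c := 1) zero_le_one)).add
    (conv_aux (c := 2) zero_le_two)).add ((convexOn_id (convex_Ioi (0 : ℝ))).smul (log_pos (by norm_num : (1 : ℝ) < 3)).le)
  refine (h1.add_const (-log (2 * π * √3))).congr fun s hs => ?_
  have hs0 : 0 < s := hs
  have g1 := (Gamma_pos_of_pos (s := s / 3) (by positivity)).ne'
  have g2 := (Gamma_pos_of_pos (s := (s + 1) / 3) (by positivity)).ne'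
  have g3 := (Gamma_pos_of_pos (s := (s + 2) / 3) (by positivity)).ne'
  have g4 : (3 : ℝ) ^ s ≠ 0 := by positivity
  have g5 : 2 * π * √3 ≠ 0 := by positivity
  simp only [Pi.add_apply, Function.comp_apply, id, smul_eq_mul, add_zero]
  unfold tg
  rw [log_div (by positivity) g5, log_mul (by positivity) g4, log_mul (by positivity) g3, log_mul g1 g2,
    log_rpow (by norm_num)]
  ring

/-- triplication -/
theorem gamma_trip {s : ℝ} (hs : 0 < s) : tg s = Gamma s :=
  eq_Gamma_of_log_convex tg_conv (fun {_} hy => tg_add_one hy) (fun {_} hy => tg_pos hy) tg_one hs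

theorem gtrip : Gamma (1 / 12) * Gamma (5 / 12) * Gamma (3 / 4) = 2 * π * (3 : ℝ) ^ (1 / 4 : ℝ) * Gamma (1 / 4) := by
  have h := gamma_trip (s := 1 / 4) (by norm_num)
  unfold tg at h
  rw [show ((1 : ℝ) / 4) / 3 = 1 / 12 by norm_num, show ((1 : ℝ) / 4 + 1) / 3 = 5 / 12 by norm_num,
    show ((1 : ℝ) / 4 + 2) / 3 = 3 / 4 by norm_num, div_eq_iff (by positivity)] at h
  have h1 : √3 = (3 : ℝ) ^ (1 / 4 : ℝ) * (3 : ℝ) ^ (1 / 4 : ℝ) := by
    rw [← rpow_add (by norm_num), Real.sqrt_eq_rpow]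
    norm_num
  have h2 : (3 : ℝ) ^ (1 / 4 : ℝ) ≠ 0 := by positivity
  refine mul_right_cancel₀ h2 ?_
  rw [h, h1]
  ring

theorem r2_eq : P2F.r2 = 2 * sin (π / 8) := by
  unfold P2F.r2
  rw [← cos_pi_div_two_sub]
  congr 2
  ring

/-- the closed form of the constant -/
theorem b_closed : (8 * √2 / (3 * √3) * P2F.r2 * P2F.K1) / ((P2F.K1 * (4 * P2F.h0) ^ (1 / 4 : ℝ) / Gamma (5 / 4)) *
    (Gamma (5 / 12) * Gamma (13 / 12) / √π)) =
    2 ^ (13 / 4 : ℝ) * 3 ^ (-(7 / 8) : ℝ) * sin (π / 8) * Gamma (3 / 4) / √π := by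
  have hK := P2F.K1_pos.ne'
  have h13 : Gamma (13 / 12) = 1 / 12 * Gamma (1 / 12) := by
    rw [← Gamma_add_one (by norm_num)]
    norm_num
  have h54 : Gamma (5 / 4) = 1 / 4 * Gamma (1 / 4) := by
    rw [← Gamma_add_one (by norm_num)]
    norm_num
  have g1 : 0 < Gamma (1 / 12) := Gamma_pos_of_pos (by norm_num)
  have g2 : 0 < Gamma (5 / 12) := Gamma_pos_of_pos (by norm_num)
  have g3 : 0 < Gamma (3 / 4) := Gamma_pos_of_pos (by norm_num)
  have g4 : 0 < Gamma (1 / 4) := Gamma_pos_of_pos (by norm_num)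
  have ht := gtrip
  have hpi : √π * √π = π := Real.mul_self_sqrt pi_pos.le
  have hp : 0 < √π := by positivity
  -- powers of 2 and 3
  set a : ℝ := (2 : ℝ) ^ (1 / 4 : ℝ) with ha
  set c : ℝ := (3 : ℝ) ^ (1 / 8 : ℝ) with hc
  have ha0 : 0 < a := by positivity
  have hc0 : 0 < c := by positivity
  have e1 : √2 = a ^ 2 := by
    rw [ha, ← rpow_mul_natCast (by norm_num), Real.sqrt_eq_rpow]
    norm_num
  have e2 : √3 = c ^ 4 := by
    rw [hc, ← rpow_mul_natCast (by norm_num), Real.sqrt_eq_rpow]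
    norm_num
  have e3 : (3 : ℝ) ^ (1 / 4 : ℝ) = c ^ 2 := by
    rw [hc, ← rpow_mul_natCast (by norm_num)]
    norm_num
  have e4 : (4 * P2F.h0) ^ (1 / 4 : ℝ) = a * c := by
    have : 4 * P2F.h0 = 2 * 3 ^ (1 / 2 : ℝ) := by
      unfold P2F.h0
      rw [Real.sqrt_eq_rpow]
      ring
    rw [this, mul_rpow (by norm_num) (by positivity), ← rpow_mul (by norm_num), ha, hc]
    norm_num
  have e5 : (2 : ℝ) ^ (13 / 4 : ℝ) = 8 * a := by
    rw [show (13 / 4 : ℝ) = 3 + 1 / 4 by norm_num, rpow_add (by norm_num), ha]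
    norm_num
  have e6 : (3 : ℝ) ^ (-(7 / 8) : ℝ) = c / 3 := by
    rw [show (-(7 / 8) : ℝ) = 1 / 8 - 1 by norm_num, rpow_sub (by norm_num), rpow_one, hc]
  have e7 : c ^ 8 = 3 := by
    rw [hc, ← rpow_mul_natCast (by norm_num)]
    norm_num
  have e8 : a ^ 4 = 2 := by
    rw [ha, ← rpow_mul_natCast (by norm_num)]
    norm_num
  rw [e3] at ht
  rw [h13, h54, r2_eq, e1, e2, e4, e5, e6]
  have hs : 0 < sin (π / 8) := sin_pos_of_pos_of_lt_pi (by positivity) (by linarith [pi_pos])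
  rw [div_eq_div_iff (by positivity) hp.ne']
  have hL : 8 * a ^ 2 / (3 * c ^ 4) * (2 * sin (π / 8)) * P2F.K1 * √π =
      16 / 3 * a ^ 2 / c ^ 4 * sin (π / 8) * P2F.K1 * √π := by ring
  rw [hL]
  have key : 8 * a * (c / 3) * sin (π / 8) * Gamma (3 / 4) *
      (P2F.K1 * (a * c) / (1 / 4 * Gamma (1 / 4)) * (Gamma (5 / 12) * (1 / 12 * Gamma (1 / 12)) / √π)) =
      8 / 9 * a ^ 2 * c ^ 2 * sin (π / 8) * P2F.K1 / √π / Gamma (1 / 4) *
        (Gamma (1 / 12) * Gamma (5 / 12) * Gamma (3 / 4)) := by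
    field_simp
    ring
  rw [key, ht]
  have hc4 : c ^ 4 * c ^ 4 = 3 := by rw [← pow_add]; exact e7
  field_simp
  nlinarith [hc4, hpi]

end

end EXG
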