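import Pool.Agent.EXG.MainV
import Pool.Agent.EXG.GTrip

/-!
EXG/SharpB (helper42): sharp asymptotics of the bridge weights with the explicit constant
b = 2^(13/4) 3^(-7/8) sin(π/8) Γ(3/4) / √π = 0.96253140...
-/

set_option autoImplicit false

namespace EXG

open Real MeasureTheory Filter Topology Set Ex.P2

/-- the constant -/
noncomputable def bB : ℝ := 2 ^ (13 / 4 : ℝ) * 3 ^ (-(7 / 8) : ℝ) * sin (π / 8) * Gamma (3 / 4) / √π

theorem bB_pos : 0 < bB := by
  unfold bB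
  have hs : 0 < sin (π / 8) := sin_pos_of_pos_of_lt_pi (by positivity) (by linarith [pi_pos])
  have g3 : 0 < Gamma (3 / 4) := Gamma_pos_of_pos (by norm_num)
  positivity

theorem bB_eq : cG2 / (cG1 * Carl.w 0) = bB := by
  unfold cG1 cG2 bB
  rw [Carl.w_zero]
  exact b_closed

/-- **sharp asymptotics with the explicit constant** -/
theorem sharp_b {A B : ℕ → ℝ} (hA0 : ∀ n, 0 ≤ A n) (hA : ∀ m n, m ≤ n → A n ≤ A m)
    (hAB : ∀ n, A n ^ 2 = B n ^ 2) (hP : NodeRelE B) :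
    Tendsto (fun n : ℕ => A n * (n : ℝ) ^ (1 / 4 : ℝ)) atTop (𝓝 bB) := by
  rw [← bB_eq]
  exact sharp_raw hA0 hA hAB hP

end EXG
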