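import Mathlib

/-!
# The Carleman equation on (0,1): existence, uniqueness (constant of the sharp asymptotics)

`(K f)(X) = (1/2π) ∫_0^1 f(Y)/(X+Y) dY`.  `W_p = X^p + K W_p`.
-/

open MeasureTheory Set Filter Topology Real

namespace EXG.Carl

noncomputable section

/-- the weight `Y^(-1/3)` -/
def ph (Y : ℝ) : ℝ := Y ^ (-(1 / 3) : ℝ)

/-- the Carleman operator on `(0,1)` -/
def KK (f : ℝ → ℝ) (X : ℝ) : ℝ := (1 / (2 * π)) * ∫ Y in Ioc (0 : ℝ) 1, f Y / (X + Y)

theorem ph_pos {Y : ℝ} (h : 0 < Y) : 0 < ph Y := Real.rpow_pos_of_pos h _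

theorem ph_one : ph 1 = 1 := Real.one_rpow _

theorem one_le_ph {Y : ℝ} (h : 0 < Y) (h1 : Y ≤ 1) : 1 ≤ ph Y := by
  unfold ph
  rw [Real.rpow_neg h.le]
  exact (one_le_inv₀ (Real.rpow_pos_of_pos h _)).2 (Real.rpow_le_one h.le h1 (by norm_num))

theorem ph_meas : Measurable ph := by
  unfold ph
  exact measurable_id.pow_const _

theorem ph_int (b : ℝ) : IntegrableOn ph (Ioc 0 b) := by
  by_cases hb : 0 ≤ b
  · have := (intervalIntegral.intervalIntegrable_rpow' (a := 0) (b := b)
      (r := (-(1 / 3) : ℝ)) (by norm_num))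
    rw [intervalIntegrable_iff_integrableOn_Ioc_of_le hb] at this
    exact this
  · rw [Ioc_eq_empty (by linarith)]
    exact integrableOn_empty

theorem ph_integral {b : ℝ} (hb : 0 ≤ b) : ∫ Y in Ioc 0 b, ph Y = 3 / 2 * b ^ (2 / 3 : ℝ) := by
  rw [← intervalIntegral.integral_of_le hb]
  unfold ph
  rw [integral_rpow (Or.inl (by norm_num))]
  rw [Real.zero_rpow (by norm_num)]
  norm_num
  ring

/-- integrability of the kernel against the weight -/
theorem ker_int {X : ℝ} (hX : 0 < X) : IntegrableOn (fun Y => ph Y / (X + Y)) (Ioi 0) := by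
  have h1 : IntegrableOn (fun Y => ph Y / (X + Y)) (Ioc 0 X) := by
    refine Integrable.mono' ((ph_int X).const_mul (1 / X)) ?_ ?_
    · exact (ph_meas.div (measurable_const.add measurable_id)).aestronglyMeasurable
    · filter_upwards [ae_restrict_mem measurableSet_Ioc] with Y hY
      have hY0 : 0 < Y := hY.1
      rw [Real.norm_of_nonneg (div_nonneg (ph_pos hY0).le (by linarith))]
      rw [div_eq_inv_mul, one_div]
      exact mul_le_mul_of_nonneg_right (inv_anti₀ hX (by linarith)) (ph_pos hY0).le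
  have h2 : IntegrableOn (fun Y => ph Y / (X + Y)) (Ioi X) := by
    refine Integrable.mono' (integrableOn_Ioi_rpow_of_lt (a := (-(4 / 3) : ℝ)) (by norm_num) hX) ?_ ?_
    · exact (ph_meas.div (measurable_const.add measurable_id)).aestronglyMeasurable
    · filter_upwards [ae_restrict_mem measurableSet_Ioi] with Y hY
      have hY1 : X < Y := hY
      have hY0 : 0 < Y := hX.trans hY1
      rw [Real.norm_of_nonneg (div_nonneg (ph_pos hY0).le (by linarith))]
      have e : Y ^ (-(4 / 3) : ℝ) = ph Y / Y := by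
        unfold ph
        rw [show (-(4 / 3) : ℝ) = -(1 / 3) - 1 by norm_num, Real.rpow_sub_one hY0.ne']
      rw [e]
      exact div_le_div_of_nonneg_left (ph_pos hY0).le hY0 (by linarith)
  rw [← Ioc_union_Ioi_eq_Ioi hX.le]
  exact h1.union h2

theorem ker_le {X : ℝ} (hX : 0 < X) : ∫ Y in Ioi 0, ph Y / (X + Y) ≤ 9 / 2 * ph X := by
  have hi := ker_int hX
  have hd : Disjoint (Ioc 0 X) (Ioi X) := by
    rw [Set.disjoint_left]
    intro y h1 h2
    exact absurd h1.2 (not_le.2 h2)
  have h3 : ∫ Y in Ioi 0, ph Y / (X + Y) = (∫ Y in Ioc 0 X, ph Y / (X + Y)) +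
      ∫ Y in Ioi X, ph Y / (X + Y) := by
    rw [← Ioc_union_Ioi_eq_Ioi hX.le]
    refine setIntegral_union hd measurableSet_Ioi ?_ ?_
    · exact hi.mono_set (fun y hy => hy.1)
    · exact hi.mono_set (fun y hy => hX.trans hy)
  have h1 : ∫ Y in Ioc 0 X, ph Y / (X + Y) ≤ 3 / 2 * ph X := by
    calc ∫ Y in Ioc 0 X, ph Y / (X + Y) ≤ ∫ Y in Ioc 0 X, (1 / X) * ph Y := by
          refine setIntegral_mono_on (hi.mono_set (fun y hy => hy.1)) ((ph_int X).const_mul _)
            measurableSet_Ioc fun Y hY => ?_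
          have hY0 : 0 < Y := hY.1
          rw [div_eq_inv_mul, one_div]
          exact mul_le_mul_of_nonneg_right (inv_anti₀ hX (by linarith)) (ph_pos hY0).le
      _ = 3 / 2 * ph X := by
          rw [integral_const_mul, ph_integral hX.le]
          unfold ph
          rw [show (-(1 / 3) : ℝ) = 2 / 3 - 1 by norm_num, Real.rpow_sub_one hX.ne']
          ring
  have h2 : ∫ Y in Ioi X, ph Y / (X + Y) ≤ 3 * ph X := by
    calc ∫ Y in Ioi X, ph Y / (X + Y) ≤ ∫ Y in Ioi X, Y ^ (-(4 / 3) : ℝ) := by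
          refine setIntegral_mono_on (hi.mono_set (fun y hy => hX.trans hy))
            (integrableOn_Ioi_rpow_of_lt (by norm_num) hX) measurableSet_Ioi fun Y hY => ?_
          have hY1 : X < Y := hY
          have hY0 : 0 < Y := hX.trans hY1
          have e : Y ^ (-(4 / 3) : ℝ) = ph Y / Y := by
            unfold ph
            rw [show (-(4 / 3) : ℝ) = -(1 / 3) - 1 by norm_num, Real.rpow_sub_one hY0.ne']
          rw [e]
          exact div_le_div_of_nonneg_left (ph_pos hY0).le hY0 (by linarith)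
      _ = 3 * ph X := by
          rw [integral_Ioi_rpow_of_lt (by norm_num) hX]
          unfold ph
          norm_num
          ring
  rw [h3]
  linarith

/-- the class of functions: `|f| ≤ C Y^(-1/3)` on `(0,1]`, measurable there -/
structure Bd (C : ℝ) (f : ℝ → ℝ) : Prop where
  meas : AEStronglyMeasurable f (volume.restrict (Ioc (0 : ℝ) 1))
  le : ∀ Y, 0 < Y → Y ≤ 1 → |f Y| ≤ C * ph Y

namespace Bd

variable {C : ℝ} {f : ℝ → ℝ}

theorem nonneg (h : Bd C f) : 0 ≤ C := by
  have := h.le 1 one_pos le_rfl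
  rw [ph_one, mul_one] at this
  exact (abs_nonneg _).trans this

theorem int (h : Bd C f) : IntegrableOn f (Ioc 0 1) := by
  refine Integrable.mono' ((ph_int 1).const_mul C) h.meas ?_
  filter_upwards [ae_restrict_mem measurableSet_Ioc] with Y hY
  exact h.le Y hY.1 hY.2

theorem kint (h : Bd C f) {X : ℝ} (hX : 0 < X) : IntegrableOn (fun Y => f Y / (X + Y)) (Ioc 0 1) := by
  refine Integrable.mono' (((ker_int hX).mono_set (Ioc_subset_Ioi_self)).const_mul C)
    (h.meas.aemeasurable.div (measurable_const.add measurable_id).aemeasurable).aestronglyMeasurable ?_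
  filter_upwards [ae_restrict_mem measurableSet_Ioc] with Y hY
  have hY0 : 0 < Y := hY.1
  rw [Real.norm_eq_abs, abs_div, abs_of_pos (show 0 < X + Y by linarith), mul_div_assoc']
  exact div_le_div_of_nonneg_right (h.le Y hY0 hY.2) (by linarith)

theorem add {C' : ℝ} {g : ℝ → ℝ} (h : Bd C f) (h' : Bd C' g) : Bd (C + C') (fun Y => f Y + g Y) where
  meas := h.meas.add h'.meas
  le Y h1 h2 := by
    have := h.le Y h1 h2
    have := h'.le Y h1 h2
    calc |f Y + g Y| ≤ |f Y| + |g Y| := abs_add_le _ _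
      _ ≤ (C + C') * ph Y := by linarith

theorem smul (h : Bd C f) (a : ℝ) : Bd (|a| * C) (fun Y => a * f Y) where
  meas := h.meas.const_mul a
  le Y h1 h2 := by
    rw [abs_mul, mul_assoc]
    exact mul_le_mul_of_nonneg_left (h.le Y h1 h2) (abs_nonneg a)

theorem sub {C' : ℝ} {g : ℝ → ℝ} (h : Bd C f) (h' : Bd C' g) : Bd (C + C') (fun Y => f Y - g Y) where
  meas := h.meas.sub h'.meas
  le Y h1 h2 := by
    have := h.le Y h1 h2
    have := h'.le Y h1 h2
    calc |f Y - g Y| ≤ |f Y| + |g Y| := abs_sub _ _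
      _ ≤ (C + C') * ph Y := by linarith

theorem mono (h : Bd C f) {C' : ℝ} (hC : C ≤ C') : Bd C' f where
  meas := h.meas
  le Y h1 h2 := (h.le Y h1 h2).trans (mul_le_mul_of_nonneg_right hC (ph_pos h1).le)

theorem pow_mul (h : Bd C f) (n : ℕ) : Bd C (fun Y => Y ^ n * f Y) where
  meas := ((measurable_id.pow_const n).aestronglyMeasurable).mul h.meas
  le Y h1 h2 := by
    rw [abs_mul, abs_of_nonneg (pow_nonneg h1.le n)]
    calc Y ^ n * |f Y| ≤ 1 * |f Y| := mul_le_mul_of_nonneg_right (pow_le_one₀ h1.le h2) (abs_nonneg _)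
      _ ≤ C * ph Y := by rw [one_mul]; exact h.le Y h1 h2

end Bd

theorem Bd_pow (p : ℕ) : Bd 1 (fun Y : ℝ => Y ^ p) where
  meas := (measurable_id.pow_const p).aestronglyMeasurable
  le Y h1 h2 := by
    rw [abs_of_nonneg (pow_nonneg h1.le p), one_mul]
    exact (pow_le_one₀ h1.le h2).trans (one_le_ph h1 h2)

/-- the constant `(9/2)/(2π) < 3/4` -/
def th : ℝ := 9 / (4 * π)

theorem th_pos : 0 < th := by unfold th; positivity

theorem th_lt : th < 3 / 4 := by
  unfold th
  rw [div_lt_div_iff₀ (by positivity) (by norm_num)]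
  nlinarith [Real.pi_gt_three]

theorem KK_abs {C : ℝ} {f : ℝ → ℝ} (h : Bd C f) {X : ℝ} (hX : 0 < X) : |KK f X| ≤ th * C * ph X := by
  have h2 : |∫ Y in Ioc (0 : ℝ) 1, f Y / (X + Y)| ≤ C * (9 / 2 * ph X) := by
    calc |∫ Y in Ioc (0 : ℝ) 1, f Y / (X + Y)| ≤ ∫ Y in Ioc (0 : ℝ) 1, C * (ph Y / (X + Y)) := by
          refine (abs_integral_le_integral_abs).trans ?_
          refine setIntegral_mono_on (h.kint hX).abs
            (((ker_int hX).mono_set (Ioc_subset_Ioi_self)).const_mul C) measurableSet_Ioc fun Y hY => ?_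
          have hY0 : 0 < Y := hY.1
          rw [abs_div, abs_of_pos (show 0 < X + Y by linarith), mul_div_assoc']
          exact div_le_div_of_nonneg_right (h.le Y hY0 hY.2) (by linarith)
      _ = C * ∫ Y in Ioc (0 : ℝ) 1, ph Y / (X + Y) := integral_const_mul _ _
      _ ≤ C * ∫ Y in Ioi (0 : ℝ), ph Y / (X + Y) := by
          refine mul_le_mul_of_nonneg_left ?_ h.nonneg
          refine setIntegral_mono_set (ker_int hX) ?_ (Ioc_subset_Ioi_self).eventuallyLE
          filter_upwards [ae_restrict_mem measurableSet_Ioi] with Y hY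
          have hY0 : (0 : ℝ) < Y := hY
          exact div_nonneg (ph_pos hY0).le (by linarith)
      _ ≤ C * (9 / 2 * ph X) := mul_le_mul_of_nonneg_left (ker_le hX) h.nonneg
  unfold KK
  rw [abs_mul, abs_of_pos (by positivity : (0:ℝ) < 1 / (2 * π))]
  calc 1 / (2 * π) * |∫ Y in Ioc (0 : ℝ) 1, f Y / (X + Y)| ≤ 1 / (2 * π) * (C * (9 / 2 * ph X)) :=
        mul_le_mul_of_nonneg_left h2 (by positivity)
    _ = th * C * ph X := by
        unfold th
        field_simp
        ring

theorem KK_nonneg {f : ℝ → ℝ} (h : ∀ Y, 0 < Y → Y ≤ 1 → 0 ≤ f Y) {X : ℝ} (hX : 0 < X) : 0 ≤ KK f X := by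
  unfold KK
  refine mul_nonneg (by positivity) (setIntegral_nonneg measurableSet_Ioc fun Y hY => ?_)
  have hY0 : 0 < Y := hY.1
  exact div_nonneg (h Y hY0 hY.2) (by linarith)

theorem KK_mono {C C' : ℝ} {f g : ℝ → ℝ} (hf : Bd C f) (hg : Bd C' g)
    (h : ∀ Y, 0 < Y → Y ≤ 1 → f Y ≤ g Y) {X : ℝ} (hX : 0 < X) : KK f X ≤ KK g X := by
  unfold KK
  refine mul_le_mul_of_nonneg_left ?_ (by positivity)
  refine setIntegral_mono_on (hf.kint hX) (hg.kint hX) measurableSet_Ioc fun Y hY => ?_
  have hY0 : 0 < Y := hY.1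
  exact div_le_div_of_nonneg_right (h Y hY0 hY.2) (by linarith)

theorem KK_cont {C : ℝ} {f : ℝ → ℝ} (hf : Bd C f) : ContinuousOn (KK f) (Ioi 0) := by
  intro X0 hX0
  have hX0' : (0 : ℝ) < X0 := hX0
  refine ContinuousAt.continuousWithinAt ?_
  unfold KK
  refine ContinuousAt.mul continuousAt_const ?_
  have hev : ∀ᶠ X in 𝓝 X0, X0 / 2 < X := lt_mem_nhds (by linarith)
  refine continuousAt_of_dominated (bound := fun Y => (2 / X0) * |f Y|) ?_ ?_ ?_ ?_
  · filter_upwards with X
    exact (hf.meas.aemeasurable.div (measurable_const.add measurable_id).aemeasurable).aestronglyMeasurable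
  · filter_upwards [hev] with X hX
    filter_upwards [ae_restrict_mem measurableSet_Ioc] with Y hY
    have hY0 : 0 < Y := hY.1
    rw [Real.norm_eq_abs, abs_div, abs_of_pos (show 0 < X + Y by linarith), div_eq_inv_mul]
    refine mul_le_mul_of_nonneg_right ?_ (abs_nonneg _)
    rw [show (2 / X0 : ℝ) = (X0 / 2)⁻¹ by field_simp]
    exact inv_anti₀ (by linarith) (by linarith)
  · exact (hf.int.abs).const_mul _
  · filter_upwards [ae_restrict_mem measurableSet_Ioc] with Y hY
    have hY0 : 0 < Y := hY.1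
    refine ContinuousAt.div continuousAt_const (by fun_prop) ?_
    linarith

/-- linearity of `K` on the class -/
theorem KK_add {C C' : ℝ} {f g : ℝ → ℝ} (hf : Bd C f) (hg : Bd C' g) {X : ℝ} (hX : 0 < X) :
    KK (fun Y => f Y + g Y) X = KK f X + KK g X := by
  unfold KK
  rw [← mul_add, ← integral_add (hf.kint hX) (hg.kint hX)]
  congr 1
  refine integral_congr_ae (Eventually.of_forall fun Y => ?_)
  show (f Y + g Y) / (X + Y) = _
  rw [add_div]

theorem KK_sub {C C' : ℝ} {f g : ℝ → ℝ} (hf : Bd C f) (hg : Bd C' g) {X : ℝ} (hX : 0 < X) :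
    KK (fun Y => f Y - g Y) X = KK f X - KK g X := by
  unfold KK
  rw [← mul_sub, ← integral_sub (hf.kint hX) (hg.kint hX)]
  congr 1
  refine integral_congr_ae (Eventually.of_forall fun Y => ?_)
  show (f Y - g Y) / (X + Y) = _
  rw [sub_div]

theorem KK_smul (a : ℝ) (f : ℝ → ℝ) (X : ℝ) : KK (fun Y => a * f Y) X = a * KK f X := by
  have e : ∫ Y in Ioc (0 : ℝ) 1, a * f Y / (X + Y) = a * ∫ Y in Ioc (0 : ℝ) 1, f Y / (X + Y) := by
    rw [← integral_const_mul]
    refine integral_congr_ae (Eventually.of_forall fun Y => ?_)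
    show (a * f Y) / (X + Y) = _
    rw [mul_div_assoc]
  unfold KK
  rw [e]
  ring

/-- uniqueness -/
theorem KK_unique {C : ℝ} {f : ℝ → ℝ} (hf : Bd C f) (h : ∀ X, 0 < X → f X = KK f X) :
    ∀ X, 0 < X → f X = 0 := by
  have key : ∀ n : ℕ, Bd (C * th ^ n) f := by
    intro n
    induction n with
    | zero => simpa using hf
    | succ n ih =>
      refine ⟨hf.meas, fun Y h1 h2 => ?_⟩
      rw [h Y h1]
      refine (KK_abs ih h1).trans (le_of_eq ?_)
      rw [pow_succ]
      ring
  have h0 : ∀ X, 0 < X → |f X| ≤ 0 := by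
    intro X hX
    have hlim : Tendsto (fun n : ℕ => th * (C * th ^ n) * ph X) atTop (𝓝 (th * (C * 0) * ph X)) := by
      refine Tendsto.mul_const _ (Tendsto.const_mul _ (Tendsto.const_mul _ ?_))
      exact tendsto_pow_atTop_nhds_zero_of_lt_one th_pos.le (th_lt.trans (by norm_num))
    rw [mul_zero, mul_zero, zero_mul] at hlim
    refine ge_of_tendsto' hlim fun n => ?_
    rw [h X hX]
    exact KK_abs (key n) hX
  intro X hX
  exact abs_nonpos_iff.1 (h0 X hX)

end

end EXG.Carl
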