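import Pool.Agent.EXG.Carl1

/-!
# The Carleman equation on (0,1): existence of the solutions `W_p`
-/

open MeasureTheory Set Filter Topology Real

namespace EXG.Carl

noncomputable section

/-- the Neumann iteration -/
def wn (p : ℕ) : ℕ → ℝ → ℝ
  | 0 => fun _ => 0
  | n + 1 => fun X => X ^ p + KK (wn p n) X

theorem wn_succ (p n : ℕ) (X : ℝ) : wn p (n + 1) X = X ^ p + KK (wn p n) X := rfl

theorem KK_meas {C : ℝ} {f : ℝ → ℝ} (hf : Bd C f) :
    AEStronglyMeasurable (KK f) (volume.restrict (Ioc (0 : ℝ) 1)) :=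
  ((KK_cont hf).mono (fun _ hx => hx.1)).aestronglyMeasurable measurableSet_Ioc

theorem Bd_step {p : ℕ} {f : ℝ → ℝ} (hf : Bd 4 f) : Bd 4 (fun X => X ^ p + KK f X) := by
  refine ⟨(Bd_pow p).meas.add (KK_meas hf), fun Y h1 h2 => ?_⟩
  have a1 := (Bd_pow p).le Y h1 h2
  have a2 := KK_abs hf h1
  have a3 : th * 4 * ph Y ≤ 3 * ph Y :=
    mul_le_mul_of_nonneg_right (by linarith [th_lt]) (ph_pos h1).le
  calc |Y ^ p + KK f Y| ≤ |Y ^ p| + |KK f Y| := abs_add_le _ _
    _ ≤ 4 * ph Y := by linarith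

theorem wn_Bd (p n : ℕ) : Bd 4 (wn p n) := by
  induction n with
  | zero =>
    refine ⟨aestronglyMeasurable_const, fun Y h1 _ => ?_⟩
    show |(0 : ℝ)| ≤ _
    rw [abs_zero]
    have := ph_pos h1
    positivity
  | succ n ih => exact Bd_step ih

theorem wn_nonneg (p n : ℕ) {X : ℝ} (hX : 0 < X) : 0 ≤ wn p n X := by
  induction n generalizing X with
  | zero => exact le_rfl
  | succ n ih =>
    rw [wn_succ]
    exact add_nonneg (pow_nonneg hX.le p) (KK_nonneg (fun Y h1 _ => ih h1) hX)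

theorem wn_mono_step (p n : ℕ) {X : ℝ} (hX : 0 < X) : wn p n X ≤ wn p (n + 1) X := by
  induction n generalizing X with
  | zero =>
    exact wn_nonneg p 1 hX
  | succ n ih =>
    rw [wn_succ, wn_succ p (n + 1)]
    have := KK_mono (wn_Bd p n) (wn_Bd p (n + 1)) (fun Y h1 _ => ih h1) hX
    linarith

theorem wn_mono (p : ℕ) {X : ℝ} (hX : 0 < X) : Monotone (fun n => wn p n X) :=
  monotone_nat_of_le_succ fun n => wn_mono_step p n hX

theorem wn_le (p n : ℕ) {X : ℝ} (hX : 0 < X) : wn p n X ≤ X ^ p + th * 4 * ph X := by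
  have h := wn_mono_step p n hX
  rw [wn_succ] at h
  have := le_of_abs_le (KK_abs (wn_Bd p n) hX)
  linarith

/-- the solution of `W = X^p + K W` -/
def W (p : ℕ) (X : ℝ) : ℝ := ⨆ n, wn p n X

theorem W_lim (p : ℕ) {X : ℝ} (hX : 0 < X) : Tendsto (fun n => wn p n X) atTop (𝓝 (W p X)) := by
  refine tendsto_atTop_ciSup (wn_mono p hX) ⟨X ^ p + th * 4 * ph X, ?_⟩
  rintro _ ⟨n, rfl⟩
  exact wn_le p n hX

theorem W_Bd (p : ℕ) : Bd 4 (W p) := by
  refine ⟨?_, fun Y h1 h2 => ?_⟩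
  · refine aestronglyMeasurable_of_tendsto_ae atTop (fun n => (wn_Bd p n).meas) ?_
    filter_upwards [ae_restrict_mem measurableSet_Ioc] with Y hY
    exact W_lim p hY.1
  · have h3 : Tendsto (fun n => |wn p n Y|) atTop (𝓝 |W p Y|) := (W_lim p h1).abs
    exact le_of_tendsto' h3 fun n => (wn_Bd p n).le Y h1 h2

theorem W_eq (p : ℕ) {X : ℝ} (hX : 0 < X) : W p X = X ^ p + KK (W p) X := by
  have h1 : Tendsto (fun n => wn p (n + 1) X) atTop (𝓝 (W p X)) :=
    (W_lim p hX).comp (tendsto_add_atTop_nat 1)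
  have h2 : Tendsto (fun n => X ^ p + KK (wn p n) X) atTop (𝓝 (X ^ p + KK (W p) X)) := by
    refine Tendsto.const_add _ ?_
    unfold KK
    refine Tendsto.const_mul _ ?_
    refine tendsto_integral_of_dominated_convergence (fun Y => 4 * (ph Y / (X + Y))) ?_ ?_ ?_ ?_
    · intro n
      exact ((wn_Bd p n).meas.aemeasurable.div
        (measurable_const.add measurable_id).aemeasurable).aestronglyMeasurable
    · exact ((ker_int hX).mono_set (Ioc_subset_Ioi_self)).const_mul _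
    · intro n
      filter_upwards [ae_restrict_mem measurableSet_Ioc] with Y hY
      have hY0 : 0 < Y := hY.1
      rw [Real.norm_eq_abs, abs_div, abs_of_pos (show 0 < X + Y by linarith), mul_div_assoc']
      exact div_le_div_of_nonneg_right ((wn_Bd p n).le Y hY0 hY.2) (by linarith)
    · filter_upwards [ae_restrict_mem measurableSet_Ioc] with Y hY
      exact (W_lim p hY.1).div_const _
  exact tendsto_nhds_unique h1 h2

theorem W_nonneg (p : ℕ) {X : ℝ} (hX : 0 < X) : 0 ≤ W p X :=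
  ge_of_tendsto' (W_lim p hX) fun n => wn_nonneg p n hX

theorem W_ge (p : ℕ) {X : ℝ} (hX : 0 < X) : X ^ p ≤ W p X := by
  rw [W_eq p hX]
  have := KK_nonneg (f := W p) (fun Y h1 _ => W_nonneg p h1) hX
  linarith

theorem W_cont (p : ℕ) : ContinuousOn (W p) (Ioi 0) := by
  have h : ContinuousOn (fun X => X ^ p + KK (W p) X) (Ioi 0) :=
    (continuous_pow p).continuousOn.add (KK_cont (W_Bd p))
  exact h.congr fun X hX => W_eq p hX

/-- the moments -/
def m (i p : ℕ) : ℝ := ∫ Y in Ioc (0 : ℝ) 1, Y ^ i * W p Y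

/-- (B): multiplication by `X²` -/
theorem W_mul (p : ℕ) {X : ℝ} (hX : 0 < X) :
    X ^ 2 * W p X = W (p + 2) X - 1 / (2 * π) * (m 1 p * W 0 X - m 0 p * W 1 X) := by
  have hB := W_Bd p
  have hB2 := hB.pow_mul 2
  have hI0 : IntegrableOn (fun Y => Y ^ 0 * W p Y) (Ioc 0 1) := (hB.pow_mul 0).int
  have hI1 : IntegrableOn (fun Y => Y ^ 1 * W p Y) (Ioc 0 1) := (hB.pow_mul 1).int
  have hKm : ∀ X, 0 < X → KK (fun Y => Y ^ 2 * W p Y) X =
      1 / (2 * π) * (m 1 p - X * m 0 p) + X ^ 2 * KK (W p) X := by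
    intro X hX
    have hs : IntegrableOn (fun Y => Y ^ 1 * W p Y - X * (Y ^ 0 * W p Y)) (Ioc 0 1) :=
      hI1.sub (hI0.const_mul X)
    have e : ∫ Y in Ioc (0 : ℝ) 1, Y ^ 2 * W p Y / (X + Y) =
        (m 1 p - X * m 0 p) + X ^ 2 * ∫ Y in Ioc (0 : ℝ) 1, W p Y / (X + Y) := by
      unfold m
      rw [← integral_const_mul, ← integral_const_mul, ← integral_sub hI1 (hI0.const_mul X),
        ← integral_add hs ((hB.kint hX).const_mul (X ^ 2))]
      refine setIntegral_congr_fun measurableSet_Ioc fun Y hY => ?_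
      have hY0 : 0 < Y := hY.1
      have hne : X + Y ≠ 0 := by linarith
      show Y ^ 2 * W p Y / (X + Y) = Y ^ 1 * W p Y - X * (Y ^ 0 * W p Y) + X ^ 2 * (W p Y / (X + Y))
      field_simp
      ring
    unfold KK
    rw [e]
    ring
  set a : ℝ := 1 / (2 * π) * m 1 p with ha
  set b : ℝ := 1 / (2 * π) * m 0 p with hb
  have hd : ∀ X, 0 < X → (X ^ 2 * W p X - W (p + 2) X) + (a * W 0 X - b * W 1 X) = 0 := by
    have h1 : Bd (4 + 4) (fun X => X ^ 2 * W p X - W (p + 2) X) := hB2.sub (W_Bd (p + 2))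
    have h2 : Bd (|a| * 4 + |b| * 4) (fun X => a * W 0 X - b * W 1 X) :=
      ((W_Bd 0).smul a).sub ((W_Bd 1).smul b)
    refine KK_unique (h1.add h2) fun X hX => ?_
    rw [KK_add h1 h2 hX, KK_sub hB2 (W_Bd (p + 2)) hX, KK_sub ((W_Bd 0).smul a) ((W_Bd 1).smul b) hX,
      KK_smul, KK_smul, hKm X hX]
    have e1 := W_eq p hX
    have e2 := W_eq (p + 2) hX
    have e3 := W_eq 0 hX
    have e4 := W_eq 1 hX
    have e5 : KK (W p) X = W p X - X ^ p := by linarith
    have e6 : KK (W (p + 2)) X = W (p + 2) X - X ^ (p + 2) := by linarith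
    have e7 : KK (W 0) X = W 0 X - X ^ 0 := by linarith
    have e8 : KK (W 1) X = W 1 X - X ^ 1 := by linarith
    rw [e5, e6, e7, e8]
    have hpow : X ^ (p + 2) = X ^ 2 * X ^ p := by ring
    rw [hpow, ha, hb]
    ring
  have := hd X hX
  rw [mul_sub, ← mul_assoc, ← mul_assoc, ← ha, ← hb]
  linarith

end

end EXG.Carl
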