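import Pool.Agent.EXG.Carl2

/-!
# The Carleman equation on (0,1): the scaling identity `(i+p+1) m(i,p) = W_i(1) W_p(1)`
-/

open MeasureTheory Set Filter Topology Real

namespace EXG.Carl

noncomputable section

theorem ph_sq_int : IntegrableOn (fun X => ph X * ph X) (Ioc 0 1) := by
  have h := (intervalIntegral.intervalIntegrable_rpow' (a := 0) (b := 1)
      (r := (-(2 / 3) : ℝ)) (by norm_num))
  rw [intervalIntegrable_iff_integrableOn_Ioc_of_le zero_le_one] at h
  refine h.congr ?_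
  filter_upwards [ae_restrict_mem measurableSet_Ioc] with X hX
  unfold ph
  rw [← Real.rpow_add hX.1]
  norm_num

/-- the majorant on the square -/
theorem maj_int : Integrable (fun z : ℝ × ℝ => ph z.1 * (ph z.2 / (z.1 + z.2)))
    ((volume.restrict (Ioc (0 : ℝ) 1)).prod (volume.restrict (Ioc (0 : ℝ) 1))) := by
  have hm : Measurable (fun z : ℝ × ℝ => ph z.1 * (ph z.2 / (z.1 + z.2))) :=
    (ph_meas.comp measurable_fst).mul ((ph_meas.comp measurable_snd).div
      (measurable_fst.add measurable_snd))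
  rw [integrable_prod_iff hm.aestronglyMeasurable]
  constructor
  · filter_upwards [ae_restrict_mem measurableSet_Ioc] with X hX
    exact ((ker_int hX.1).mono_set (Ioc_subset_Ioi_self)).const_mul _
  · refine Integrable.mono' (ph_sq_int.const_mul (9 / 2)) ?_ ?_
    · exact (hm.norm.aestronglyMeasurable).integral_prod_right'
    · filter_upwards [ae_restrict_mem measurableSet_Ioc] with X hX
      have hX0 : 0 < X := hX.1
      have e : ∫ Y in Ioc (0 : ℝ) 1, ‖ph X * (ph Y / (X + Y))‖ =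
          ph X * ∫ Y in Ioc (0 : ℝ) 1, ph Y / (X + Y) := by
        rw [← integral_const_mul]
        refine setIntegral_congr_fun measurableSet_Ioc fun Y hY => ?_
        have hY0 : 0 < Y := hY.1
        show ‖ph X * (ph Y / (X + Y))‖ = _
        rw [Real.norm_of_nonneg]
        exact mul_nonneg (ph_pos hX0).le (div_nonneg (ph_pos hY0).le (by linarith))
      have h0 : 0 ≤ ∫ Y in Ioc (0 : ℝ) 1, ph Y / (X + Y) :=
        setIntegral_nonneg measurableSet_Ioc fun Y hY => div_nonneg (ph_pos hY.1).le (by linarith [hY.1])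
      have h1 : ∫ Y in Ioc (0 : ℝ) 1, ph Y / (X + Y) ≤ 9 / 2 * ph X := by
        refine le_trans ?_ (ker_le hX0)
        refine setIntegral_mono_set (ker_int hX0) ?_ (Ioc_subset_Ioi_self).eventuallyLE
        filter_upwards [ae_restrict_mem measurableSet_Ioi] with Y hY
        have hY0 : (0 : ℝ) < Y := hY
        exact div_nonneg (ph_pos hY0).le (by linarith)
      rw [e, Real.norm_of_nonneg (mul_nonneg (ph_pos hX0).le h0)]
      calc ph X * ∫ Y in Ioc (0 : ℝ) 1, ph Y / (X + Y) ≤ ph X * (9 / 2 * ph X) :=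
            mul_le_mul_of_nonneg_left h1 (ph_pos hX0).le
        _ = 9 / 2 * (ph X * ph X) := by ring

theorem prod_int {C C' : ℝ} {f g : ℝ → ℝ} (hf : Bd C f) (hg : Bd C' g) :
    Integrable (fun z : ℝ × ℝ => f z.2 * g z.1 / (z.1 + z.2))
      ((volume.restrict (Ioc (0 : ℝ) 1)).prod (volume.restrict (Ioc (0 : ℝ) 1))) := by
  refine Integrable.mono' (maj_int.const_mul (C * C')) ?_ ?_
  · have h1 := hf.meas.comp_snd (μ := volume.restrict (Ioc (0 : ℝ) 1))
    have h2 := hg.meas.comp_fst (ν := volume.restrict (Ioc (0 : ℝ) 1))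
    exact ((h1.mul h2).aemeasurable.div (measurable_fst.add measurable_snd).aemeasurable).aestronglyMeasurable
  · have hae : ∀ᵐ z : ℝ × ℝ ∂((volume.restrict (Ioc (0 : ℝ) 1)).prod (volume.restrict (Ioc (0 : ℝ) 1))),
        z ∈ Ioc (0 : ℝ) 1 ×ˢ Ioc (0 : ℝ) 1 := by
      rw [Measure.prod_restrict]
      exact ae_restrict_mem (measurableSet_Ioc.prod measurableSet_Ioc)
    filter_upwards [hae] with z hz
    obtain ⟨⟨h1, h2⟩, h3, h4⟩ := hz
    have hp : 0 < z.1 + z.2 := by linarith
    have e1 := hf.le z.2 h3 h4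
    have e2 := hg.le z.1 h1 h2
    rw [Real.norm_eq_abs, abs_div, abs_mul, abs_of_pos hp]
    calc |f z.2| * |g z.1| / (z.1 + z.2) ≤ (C * ph z.2) * (C' * ph z.1) / (z.1 + z.2) := by
          refine div_le_div_of_nonneg_right ?_ hp.le
          exact mul_le_mul e1 e2 (abs_nonneg _) (mul_nonneg hf.nonneg (ph_pos h3).le)
      _ = C * C' * (ph z.1 * (ph z.2 / (z.1 + z.2))) := by ring

/-- symmetry of `K` -/
theorem fub {C C' : ℝ} {f g : ℝ → ℝ} (hf : Bd C f) (hg : Bd C' g) :
    ∫ X in Ioc (0 : ℝ) 1, KK f X * g X = ∫ X in Ioc (0 : ℝ) 1, f X * KK g X := by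
  have h := integral_integral_swap (f := fun X Y => f Y * g X / (X + Y)) (prod_int hf hg)
  have e1 : ∫ X in Ioc (0 : ℝ) 1, KK f X * g X = 1 / (2 * π) *
      ∫ X in Ioc (0 : ℝ) 1, ∫ Y in Ioc (0 : ℝ) 1, f Y * g X / (X + Y) := by
    rw [← integral_const_mul]
    refine setIntegral_congr_fun measurableSet_Ioc fun X hX => ?_
    show KK f X * g X = _
    unfold KK
    rw [mul_assoc, ← integral_mul_const]
    congr 1
    refine integral_congr_ae (Eventually.of_forall fun Y => ?_)
    show f Y / (X + Y) * g X = f Y * g X / (X + Y)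
    ring
  have e2 : ∫ X in Ioc (0 : ℝ) 1, f X * KK g X = 1 / (2 * π) *
      ∫ Y in Ioc (0 : ℝ) 1, ∫ X in Ioc (0 : ℝ) 1, f Y * g X / (X + Y) := by
    rw [← integral_const_mul]
    refine setIntegral_congr_fun measurableSet_Ioc fun Y hY => ?_
    show f Y * KK g Y = _
    unfold KK
    rw [mul_left_comm, ← integral_const_mul]
    congr 1
    refine integral_congr_ae (Eventually.of_forall fun X => ?_)
    show f Y * (g X / (Y + X)) = f Y * g X / (X + Y)
    rw [add_comm Y X]
    ring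
  rw [e1, e2, h]

/-- the outer part -/
theorem fub2 {C : ℝ} {f a : ℝ → ℝ} (hf : Bd C f) {L : ℝ} (ha : ContinuousOn a (Icc 1 L)) :
    ∫ X in Ioc (0 : ℝ) 1, f X * (1 / (2 * π) * ∫ Y in Ioc 1 L, a Y / (X + Y)) =
      ∫ Y in Ioc 1 L, a Y * KK f Y := by
  have haI : IntegrableOn a (Ioc 1 L) := (ha.integrableOn_Icc).mono_set Ioc_subset_Icc_self
  have hI : Integrable (fun z : ℝ × ℝ => f z.1 * a z.2 / (z.1 + z.2))
      ((volume.restrict (Ioc (0 : ℝ) 1)).prod (volume.restrict (Ioc (1 : ℝ) L))) := by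
    refine Integrable.mono' ((hf.int.mul_prod haI).norm) ?_ ?_
    · have h1 := hf.meas.comp_fst (ν := volume.restrict (Ioc (1 : ℝ) L))
      have h2 := haI.aestronglyMeasurable.comp_snd (μ := volume.restrict (Ioc (0 : ℝ) 1))
      exact ((h1.mul h2).aemeasurable.div
        (measurable_fst.add measurable_snd).aemeasurable).aestronglyMeasurable
    · have hae : ∀ᵐ z : ℝ × ℝ ∂((volume.restrict (Ioc (0 : ℝ) 1)).prod (volume.restrict (Ioc (1 : ℝ) L))),
          z ∈ Ioc (0 : ℝ) 1 ×ˢ Ioc (1 : ℝ) L := by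
        rw [Measure.prod_restrict]
        exact ae_restrict_mem (measurableSet_Ioc.prod measurableSet_Ioc)
      filter_upwards [hae] with z hz
      obtain ⟨⟨h1, h2⟩, h3, h4⟩ := hz
      have hp : 1 ≤ z.1 + z.2 := by linarith
      rw [norm_div, Real.norm_of_nonneg (by linarith : 0 ≤ z.1 + z.2)]
      exact div_le_self (norm_nonneg _) hp
  have h := integral_integral_swap (f := fun X Y => f X * a Y / (X + Y)) hI
  have e1 : ∫ X in Ioc (0 : ℝ) 1, f X * (1 / (2 * π) * ∫ Y in Ioc 1 L, a Y / (X + Y)) = 1 / (2 * π) *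
      ∫ X in Ioc (0 : ℝ) 1, ∫ Y in Ioc (1 : ℝ) L, f X * a Y / (X + Y) := by
    rw [← integral_const_mul]
    refine setIntegral_congr_fun measurableSet_Ioc fun X hX => ?_
    show f X * (1 / (2 * π) * ∫ Y in Ioc 1 L, a Y / (X + Y)) = _
    rw [mul_left_comm, ← integral_const_mul]
    congr 1
    refine integral_congr_ae (Eventually.of_forall fun Y => ?_)
    show f X * (a Y / (X + Y)) = f X * a Y / (X + Y)
    ring
  have e2 : ∫ Y in Ioc 1 L, a Y * KK f Y = 1 / (2 * π) *
      ∫ Y in Ioc (1 : ℝ) L, ∫ X in Ioc (0 : ℝ) 1, f X * a Y / (X + Y) := by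
    rw [← integral_const_mul]
    refine setIntegral_congr_fun measurableSet_Ioc fun Y hY => ?_
    show a Y * KK f Y = _
    unfold KK
    rw [mul_left_comm, ← integral_const_mul]
    congr 1
    refine integral_congr_ae (Eventually.of_forall fun X => ?_)
    show a Y * (f X / (Y + X)) = f X * a Y / (X + Y)
    rw [add_comm Y X]
    ring
  rw [e1, e2, h]

end

end EXG.Carl
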