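import Pool.Agent.EXG.Carl3

/-!
# The Carleman equation on (0,1): the scaling identity `(i+p+1) m(i,p) = W_i(1) W_p(1)`
-/

open MeasureTheory Set Filter Topology Real

namespace EXG.Carl

noncomputable section

theorem Bd.mul_int {C C' : ℝ} {f g : ℝ → ℝ} (hf : Bd C f) (hg : Bd C' g) :
    IntegrableOn (fun X => f X * g X) (Ioc 0 1) := by
  refine Integrable.mono' (ph_sq_int.const_mul (C * C')) (hf.meas.mul hg.meas) ?_
  filter_upwards [ae_restrict_mem measurableSet_Ioc] with X hX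
  rw [Real.norm_eq_abs, abs_mul]
  calc |f X| * |g X| ≤ (C * ph X) * (C' * ph X) :=
        mul_le_mul (hf.le X hX.1 hX.2) (hg.le X hX.1 hX.2) (abs_nonneg _)
          (mul_nonneg hf.nonneg (ph_pos hX.1).le)
    _ = C * C' * (ph X * ph X) := by ring

theorem KK_Bd {C : ℝ} {f : ℝ → ℝ} (hf : Bd C f) : Bd (th * C) (KK f) :=
  ⟨KK_meas hf, fun _ h1 _ => KK_abs hf h1⟩

/-- the solution on `(0, L)` -/
def aL (p : ℕ) (L X : ℝ) : ℝ := L ^ p * W p (X / L)

theorem aL_cont (p : ℕ) {L : ℝ} (hL : 1 ≤ L) : ContinuousOn (aL p L) (Ioi 0) := by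
  have hL0 : 0 < L := by linarith
  refine ContinuousOn.mul continuousOn_const ?_
  refine (W_cont p).comp (continuousOn_id.div_const L) fun X hX => ?_
  exact div_pos hX hL0

theorem aL_Bd (p : ℕ) {L : ℝ} (hL : 1 ≤ L) : Bd (L ^ p * (4 * L ^ (1 / 3 : ℝ))) (aL p L) := by
  have hL0 : 0 < L := by linarith
  refine ⟨((aL_cont p hL).mono (fun _ hx => hx.1)).aestronglyMeasurable measurableSet_Ioc,
    fun Y h1 h2 => ?_⟩
  have h3 : 0 < Y / L := div_pos h1 hL0
  have h4 : Y / L ≤ 1 := (div_le_one hL0).2 (h2.trans hL)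
  have h5 := (W_Bd p).le _ h3 h4
  have h6 : ph (Y / L) = L ^ (1 / 3 : ℝ) * ph Y := by
    unfold ph
    rw [Real.div_rpow h1.le hL0.le, Real.rpow_neg hL0.le (1 / 3)]
    field_simp
  unfold aL
  rw [abs_mul, abs_of_nonneg (pow_nonneg hL0.le p), mul_assoc]
  refine mul_le_mul_of_nonneg_left ?_ (pow_nonneg hL0.le p)
  rw [h6] at h5
  linarith

theorem aL_int_out (p : ℕ) {L : ℝ} (hL : 1 ≤ L) {g : ℝ → ℝ} (hg : ContinuousOn g (Icc 1 L)) :
    IntegrableOn (fun X => g X * aL p L X) (Ioc 1 L) := by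
  have h : ContinuousOn (fun X => g X * aL p L X) (Icc 1 L) :=
    hg.mul ((aL_cont p hL).mono fun X hX => lt_of_lt_of_le one_pos hX.1)
  exact h.integrableOn_Icc.mono_set Ioc_subset_Icc_self

theorem split_int {L : ℝ} (hL : 1 ≤ L) {f : ℝ → ℝ} (h1 : IntegrableOn f (Ioc 0 1))
    (h2 : IntegrableOn f (Ioc 1 L)) :
    ∫ X in Ioc 0 L, f X = (∫ X in Ioc 0 1, f X) + ∫ X in Ioc 1 L, f X := by
  rw [← Ioc_union_Ioc_eq_Ioc (zero_le_one) hL]
  refine setIntegral_union ?_ measurableSet_Ioc h1 h2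
  rw [Set.disjoint_left]
  intro y h3 h4
  exact absurd h3.2 (not_le.2 h4.1)

theorem aL_eq (p : ℕ) {L : ℝ} (hL : 1 ≤ L) {X : ℝ} (hX : 0 < X) :
    aL p L X = X ^ p + KK (aL p L) X + 1 / (2 * π) * ∫ Y in Ioc 1 L, aL p L Y / (X + Y) := by
  have hL0 : 0 < L := by linarith
  have hXL : 0 < X / L := div_pos hX hL0
  have h1 : ∫ Y in Ioc (0 : ℝ) 1, W p Y / (X / L + Y) = ∫ Y in Ioc (0 : ℝ) L, W p (Y / L) / (X + Y) := by
    rw [← intervalIntegral.integral_of_le zero_le_one, ← intervalIntegral.integral_of_le hL0.le]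
    have e : ∀ Y : ℝ, W p (Y / L) / (X + Y) = (fun Z => W p Z / (X + L * Z)) (Y / L) := by
      intro Y
      show _ = W p (Y / L) / (X + L * (Y / L))
      rw [mul_div_cancel₀ _ hL0.ne']
    simp_rw [e]
    rw [intervalIntegral.integral_comp_div (fun Z => W p Z / (X + L * Z)) hL0.ne', zero_div,
      div_self hL0.ne', smul_eq_mul, ← intervalIntegral.integral_const_mul]
    refine intervalIntegral.integral_congr fun Z _ => ?_
    show W p Z / (X / L + Z) = L * (W p Z / (X + L * Z))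
    have : X / L + Z = (X + L * Z) / L := by field_simp
    rw [this, div_div_eq_mul_div]
    ring
  have h2 : ∫ Y in Ioc (0 : ℝ) L, aL p L Y / (X + Y) = L ^ p * ∫ Y in Ioc (0 : ℝ) L, W p (Y / L) / (X + Y) := by
    rw [← integral_const_mul]
    refine integral_congr_ae (Eventually.of_forall fun Y => ?_)
    show L ^ p * W p (Y / L) / (X + Y) = _
    rw [mul_div_assoc]
  have h3 : ∫ Y in Ioc (0 : ℝ) L, aL p L Y / (X + Y) = (∫ Y in Ioc (0 : ℝ) 1, aL p L Y / (X + Y)) +
      ∫ Y in Ioc 1 L, aL p L Y / (X + Y) := by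
    refine split_int hL ((aL_Bd p hL).kint hX) ?_
    have hg : ContinuousOn (fun Y : ℝ => (X + Y)⁻¹) (Icc 1 L) := by
      refine ContinuousOn.inv₀ (by fun_prop) fun Y hY => ?_
      have := hY.1
      linarith
    refine (aL_int_out p hL hg).congr_fun (fun Y _ => ?_) measurableSet_Ioc
    show (X + Y)⁻¹ * aL p L Y = aL p L Y / (X + Y)
    rw [div_eq_inv_mul]
  have h4 : aL p L X = X ^ p + 1 / (2 * π) * ∫ Y in Ioc (0 : ℝ) L, aL p L Y / (X + Y) := by
    rw [h2, ← h1]
    unfold aL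
    rw [W_eq p hXL, div_pow, mul_add, mul_div_cancel₀ _ (pow_ne_zero p hL0.ne')]
    unfold KK
    ring
  rw [h4, h3]
  unfold KK
  ring

theorem aL_mom (i p : ℕ) {L : ℝ} (hL : 1 ≤ L) :
    ∫ X in Ioc 0 L, X ^ i * aL p L X = L ^ (i + p + 1) * m i p := by
  have hL0 : 0 < L := by linarith
  unfold m
  rw [← intervalIntegral.integral_of_le zero_le_one, ← intervalIntegral.integral_of_le hL0.le]
  have e : ∀ X : ℝ, X ^ i * aL p L X = (fun Z => L ^ (i + p) * (Z ^ i * W p Z)) (X / L) := by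
    intro X
    show X ^ i * (L ^ p * W p (X / L)) = L ^ (i + p) * ((X / L) ^ i * W p (X / L))
    rw [div_pow, pow_add]
    field_simp
  simp_rw [e]
  rw [intervalIntegral.integral_comp_div (fun Z => L ^ (i + p) * (Z ^ i * W p Z)) hL0.ne', zero_div,
      div_self hL0.ne', smul_eq_mul, intervalIntegral.integral_const_mul, pow_succ]
  ring

theorem scale_id (i p : ℕ) {L : ℝ} (hL : 1 ≤ L) :
    L ^ (i + p + 1) * m i p = m p i + ∫ X in Ioc 1 L, W i X * aL p L X := by
  have ha := aL_Bd p hL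
  have hW := W_Bd i
  have hKa := KK_Bd ha
  have hKW := KK_Bd hW
  have hWc : ContinuousOn (W i) (Icc 1 L) := (W_cont i).mono fun X hX => lt_of_lt_of_le one_pos hX.1
  have hac : ContinuousOn (aL p L) (Icc 1 L) :=
    (aL_cont p hL).mono fun X hX => lt_of_lt_of_le one_pos hX.1
  -- first expression
  have s1 : ∫ X in Ioc (0 : ℝ) 1, W i X * aL p L X =
      (∫ X in Ioc (0 : ℝ) 1, X ^ i * aL p L X) + ∫ X in Ioc (0 : ℝ) 1, KK (W i) X * aL p L X := by
    rw [← integral_add (ha.pow_mul i).int (hKW.mul_int ha)]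
    refine setIntegral_congr_fun measurableSet_Ioc fun X hX => ?_
    show W i X * aL p L X = X ^ i * aL p L X + KK (W i) X * aL p L X
    rw [W_eq i hX.1]
    ring
  -- second expression
  have s2 : (∫ X in Ioc (0 : ℝ) 1, W i X * aL p L X) - (∫ X in Ioc (0 : ℝ) 1, X ^ p * W i X) -
      (∫ X in Ioc (0 : ℝ) 1, W i X * KK (aL p L) X) =
      ∫ Y in Ioc 1 L, aL p L Y * KK (W i) Y := by
    have hs : IntegrableOn (fun X => W i X * aL p L X - X ^ p * W i X) (Ioc 0 1) :=
      (hW.mul_int ha).sub (hW.pow_mul p).int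
    rw [← fub2 hW hac, ← integral_sub (hW.mul_int ha) (hW.pow_mul p).int,
      ← integral_sub hs (hW.mul_int hKa)]
    refine setIntegral_congr_fun measurableSet_Ioc fun X hX => ?_
    show W i X * aL p L X - X ^ p * W i X - W i X * KK (aL p L) X =
      W i X * (1 / (2 * π) * ∫ Y in Ioc 1 L, aL p L Y / (X + Y))
    have := aL_eq p hL hX.1
    have e : 1 / (2 * π) * ∫ Y in Ioc 1 L, aL p L Y / (X + Y) = aL p L X - X ^ p - KK (aL p L) X := by
      linarith
    rw [e]
    ring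
  have s3 := fub hW ha
  -- outer part
  have s4 : ∫ Y in Ioc 1 L, aL p L Y * KK (W i) Y =
      (∫ X in Ioc 1 L, W i X * aL p L X) - ∫ X in Ioc 1 L, X ^ i * aL p L X := by
    rw [← integral_sub (aL_int_out p hL hWc) (aL_int_out p hL (continuous_pow i).continuousOn)]
    refine setIntegral_congr_fun measurableSet_Ioc fun X hX => ?_
    show aL p L X * KK (W i) X = W i X * aL p L X - X ^ i * aL p L X
    have hX0 : 0 < X := lt_trans one_pos hX.1
    have := W_eq i hX0
    have e : KK (W i) X = W i X - X ^ i := by linarith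
    rw [e]
    ring
  have s5 : ∫ X in Ioc 0 L, X ^ i * aL p L X = (∫ X in Ioc (0 : ℝ) 1, X ^ i * aL p L X) +
      ∫ X in Ioc 1 L, X ^ i * aL p L X :=
    split_int hL (ha.pow_mul i).int (aL_int_out p hL (continuous_pow i).continuousOn)
  rw [aL_mom i p hL] at s5
  have s6 : m p i = ∫ X in Ioc (0 : ℝ) 1, X ^ p * W i X := rfl
  rw [s6]
  linarith

theorem m_symm (i p : ℕ) : m i p = m p i := by
  have h := scale_id i p (le_refl (1 : ℝ))
  rw [one_pow, one_mul, Ioc_self, setIntegral_empty, add_zero] at h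
  exact h

/-- the mean of `W_i a_L` over `(1, L)` tends to `W_i(1) W_p(1)` -/
theorem mean_lim (i p : ℕ) :
    Tendsto (fun L : ℝ => (∫ X in Ioc 1 L, W i X * aL p L X) / (L - 1)) (𝓝[>] 1)
      (𝓝 (W i 1 * W p 1)) := by
  have hc : ContinuousAt (fun z : ℝ × ℝ => W i z.2 * (z.1 ^ p * W p (z.2 / z.1))) (1, 1) := by
    have hWi : ContinuousAt (W i) 1 := (W_cont i).continuousAt (Ioi_mem_nhds one_pos)
    have hWp : ContinuousAt (W p) ((1 : ℝ) / 1) := by
      rw [div_one]
      exact (W_cont p).continuousAt (Ioi_mem_nhds one_pos)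
    refine ContinuousAt.mul ?_ (ContinuousAt.mul (by fun_prop) ?_)
    · exact ContinuousAt.comp (x := ((1 : ℝ), (1 : ℝ))) (f := fun z : ℝ × ℝ => z.2) (g := W i) hWi
        continuous_snd.continuousAt
    · refine ContinuousAt.comp (x := ((1 : ℝ), (1 : ℝ))) (f := fun z : ℝ × ℝ => z.2 / z.1) (g := W p) hWp ?_
      exact ContinuousAt.div continuous_snd.continuousAt continuous_fst.continuousAt one_ne_zero
  rw [Metric.tendsto_nhdsWithin_nhds]
  intro ε hε
  obtain ⟨δ, hδ, h⟩ := Metric.continuousAt_iff.1 hc (ε / 2) (half_pos hε)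
  refine ⟨δ, hδ, fun L hL hd => ?_⟩
  have hL1 : 1 < L := hL
  have hLd : L - 1 < δ := by
    rw [Real.dist_eq, abs_of_pos (by linarith)] at hd
    exact hd
  have hb : ∀ X ∈ Ioc 1 L, ‖W i X * aL p L X - W i 1 * W p 1‖ ≤ ε / 2 := by
    intro X hX
    have h1 : dist (L, X) ((1 : ℝ), (1 : ℝ)) < δ := by
      rw [Prod.dist_eq, max_lt_iff]
      constructor
      · show dist L 1 < δ
        rw [Real.dist_eq, abs_of_pos (by linarith)]
        exact hLd
      · show dist X 1 < δ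
        rw [Real.dist_eq, abs_of_pos (by linarith [hX.1])]
        linarith [hX.2]
    have h2 := (h h1).le
    have h3 : W i (1 : ℝ) * ((1 : ℝ) ^ p * W p ((1 : ℝ) / 1)) = W i 1 * W p 1 := by
      rw [one_pow, one_mul, div_one]
    simp only [h3] at h2
    rw [Real.dist_eq] at h2
    exact h2
  have hcont : ContinuousOn (W i) (Icc 1 L) := (W_cont i).mono fun X hX => lt_of_lt_of_le one_pos hX.1
  have hint := aL_int_out p hL1.le hcont
  have hvol : (volume (Ioc 1 L)).toReal = L - 1 := by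
    rw [Real.volume_Ioc, ENNReal.toReal_ofReal (by linarith)]
  have e1 : ∫ X in Ioc 1 L, (W i X * aL p L X - W i 1 * W p 1) =
      (∫ X in Ioc 1 L, W i X * aL p L X) - (L - 1) * (W i 1 * W p 1) := by
    rw [integral_sub hint (integrableOn_const (by rw [Real.volume_Ioc]; exact ENNReal.ofReal_ne_top)),
      setIntegral_const]
    rw [measureReal_def, hvol, smul_eq_mul]
  have e2 : ‖∫ X in Ioc 1 L, (W i X * aL p L X - W i 1 * W p 1)‖ ≤ ε / 2 * (L - 1) := by
    have := norm_setIntegral_le_of_norm_le_const (μ := volume) (s := Ioc 1 L)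
      (by rw [Real.volume_Ioc]; exact ENNReal.ofReal_lt_top) hb
    rw [measureReal_def, hvol] at this
    exact this
  rw [Real.dist_eq]
  have hpos : 0 < L - 1 := by linarith
  have e3 : (∫ X in Ioc 1 L, W i X * aL p L X) / (L - 1) - W i 1 * W p 1 =
      (∫ X in Ioc 1 L, (W i X * aL p L X - W i 1 * W p 1)) / (L - 1) := by
    rw [e1]
    field_simp
  rw [e3, abs_div, abs_of_pos hpos, div_lt_iff₀ hpos]
  rw [Real.norm_eq_abs] at e2
  calc |∫ X in Ioc 1 L, (W i X * aL p L X - W i 1 * W p 1)| ≤ ε / 2 * (L - 1) := e2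
    _ < ε * (L - 1) := by
      apply mul_lt_mul_of_pos_right _ hpos
      linarith

/-- (A): the scaling identity -/
theorem scaling (i p : ℕ) : ((i : ℝ) + p + 1) * m i p = W i 1 * W p 1 := by
  have h1 : Tendsto (fun L : ℝ => (∑ j ∈ Finset.range (i + p + 1), L ^ j) * m i p) (𝓝[>] 1)
      (𝓝 ((∑ j ∈ Finset.range (i + p + 1), (1 : ℝ) ^ j) * m i p)) := by
    have : Continuous (fun L : ℝ => (∑ j ∈ Finset.range (i + p + 1), L ^ j) * m i p) := by fun_prop
    exact (this.tendsto 1).mono_left nhdsWithin_le_nhds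
  have h2 := mean_lim i p
  have h3 : (fun L : ℝ => (∑ j ∈ Finset.range (i + p + 1), L ^ j) * m i p) =ᶠ[𝓝[>] 1]
      (fun L : ℝ => (∫ X in Ioc 1 L, W i X * aL p L X) / (L - 1)) := by
    filter_upwards [self_mem_nhdsWithin] with L hL
    have hL1 : 1 < L := hL
    have h := scale_id i p hL1.le
    rw [geom_sum_eq hL1.ne', m_symm p i] at *
    have hpos : L - 1 ≠ 0 := by
      have : 0 < L - 1 := by linarith
      exact this.ne'
    rw [div_mul_eq_mul_div, div_left_inj' hpos]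
    linarith
  have h4 := tendsto_nhds_unique (h1.congr' h3) h2
  rw [← h4]
  simp

end

end EXG.Carl
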