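import Pool.Agent.EXG.Carl4

/-!
# The Carleman equation on (0,1): the value `W_0(1) = Γ(5/12) Γ(13/12) / √π`
-/

open MeasureTheory Set Filter Topology Real

namespace EXG.Carl

noncomputable section

/-- boundary values -/
def w (p : ℕ) : ℝ := W p 1

theorem w_ge (p : ℕ) : 1 ≤ w p := by
  have := W_ge p one_pos
  rw [one_pow] at this
  exact this

theorem w_pos (p : ℕ) : 0 < w p := lt_of_lt_of_le one_pos (w_ge p)

theorem w_rec (p : ℕ) : w (p + 2) = w p * (1 - w 0 * w 1 / (2 * π) / (((p : ℝ) + 1) * (p + 2))) := by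
  have h := W_mul p (one_pos)
  have h1 := scaling 1 p
  have h0 := scaling 0 p
  have e1 : m 1 p = w 1 * w p / ((p : ℝ) + 2) := by
    rw [eq_div_iff (by positivity)]
    unfold w
    rw [← h1]
    push_cast
    ring
  have e0 : m 0 p = w 0 * w p / ((p : ℝ) + 1) := by
    rw [eq_div_iff (by positivity)]
    unfold w
    rw [← h0]
    push_cast
    ring
  rw [e1, e0, one_pow, one_mul] at h
  have h' : w (p + 2) = w p + 1 / (2 * π) * (w 1 * w p / ((p : ℝ) + 2) * w 0 -
      w 0 * w p / ((p : ℝ) + 1) * w 1) := by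
    unfold w at *
    linarith
  rw [h']
  have : (p : ℝ) + 1 ≠ 0 := by positivity
  have : (p : ℝ) + 2 ≠ 0 := by positivity
  field_simp
  ring

theorem m_le (p : ℕ) : m 0 p ≤ m 0 0 := by
  rw [m_symm 0 p]
  unfold m
  refine setIntegral_mono_on ((W_Bd 0).pow_mul p).int ((W_Bd 0).pow_mul 0).int measurableSet_Ioc
    fun Y hY => ?_
  rw [pow_zero]
  exact mul_le_mul_of_nonneg_right (pow_le_one₀ hY.1.le hY.2) (W_nonneg 0 hY.1)

theorem w_le (p : ℕ) : w p ≤ 1 + 1 / (2 * π) * m 0 p := by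
  have h := W_eq p one_pos
  rw [one_pow] at h
  unfold w
  rw [h]
  unfold KK m
  have h1 : ∫ Y in Ioc (0 : ℝ) 1, W p Y / (1 + Y) ≤ ∫ Y in Ioc (0 : ℝ) 1, Y ^ 0 * W p Y := by
    refine setIntegral_mono_on ((W_Bd p).kint one_pos) ((W_Bd p).pow_mul 0).int measurableSet_Ioc
      fun Y hY => ?_
    rw [pow_zero, one_mul]
    exact div_le_self (W_nonneg p hY.1) (by linarith [hY.1])
  have := mul_le_mul_of_nonneg_left h1 (by positivity : (0:ℝ) ≤ 1 / (2 * π))
  linarith

theorem w_lim : Tendsto w atTop (𝓝 1) := by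
  set B : ℝ := 1 + 1 / (2 * π) * m 0 0 with hB
  have hwB : ∀ p, w p ≤ B := by
    intro p
    have := w_le p
    have := mul_le_mul_of_nonneg_left (m_le p) (by positivity : (0:ℝ) ≤ 1 / (2 * π))
    linarith
  have hm : ∀ p : ℕ, m 0 p ≤ w 0 * B * (1 / ((p : ℝ) + 1)) := by
    intro p
    have h0 := scaling 0 p
    have e0 : m 0 p = w 0 * w p / ((p : ℝ) + 1) := by
      rw [eq_div_iff (by positivity)]
      unfold w
      rw [← h0]
      push_cast
      ring
    rw [e0, mul_one_div]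
    exact div_le_div_of_nonneg_right (mul_le_mul_of_nonneg_left (hwB p) (w_pos 0).le) (by positivity)
  have hup : ∀ p : ℕ, w p ≤ 1 + 1 / (2 * π) * (w 0 * B * (1 / ((p : ℝ) + 1))) := by
    intro p
    have := w_le p
    have := mul_le_mul_of_nonneg_left (hm p) (by positivity : (0:ℝ) ≤ 1 / (2 * π))
    linarith
  have hl : Tendsto (fun p : ℕ => 1 + 1 / (2 * π) * (w 0 * B * (1 / ((p : ℝ) + 1)))) atTop
      (𝓝 (1 + 1 / (2 * π) * (w 0 * B * 0))) :=
    (((tendsto_one_div_add_atTop_nhds_zero_nat).const_mul _).const_mul _).const_add _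
  rw [mul_zero, mul_zero, add_zero] at hl
  exact tendsto_of_tendsto_of_tendsto_of_le_of_le tendsto_const_nhds hl w_ge hup

/-- the constant `c = W_0(1) W_1(1) / 2π` -/
def cc : ℝ := w 0 * w 1 / (2 * π)

theorem cc_pos : 0 < cc := by
  unfold cc
  have := w_pos 0
  have := w_pos 1
  positivity

theorem w0_sq : w 0 ^ 2 = m 0 0 := by
  have := scaling 0 0
  push_cast at this
  unfold w
  linarith

theorem w0_sq_le : w 0 ^ 2 ≤ 6 := by
  rw [w0_sq]
  unfold m
  calc ∫ Y in Ioc (0 : ℝ) 1, Y ^ 0 * W 0 Y ≤ ∫ Y in Ioc (0 : ℝ) 1, 4 * ph Y := by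
        refine setIntegral_mono_on ((W_Bd 0).pow_mul 0).int ((ph_int 1).const_mul 4) measurableSet_Ioc
          fun Y hY => ?_
        rw [pow_zero, one_mul]
        exact le_of_abs_le ((W_Bd 0).le Y hY.1 hY.2)
    _ = 6 := by
        rw [integral_const_mul, ph_integral zero_le_one, Real.one_rpow]
        norm_num

theorem w1_sq_le : w 1 ^ 2 ≤ 12 := by
  have h := scaling 1 1
  push_cast at h
  have h1 : m 1 1 ≤ 4 := by
    unfold m
    calc ∫ Y in Ioc (0 : ℝ) 1, Y ^ 1 * W 1 Y ≤ ∫ Y in Ioc (0 : ℝ) 1, (4 : ℝ) := by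
          refine setIntegral_mono_on ((W_Bd 1).pow_mul 1).int
            (integrableOn_const (by rw [Real.volume_Ioc]; exact ENNReal.ofReal_ne_top)) measurableSet_Ioc
            fun Y hY => ?_
          have h2 := le_of_abs_le ((W_Bd 1).le Y hY.1 hY.2)
          have h3 : Y * ph Y ≤ 1 := by
            unfold ph
            have : Y * Y ^ (-(1 / 3) : ℝ) = Y ^ (2 / 3 : ℝ) := by
              rw [← Real.rpow_one_add' hY.1.le (by norm_num)]
              norm_num
            rw [this]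
            exact Real.rpow_le_one hY.1.le hY.2 (by norm_num)
          rw [pow_one]
          calc Y * W 1 Y ≤ Y * (4 * ph Y) := mul_le_mul_of_nonneg_left h2 hY.1.le
            _ = 4 * (Y * ph Y) := by ring
            _ ≤ 4 := by linarith
      _ = 4 := by
          rw [setIntegral_const, measureReal_def, Real.volume_Ioc]
          norm_num
  unfold w
  nlinarith

theorem cc_lt : cc < 55 / 36 := by
  have h : (w 0 * w 1) ^ 2 ≤ 72 := by
    rw [mul_pow]
    calc w 0 ^ 2 * w 1 ^ 2 ≤ 6 * 12 :=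
          mul_le_mul w0_sq_le w1_sq_le (sq_nonneg _) (by norm_num)
      _ = 72 := by norm_num
  have h2 : w 0 * w 1 < 55 / 36 * (2 * 3.141592) := by
    by_contra hcon
    push Not at hcon
    have : (55 / 36 * (2 * 3.141592) : ℝ) ^ 2 ≤ (w 0 * w 1) ^ 2 :=
      pow_le_pow_left₀ (by norm_num) hcon 2
    norm_num at this
    linarith
  unfold cc
  rw [div_lt_iff₀ (by positivity)]
  have := Real.pi_gt_d6
  calc w 0 * w 1 < 55 / 36 * (2 * 3.141592) := h2
    _ ≤ 55 / 36 * (2 * π) := by linarith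

/-- the degree `ν` with `ν (ν+1) = c` -/
def nu : ℝ := (√(1 + 4 * cc) - 1) / 2

theorem nu_eq : nu * (nu + 1) = cc := by
  have h := Real.mul_self_sqrt (by linarith [cc_pos] : (0:ℝ) ≤ 1 + 4 * cc)
  unfold nu
  linarith

theorem nu_pos : 0 < nu := by
  have h : 1 < √(1 + 4 * cc) := by
    rw [Real.lt_sqrt (by norm_num)]
    linarith [cc_pos]
  unfold nu
  linarith

theorem nu_lt : nu < 5 / 6 := by
  by_contra hcon
  push Not at hcon
  have h := nu_eq
  have h2 := cc_lt
  nlinarith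

/-- the factor -/
theorem w_fac (p : ℕ) : w (p + 2) = w p * (((p : ℝ) + 1 - nu) * (p + 2 + nu) / (((p : ℝ) + 1) * (p + 2))) := by
  rw [w_rec p]
  congr 1
  have h : w 0 * w 1 / (2 * π) = nu * (nu + 1) := nu_eq.symm
  rw [h]
  have : (p : ℝ) + 1 ≠ 0 := by positivity
  have : (p : ℝ) + 2 ≠ 0 := by positivity
  field_simp
  ring

theorem prod_eq (N : ℕ) : w N * w (N + 1) = w 0 * w 1 * ((∏ j ∈ Finset.range N, (1 - nu ^ 2 / ((j : ℝ) + 1) ^ 2)) *
    ((1 + nu / ((N : ℝ) + 1)) / (1 + nu))) := by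
  have hn := nu_pos
  induction N with
  | zero =>
    have : (1 + nu) ≠ 0 := by positivity
    simp [div_self this]
  | succ N ih =>
    rw [w_fac N, Finset.prod_range_succ]
    have h1 : (N : ℝ) + 1 ≠ 0 := by positivity
    have h2 : (N : ℝ) + 2 ≠ 0 := by positivity
    have h3 : (1 + nu) ≠ 0 := by positivity
    have h4 : (N : ℝ) + 1 + nu ≠ 0 := by positivity
    have e : w (N + 1) * (w N * (((N : ℝ) + 1 - nu) * (N + 2 + nu) / (((N : ℝ) + 1) * (N + 2)))) =
        (w N * w (N + 1)) * (((N : ℝ) + 1 - nu) * (N + 2 + nu) / (((N : ℝ) + 1) * (N + 2))) := by ring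
    rw [e, ih]
    push_cast
    have h5 : (N : ℝ) + 1 + 1 ≠ 0 := by positivity
    field_simp
    ring

theorem sin_nu : sin (π * nu) = 1 / 2 := by
  have h1 := Real.tendsto_euler_sin_prod nu
  have hn := nu_pos
  have h2 : Tendsto (fun N : ℕ => (1 + nu / ((N : ℝ) + 1)) / (1 + nu)) atTop (𝓝 ((1 + nu * 0) / (1 + nu))) := by
    refine Tendsto.div_const (Tendsto.const_add _ ?_) _
    have := (tendsto_one_div_add_atTop_nhds_zero_nat (𝕜 := ℝ)).const_mul nu
    refine this.congr fun N => ?_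
    rw [mul_one_div]
  have h3 : Tendsto (fun N : ℕ => w N * w (N + 1)) atTop (𝓝 (1 * 1)) :=
    w_lim.mul (w_lim.comp (tendsto_add_atTop_nat 1))
  have h4 : Tendsto (fun N : ℕ => w 0 * w 1 * ((π * nu * ∏ j ∈ Finset.range N, (1 - nu ^ 2 / ((j : ℝ) + 1) ^ 2)) *
      ((1 + nu / ((N : ℝ) + 1)) / (1 + nu)))) atTop
      (𝓝 (w 0 * w 1 * (sin (π * nu) * ((1 + nu * 0) / (1 + nu))))) :=
    (h1.mul h2).const_mul _
  have h5 : Tendsto (fun N : ℕ => π * nu * (w N * w (N + 1))) atTop (𝓝 (π * nu * (1 * 1))) :=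
    h3.const_mul _
  have h6 : w 0 * w 1 * (sin (π * nu) * ((1 + nu * 0) / (1 + nu))) = π * nu * (1 * 1) := by
    refine tendsto_nhds_unique h4 (h5.congr fun N => ?_)
    rw [prod_eq N]
    ring
  have h7 : w 0 * w 1 = 2 * π * (nu * (nu + 1)) := by
    rw [nu_eq]
    unfold cc
    have := Real.pi_pos
    field_simp
  rw [h7] at h6
  have hp := Real.pi_pos
  have h8 : (1 + nu) ≠ 0 := by positivity
  have h9 : π * nu ≠ 0 := by positivity
  have h10 : 2 * π * (nu * (nu + 1)) * (sin (π * nu) * ((1 + nu * 0) / (1 + nu))) =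
      (π * nu) * (2 * sin (π * nu)) := by
    field_simp
    ring
  rw [h10] at h6
  have h11 := mul_left_cancel₀ h9 h6
  linarith

theorem nu_val : nu = 1 / 6 := by
  have h := sin_nu
  have hp := Real.pi_pos
  have h0 := nu_pos
  have h1 := nu_lt
  have h6 : sin (π / 6) = 1 / 2 := Real.sin_pi_div_six
  by_cases hc : nu ≤ 1 / 2
  · have hi := Real.injOn_sin (x₁ := π * nu) (x₂ := π / 6) ?_ ?_ (h.trans h6.symm)
    · have : π * nu = π * (1 / 6) := by rw [hi]; ring
      exact mul_left_cancel₀ hp.ne' this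
    · constructor
      · nlinarith
      · nlinarith
    · constructor <;> linarith
  · exfalso
    push Not at hc
    have h2 : sin (π * nu) = sin (π - π * nu) := (Real.sin_pi_sub _).symm
    have h3 : sin (π / 6) < sin (π - π * nu) := by
      refine Real.sin_lt_sin_of_lt_of_le_pi_div_two (by linarith) ?_ ?_
      · nlinarith
      · nlinarith
    rw [← h2, h, h6] at h3
    exact lt_irrefl _ h3

theorem w_even (n : ℕ) : w (2 * n) = w 0 * ∏ k ∈ Finset.range n,
    (((5 / 12 : ℝ) + k) * ((13 / 12 : ℝ) + k) / (((1 / 2 : ℝ) + k) * (1 + k))) := by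
  induction n with
  | zero => simp
  | succ n ih =>
    rw [show 2 * (n + 1) = 2 * n + 2 by ring, w_fac, Finset.prod_range_succ, ih, nu_val]
    push_cast
    have h1 : (2 * (n : ℝ) + 1) ≠ 0 := by positivity
    have h2 : (2 * (n : ℝ) + 2) ≠ 0 := by positivity
    have h3 : ((1 / 2 : ℝ) + n) ≠ 0 := by positivity
    have h4 : (1 + (n : ℝ)) ≠ 0 := by positivity
    rw [mul_assoc]
    congr 2
    field_simp
    ring

/-- (E): the boundary value `W_0(1)` -/
theorem w_zero : w 0 = Gamma (5 / 12) * Gamma (13 / 12) / √π := by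
  have g1 := Real.GammaSeq_tendsto_Gamma (5 / 12)
  have g2 := Real.GammaSeq_tendsto_Gamma (13 / 12)
  have g3 := Real.GammaSeq_tendsto_Gamma (1 / 2)
  have g4 := Real.GammaSeq_tendsto_Gamma 1
  have hG1 : 0 < Gamma (5 / 12) := Real.Gamma_pos_of_pos (by norm_num)
  have hG2 : 0 < Gamma (13 / 12) := Real.Gamma_pos_of_pos (by norm_num)
  have h1 : Tendsto (fun n : ℕ => Real.GammaSeq (1 / 2) n * Real.GammaSeq 1 n /
      (Real.GammaSeq (5 / 12) n * Real.GammaSeq (13 / 12) n)) atTop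
      (𝓝 (Gamma (1 / 2) * Gamma 1 / (Gamma (5 / 12) * Gamma (13 / 12)))) :=
    (g3.mul g4).div (g1.mul g2) (by positivity)
  have h2 : Tendsto (fun n : ℕ => w (2 * (n + 1))) atTop (𝓝 1) := by
    refine w_lim.comp ?_
    refine tendsto_atTop_mono (fun n => ?_) (tendsto_id)
    show n ≤ 2 * (n + 1)
    omega
  have h3 : ∀ᶠ n : ℕ in atTop, w 0 * (Real.GammaSeq (1 / 2) n * Real.GammaSeq 1 n /
      (Real.GammaSeq (5 / 12) n * Real.GammaSeq (13 / 12) n)) = w (2 * (n + 1)) := by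
    filter_upwards [eventually_gt_atTop 0] with n hn
    have hn0 : (0 : ℝ) < n := by exact_mod_cast hn
    rw [w_even]
    congr 1
    rw [Finset.prod_div_distrib, Finset.prod_mul_distrib, Finset.prod_mul_distrib]
    unfold Real.GammaSeq
    have p1 : (∏ j ∈ Finset.range (n + 1), ((5 / 12 : ℝ) + j)) ≠ 0 :=
      Finset.prod_ne_zero_iff.2 fun j _ => by positivity
    have p2 : (∏ j ∈ Finset.range (n + 1), ((13 / 12 : ℝ) + j)) ≠ 0 :=
      Finset.prod_ne_zero_iff.2 fun j _ => by positivity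
    have p3 : (∏ j ∈ Finset.range (n + 1), ((1 / 2 : ℝ) + j)) ≠ 0 :=
      Finset.prod_ne_zero_iff.2 fun j _ => by positivity
    have p4 : (∏ j ∈ Finset.range (n + 1), ((1 : ℝ) + j)) ≠ 0 :=
      Finset.prod_ne_zero_iff.2 fun j _ => by positivity
    have f : (n.factorial : ℝ) ≠ 0 := by exact_mod_cast n.factorial_ne_zero
    have e : (n : ℝ) ^ (1 / 2 : ℝ) * (n : ℝ) ^ (1 : ℝ) = (n : ℝ) ^ (5 / 12 : ℝ) * (n : ℝ) ^ (13 / 12 : ℝ) := by
      rw [← Real.rpow_add hn0, ← Real.rpow_add hn0]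
      norm_num
    have q1 : (n : ℝ) ^ (5 / 12 : ℝ) ≠ 0 := (Real.rpow_pos_of_pos hn0 _).ne'
    have q2 : (n : ℝ) ^ (13 / 12 : ℝ) ≠ 0 := (Real.rpow_pos_of_pos hn0 _).ne'
    rw [div_mul_div_comm, div_mul_div_comm, div_div_div_eq]
    rw [div_eq_div_iff (by positivity) (by positivity)]
    linear_combination ((n.factorial : ℝ) * n.factorial) * (∏ j ∈ Finset.range (n + 1), ((5 / 12 : ℝ) + j)) *
      (∏ j ∈ Finset.range (n + 1), ((13 / 12 : ℝ) + j)) * ((∏ j ∈ Finset.range (n + 1), ((1 / 2 : ℝ) + j)) *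
      (∏ j ∈ Finset.range (n + 1), ((1 : ℝ) + j))) * e
  have h4 := tendsto_nhds_unique ((h1.const_mul (w 0)).congr' h3) h2
  rw [Real.Gamma_one, Real.Gamma_one_half_eq, mul_one] at h4
  have hsp : 0 < √π := Real.sqrt_pos.2 Real.pi_pos
  field_simp at h4 ⊢
  linarith

end

end EXG.Carl
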