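import Pool.Agent.EXG.CoefB
import Pool.Agent.Ex.P2Tay

/-!
The coefficients of `f_1`: the limit of `F1 i / i ^ (1 / 4)`, with its value.
-/

set_option autoImplicit false

open Finset P2F EXPW Filter Topology

namespace EXG

/-- the coefficients of `(1 - t) ^ (-s)` -/
noncomputable def bc (s : ℝ) (n : ℕ) : ℝ := Ring.choose (s + n - 1) n

theorem bc_eq (s : ℝ) (n : ℕ) : bc s n = (∏ k ∈ range n, (s + k)) / n.factorial := by
  have h := Ex.P2.choose_prod s n
  rw [bc, eq_div_iff (by positivity), mul_comm]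
  exact h

theorem bc_pos {s : ℝ} (hs : 0 < s) (n : ℕ) : 0 < bc s n := by
  rw [bc_eq]
  apply div_pos _ (by positivity)
  exact prod_pos fun k _ => by positivity

theorem bc_succ (s : ℝ) (n : ℕ) : bc s (n + 1) = bc s n * ((s + n) / (n + 1)) := by
  rw [bc_eq, bc_eq, prod_range_succ, Nat.factorial_succ]
  push_cast
  field_simp

theorem bc_le_one {s : ℝ} (hs : 0 < s) (hs1 : s ≤ 1) (n : ℕ) : bc s n ≤ 1 := by
  induction n with
  | zero => rw [bc_eq]; simp
  | succ n ih =>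
    rw [bc_succ]
    have h1 : (s + n) / (n + 1 : ℝ) ≤ 1 := by
      rw [div_le_one (by positivity)]
      linarith
    have h2 : 0 ≤ (s + n) / (n + 1 : ℝ) := by positivity
    calc bc s n * ((s + n) / (n + 1)) ≤ 1 * 1 := mul_le_mul ih h1 h2 zero_le_one
      _ = 1 := one_mul 1

theorem bc_mono {s : ℝ} (hs : 1 ≤ s) {m n : ℕ} (h : m ≤ n) : bc s m ≤ bc s n := by
  refine monotone_nat_of_le_succ (fun n => ?_) h
  rw [bc_succ]
  have h0 := bc_pos (show 0 < s by linarith) n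
  have h1 : 1 ≤ (s + n) / (n + 1 : ℝ) := by
    rw [one_le_div (by positivity)]
    linarith
  nlinarith

/-- the asymptotics of the binomial coefficients -/
theorem bc_tendsto {s : ℝ} (hs : 0 < s) :
    Tendsto (fun n : ℕ => bc s n / (n : ℝ) ^ (s - 1)) atTop (𝓝 (1 / Real.Gamma s)) := by
  have h1 := Real.GammaSeq_tendsto_Gamma s
  have hG : 0 < Real.Gamma s := Real.Gamma_pos_of_pos hs
  have h2 : Tendsto (fun n : ℕ => (n : ℝ) / ((n : ℝ) + s)) atTop (𝓝 1) :=
    tendsto_natCast_div_add_atTop s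
  refine (h2.div h1 hG.ne').congr' ?_
  filter_upwards [eventually_gt_atTop 0] with n hn
  have hn0 : (0 : ℝ) < n := by exact_mod_cast hn
  have e1 : Real.GammaSeq s n = (n : ℝ) ^ (s - 1) * n / (bc s n * (s + n)) := by
    rw [Real.GammaSeq, prod_range_succ, bc_eq]
    have h3 : (n : ℝ) ^ s = (n : ℝ) ^ (s - 1) * n := by
      rw [← Real.rpow_add_one hn0.ne']
      congr 1
      ring
    rw [h3]
    have h4 : 0 < ∏ k ∈ range n, (s + (k : ℝ)) := prod_pos fun k _ => by positivity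
    field_simp
  have hb := bc_pos hs n
  have h5 : 0 < (n : ℝ) ^ (s - 1) := Real.rpow_pos_of_pos hn0 _
  simp only [Pi.div_apply]
  rw [e1]
  field_simp
  ring

theorem bc_ratio (s : ℝ) : Tendsto (fun n : ℕ => (s + n) / ((n : ℝ) + 1)) atTop (𝓝 1) := by
  have h1 : Tendsto (fun n : ℕ => (s - 1) / ((n : ℝ) + 1)) atTop (𝓝 0) :=
    tendsto_const_nhds.div_atTop (tendsto_atTop_add_const_right _ _ tendsto_natCast_atTop_atTop)
  have h2 := h1.const_add 1
  rw [add_zero] at h2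
  refine h2.congr fun n => ?_
  have : (0 : ℝ) < (n : ℝ) + 1 := by positivity
  field_simp
  ring

theorem bc_shift {s : ℝ} (hs : 0 < s) (k : ℕ) :
    Tendsto (fun n : ℕ => bc s n / bc s (n + k)) atTop (𝓝 1) := by
  induction k with
  | zero =>
    refine tendsto_const_nhds.congr fun n => ?_
    rw [add_zero, div_self (bc_pos hs n).ne']
  | succ k ih =>
    have h1 := (tendsto_add_atTop_iff_nat k).2 (bc_ratio s)
    have h2 := ih.div h1 one_ne_zero
    rw [div_one] at h2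
    refine h2.congr fun n => ?_
    simp only [Pi.div_apply]
    rw [← add_assoc, bc_succ]
    have h3 := bc_pos hs (n + k)
    have h4 : (0 : ℝ) < s + ((n + k : ℕ) : ℝ) := by positivity
    field_simp

/-- convolution with an absolutely summable sequence -/
theorem conv_tendsto {s : ℝ} (hs : 1 ≤ s) {g : ℕ → ℝ} (hg : Summable fun n => |g n|) :
    Tendsto (fun m : ℕ => (∑ k ∈ range (m + 1), g k * bc s (m - k)) / bc s m) atTop (𝓝 (∑' k, g k)) := by
  have hs0 : 0 < s := by linarith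
  have key : Tendsto (fun m : ℕ => ∑' k, (if k ≤ m then g k * (bc s (m - k) / bc s m) else 0)) atTop
      (𝓝 (∑' k, g k)) := by
    refine tendsto_tsum_of_dominated_convergence (bound := fun k => |g k|) hg (fun k => ?_) (Eventually.of_forall fun m k => ?_)
    · have h1 := (bc_shift hs0 k).const_mul (g k)
      rw [mul_one] at h1
      rw [← tendsto_add_atTop_iff_nat k]
      refine h1.congr fun n => ?_
      simp
    · split_ifs with h
      · have h1 := bc_pos hs0 m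
        have h2 := bc_pos hs0 (m - k)
        have h3 : bc s (m - k) / bc s m ≤ 1 := by
          rw [div_le_one h1]
          exact bc_mono hs (Nat.sub_le _ _)
        rw [Real.norm_eq_abs, abs_mul, abs_of_nonneg (show 0 ≤ bc s (m - k) / bc s m by positivity)]
        calc |g k| * (bc s (m - k) / bc s m) ≤ |g k| * 1 := mul_le_mul_of_nonneg_left h3 (abs_nonneg _)
          _ = |g k| := mul_one _
      · simp
  refine key.congr fun m => ?_
  rw [tsum_eq_sum (s := range (m + 1))]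
  · rw [sum_div]
    refine sum_congr rfl fun k hk => ?_
    rw [if_pos (Nat.lt_succ_iff.mp (mem_range.mp hk)), mul_div_assoc]
  · intro k hk
    rw [if_neg]
    rw [mem_range] at hk
    omega

/-- a convex combination -/
theorem IsK_convex {u v : ℝ → ℝ} (hu : IsK u) (hv : IsK v) {α β : ℝ} (hα : 0 ≤ α) (hβ : 0 ≤ β)
    (hαβ : α + β = 1) : IsK fun t => α * u t + β * v t := by
  obtain ⟨p, hp0, hp, hps, hp1, hu⟩ := hu
  obtain ⟨q, hq0, hq, hqs, hq1, hv⟩ := hv
  refine ⟨fun n => α * p n + β * q n, by simp [hp0, hq0], fun n => ?_, (hps.mul_left α).add (hqs.mul_left β), ?_, fun t h1 h2 => ?_⟩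
  · have := hp n
    have := hq n
    positivity
  · rw [(hps.mul_left α).tsum_add (hqs.mul_left β), tsum_mul_left, tsum_mul_left]
    nlinarith
  · have h := ((hu t h1 h2).mul_left α).add ((hv t h1 h2).mul_left β)
    refine h.congr_fun_eq fun n => ?_
    ring

/-- the function `g = (1 - t) ^ (1 / 4) S` -/
noncomputable def gG (t : ℝ) : ℝ := √(2 * √(1 - t) + √(2 * (1 + h0)) * √(1 - (1 - h0) / (1 + h0) * t))

theorem tau_bd : 0 ≤ (1 - h0) / (1 + h0) ∧ (1 - h0) / (1 + h0) < 1 := by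
  have h1 := h0_pos
  have h2 := h0_lt
  exact ⟨div_nonneg (by linarith) (by linarith), by rw [div_lt_one (by linarith)]; linarith⟩

theorem gG_isF : IsF gG := by
  have h1 := h0_pos
  obtain ⟨h3, h4⟩ := tau_bd
  have hk1 : IsK fun t => 1 - √(1 - 1 * t) := (IsK.lin zero_le_one le_rfl).sqrt
  have hk2 : IsK fun t => 1 - √(1 - (1 - h0) / (1 + h0) * t) := (IsK.lin h3 h4.le).sqrt
  obtain ⟨d, hd⟩ : ∃ d : ℝ, d = √(2 * (1 + h0)) := ⟨_, rfl⟩
  have hd0 : 0 < d := by rw [hd]; exact Real.sqrt_pos.2 (by linarith)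
  have hk := IsK_convex hk1 hk2 (α := 2 / (2 + d)) (β := d / (2 + d)) (by positivity) (by positivity)
    (by field_simp)
  have hF : IsF fun t => 2 * √(1 - t) + d * √(1 - (1 - h0) / (1 + h0) * t) := by
    refine ⟨2 + d, by positivity, _, hk, fun t _ _ => ?_⟩
    simp only
    rw [one_mul]
    field_simp
    ring
  have := hF.sqrt
  rw [hd] at this
  exact this

theorem gG_cont : ContinuousOn gG (Set.Icc (-1) 1) := by
  unfold gG
  fun_prop

theorem gG_one : gG 1 = (4 * h0) ^ (1 / 4 : ℝ) := by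
  have h1 := h0_pos
  unfold gG
  have e1 : √(2 * (1 + h0)) * √(1 - (1 - h0) / (1 + h0) * 1) = √(4 * h0) := by
    rw [← Real.sqrt_mul (by linarith)]
    congr 1
    field_simp
    ring
  rw [e1, sub_self, Real.sqrt_zero, mul_zero, zero_add, Real.sqrt_eq_rpow, Real.sqrt_eq_rpow,
    ← Real.rpow_mul (by linarith)]
  norm_num

/-- the value at `1` of an absolutely summable power series -/
theorem tsum_eq_of_cont {f : ℝ → ℝ} (hf : ContinuousOn f (Set.Icc (-1) 1)) {a : ℕ → ℝ}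
    (ha : Summable fun n => |a n|) (h : ∀ t : ℝ, -1 ≤ t → t < 1 → HasSum (fun n => a n * t ^ n) (f t)) :
    ∑' n, a n = f 1 := by
  have hc : ContinuousOn (fun t : ℝ => ∑' n, a n * t ^ n) (Set.Icc (-1) 1) := by
    refine continuousOn_tsum (fun n => by fun_prop) ha fun n t ht => ?_
    rw [norm_mul, norm_pow, Real.norm_eq_abs, Real.norm_eq_abs]
    exact mul_le_of_le_one_right (abs_nonneg _) (pow_le_one₀ (abs_nonneg _) (abs_le.2 ht))
  have h1 : (1 : ℝ) ∈ Set.Icc (-1 : ℝ) 1 := ⟨by norm_num, le_rfl⟩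
  have e : Set.Ico (-1 : ℝ) 1 ⊆ Set.Icc (-1) 1 := Set.Ico_subset_Icc_self
  have t1 := ((hc 1 h1).mono e).tendsto
  have t2 := ((hf 1 h1).mono e).tendsto
  have hne : (𝓝[Set.Ico (-1 : ℝ) 1] 1).NeBot := by
    rw [← mem_closure_iff_nhdsWithin_neBot, closure_Ico (by norm_num)]
    exact h1
  have t3 := t1.congr' (f₂ := f) (by
    filter_upwards [self_mem_nhdsWithin] with t ht
    exact (h t ht.1 ht.2).tsum_eq)
  have := tendsto_nhds_unique t3 t2
  simpa using this

/-- Cauchy product of two power series at a point -/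
theorem conv_hasSum {a b : ℕ → ℝ} {t x y : ℝ} (ha : Summable fun n => ‖a n * t ^ n‖)
    (hb : Summable fun n => ‖b n * t ^ n‖) (hx : HasSum (fun n => a n * t ^ n) x)
    (hy : HasSum (fun n => b n * t ^ n) y) :
    HasSum (fun m => (∑ k ∈ range (m + 1), a k * b (m - k)) * t ^ m) (x * y) := by
  have hs := (summable_norm_sum_mul_antidiagonal_of_summable_norm ha hb).of_norm.hasSum
  have h := tsum_mul_tsum_eq_tsum_sum_antidiagonal_of_summable_norm ha hb
  rw [← h, hx.tsum_eq, hy.tsum_eq] at hs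
  refine hs.congr_fun_eq fun m => ?_
  rw [Finset.Nat.sum_antidiagonal_eq_sum_range_succ_mk, sum_mul]
  refine sum_congr rfl fun k hk => ?_
  have hk' : k ≤ m := Nat.lt_succ_iff.1 (mem_range.1 hk)
  obtain ⟨j, rfl⟩ := Nat.exists_eq_add_of_le hk'
  simp only [Nat.add_sub_cancel_left, pow_add]
  ring

theorem gG_pos {t : ℝ} (h1 : -1 ≤ t) (h2 : t < 1) : 0 < gG t := by
  unfold gG
  have h3 : 0 < √(1 - t) := Real.sqrt_pos.2 (by linarith)
  positivity

theorem gG_ge {t : ℝ} (h1 : 0 ≤ t) (h2 : t < 1) : gG 1 ≤ gG t := by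
  obtain ⟨h3, h4⟩ := tau_bd
  unfold gG
  apply Real.sqrt_le_sqrt
  have h5 : √(1 - (1 - h0) / (1 + h0) * 1) ≤ √(1 - (1 - h0) / (1 + h0) * t) := by
    apply Real.sqrt_le_sqrt
    nlinarith
  have h6 := mul_le_mul_of_nonneg_left h5 (Real.sqrt_nonneg (2 * (1 + h0)))
  have h7 := Real.sqrt_nonneg (1 - t)
  rw [sub_self, Real.sqrt_zero]
  linarith

theorem gG_one_pos : 0 < gG 1 := by
  rw [gG_one]
  have := h0_pos
  positivity

theorem gG_SS {t : ℝ} (ht : |t| < 1) : gG t = √(√(1 - t)) * SS t := by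
  obtain ⟨h1, h2⟩ := abs_lt.1 ht
  have h3 := h0_pos
  have h4 : 0 < 1 - t := by linarith
  unfold gG SS
  rw [← Real.sqrt_mul (Real.sqrt_nonneg _)]
  congr 1
  have e1 : √(1 - t) * √(2 + 2 * hh t) = √(2 * (1 + h0)) * √(1 - (1 - h0) / (1 + h0) * t) := by
    rw [← Real.sqrt_mul h4.le, ← Real.sqrt_mul (by linarith)]
    congr 1
    unfold hh
    field_simp
    ring
  rw [← e1]
  ring

theorem F1f_eq {t : ℝ} (ht : |t| < 1) :
    F1f t = K1 * (gG t * (1 - t) ^ (-(5 / 4) : ℝ) - 1 / gG t * (1 - t) ^ (-(3 / 4) : ℝ)) := by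
  obtain ⟨h1, h2⟩ := abs_lt.1 ht
  have h4 : 0 < 1 - t := by linarith
  have hS := SS_pos t
  have e0 : √(√(1 - t)) = (1 - t) ^ (1 / 4 : ℝ) := by
    rw [Real.sqrt_eq_rpow, Real.sqrt_eq_rpow, ← Real.rpow_mul h4.le]
    norm_num
  have e1 : (1 - t) ^ (1 / 4 : ℝ) * (1 - t) ^ (-(5 / 4) : ℝ) = (1 - t)⁻¹ := by
    rw [← Real.rpow_add h4, ← Real.rpow_neg_one]
    norm_num
  have e2 : (1 - t) ^ (-(3 / 4) : ℝ) = (1 - t)⁻¹ * (1 - t) ^ (1 / 4 : ℝ) := by
    rw [← Real.rpow_neg_one, ← Real.rpow_add h4]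
    norm_num
  have h5 : 0 < (1 - t) ^ (1 / 4 : ℝ) := Real.rpow_pos_of_pos h4 _
  rw [gG_SS ht, e0, mul_right_comm, e1, e2]
  unfold F1f
  field_simp

/-- the coefficients of `1 / g` -/
theorem inv_gG : ∃ e : ℕ → ℝ, Ex.P2.Rep e (fun t => 1 / gG t) ∧ ∃ M : ℝ, ∀ n, ∑ k ∈ range (n + 1), e k ≤ M := by
  obtain ⟨s, hs, u, hu, h⟩ := gG_isF
  obtain ⟨p, hp0, hp, hps, hp1, hup⟩ := hu
  have hR : Ex.P2.Rep p u := ⟨hp, fun t ht => hup t (abs_lt.1 ht).1.le (abs_lt.1 ht).2⟩
  have hlt : ∀ t : ℝ, -1 ≤ t → t < 1 → 0 < 1 - u t := by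
    intro t h1 h2
    have h3 := gG_pos h1 h2
    rw [h t h1 h2] at h3
    exact pos_of_mul_pos_right h3 hs.le
  obtain ⟨e, he⟩ := (Ex.P2.rep_rpow_neg (zero_le_one (α := ℝ))).comp hR (fun t h1 h2 => by
    have := hlt t (by linarith) h2
    linarith)
  have he2 := (he.smul (c := 1 / s) (by positivity)).congr (g := fun t => 1 / gG t) (fun t ht => by
    have h1 := (abs_lt.1 ht).1.le
    have h2 := (abs_lt.1 ht).2
    have h3 := hlt t h1 h2
    rw [h t h1 h2, Real.rpow_neg_one]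
    field_simp)
  refine ⟨_, he2, 1 / gG 1 * Real.exp 1 * 1, fun n => ?_⟩
  have h5 := he2.tauber_upper (s := 0) (c2 := 1 / gG 1) (by have := gG_one_pos; positivity)
    (fun r h1 h2 => by
      rw [neg_zero, Real.rpow_zero, mul_one]
      exact one_div_le_one_div_of_le gG_one_pos (gG_ge h1 h2)) n
  rw [Real.rpow_zero] at h5
  exact h5

/-- the asymptotics of the coefficients of `f_1`, with the constant -/
theorem coefG1_val : ∃ F1 : ℕ → ℝ, (∀ z : ℝ, |z| < 1 → HasSum (fun j => F1 j * z ^ j) (P2F.F1f z)) ∧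
    Tendsto (fun i : ℕ => F1 i / (i : ℝ) ^ (1 / 4 : ℝ)) atTop
      (𝓝 (K1 * (4 * h0) ^ (1 / 4 : ℝ) / Real.Gamma (5 / 4))) := by
  obtain ⟨g, hg, hgs⟩ := gG_isF.isW
  obtain ⟨e, he, M, hM⟩ := inv_gG
  have hb1 := Ex.P2.rep_rpow_neg (show (0 : ℝ) ≤ 5 / 4 by norm_num)
  have hb2 := Ex.P2.rep_rpow_neg (show (0 : ℝ) ≤ 3 / 4 by norm_num)
  refine ⟨fun m => K1 * (∑ k ∈ range (m + 1), g k * bc (5 / 4) (m - k) -
    ∑ k ∈ range (m + 1), e k * bc (3 / 4) (m - k)), fun z hz => ?_, ?_⟩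
  · obtain ⟨h1, h2⟩ := abs_lt.1 hz
    rw [F1f_eq hz]
    have hgn : Summable fun n : ℕ => ‖g n * z ^ n‖ := by
      refine Summable.of_nonneg_of_le (fun n => norm_nonneg _) (fun n => ?_) hg
      rw [norm_mul, norm_pow, Real.norm_eq_abs, Real.norm_eq_abs]
      exact mul_le_of_le_one_right (abs_nonneg _) (pow_le_one₀ (abs_nonneg _) hz.le)
    have s1 := conv_hasSum hgn (hb1.summable_abs hz) (hgs z h1.le h2) (hb1.2 z hz)
    have s2 := conv_hasSum (he.summable_abs hz) (hb2.summable_abs hz) (he.2 z hz) (hb2.2 z hz)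
    refine ((s1.sub s2).mul_left K1).congr_fun_eq fun m => ?_
    unfold bc
    ring
  · have t1 := conv_tendsto (s := 5 / 4) (by norm_num) hg
    rw [tsum_eq_of_cont gG_cont hg hgs, gG_one] at t1
    have t2 := bc_tendsto (s := 5 / 4) (by norm_num)
    have e1 : (5 / 4 - 1 : ℝ) = 1 / 4 := by norm_num
    rw [e1] at t2
    have t3 : Tendsto (fun m : ℕ => (∑ k ∈ range (m + 1), e k * bc (3 / 4) (m - k)) / (m : ℝ) ^ (1 / 4 : ℝ)) atTop (𝓝 0) := by
      have h1 : Tendsto (fun m : ℕ => M / (m : ℝ) ^ (1 / 4 : ℝ)) atTop (𝓝 0) :=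
        tendsto_const_nhds.div_atTop ((tendsto_rpow_atTop (by norm_num)).comp tendsto_natCast_atTop_atTop)
      refine squeeze_zero (fun m => ?_) (fun m => ?_) h1
      · apply div_nonneg _ (by positivity)
        exact sum_nonneg fun k _ => mul_nonneg (he.1 k) (bc_pos (by norm_num) _).le
      · apply div_le_div_of_nonneg_right _ (by positivity)
        refine le_trans (sum_le_sum fun k _ => ?_) (hM m)
        exact mul_le_of_le_one_right (he.1 k) (bc_le_one (by norm_num) (by norm_num) _)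
    have t4 := ((t1.mul t2).sub t3).const_mul K1
    have e2 : K1 * ((4 * h0) ^ (1 / 4 : ℝ) * (1 / Real.Gamma (5 / 4)) - 0) =
        K1 * (4 * h0) ^ (1 / 4 : ℝ) / Real.Gamma (5 / 4) := by ring
    rw [e2] at t4
    refine t4.congr fun m => ?_
    have h1 := bc_pos (show (0 : ℝ) < 5 / 4 by norm_num) m
    field_simp

theorem coefG1 : ∃ F1 : ℕ → ℝ, (∀ z : ℝ, |z| < 1 → HasSum (fun j => F1 j * z ^ j) (P2F.F1f z)) ∧
    ∃ C : ℝ, 0 < C ∧ Tendsto (fun i : ℕ => F1 i / (i : ℝ) ^ (1 / 4 : ℝ)) atTop (𝓝 C) := by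
  obtain ⟨F1, h1, h2⟩ := coefG1_val
  refine ⟨F1, h1, _, ?_, h2⟩
  have := K1_pos
  have := h0_pos
  have : 0 < Real.Gamma (5 / 4) := Real.Gamma_pos_of_pos (by norm_num)
  positivity

end EXG
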