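import Pool.Agent.Ex.P2F2

/-!
The coefficients of `f_*`: the limit of `(-1) ^ i * F2 i`, with its value.
-/

set_option autoImplicit false

open Finset P2F EXPW Filter Topology

namespace EXG

/-- Division by `1 + t`: the coefficients are asymptotically alternating. -/
theorem coef_lim_of_W {Φ : ℝ → ℝ} (hΦ : IsW Φ) (K : ℝ) :
    ∃ F : ℕ → ℝ, (∀ t : ℝ, |t| < 1 → HasSum (fun n => F n * t ^ n) (K * Φ t / (1 + t))) ∧
      Tendsto (fun n : ℕ => (-1 : ℝ) ^ n * F n) atTop (𝓝 (K * Φ (-1))) := by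
  obtain ⟨φ, hφ, hΦ⟩ := hΦ
  set P : ℕ → ℝ := fun n => ∑ i ∈ range (n + 1), φ i * (-1) ^ i with hPdef
  have hlim : Tendsto P atTop (𝓝 (Φ (-1))) := by
    have := (hΦ (-1) le_rfl (by norm_num)).tendsto_sum_nat
    exact (tendsto_add_atTop_iff_nat 1).2 this
  refine ⟨fun n => K * ((-1) ^ n * P n), ?_, ?_⟩
  · intro t ht
    have ht1 : |t| ≤ 1 := ht.le
    have ht' := abs_lt.1 ht
    have hpos : 0 < 1 + t := by linarith
    have hg : HasSum (fun n : ℕ => (-1 : ℝ) ^ n * t ^ n) (1 + t)⁻¹ := by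
      have := hasSum_geometric_of_abs_lt_one (r := -t) (by rwa [abs_neg])
      rw [sub_neg_eq_add] at this
      convert this using 2 with n
      rw [← mul_pow]
      ring
    have hn1 : Summable fun n : ℕ => ‖φ n * t ^ n‖ := by
      refine Summable.of_nonneg_of_le (fun n => norm_nonneg _) (fun n => ?_) hφ
      rw [norm_mul, norm_pow, Real.norm_eq_abs, Real.norm_eq_abs]
      exact mul_le_of_le_one_right (abs_nonneg _) (pow_le_one₀ (abs_nonneg _) ht1)
    have hn2 : Summable fun n : ℕ => ‖(-1 : ℝ) ^ n * t ^ n‖ := by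
      have := summable_geometric_of_lt_one (abs_nonneg t) ht
      convert this using 2 with n
      rw [norm_mul, norm_pow, norm_pow, norm_neg, norm_one, one_pow, one_mul, Real.norm_eq_abs]
    have hs := (summable_norm_sum_mul_antidiagonal_of_summable_norm hn1 hn2).of_norm.hasSum
    have h := tsum_mul_tsum_eq_tsum_sum_antidiagonal_of_summable_norm hn1 hn2
    rw [← h, (hΦ t ht'.1.le ht'.2).tsum_eq, hg.tsum_eq] at hs
    have h2 := hs.mul_left K
    rw [show K * Φ t / (1 + t) = K * (Φ t * (1 + t)⁻¹) by rw [div_eq_mul_inv]; ring]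
    refine h2.congr_fun_eq ?_
    intro n
    rw [Finset.Nat.sum_antidiagonal_eq_sum_range_succ_mk, hPdef, mul_assoc]
    congr 1
    simp only
    rw [Finset.mul_sum, Finset.sum_mul]
    refine Finset.sum_congr rfl fun i hi => ?_
    have hi' : i ≤ n := Nat.lt_succ_iff.1 (mem_range.1 hi)
    obtain ⟨m, rfl⟩ := Nat.exists_eq_add_of_le hi'
    rw [Nat.add_sub_cancel_left, pow_add, pow_add]
    have : ((-1 : ℝ) ^ i) * (-1) ^ i = 1 := by
      rw [← mul_pow]
      norm_num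
    linear_combination (φ i * (-1) ^ m * t ^ i * t ^ m) * this
  · refine (hlim.const_mul K).congr fun n => ?_
    have : ((-1 : ℝ) ^ n) * (-1) ^ n = 1 := by
      rw [← mul_pow]
      norm_num
    linear_combination (-(K * P n)) * this

/-- the value at `t = -1` (where `S = r₁`) -/
theorem Phi_neg_one : Ex.P2.Phi (-1) = 4 * √2 * r2 / √3 := by
  have hS : SS (-1) = r1 := by
    have h : hh (-1) = 0 := by
      unfold hh
      ring
    have h2 : SS (-1) ^ 2 = r1 ^ 2 := by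
      rw [SS_sq, h, r1_sq]
      norm_num
    exact (pow_left_inj₀ (SS_pos _).le r1_pos.le two_ne_zero).1 h2
  have h2 : √2 * √2 = 2 := Real.mul_self_sqrt (by norm_num)
  have h3 : √3 * √3 = 3 := Real.mul_self_sqrt (by norm_num)
  have p1 := r1_pos
  have p2 := r2_pos
  have p3 := s0_pos
  have p4 := s1_pos
  have p5 := s2_pos
  have p6 := s3_pos
  have p7 : 0 < √2 := by positivity
  have p8 : 0 < √3 := by positivity
  have q1 := r1_sq
  have q2 := r1_mul_r2
  have q3 := r2_sq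
  -- `r₂ = r₁ (√2 - 1)`
  have q4 : r2 = r1 * (√2 - 1) := by
    have : r1 * r2 = r1 * (r1 * (√2 - 1)) := by
      rw [q2]
      linear_combination (-(√2 - 1)) * q1 - h2
    exact mul_left_cancel₀ p1.ne' this
  -- the four factors
  have a1 : (r1 + s2) * (r1 + s3) = 3 * (1 + √2) := by
    linear_combination 2 * q1 + r1 * s2_add_s3 + s2_mul_s3
  have a2 : (r1 - s1) * (r1 + s0) = 1 + √2 := by
    linear_combination q1 + r1 * s0_sub_s1 - s0_mul_s1 + q2
  have a3 : (r1 ^ 2 - s1 ^ 2) * (r1 ^ 2 - s2 ^ 2) = √3 := by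
    have e : r1 ^ 4 = 6 + 4 * √2 := by
      linear_combination (r1 ^ 2 + 2 + √2) * q1 + h2
    linear_combination (-r1 ^ 2) * s1_sq_add + s1_mul_s2 + e - 4 * q1
  have a4 : ((r1 + s1) * (r1 - s2)) * (3 * (1 + √2) * (1 + √2)) = √3 * ((r1 + s3) * (r1 + s0)) := by
    rw [← a3]
    have e : 3 * (1 + √2) * (1 + √2) = ((r1 + s2) * (r1 + s3)) * ((r1 - s1) * (r1 + s0)) := by
      rw [a1, a2]
    rw [e]
    ring
  have hd : 0 < (r1 + s3) * (r1 + s0) := by positivity
  have hu : 0 < 3 * (1 + √2) * (1 + √2) := by positivity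
  have a5 : (r1 + s1) * (r1 - s2) / ((r1 + s3) * (r1 + s0)) = √3 / (3 * (1 + √2) * (1 + √2)) := by
    rw [div_eq_div_iff hd.ne' hu.ne']
    exact a4
  unfold Ex.P2.Phi
  rw [hS]
  have a6 : (1 - (-1 : ℝ)) * ((r1 - 1 / r1) * (r1 + r1) * (r1 + r2) * (r1 + s1) * (r1 - s2)) /
      ((r1 + s3) * (r1 + s0)) = 2 * ((r1 - 1 / r1) * (r1 + r1) * (r1 + r2)) *
      ((r1 + s1) * (r1 - s2) / ((r1 + s3) * (r1 + s0))) := by
    ring
  rw [a6, a5]
  have a7 : (r1 - 1 / r1) * (r1 + r1) = 2 * (1 + √2) := by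
    field_simp
    linear_combination 2 * q1
  rw [a7]
  have a8 : r1 + r2 = √2 * r1 := by
    rw [q4]
    ring
  have a9 : r1 = (1 + √2) * r2 := by
    rw [q4]
    linear_combination (-r1) * h2
  rw [a8]
  have hne : 1 + √2 ≠ 0 := by positivity
  have a10 : 2 * (2 * (1 + √2) * (√2 * r1)) * (√3 / (3 * (1 + √2) * (1 + √2))) =
      4 * √2 * (r1 / (1 + √2)) * (√3 / 3) := by
    field_simp
    ring
  have a11 : r1 / (1 + √2) = r2 := by
    rw [div_eq_iff hne]
    linarith [a9]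
  have a12 : √3 / 3 = 1 / √3 := by
    rw [div_eq_div_iff (by norm_num) p8.ne']
    linarith
  rw [a10, a11, a12]
  ring

/-- the limit of the alternating coefficients of `f_*` -/
theorem coefG2' : ∃ F2 : ℕ → ℝ, (∀ z : ℝ, |z| < 1 → HasSum (fun j => F2 j * z ^ j) (P2F.Fsf z)) ∧
    Tendsto (fun i : ℕ => (-1 : ℝ) ^ i * F2 i) atTop (𝓝 (2 / 3 * K1 * Ex.P2.Phi (-1))) := by
  obtain ⟨F, hF, hb⟩ := coef_lim_of_W Ex.P2.isW_Phi (2 / 3 * K1)
  refine ⟨F, fun z hz => ?_, hb⟩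
  have h := hF z hz
  convert h using 1
  unfold Fsf Ex.P2.Phi
  ring

/-- the limit of the alternating coefficients of `f_*`, with its value -/
theorem coefG2_val : ∃ F2 : ℕ → ℝ, (∀ z : ℝ, |z| < 1 → HasSum (fun j => F2 j * z ^ j) (P2F.Fsf z)) ∧
    Tendsto (fun i : ℕ => (-1 : ℝ) ^ i * F2 i) atTop (𝓝 (8 * √2 / (3 * √3) * r2 * K1)) := by
  obtain ⟨F, hF, hb⟩ := coef_lim_of_W Ex.P2.isW_Phi (2 / 3 * K1)
  refine ⟨F, fun z hz => ?_, ?_⟩
  · have h := hF z hz
    convert h using 1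
    unfold Fsf Ex.P2.Phi
    ring
  · rw [Phi_neg_one] at hb
    convert hb using 2
    have p8 : 0 < √3 := by positivity
    field_simp
    ring

theorem coefG2 : ∃ F2 : ℕ → ℝ, (∀ z : ℝ, |z| < 1 → HasSum (fun j => F2 j * z ^ j) (P2F.Fsf z)) ∧
    ∃ C : ℝ, C ≠ 0 ∧ Tendsto (fun i : ℕ => (-1 : ℝ) ^ i * F2 i) atTop (𝓝 C) := by
  obtain ⟨F, hF, hb⟩ := coefG2_val
  refine ⟨F, hF, _, ?_, hb⟩
  have := r2_pos
  have := K1_pos
  positivity

end EXG
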