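import Pool.Agent.EXG.Emb
import Pool.Agent.EXG.Carl5

/-!
EXG/Const1 (helper42): the limit operator R of the bridge problem in the variable x; explicit solution of
U = V + 1_{x<1} R U by the Carleman type function W 0.
-/

set_option autoImplicit false

namespace EXG

open Real MeasureTheory Filter Topology Set Ex.P2

noncomputable section

/-- the explicit solution -/
def ut (x : ℝ) : ℝ := (Iio (1 : ℝ)).indicator (fun x => x ^ (1 / 4 : ℝ) * Carl.W 0 (x ^ (3 / 2 : ℝ))) x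

/-- its image -/
def Hf (x : ℝ) : ℝ := x ^ (1 / 4 : ℝ) * Carl.KK (Carl.W 0) (x ^ (3 / 2 : ℝ))

lemma ph_pow {x : ℝ} (hx : 0 < x) : Carl.ph (x ^ (3 / 2 : ℝ)) = x ^ (-(1 / 2) : ℝ) := by
  unfold Carl.ph
  rw [← Real.rpow_mul hx.le]
  norm_num

lemma quarter {x : ℝ} (hx : 0 < x) : x ^ (1 / 4 : ℝ) * x ^ (-(1 / 2) : ℝ) = x ^ (-(1 / 4) : ℝ) := by
  rw [← Real.rpow_add hx]
  norm_num

lemma pow_cont : ContinuousOn (fun x : ℝ => x ^ (3 / 2 : ℝ)) (Ioi 0) := by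
  refine ContinuousOn.rpow_const continuousOn_id fun x hx => Or.inl (ne_of_gt hx)

lemma pow_maps : MapsTo (fun x : ℝ => x ^ (3 / 2 : ℝ)) (Ioi 0) (Ioi 0) := fun _ hx => Real.rpow_pos_of_pos hx _

lemma q_cont : ContinuousOn (fun x : ℝ => x ^ (1 / 4 : ℝ)) (Ioi 0) := by
  refine ContinuousOn.rpow_const continuousOn_id fun x hx => Or.inl (ne_of_gt hx)

lemma uu_meas : AEStronglyMeasurable (fun x : ℝ => x ^ (1 / 4 : ℝ) * Carl.W 0 (x ^ (3 / 2 : ℝ)))
    (volume.restrict (Ioi (0 : ℝ))) :=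
  (q_cont.mul ((Carl.W_cont 0).comp pow_cont pow_maps)).aestronglyMeasurable measurableSet_Ioi

lemma ut_meas : AEStronglyMeasurable ut (volume.restrict (Ioi (0 : ℝ))) :=
  uu_meas.indicator measurableSet_Iio

lemma Hf_meas : AEStronglyMeasurable Hf (volume.restrict (Ioi (0 : ℝ))) :=
  (q_cont.mul ((Carl.KK_cont (Carl.W_Bd 0)).comp pow_cont pow_maps)).aestronglyMeasurable measurableSet_Ioi

lemma ut_abs {x : ℝ} (hx : 0 < x) : |ut x| ≤ (Iio (1 : ℝ)).indicator (fun x => 4 * x ^ (-(1 / 4) : ℝ)) x := by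
  unfold ut
  by_cases h : x ∈ Iio (1 : ℝ)
  · rw [indicator_of_mem h, indicator_of_mem h]
    have h1 : x < 1 := h
    have h2 := (Carl.W_Bd 0).le (x ^ (3 / 2 : ℝ)) (Real.rpow_pos_of_pos hx _)
      (Real.rpow_le_one hx.le h1.le (by norm_num))
    rw [ph_pow hx] at h2
    rw [abs_mul, abs_of_pos (Real.rpow_pos_of_pos hx _), ← quarter hx]
    have := mul_le_mul_of_nonneg_left h2 (Real.rpow_pos_of_pos hx (1 / 4 : ℝ)).le
    linarith
  · rw [indicator_of_notMem h, indicator_of_notMem h, abs_zero]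

lemma ind_int {c : ℝ} (hc : -1 < c) : Integrable ((Iio (1 : ℝ)).indicator fun x : ℝ => x ^ c)
    (volume.restrict (Ioi (0 : ℝ))) := by
  rw [integrable_indicator_iff measurableSet_Iio, IntegrableOn, Measure.restrict_restrict measurableSet_Iio]
  have h := (intervalIntegral.integrableOn_Ioo_rpow_iff (s := c) (t := 1) one_pos).2 hc
  rwa [IntegrableOn, ← Ioi_inter_Iio, inter_comm] at h

lemma ut_int : Integrable ut (volume.restrict (Ioi (0 : ℝ))) := by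
  refine Integrable.mono' ((ind_int (c := -(1 / 4)) (by norm_num)).const_mul 4) ut_meas ?_
  filter_upwards [ae_restrict_mem measurableSet_Ioi] with x hx
  refine (ut_abs hx).trans (le_of_eq ?_)
  by_cases h : x ∈ Iio (1 : ℝ)
  · rw [indicator_of_mem h, indicator_of_mem h]
  · rw [indicator_of_notMem h, indicator_of_notMem h, mul_zero]

lemma ut_memLp : MemLp ut 2 (volume.restrict (Ioi (0 : ℝ))) := by
  rw [memLp_two_iff_integrable_sq ut_meas]
  refine Integrable.mono' ((ind_int (c := -(1 / 2)) (by norm_num)).const_mul 16) (ut_meas.pow 2) ?_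
  filter_upwards [ae_restrict_mem measurableSet_Ioi] with x hx
  have hx0 : 0 < x := hx
  rw [Real.norm_eq_abs, abs_pow]
  have h := ut_abs hx0
  by_cases h1 : x ∈ Iio (1 : ℝ)
  · rw [indicator_of_mem h1] at h ⊢
    calc |ut x| ^ 2 ≤ (4 * x ^ (-(1 / 4) : ℝ)) ^ 2 := pow_le_pow_left₀ (abs_nonneg _) h 2
      _ = 16 * x ^ (-(1 / 2) : ℝ) := by
        rw [mul_pow, ← Real.rpow_mul_natCast hx0.le]
        norm_num
  · rw [indicator_of_notMem h1] at h ⊢
    have h2 : |ut x| = 0 := le_antisymm h (abs_nonneg _)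
    rw [h2]
    norm_num

lemma KK_far {X : ℝ} (hX : 0 < X) : |Carl.KK (Carl.W 0) X| ≤ 1 / (2 * π) * Carl.m 0 0 * X⁻¹ := by
  have hn := Carl.KK_nonneg (f := Carl.W 0) (fun Y (h1 : (0 : ℝ) < Y) _ => Carl.W_nonneg 0 h1) hX
  rw [abs_of_nonneg hn]
  unfold Carl.KK Carl.m
  have hp : (0 : ℝ) ≤ 1 / (2 * π) := by positivity
  have e : 1 / (2 * π) * (∫ Y in Ioc (0 : ℝ) 1, Y ^ 0 * Carl.W 0 Y) * X⁻¹ =
      1 / (2 * π) * ∫ Y in Ioc (0 : ℝ) 1, X⁻¹ * (Y ^ 0 * Carl.W 0 Y) := by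
    rw [integral_const_mul]
    ring
  rw [e]
  refine mul_le_mul_of_nonneg_left ?_ hp
  have hI := (Carl.W_Bd 0).int
  have hI' : IntegrableOn (fun Y => X⁻¹ * (Y ^ 0 * Carl.W 0 Y)) (Ioc 0 1) := by
    simp only [pow_zero, one_mul]
    exact hI.const_mul _
  refine setIntegral_mono_on ((Carl.W_Bd 0).kint hX) hI' measurableSet_Ioc fun Y hY => ?_
  have hY0 : 0 < Y := hY.1
  have hW := Carl.W_nonneg 0 hY0
  rw [pow_zero, one_mul, div_eq_inv_mul]
  refine mul_le_mul_of_nonneg_right ?_ hW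
  exact inv_anti₀ hX (by linarith)

lemma Hf_memLp : MemLp Hf 2 (volume.restrict (Ioi (0 : ℝ))) := by
  rw [memLp_two_iff_integrable_sq Hf_meas]
  set c : ℝ := (1 / (2 * π) * Carl.m 0 0) ^ 2 with hc
  have h1 : Integrable ((Iio (1 : ℝ)).indicator fun x : ℝ => x ^ (-(1 / 2) : ℝ))
    (volume.restrict (Ioi (0 : ℝ))) := ind_int (by norm_num)
  have h2 : Integrable ((Ici (1 : ℝ)).indicator fun x : ℝ => x ^ (-(5 / 2) : ℝ))
      (volume.restrict (Ioi (0 : ℝ))) := by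
    rw [integrable_indicator_iff measurableSet_Ici]
    have h3 : IntegrableOn (fun x : ℝ => x ^ (-(5 / 2) : ℝ)) (Ioi (1 / 2 : ℝ)) :=
      integrableOn_Ioi_rpow_of_lt (by norm_num) (by norm_num)
    have h4 : IntegrableOn (fun x : ℝ => x ^ (-(5 / 2) : ℝ)) (Ici (1 : ℝ)) :=
      h3.mono_set fun x hx => lt_of_lt_of_le (by norm_num) (show (1 : ℝ) ≤ x from hx)
    exact h4.mono_measure Measure.restrict_le_self
  refine Integrable.mono' ((h1.const_mul 9).add (h2.const_mul c)) (Hf_meas.pow 2) ?_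
  filter_upwards [ae_restrict_mem measurableSet_Ioi] with x hx
  have hx0 : 0 < x := hx
  have hX : 0 < x ^ (3 / 2 : ℝ) := Real.rpow_pos_of_pos hx0 _
  have hq : 0 < x ^ (1 / 4 : ℝ) := Real.rpow_pos_of_pos hx0 _
  rw [Real.norm_eq_abs, abs_pow]
  show |Hf x| ^ 2 ≤ 9 * (Iio (1 : ℝ)).indicator (fun x : ℝ => x ^ (-(1 / 2) : ℝ)) x +
    c * (Ici (1 : ℝ)).indicator (fun x : ℝ => x ^ (-(5 / 2) : ℝ)) x
  have habs : |Hf x| = x ^ (1 / 4 : ℝ) * |Carl.KK (Carl.W 0) (x ^ (3 / 2 : ℝ))| := by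
    unfold Hf
    rw [abs_mul, abs_of_pos hq]
  rcases lt_or_ge x 1 with h | h
  · have h3 : x ∉ Ici (1 : ℝ) := notMem_Ici.2 h
    have h4 : x ∈ Iio (1 : ℝ) := h
    rw [indicator_of_mem h4, indicator_of_notMem h3, mul_zero, add_zero]
    have h5 := Carl.KK_abs (Carl.W_Bd 0) hX
    rw [ph_pow hx0] at h5
    have h6 := Carl.th_lt
    have h7 : |Hf x| ≤ 3 * x ^ (-(1 / 4) : ℝ) := by
      rw [habs, ← quarter hx0]
      have h8 : 0 < x ^ (-(1 / 2) : ℝ) := Real.rpow_pos_of_pos hx0 _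
      have h9 : |Carl.KK (Carl.W 0) (x ^ (3 / 2 : ℝ))| ≤ 3 * x ^ (-(1 / 2) : ℝ) := by
        refine h5.trans ?_
        have : Carl.th * 4 ≤ 3 := by linarith
        exact mul_le_mul_of_nonneg_right this h8.le
      have := mul_le_mul_of_nonneg_left h9 hq.le
      linarith
    calc |Hf x| ^ 2 ≤ (3 * x ^ (-(1 / 4) : ℝ)) ^ 2 := pow_le_pow_left₀ (abs_nonneg _) h7 2
      _ = 9 * x ^ (-(1 / 2) : ℝ) := by
        rw [mul_pow, ← Real.rpow_mul_natCast hx0.le]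
        norm_num
  · have h3 : x ∈ Ici (1 : ℝ) := h
    have h4 : x ∉ Iio (1 : ℝ) := notMem_Iio.2 h
    rw [indicator_of_mem h3, indicator_of_notMem h4, mul_zero, zero_add]
    have h5 := KK_far hX
    have h7 : |Hf x| ≤ (1 / (2 * π) * Carl.m 0 0) * x ^ (-(5 / 4) : ℝ) := by
      rw [habs]
      have h8 : x ^ (-(5 / 4) : ℝ) = x ^ (1 / 4 : ℝ) * (x ^ (3 / 2 : ℝ))⁻¹ := by
        rw [← Real.rpow_neg hx0.le, ← Real.rpow_add hx0]
        norm_num
      rw [h8]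
      have := mul_le_mul_of_nonneg_left h5 hq.le
      linarith
    calc |Hf x| ^ 2 ≤ ((1 / (2 * π) * Carl.m 0 0) * x ^ (-(5 / 4) : ℝ)) ^ 2 :=
          pow_le_pow_left₀ (abs_nonneg _) h7 2
      _ = c * x ^ (-(5 / 2) : ℝ) := by
        rw [mul_pow, ← Real.rpow_mul_natCast hx0.le, hc]
        norm_num

end

end EXG
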