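import Mathlib

/-!
# EXG / Dens : the exponentials `e^{-(k+1) x}` are total in `L^2(0, ∞)`
-/

open MeasureTheory Set Filter Topology Polynomial

namespace EXG

/-- `L^2(0, ∞)` -/
noncomputable abbrev X := Lp ℝ 2 (volume.restrict (Ioi (0 : ℝ)))

lemma memLp_exp {a : ℝ} (ha : 0 < a) :
    MemLp (fun x : ℝ => Real.exp (-(a * x))) 2 (volume.restrict (Ioi (0 : ℝ))) := by
  have hm : AEStronglyMeasurable (fun x : ℝ => Real.exp (-(a * x)))
      (volume.restrict (Ioi (0 : ℝ))) := by
    apply Continuous.aestronglyMeasurable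
    fun_prop
  rw [memLp_two_iff_integrable_sq hm]
  have h1 : (fun x : ℝ => Real.exp (-(a * x)) ^ 2) = fun x => Real.exp (-(2 * a) * x) := by
    funext x
    rw [sq, ← Real.exp_add]
    congr 1
    ring
  rw [h1]
  exact exp_neg_integrableOn_Ioi 0 (by positivity)

/-- Weierstrass: a continuous function with compact support is, on `(0, ∞)`, within `δ e^{-x}` of
`e^{-x} p(e^{-x})` for a polynomial `p`. -/
lemma approx_poly (g : ℝ → ℝ) (hg : Continuous g) (hs : HasCompactSupport g) (δ : ℝ)
    (hδ : 0 < δ) : ∃ p : ℝ[X], ∀ x : ℝ, 0 < x →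
      |Real.exp (-x) * p.eval (Real.exp (-x)) - g x| ≤ δ * Real.exp (-x) := by
  have hcont : ContinuousOn (fun u : ℝ => g (-Real.log u) * u⁻¹) (Icc 0 1) := by
    intro u hu
    rcases eq_or_lt_of_le hu.1 with h0 | h0
    · subst h0
      -- near `0` the function vanishes
      obtain ⟨R, hR⟩ := hs.isCompact.isBounded.subset_closedBall 0
      have hz : ∀ x : ℝ, R < |x| → g x = 0 := by
        intro x hx
        by_contra hne
        have : x ∈ tsupport g := subset_tsupport g hne
        have := hR this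
        rw [Metric.mem_closedBall, dist_zero_right, Real.norm_eq_abs] at this
        linarith
      have hev : (fun u : ℝ => g (-Real.log u) * u⁻¹) =ᶠ[𝓝 0] fun _ => 0 := by
        have h1 : ∀ᶠ u : ℝ in 𝓝[≠] 0, R < |Real.log u| := by
          have h2 := Real.tendsto_log_nhdsNE_zero
          have h3 : Tendsto (fun u : ℝ => |Real.log u|) (𝓝[≠] 0) atTop :=
            tendsto_abs_atBot_atTop.comp h2
          exact h3.eventually_gt_atTop R
        rw [eventually_nhdsWithin_iff] at h1
        filter_upwards [h1] with u hu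
        rcases eq_or_ne u 0 with rfl | hne
        · simp
        · rw [hz (-Real.log u) (by rw [abs_neg]; exact hu hne), zero_mul]
      exact (hev.continuousAt).continuousWithinAt
    · have : ContinuousAt (fun u : ℝ => g (-Real.log u) * u⁻¹) u := by
        refine ContinuousAt.mul ?_ (continuousAt_inv₀ h0.ne')
        exact hg.continuousAt.comp (Real.continuousAt_log h0.ne').neg
      exact this.continuousWithinAt
  obtain ⟨p, hp⟩ := exists_polynomial_near_of_continuousOn 0 1 _ hcont δ hδ
  refine ⟨p, fun x hx => ?_⟩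
  have hu0 : 0 < Real.exp (-x) := Real.exp_pos _
  have hu1 : Real.exp (-x) ≤ 1 := Real.exp_le_one_iff.2 (by linarith)
  have h := hp (Real.exp (-x)) ⟨hu0.le, hu1⟩
  rw [Real.log_exp, neg_neg] at h
  have h2 : Real.exp (-x) * p.eval (Real.exp (-x)) - g x =
      Real.exp (-x) * (p.eval (Real.exp (-x)) - g x * (Real.exp (-x))⁻¹) := by
    field_simp
  rw [h2, abs_mul, abs_of_pos hu0, mul_comm]
  exact mul_le_mul_of_nonneg_right h.le hu0.le

/-- The functions `e^{-(k+1)x}` form a total subset of `L^2(0, ∞)`. -/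
theorem dense_exp (e : ℕ → X) (he : ∀ k, ⇑(e k) =ᵐ[volume.restrict (Ioi (0 : ℝ))]
      fun x => Real.exp (-(((k : ℝ) + 1) * x))) :
    Dense (Submodule.span ℝ (range e) : Set X) := by
  rw [Metric.dense_iff]
  intro f r hr
  -- first a continuous function with compact support
  have hf : MemLp ((Ioi (0 : ℝ)).indicator ⇑f) 2 volume :=
    (memLp_indicator_iff_restrict measurableSet_Ioi).2 (Lp.memLp f)
  obtain ⟨g, hgs, hgf, hgc, hgL⟩ := hf.exists_hasCompactSupport_eLpNorm_sub_le
    (by norm_num) (ε := ENNReal.ofReal (r / 4)) (by simpa using hr)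
  have hgf' : eLpNorm (⇑f - g) 2 (volume.restrict (Ioi (0 : ℝ))) ≤ ENNReal.ofReal (r / 4) := by
    refine le_trans ?_ hgf
    have h1 : eLpNorm (⇑f - g) 2 (volume.restrict (Ioi (0 : ℝ))) =
        eLpNorm ((Ioi (0 : ℝ)).indicator ⇑f - g) 2 (volume.restrict (Ioi (0 : ℝ))) := by
      apply eLpNorm_congr_ae
      filter_upwards [ae_restrict_mem measurableSet_Ioi] with x hx
      simp [Pi.sub_apply, indicator_of_mem hx]
    rw [h1]
    exact eLpNorm_mono_measure _ Measure.restrict_le_self
  -- then the polynomial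
  obtain ⟨p, hp⟩ := approx_poly g hgc hgs (r / 4) (by positivity)
  refine ⟨∑ k ∈ Finset.range (p.natDegree + 1), p.coeff k • e k, ?_, ?_⟩
  swap
  · exact Submodule.sum_mem _ fun k _ => Submodule.smul_mem _ _ (Submodule.subset_span ⟨k, rfl⟩)
  rw [Metric.mem_ball, dist_comm, dist_eq_norm]
  set s : X := ∑ k ∈ Finset.range (p.natDegree + 1), p.coeff k • e k with hs
  have hsae : ⇑s =ᵐ[volume.restrict (Ioi (0 : ℝ))]
      fun x => Real.exp (-x) * p.eval (Real.exp (-x)) := by
    have h1 : ⇑s =ᵐ[volume.restrict (Ioi (0 : ℝ))]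
        fun x => ∑ k ∈ Finset.range (p.natDegree + 1), p.coeff k * (e k) x := by
      have h2 := Lp.coeFn_finsetSum (E := ℝ) (p := 2) (μ := volume.restrict (Ioi (0 : ℝ)))
        (Finset.range (p.natDegree + 1)) (fun k => p.coeff k • e k)
      refine h2.trans ?_
      have h3 : ∀ᵐ x ∂(volume.restrict (Ioi (0 : ℝ))), ∀ k ∈ Finset.range (p.natDegree + 1),
          (p.coeff k • e k : X) x = p.coeff k * (e k) x := by
        rw [eventually_all_finset]
        intro k _
        filter_upwards [Lp.coeFn_smul (p.coeff k) (e k)] with x hx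
        rw [hx]; rfl
      filter_upwards [h3] with x hx
      rw [Finset.sum_apply]
      exact Finset.sum_congr rfl hx
    have h4 : ∀ᵐ x ∂(volume.restrict (Ioi (0 : ℝ))), ∀ k, (e k) x =
        Real.exp (-(((k : ℝ) + 1) * x)) := ae_all_iff.2 he
    filter_upwards [h1, h4] with x hx hx4
    rw [hx, Polynomial.eval_eq_sum_range, Finset.mul_sum]
    refine Finset.sum_congr rfl fun k _ => ?_
    rw [hx4 k, ← Real.exp_nat_mul]
    rw [show -(((k : ℝ) + 1) * x) = -x + k * -x by ring, Real.exp_add]
    ring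
  have hnorm : ‖f - s‖ ≤ r / 4 + r / 4 := by
    have h1 : ‖f - s‖ = (eLpNorm (⇑(f - s)) 2 (volume.restrict (Ioi (0 : ℝ)))).toReal := by
      rw [Lp.norm_def]
    have h2 : eLpNorm (⇑(f - s)) 2 (volume.restrict (Ioi (0 : ℝ))) =
        eLpNorm ((⇑f - g) + (g - fun x => Real.exp (-x) * p.eval (Real.exp (-x)))) 2
          (volume.restrict (Ioi (0 : ℝ))) := by
      apply eLpNorm_congr_ae
      filter_upwards [Lp.coeFn_sub f s, hsae] with x h3 h4
      simp only [Pi.add_apply, Pi.sub_apply]
      rw [h3, Pi.sub_apply, h4]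
      ring
    have hgm : MemLp g 2 (volume.restrict (Ioi (0 : ℝ))) := hgL.restrict _
    have hm1 : AEStronglyMeasurable (⇑f - g) (volume.restrict (Ioi (0 : ℝ))) :=
      (Lp.aestronglyMeasurable f).sub hgm.1
    have hm2 : AEStronglyMeasurable (g - fun x => Real.exp (-x) * p.eval (Real.exp (-x)))
        (volume.restrict (Ioi (0 : ℝ))) := by
      refine hgm.1.sub (Continuous.aestronglyMeasurable ?_)
      have := p.continuous
      fun_prop
    have h5 : eLpNorm (g - fun x => Real.exp (-x) * p.eval (Real.exp (-x))) 2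
        (volume.restrict (Ioi (0 : ℝ))) ≤ ENNReal.ofReal (r / 4) := by
      have h6 : eLpNorm (g - fun x => Real.exp (-x) * p.eval (Real.exp (-x))) 2
          (volume.restrict (Ioi (0 : ℝ))) ≤
          eLpNorm (fun x : ℝ => (r / 4) * Real.exp (-x)) 2 (volume.restrict (Ioi (0 : ℝ))) := by
        apply eLpNorm_mono_ae
        filter_upwards [ae_restrict_mem measurableSet_Ioi] with x hx
        rw [Pi.sub_apply, Real.norm_eq_abs, Real.norm_eq_abs, abs_sub_comm]
        exact (hp x hx).trans (le_abs_self _)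
      refine h6.trans ?_
      have h7 : (fun x : ℝ => (r / 4) * Real.exp (-x)) = (r / 4) • fun x : ℝ => Real.exp (-x) := by
        funext x; rfl
      rw [h7, eLpNorm_const_smul]
      have h8 : eLpNorm (fun x : ℝ => Real.exp (-x)) 2 (volume.restrict (Ioi (0 : ℝ))) ≤ 1 := by
        rw [eLpNorm_eq_lintegral_rpow_enorm_toReal (by norm_num) (by norm_num)]
        simp only [ENNReal.toReal_ofNat]
        have h9 : ∫⁻ x in Ioi (0 : ℝ), ‖Real.exp (-x)‖ₑ ^ (2 : ℝ) ≤ 1 := by
          have h10 : ∀ x : ℝ, ‖Real.exp (-x)‖ₑ ^ (2 : ℝ) = ENNReal.ofReal (Real.exp (-2 * x)) := by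
            intro x
            rw [Real.enorm_eq_ofReal (Real.exp_pos _).le,
              ENNReal.ofReal_rpow_of_pos (Real.exp_pos _), ← Real.exp_mul]
            congr 2
            ring
          simp_rw [h10]
          rw [← ofReal_integral_eq_lintegral_ofReal (exp_neg_integrableOn_Ioi 0 two_pos)
            (Eventually.of_forall fun x => (Real.exp_pos _).le)]
          rw [integral_exp_mul_Ioi (by norm_num) 0]
          rw [ENNReal.ofReal_le_one]
          norm_num
        calc (∫⁻ x in Ioi (0 : ℝ), ‖Real.exp (-x)‖ₑ ^ (2 : ℝ)) ^ (1 / (2 : ℝ))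
            ≤ 1 ^ (1 / (2 : ℝ)) := ENNReal.rpow_le_rpow h9 (by norm_num)
          _ = 1 := ENNReal.one_rpow _
      calc ‖r / 4‖ₑ * eLpNorm (fun x : ℝ => Real.exp (-x)) 2 (volume.restrict (Ioi (0 : ℝ)))
          ≤ ‖r / 4‖ₑ * 1 := mul_le_mul_right h8 _
        _ = ENNReal.ofReal (r / 4) := by
          rw [mul_one, Real.enorm_eq_ofReal (by positivity)]
    rw [h1, h2]
    have h6 := (eLpNorm_add_le hm1 hm2 (by norm_num)).trans (add_le_add hgf' h5)
    rw [← ENNReal.ofReal_add (by positivity) (by positivity)] at h6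
    exact ENNReal.toReal_le_of_le_ofReal (by positivity) h6
  linarith

end EXG
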