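import Pool.Agent.Ex.P2Hv
import Pool.Agent.Ex.P2Lim
import Pool.Agent.EXG.Dens

/-!
SHARP asymptotics of the bridge weights (proof/SHARP_h81): definitions.
-/

set_option autoImplicit false

namespace EXG

open Real MeasureTheory Filter Topology Set Ex.P2

/-- square summable sequences -/
abbrev L2N := lp (fun _ : ℕ => ℝ) 2

/-- the exponential exp (- a x) as an element of L²(0, ∞) -/
noncomputable def eps (a : ℝ) : X :=
  open Classical in if h : 0 < a then (memLp_exp h).toLp (fun x : ℝ => exp (-(a * x))) else 0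

/-- the isometry I maps the basis vector i to the normalised indicator of [i / n, (i + 1) / n), with sign s ^ i -/
def IsStep (n : ℕ) (s : ℝ) (I : L2N →ₗᵢ[ℝ] X) : Prop :=
  ∀ i : ℕ, (I (ev i) : ℝ → ℝ) =ᵐ[volume.restrict (Ioi (0 : ℝ))]
    fun x => √(n : ℝ) * s ^ i * (Ico ((i : ℝ) / n) (((i : ℝ) + 1) / n)).indicator (fun _ => (1 : ℝ)) x

/-- the first n coefficients of F as a vector -/
noncomputable def Fv (F : ℕ → ℝ) (n : ℕ) : L2N := ∑ i ∈ Finset.range n, F i • ev i

/-- truncation to the coordinates below n -/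
noncomputable def tr (n : ℕ) : L2N →L[ℝ] L2N :=
  ∑ i ∈ Finset.range n, (innerSL ℝ (ev i)).smulRight (ev i)

theorem tr_apply (n : ℕ) (x : L2N) : tr n x = ∑ i ∈ Finset.range n, inner ℝ (ev i) x • ev i := by
  unfold tr
  simp

section
variable {H : Type} [NormedAddCommGroup H] [InnerProductSpace ℝ H] [CompleteSpace H]

/-- the operator 1 - T* T -/
noncomputable def AA (T : L2N →L[ℝ] H) : L2N →L[ℝ] L2N :=
  ContinuousLinearMap.id ℝ L2N - (ContinuousLinearMap.adjoint T) ∘L T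

/-- T has the two sided bound -/
def Sand (T : L2N →L[ℝ] H) : Prop := ∀ x, (1 / 2) * ‖x‖ ^ 2 ≤ ‖T x‖ ^ 2 ∧ ‖T x‖ ^ 2 ≤ ‖x‖ ^ 2

end

/-- the rescaled operator on L²(0, ∞) -/
noncomputable def RR (I : L2N →ₗᵢ[ℝ] X) (A : L2N →L[ℝ] L2N) : X →L[ℝ] X :=
  I.toContinuousLinearMap ∘L A ∘L ContinuousLinearMap.adjoint I.toContinuousLinearMap

/-- cos (2 x) as a function of t -/
noncomputable def cf (t : ℝ) : ℝ := (P2F.SS t ^ 3 - 3 * P2F.SS t) / 2

/-- the kernel of the weight w in the variable t -/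
noncomputable def Kf (s t : ℝ) : ℝ := P2F.F1f s * P2F.F1f t / P2F.H (cf s) (cf t)

/-- the variable t at the point x = i y -/
noncomputable def tt (y : ℝ) : ℝ := (cosh (8 * y / 3) - P2F.h0) / (cosh (8 * y / 3) + P2F.h0)

/-- the factor of the translation y -> y + η / 2 -/
noncomputable def rr (y η : ℝ) : ℝ :=
  ((1 - tt (y + η / 2)) * sinh (4 * (y + η / 2) / 3)) / ((1 - tt y) * sinh (4 * y / 3))

/-- the normalisation in the variable s -/
noncomputable def sg (s : ℝ) : ℝ := (2 * √2 / (3 * P2F.h0)) * (sin (4 * P2F.xx s / 3) * (1 - s))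

/-- kernel of wt at (x, i y) -/
noncomputable def Gk (x y : ℝ) : ℝ :=
  (4 * √2 / 3) * (sin (4 * x / 3) * sinh (4 * y / 3)) / (cos (8 * x / 3) + cosh (8 * y / 3))

/-- kernel of w at (x, i y) -/
noncomputable def Nk (x y : ℝ) : ℝ := sin (2 * x) * sinh (2 * y) / P2F.H (cos (2 * x)) (cosh (2 * y))

end EXG
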