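import Pool.Agent.EXS.Disp
import Pool.Agent.EXG.Defs

/-!
# The sech identity

`G(x,y) - N(x,y) = (1/2π) ∫ G(x, y + η/2) / cosh η dη`: Poisson formula at the centre of the strip
`|Re ζ| ≤ π/4` for the function `Et - E`.
-/

set_option autoImplicit false

open Complex Set MeasureTheory Filter Topology

namespace EXG

noncomputable section

/-! ### The integral of `1 / cosh` -/

lemma inv_cosh_le (y : ℝ) : (Real.cosh y)⁻¹ ≤ 2 * Real.exp (-1 * |y|) := by
  have h1 : Real.cosh y = Real.cosh |y| := (Real.cosh_abs y).symm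
  have h2 : Real.exp |y| / 2 ≤ Real.cosh |y| := by
    rw [Real.cosh_eq]
    have := Real.exp_pos (-|y|)
    linarith
  rw [h1, show -1 * |y| = -|y| by ring, Real.exp_neg]
  have h3 : 0 < Real.exp |y| := Real.exp_pos _
  have h4 : 0 < Real.cosh |y| := Real.cosh_pos _
  rw [inv_le_comm₀ h4 (by positivity)]
  rw [mul_inv, inv_inv]
  linarith

lemma integrable_inv_cosh : Integrable fun y : ℝ => (Real.cosh y)⁻¹ := by
  refine ((EXS.int_exp_abs (b := 1) one_pos).const_mul 2).mono' ?_ ?_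
  · exact (Real.continuous_cosh.inv₀ fun y => (Real.cosh_pos y).ne').aestronglyMeasurable
  · refine Eventually.of_forall fun y => ?_
    rw [Real.norm_eq_abs, abs_of_pos (inv_pos.2 (Real.cosh_pos y))]
    exact inv_cosh_le y

lemma sinh_top : Tendsto Real.sinh atTop atTop := by
  refine tendsto_atTop_mono' atTop ?_ tendsto_id
  filter_upwards [eventually_ge_atTop (0:ℝ)] with y hy
  exact Real.self_le_sinh_iff.2 hy

lemma integral_inv_cosh : ∫ y : ℝ, (Real.cosh y)⁻¹ = Real.pi := by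
  have hd : ∀ y : ℝ, HasDerivAt (fun y => Real.arctan (Real.sinh y)) ((Real.cosh y)⁻¹) y := by
    intro y
    have h := (Real.hasDerivAt_sinh y).arctan
    convert h using 1
    rw [← Real.cosh_sq' y]
    have := (Real.cosh_pos y).ne'
    field_simp
  have htop : Tendsto (fun y => Real.arctan (Real.sinh y)) atTop (𝓝 (Real.pi / 2)) :=
    (tendsto_nhds_of_tendsto_nhdsWithin Real.tendsto_arctan_atTop).comp sinh_top
  have hbot : Tendsto (fun y => Real.arctan (Real.sinh y)) atBot (𝓝 (-(Real.pi / 2))) := by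
    have h1 : Tendsto Real.sinh atBot atBot := by
      have h2 : Tendsto (fun y : ℝ => - Real.sinh (-y)) atBot atBot :=
        tendsto_neg_atTop_atBot.comp (sinh_top.comp tendsto_neg_atBot_atTop)
      refine h2.congr fun y => ?_
      rw [Real.sinh_neg, neg_neg]
    exact (tendsto_nhds_of_tendsto_nhdsWithin Real.tendsto_arctan_atBot).comp h1
  rw [integral_of_hasDerivAt_of_tendsto hd integrable_inv_cosh hbot htop]
  ring

/-! ### The Poisson formula at the centre of the strip -/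

/-- `(f z - f 0) / sin (2 z)`. -/
def kp (f : ℂ → ℂ) (z : ℂ) : ℂ := dslope f 0 z / EXS.sg 2 z

lemma kp_of_ne {f : ℂ → ℂ} {z : ℂ} (h : z ≠ 0) : kp f z = (f z - f 0) / Complex.sin (2 * z) := by
  unfold kp
  rw [dslope_of_ne _ h, slope_def_field, EXS.sg_of_ne h, sub_zero, div_div_div_cancel_right₀ h]
  push_cast
  rfl

lemma two_eq : (2 : ℝ) = Real.pi / (2 * (Real.pi / 4)) := by
  have := Real.pi_ne_zero
  field_simp
  norm_num

lemma sin_right (y : ℝ) : Complex.sin (2 * ((Real.pi / 4 : ℝ) + y * I)) = (Real.cosh (2 * y) : ℝ) := by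
  have e : 2 * (((Real.pi / 4 : ℝ) : ℂ) + y * I) = (2 * y : ℝ) * I + Real.pi / 2 := by
    push_cast; ring
  rw [e, Complex.sin_add_pi_div_two, Complex.cos_mul_I, Complex.ofReal_cosh]

lemma sin_left (y : ℝ) :
    Complex.sin (2 * (-((Real.pi / 4 : ℝ) : ℂ) + y * I)) = -((Real.cosh (2 * y) : ℝ) : ℂ) := by
  have e : 2 * (-((Real.pi / 4 : ℝ) : ℂ) + y * I) = (2 * y : ℝ) * I - Real.pi / 2 := by
    push_cast; ring
  rw [e, Complex.sin_sub_pi_div_two, Complex.cos_mul_I, Complex.ofReal_cosh]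

theorem pois0 {f : ℂ → ℂ} {C : ℝ} (hc : ContinuousOn f {z : ℂ | |z.re| ≤ Real.pi / 4})
    (hd : ∀ z : ℂ, |z.re| < Real.pi / 4 → DifferentiableAt ℂ f z)
    (hb : ∀ z : ℂ, |z.re| ≤ Real.pi / 4 → ‖f z‖ ≤ C) :
    Integrable (fun y : ℝ => (f ((Real.pi / 4 : ℝ) + y * I) + f (-((Real.pi / 4 : ℝ) : ℂ) + y * I)) *
      ((Real.cosh (2 * y))⁻¹ : ℝ)) ∧
    ∫ y : ℝ, (f ((Real.pi / 4 : ℝ) + y * I) + f (-((Real.pi / 4 : ℝ) : ℂ) + y * I)) *
      ((Real.cosh (2 * y))⁻¹ : ℝ) = Real.pi * f 0 := by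
  set a : ℝ := Real.pi / 4 with ha'
  have hpi := Real.pi_pos
  have ha : 0 < a := by positivity
  have h2a : (2 : ℝ) = Real.pi / (2 * a) := two_eq
  have hd0 : DifferentiableAt ℂ f 0 := hd 0 (by simpa using ha)
  have hC : 0 ≤ C := (norm_nonneg _).trans (hb 0 (by simpa using ha.le))
  have hmem : {z : ℂ | |z.re| ≤ a} ∈ 𝓝 (0:ℂ) := by
    have hop : IsOpen {z : ℂ | |z.re| < a} :=
      isOpen_lt (continuous_abs.comp Complex.continuous_re) continuous_const
    exact Filter.mem_of_superset (hop.mem_nhds (by simpa using ha))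
      fun z (hz : |z.re| < a) => (le_of_lt hz : |z.re| ≤ a)
  have hkc : ContinuousOn (kp f) {z : ℂ | |z.re| ≤ a} := by
    unfold kp
    refine ContinuousOn.div ((continuousOn_dslope hmem).2 ⟨hc, hd0⟩) ?_ ?_
    · intro z _
      exact (EXS.sg_cont 2 z).continuousWithinAt
    · intro z hz
      refine EXS.sg_ne ha h2a ?_
      have : |z.re| ≤ a := hz
      linarith
  have hkd : ∀ z : ℂ, |z.re| < a → z ≠ 0 → DifferentiableAt ℂ (kp f) z := by
    intro z hz hne
    unfold kp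
    refine DifferentiableAt.div ((differentiableAt_dslope_of_ne hne).2 (hd z hz))
      (EXS.sg_diff 2 hne) (EXS.sg_ne ha h2a (by linarith))
  -- integrability
  have hra : Continuous fun y : ℝ => ((a:ℂ) + y * I) := by fun_prop
  have hla : Continuous fun y : ℝ => (-(a:ℂ) + y * I) := by fun_prop
  have hfa : Continuous fun y : ℝ => f (a + y * I) := by
    refine hc.comp_continuous hra ?_
    intro y; simp [abs_of_pos ha]
  have hfl : Continuous fun y : ℝ => f (-a + y * I) := by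
    refine hc.comp_continuous hla ?_
    intro y; simp [abs_of_pos ha]
  have hsc : Integrable fun y : ℝ => (Real.cosh (2 * y))⁻¹ :=
    integrable_inv_cosh.comp_mul_left' two_ne_zero
  have hscC : Integrable fun y : ℝ => (((Real.cosh (2 * y))⁻¹ : ℝ) : ℂ) := hsc.ofReal
  have hsch : Continuous fun y : ℝ => (((Real.cosh (2 * y))⁻¹ : ℝ) : ℂ) := by
    refine Complex.continuous_ofReal.comp ?_
    exact (Real.continuous_cosh.comp (continuous_const.mul continuous_id)).inv₀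
      fun y => (Real.cosh_pos _).ne'
  set h : ℝ → ℂ := fun y => (f (a + y * I) + f (-a + y * I)) * ((Real.cosh (2 * y))⁻¹ : ℝ) with hh
  have hint : Integrable h := by
    refine (hsc.const_mul (2 * C)).mono' ((hfa.add hfl).mul hsch).aestronglyMeasurable
      (Eventually.of_forall fun y => ?_)
    have hp : 0 < (Real.cosh (2 * y))⁻¹ := inv_pos.2 (Real.cosh_pos _)
    rw [hh]
    simp only
    rw [norm_mul, Complex.norm_real, Real.norm_eq_abs, abs_of_pos hp]
    have h1 : ‖f (a + y * I)‖ ≤ C := hb _ (by simp [abs_of_pos ha])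
    have h2 : ‖f (-a + y * I)‖ ≤ C := hb _ (by simp [abs_of_pos ha])
    have h3 : ‖f (a + y * I) + f (-a + y * I)‖ ≤ 2 * C := (norm_add_le _ _).trans (by linarith)
    gcongr
  refine ⟨hint, ?_⟩
  -- the rectangle
  have hrect : ∀ Y : ℝ, 0 < Y →
      (∫ x in (-a)..a, kp f (x + (-Y : ℝ) * I)) - (∫ x in (-a)..a, kp f (x + Y * I)) +
        I * (∫ y in (-Y)..Y, kp f (a + y * I)) -
        I * (∫ y in (-Y)..Y, kp f (-a + y * I)) = 0 := by
    intro Y hY
    have h1 := Complex.integral_boundary_rect_eq_zero_of_differentiable_on_off_countable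
      (kp f) (-(a:ℂ) + (-Y : ℝ) * I) ((a:ℂ) + Y * I) {0} (countable_singleton 0) ?_ ?_
    · simpa using h1
    · refine hkc.mono ?_
      intro z hz
      have hz1 := hz.1
      simp only [mem_preimage] at hz1
      have : z.re ∈ Set.uIcc (-a) a := by simpa using hz1
      rw [uIcc_of_le (by linarith : -a ≤ a)] at this
      exact abs_le.2 this
    · intro z hz
      obtain ⟨hz1, hz2⟩ := hz
      have hz3 : z.re ∈ Ioo (-a) a := by
        have := hz1.1
        simp only [mem_preimage] at this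
        simpa [min_eq_left (by linarith : -a ≤ a), max_eq_right (by linarith : -a ≤ a)] using this
      exact hkd z (abs_lt.2 hz3) hz2
  -- vertical sides
  set h2 : ℝ → ℂ := fun y => h y - 2 * f 0 * ((Real.cosh (2 * y))⁻¹ : ℝ) with hh2
  have hint2 : Integrable h2 := hint.sub (hscC.const_mul (2 * f 0))
  have hvert : ∀ Y : ℝ, 0 < Y → I * (∫ y in (-Y)..Y, kp f (a + y * I)) -
        I * (∫ y in (-Y)..Y, kp f (-a + y * I)) = I * ∫ y in (-Y)..Y, h2 y := by
    intro Y _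
    have c1 : Continuous fun y : ℝ => kp f (a + y * I) := by
      refine hkc.comp_continuous hra ?_
      intro y; simp [abs_of_pos ha]
    have c2 : Continuous fun y : ℝ => kp f (-a + y * I) := by
      refine hkc.comp_continuous hla ?_
      intro y; simp [abs_of_pos ha]
    rw [← mul_sub, ← intervalIntegral.integral_sub (c1.intervalIntegrable _ _)
      (c2.intervalIntegrable _ _)]
    congr 1
    apply intervalIntegral.integral_congr
    intro y _
    have n1 : (a:ℂ) + y * I ≠ 0 := by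
      intro e
      have := congrArg Complex.re e
      simp at this
      exact ha.ne' this
    have n2 : -(a:ℂ) + y * I ≠ 0 := by
      intro e
      have := congrArg Complex.re e
      simp at this
      exact ha.ne' this
    simp only
    rw [kp_of_ne n1, kp_of_ne n2, sin_right, sin_left, hh2, hh]
    simp only
    rw [Complex.ofReal_inv]
    ring
  -- horizontal sides
  have hhor : ∀ z : ℂ, |z.re| ≤ a → z.im ≠ 0 →
      ‖kp f z‖ ≤ 2 * C / Real.sinh (2 * |z.im|) := by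
    intro z hz hy
    have hne : z ≠ 0 := by intro e; rw [e] at hy; exact hy rfl
    have hpos : 0 < Real.sinh (2 * |z.im|) := Real.sinh_pos_iff.2 (by
      have := abs_pos.2 hy
      linarith)
    have hs := EXS.norm_sin_ge (2 * z)
    have him : (2 * z : ℂ).im = 2 * z.im := by simp
    rw [him, Real.abs_sinh, abs_mul, abs_two] at hs
    rw [kp_of_ne hne, norm_div]
    have h3 : ‖f z - f 0‖ ≤ 2 * C :=
      (norm_sub_le _ _).trans (by linarith [hb z hz, hb 0 (by simpa using ha.le)])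
    gcongr
  have herr : Tendsto (fun Y : ℝ => 2 * C / Real.sinh (2 * Y) * |a - -a|) atTop (𝓝 0) := by
    have h4 : Tendsto (fun Y : ℝ => (Real.sinh (2 * Y))⁻¹) atTop (𝓝 0) :=
      tendsto_inv_atTop_zero.comp (sinh_top.comp (tendsto_id.const_mul_atTop two_pos))
    have h5 := (h4.const_mul (2 * C)).mul_const |a - -a|
    simpa [div_eq_mul_inv] using h5
  have htop : Tendsto (fun Y : ℝ => ∫ x in (-a)..a, kp f (x + Y * I)) atTop (𝓝 0) := by
    rw [tendsto_zero_iff_norm_tendsto_zero]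
    refine squeeze_zero' (Eventually.of_forall fun _ => norm_nonneg _) ?_ herr
    filter_upwards [eventually_gt_atTop (0:ℝ)] with Y hY
    refine intervalIntegral.norm_integral_le_of_norm_le_const ?_
    intro x hx'
    rw [uIoc_of_le (by linarith)] at hx'
    have hxa : |((x:ℂ) + Y * I).re| ≤ a := by
      simpa using abs_le.2 ⟨hx'.1.le, hx'.2⟩
    have him : ((x:ℂ) + Y * I).im = Y := by simp
    have := hhor _ hxa (by rw [him]; exact hY.ne')
    rwa [him, abs_of_pos hY] at this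
  have hbot : Tendsto (fun Y : ℝ => ∫ x in (-a)..a, kp f (x + (-Y : ℝ) * I)) atTop (𝓝 0) := by
    rw [tendsto_zero_iff_norm_tendsto_zero]
    refine squeeze_zero' (Eventually.of_forall fun _ => norm_nonneg _) ?_ herr
    filter_upwards [eventually_gt_atTop (0:ℝ)] with Y hY
    refine intervalIntegral.norm_integral_le_of_norm_le_const ?_
    intro x hx'
    rw [uIoc_of_le (by linarith)] at hx'
    have hxa : |((x:ℂ) + (-Y : ℝ) * I).re| ≤ a := by
      simpa using abs_le.2 ⟨hx'.1.le, hx'.2⟩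
    have him : ((x:ℂ) + (-Y : ℝ) * I).im = -Y := by simp
    have := hhor _ hxa (by rw [him]; simpa using hY.ne')
    rwa [him, abs_neg, abs_of_pos hY] at this
  have hver : Tendsto (fun Y : ℝ => ∫ y in (-Y)..Y, h2 y) atTop (𝓝 (∫ y, h2 y)) :=
    intervalIntegral_tendsto_integral hint2 tendsto_neg_atTop_atBot tendsto_id
  have hlim := (hbot.sub htop).add (hver.const_mul I)
  have hzero : Tendsto (fun Y : ℝ => (∫ x in (-a)..a, kp f (x + (-Y : ℝ) * I)) -
      (∫ x in (-a)..a, kp f (x + Y * I)) + I * ∫ y in (-Y)..Y, h2 y) atTop (𝓝 0) := by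
    refine Tendsto.congr' ?_ tendsto_const_nhds
    filter_upwards [eventually_gt_atTop 0] with Y hY
    have h1 := hrect Y hY
    rw [add_sub_assoc, hvert Y hY] at h1
    exact h1.symm
  have key := tendsto_nhds_unique hlim hzero
  have hI : ∫ y, h2 y = 0 := by
    have : I * (∫ y, h2 y) = 0 := by simpa using key
    exact (mul_eq_zero.1 this).resolve_left Complex.I_ne_zero
  rw [hh2, integral_sub hint (hscC.const_mul (2 * f 0)), integral_const_mul, integral_complex_ofReal,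
    sub_eq_zero] at hI
  rw [hI, Measure.integral_comp_mul_left (fun y : ℝ => (Real.cosh y)⁻¹) 2, integral_inv_cosh]
  rw [abs_of_pos (by norm_num : (0:ℝ) < 2⁻¹), smul_eq_mul]
  push_cast
  ring

/-! ### The function `g = Et - E` -/

/-- `Et - E` as a function of `C = cos (2 z / 3)`. -/
def gC (t C : ℂ) : ℂ := (4 / 3 * t * C + 5 / 3) / ((C + t / 2) * (4 * C ^ 2 + 2 * t * C - 1))

/-- the functional equation -/
lemma gC_add {t P Q : ℂ} (ht : t ^ 2 = 2) (h : P ^ 2 - P * Q + Q ^ 2 = 3 / 4)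
    (hP : (P + t / 2) * (4 * P ^ 2 + 2 * t * P - 1) ≠ 0)
    (hQ : (Q + t / 2) * (4 * Q ^ 2 + 2 * t * Q - 1) ≠ 0)
    (h0 : 2 * (P * Q) - 1 / 2 ≠ 0) :
    gC t P + gC t Q = (2 / 3 * t) / (2 * (P * Q) - 1 / 2) := by
  unfold gC
  rw [div_add_div _ _ hP hQ, div_eq_div_iff (mul_ne_zero hP hQ) h0]
  linear_combination (32/3*P^2*Q^2*t + 40/3*P^2*Q + 40/3*P*Q^2 + 8*P*Q*t - 2/3*P - 2/3*Q -
    2/3*t) * h + ((-8/3)*P^3*Q*t + 4/3*P^3 - 16/3*P^2*Q^2*t - 8/3*P^2*Q*t^2 - 10/3*P^2*Q +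
    4/3*P^2*t - 8/3*P*Q^3*t - 8/3*P*Q^2*t^2 - 10/3*P*Q^2 - 2/3*P*Q*t^3 - 4/3*P*Q*t + 1/3*P*t^2 -
    1/6*P + 4/3*Q^3 + 4/3*Q^2*t + 1/3*Q*t^2 - 1/6*Q - 1/6*t) * ht

/-- the partial fractions -/
lemma gC_eq {t C : ℂ} (ht : t ^ 2 = 2) (hC : (C + t / 2) * (4 * C ^ 2 + 2 * t * C - 1) ≠ 0)
    (h0 : 2 * C ^ 2 - 1 ≠ 0) :
    gC t C = (2 / 3 * t) / (2 * C ^ 2 - 1) - 1 / (4 * C ^ 3 - 3 * C + t / 2) := by
  have e1 : 2 * C ^ 2 - 1 = 2 * ((C - t / 2) * (C + t / 2)) := by
    linear_combination (1 / 2) * ht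
  have e2 : 4 * C ^ 3 - 3 * C + t / 2 = (C - t / 2) * (4 * C ^ 2 + 2 * t * C - 1) := by
    linear_combination (C) * ht
  rw [e1] at h0
  have h1 : C + t / 2 ≠ 0 := left_ne_zero_of_mul hC
  have h2 : 4 * C ^ 2 + 2 * t * C - 1 ≠ 0 := right_ne_zero_of_mul hC
  have h3 : C - t / 2 ≠ 0 := left_ne_zero_of_mul (right_ne_zero_of_mul h0)
  unfold gC
  rw [e1, e2, div_sub_div _ _ h0 (mul_ne_zero h3 h2), div_eq_div_iff hC
    (mul_ne_zero h0 (mul_ne_zero h3 h2))]
  linear_combination (-32/3*C^5 - 16/3*C^4*t + 8/3*C^3*t^2 + 8/3*C^3 + 4/3*C^2*t^3 -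
    2/3*C*t^2) * ht

/-- `√2` as a complex number -/
def t2 : ℂ := ((√2 : ℝ) : ℂ)

lemma t2_sq : t2 ^ 2 = 2 := by
  unfold t2
  rw [← Complex.ofReal_pow, Real.sq_sqrt (by norm_num)]
  norm_num

/-- `Et - E` -/
def gg (z : ℂ) : ℂ := gC t2 (Complex.cos (2 * z / 3))

lemma rho_diff : Real.cos (Real.pi / 12) - Real.cos (5 * Real.pi / 12) = √2 / 2 := by
  rw [Real.cos_sub_cos, show (Real.pi / 12 + 5 * Real.pi / 12) / 2 = Real.pi / 4 by ring,
    show (Real.pi / 12 - 5 * Real.pi / 12) / 2 = -(Real.pi / 6) by ring, Real.sin_neg,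
    Real.sin_pi_div_four, Real.sin_pi_div_six]
  ring

lemma rho_mul : Real.cos (Real.pi / 12) * Real.cos (5 * Real.pi / 12) = 1 / 4 := by
  have h1 := Real.cos_add (Real.pi / 12) (5 * Real.pi / 12)
  have h2 := Real.cos_sub (Real.pi / 12) (5 * Real.pi / 12)
  rw [show Real.pi / 12 + 5 * Real.pi / 12 = Real.pi / 2 by ring, Real.cos_pi_div_two] at h1
  rw [show Real.pi / 12 - 5 * Real.pi / 12 = -(Real.pi / 3) by ring, Real.cos_neg,
    Real.cos_pi_div_three] at h2
  linarith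

lemma quad_fac (C : ℂ) : 4 * C ^ 2 + 2 * t2 * C - 1 =
    4 * ((C - (Real.cos (5 * Real.pi / 12) : ℝ)) * (C + (Real.cos (Real.pi / 12) : ℝ))) := by
  have h1 : ((Real.cos (Real.pi / 12) : ℝ) : ℂ) - ((Real.cos (5 * Real.pi / 12) : ℝ) : ℂ) =
      t2 / 2 := by
    rw [← Complex.ofReal_sub, rho_diff]; unfold t2; push_cast; ring
  have h2 : ((Real.cos (Real.pi / 12) : ℝ) : ℂ) * ((Real.cos (5 * Real.pi / 12) : ℝ) : ℂ) =
      1 / 4 := by
    rw [← Complex.ofReal_mul, rho_mul]; push_cast; ring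
  linear_combination (-4 * C) * h1 + 4 * h2

lemma cos_re (w : ℂ) : (Complex.cos w).re = Real.cos w.re * Real.cosh w.im := by
  conv_lhs => rw [← Complex.re_add_im w, Complex.cos_add_mul_I]
  simp [Complex.sin_ofReal_re, Complex.cosh_ofReal_re, Complex.cos_ofReal_re,
    Complex.sinh_ofReal_re]

lemma cos_im (w : ℂ) : (Complex.cos w).im = -(Real.sin w.re * Real.sinh w.im) := by
  conv_lhs => rw [← Complex.re_add_im w, Complex.cos_add_mul_I]
  simp [Complex.sin_ofReal_re, Complex.cosh_ofReal_re, Complex.cos_ofReal_re,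
    Complex.sinh_ofReal_re]

/-- bounds for `C = cos (2 z / 3)` in the strip -/
lemma cos_strip {z : ℂ} (hz : |z.re| ≤ 7 * Real.pi / 16) :
    Real.cos (7 * Real.pi / 24) * Real.cosh (2 * z.im / 3) ≤ (Complex.cos (2 * z / 3)).re ∧
      ‖Complex.cos (2 * z / 3)‖ ≤ Real.cosh (2 * z.im / 3) := by
  have hpi := Real.pi_pos
  have hre : (2 * z / 3 : ℂ).re = 2 * z.re / 3 := by
    rw [show (2 * z / 3 : ℂ) = ((2 / 3 : ℝ) : ℂ) * z by push_cast; ring, Complex.re_ofReal_mul]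
    ring
  have him : (2 * z / 3 : ℂ).im = 2 * z.im / 3 := by
    rw [show (2 * z / 3 : ℂ) = ((2 / 3 : ℝ) : ℂ) * z by push_cast; ring, Complex.im_ofReal_mul]
    ring
  constructor
  · rw [cos_re, hre, him]
    apply mul_le_mul_of_nonneg_right _ (Real.cosh_pos _).le
    rw [← Real.cos_abs (2 * z.re / 3)]
    apply Real.cos_le_cos_of_nonneg_of_le_pi (abs_nonneg _) (by linarith)
    rw [abs_div, abs_mul, abs_two, abs_of_pos (by norm_num : (0:ℝ) < 3)]
    linarith
  · have h1 := EXS.norm_sin_le (2 * z / 3 + Real.pi / 2)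
    rw [Complex.sin_add_pi_div_two] at h1
    have h2 : (2 * z / 3 + Real.pi / 2 : ℂ).im = 2 * z.im / 3 := by
      rw [Complex.add_im, him]
      have : ((Real.pi : ℂ) / 2).im = 0 := by
        rw [show (Real.pi : ℂ) / 2 = ((Real.pi / 2 : ℝ) : ℂ) by push_cast; ring]
        exact Complex.ofReal_im _
      rw [this, add_zero]
    rwa [h2] at h1

lemma del_pos : 0 < Real.cos (7 * Real.pi / 24) - Real.cos (5 * Real.pi / 12) := by
  have hpi := Real.pi_pos
  have := Real.cos_lt_cos_of_nonneg_of_le_pi (x := 7 * Real.pi / 24) (y := 5 * Real.pi / 12)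
    (by positivity) (by linarith) (by linarith)
  linarith

lemma rho_pos : 0 < Real.cos (5 * Real.pi / 12) := by
  have hpi := Real.pi_pos
  exact Real.cos_pos_of_mem_Ioo ⟨by linarith, by linarith⟩

lemma rho'_pos : 0 < Real.cos (Real.pi / 12) := by
  have hpi := Real.pi_pos
  exact Real.cos_pos_of_mem_Ioo ⟨by linarith, by linarith⟩

/-- lower bounds of the three factors -/
lemma fac_bounds {z : ℂ} (hz : |z.re| ≤ 7 * Real.pi / 16) :
    √2 / 2 ≤ ‖Complex.cos (2 * z / 3) + t2 / 2‖ ∧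
    (Real.cos (7 * Real.pi / 24) - Real.cos (5 * Real.pi / 12)) * Real.cosh (2 * z.im / 3) ≤
      ‖Complex.cos (2 * z / 3) - (Real.cos (5 * Real.pi / 12) : ℝ)‖ ∧
    Real.cos (Real.pi / 12) ≤ ‖Complex.cos (2 * z / 3) + (Real.cos (Real.pi / 12) : ℝ)‖ := by
  obtain ⟨h1, -⟩ := cos_strip hz
  have h2 := Real.one_le_cosh (2 * z.im / 3)
  have h3 := rho_pos
  have h4 := del_pos
  have h5 : 0 ≤ (Complex.cos (2 * z / 3)).re := by
    refine le_trans ?_ h1
    have : 0 < Real.cos (7 * Real.pi / 24) := by linarith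
    positivity
  refine ⟨?_, ?_, ?_⟩
  · have := Complex.re_le_norm (Complex.cos (2 * z / 3) + t2 / 2)
    have e : (Complex.cos (2 * z / 3) + t2 / 2).re = (Complex.cos (2 * z / 3)).re + √2 / 2 := by
      unfold t2
      rw [Complex.add_re, show ((√2 : ℝ) : ℂ) / 2 = ((√2 / 2 : ℝ) : ℂ) by push_cast; ring,
        Complex.ofReal_re]
    rw [e] at this
    linarith
  · have := Complex.re_le_norm (Complex.cos (2 * z / 3) - (Real.cos (5 * Real.pi / 12) : ℝ))
    rw [Complex.sub_re, Complex.ofReal_re] at this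
    nlinarith
  · have := Complex.re_le_norm (Complex.cos (2 * z / 3) + (Real.cos (Real.pi / 12) : ℝ))
    rw [Complex.add_re, Complex.ofReal_re] at this
    linarith

lemma den_ne {z : ℂ} (hz : |z.re| ≤ 7 * Real.pi / 16) :
    (Complex.cos (2 * z / 3) + t2 / 2) *
      (4 * Complex.cos (2 * z / 3) ^ 2 + 2 * t2 * Complex.cos (2 * z / 3) - 1) ≠ 0 := by
  obtain ⟨h1, h2, h3⟩ := fac_bounds hz
  have h4 := del_pos
  have h5 := rho'_pos
  have h6 := Real.cosh_pos (2 * z.im / 3)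
  rw [quad_fac]
  refine mul_ne_zero ?_ (mul_ne_zero (by norm_num) (mul_ne_zero ?_ ?_))
  · exact norm_pos_iff.1 (lt_of_lt_of_le (by positivity) h1)
  · exact norm_pos_iff.1 (lt_of_lt_of_le (by positivity) h2)
  · exact norm_pos_iff.1 (lt_of_lt_of_le h5 h3)

lemma gg_diff {z : ℂ} (hz : |z.re| ≤ 7 * Real.pi / 16) : DifferentiableAt ℂ gg z := by
  unfold gg gC
  refine DifferentiableAt.div (by fun_prop) (by fun_prop) (den_ne hz)

/-- the bound of `g` -/
def Kg : ℝ := (4 / 3 * √2 + 5 / 3) / ((√2 / 2) * (4 *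
  ((Real.cos (7 * Real.pi / 24) - Real.cos (5 * Real.pi / 12)) * Real.cos (Real.pi / 12))))

lemma gg_le {z : ℂ} (hz : |z.re| ≤ 7 * Real.pi / 16) : ‖gg z‖ ≤ Kg := by
  obtain ⟨h1, h2, h3⟩ := fac_bounds hz
  obtain ⟨-, h0⟩ := cos_strip hz
  have h4 := del_pos
  have h5 := rho'_pos
  have h6 := Real.one_le_cosh (2 * z.im / 3)
  set c := Real.cosh (2 * z.im / 3) with hc
  have hc0 : 0 < c := by linarith
  unfold gg gC Kg
  rw [quad_fac, norm_div, norm_mul, norm_mul, norm_mul]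
  have hn : ‖4 / 3 * t2 * Complex.cos (2 * z / 3) + 5 / 3‖ ≤ (4 / 3 * √2 + 5 / 3) * c := by
    refine (norm_add_le _ _).trans ?_
    rw [norm_mul, norm_mul]
    have e1 : ‖t2‖ = √2 := by
      unfold t2
      rw [Complex.norm_real, Real.norm_eq_abs, abs_of_nonneg (Real.sqrt_nonneg _)]
    have e2 : ‖(4 / 3 : ℂ)‖ = 4 / 3 := by
      rw [show (4 / 3 : ℂ) = ((4 / 3 : ℝ) : ℂ) by push_cast; ring, Complex.norm_real]
      norm_num
    have e3 : ‖(5 / 3 : ℂ)‖ = 5 / 3 := by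
      rw [show (5 / 3 : ℂ) = ((5 / 3 : ℝ) : ℂ) by push_cast; ring, Complex.norm_real]
      norm_num
    rw [e1, e2, e3]
    have e4 : 4 / 3 * √2 * ‖Complex.cos (2 * z / 3)‖ ≤ 4 / 3 * √2 * c := by gcongr
    nlinarith
  have e4 : ‖(4 : ℂ)‖ = 4 := by norm_num
  rw [e4]
  have hd : √2 / 2 * (4 * (((Real.cos (7 * Real.pi / 24) - Real.cos (5 * Real.pi / 12)) * c) *
      Real.cos (Real.pi / 12))) ≤ ‖Complex.cos (2 * z / 3) + t2 / 2‖ *
      (4 * (‖Complex.cos (2 * z / 3) - (Real.cos (5 * Real.pi / 12) : ℝ)‖ *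
      ‖Complex.cos (2 * z / 3) + (Real.cos (Real.pi / 12) : ℝ)‖)) := by
    gcongr
  have hd0 : 0 < √2 / 2 * (4 * (((Real.cos (7 * Real.pi / 24) - Real.cos (5 * Real.pi / 12)) * c) *
      Real.cos (Real.pi / 12))) := by positivity
  calc _ ≤ (4 / 3 * √2 + 5 / 3) * c / (√2 / 2 * (4 *
        (((Real.cos (7 * Real.pi / 24) - Real.cos (5 * Real.pi / 12)) * c) *
        Real.cos (Real.pi / 12)))) := by
        gcongr
    _ = _ := by
        have := hc0.ne'
        have h7 := h4.ne'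
        field_simp

/-! ### The functional equation and the imaginary parts -/

/-- `Et (z) = (2 √2 / 3) / cos (4 z / 3)` -/
def Etc (z : ℂ) : ℂ := (2 / 3 * t2) / Complex.cos (4 * z / 3)

lemma cos_four_ne {z : ℂ} (hz : |z.re| < 3 * Real.pi / 8) : Complex.cos (4 * z / 3) ≠ 0 := by
  intro h
  have h1 := EXS.norm_cos_ge (4 * z / 3)
  have hre : (4 * z / 3 : ℂ).re = 4 * z.re / 3 := by
    rw [show (4 * z / 3 : ℂ) = ((4 / 3 : ℝ) : ℂ) * z by push_cast; ring, Complex.re_ofReal_mul]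
    ring
  rw [h, norm_zero, hre] at h1
  have h2 : 0 < Real.cos (4 * z.re / 3) := by
    have := abs_lt.1 hz
    exact Real.cos_pos_of_mem_Ioo ⟨by linarith, by linarith⟩
  have h3 := Real.cosh_pos (4 * z / 3 : ℂ).im
  rw [abs_of_pos h2] at h1
  have := mul_pos h2 h3
  linarith

lemma fe {z : ℂ} (hz : |z.re| < 3 * Real.pi / 16) :
    gg (z + (Real.pi / 4 : ℝ)) + gg (z - (Real.pi / 4 : ℝ)) = Etc z := by
  have hpi := Real.pi_pos
  have hz' := abs_lt.1 hz
  have s1 : |(z + ((Real.pi / 4 : ℝ) : ℂ)).re| ≤ 7 * Real.pi / 16 := by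
    rw [Complex.add_re, Complex.ofReal_re, abs_le]
    constructor <;> linarith
  have s2 : |(z - ((Real.pi / 4 : ℝ) : ℂ)).re| ≤ 7 * Real.pi / 16 := by
    rw [Complex.sub_re, Complex.ofReal_re, abs_le]
    constructor <;> linarith
  have e1 : 2 * (z + ((Real.pi / 4 : ℝ) : ℂ)) / 3 = 2 * z / 3 + (Real.pi / 6 : ℝ) := by
    push_cast; ring
  have e2 : 2 * (z - ((Real.pi / 4 : ℝ) : ℂ)) / 3 = 2 * z / 3 - (Real.pi / 6 : ℝ) := by
    push_cast; ring
  have hP := den_ne s1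
  have hQ := den_ne s2
  have h0 := cos_four_ne (z := z) (by linarith)
  unfold gg Etc
  rw [e1] at hP ⊢
  rw [e2] at hQ ⊢
  have c6 : Complex.cos ((Real.pi / 6 : ℝ) : ℂ) = ((√3 / 2 : ℝ) : ℂ) := by
    rw [← Complex.ofReal_cos, Real.cos_pi_div_six]
  have s6 : Complex.sin ((Real.pi / 6 : ℝ) : ℂ) = ((1 / 2 : ℝ) : ℂ) := by
    rw [← Complex.ofReal_sin, Real.sin_pi_div_six]
  have hs3 : (((√3 / 2 : ℝ) : ℂ)) ^ 2 = 3 / 4 := by
    rw [← Complex.ofReal_pow, div_pow, Real.sq_sqrt (by norm_num)]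
    push_cast; norm_num
  have hcs := Complex.sin_sq_add_cos_sq (2 * z / 3)
  have hc4 : Complex.cos (4 * z / 3) = 2 * Complex.cos (2 * z / 3) ^ 2 - 1 := by
    rw [← Complex.cos_two_mul]; congr 1; ring
  have eP : Complex.cos (2 * z / 3 + (Real.pi / 6 : ℝ)) = Complex.cos (2 * z / 3) *
      ((√3 / 2 : ℝ) : ℂ) - Complex.sin (2 * z / 3) * (1 / 2) := by
    rw [Complex.cos_add, c6, s6]; push_cast; ring
  have eQ : Complex.cos (2 * z / 3 - (Real.pi / 6 : ℝ)) = Complex.cos (2 * z / 3) *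
      ((√3 / 2 : ℝ) : ℂ) + Complex.sin (2 * z / 3) * (1 / 2) := by
    rw [Complex.cos_sub, c6, s6]; push_cast; ring
  have hrel : Complex.cos (2 * z / 3 + (Real.pi / 6 : ℝ)) ^ 2 -
      Complex.cos (2 * z / 3 + (Real.pi / 6 : ℝ)) * Complex.cos (2 * z / 3 - (Real.pi / 6 : ℝ)) +
      Complex.cos (2 * z / 3 - (Real.pi / 6 : ℝ)) ^ 2 = 3 / 4 := by
    rw [eP, eQ]
    linear_combination Complex.cos (2 * z / 3) ^ 2 * hs3 + (3 / 4) * hcs
  have hpq : 2 * (Complex.cos (2 * z / 3 + (Real.pi / 6 : ℝ)) *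
      Complex.cos (2 * z / 3 - (Real.pi / 6 : ℝ))) - 1 / 2 = Complex.cos (4 * z / 3) := by
    rw [hc4, eP, eQ]
    linear_combination 2 * Complex.cos (2 * z / 3) ^ 2 * hs3 - (1 / 2) * hcs
  rw [gC_add t2_sq hrel hP hQ (by rw [hpq]; exact h0), hpq]

lemma gg_eq {z : ℂ} (hz : |z.re| < 3 * Real.pi / 8) :
    gg z = Etc z - 1 / (Complex.cos (2 * z) + t2 / 2) := by
  have hpi := Real.pi_pos
  have hC := den_ne (z := z) (by linarith)
  have h0 := cos_four_ne hz
  have hc4 : Complex.cos (4 * z / 3) = 2 * Complex.cos (2 * z / 3) ^ 2 - 1 := by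
    rw [← Complex.cos_two_mul]; congr 1; ring
  have hc2 : Complex.cos (2 * z) = 4 * Complex.cos (2 * z / 3) ^ 3 - 3 * Complex.cos (2 * z / 3) := by
    rw [← Complex.cos_three_mul]; congr 1; ring
  rw [hc4] at h0
  unfold gg Etc
  rw [gC_eq t2_sq hC h0, hc4, hc2]

lemma im_div (a : ℝ) (w : ℂ) : ((a : ℂ) / w).im = -(a * w.im) / Complex.normSq w := by
  rw [Complex.div_im, Complex.ofReal_im, Complex.ofReal_re]
  ring

lemma Etc_im (x y : ℝ) : (Etc (x + y * I)).im = Gk x y := by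
  unfold Etc Gk
  have e0 : (2 / 3 * t2 : ℂ) = ((2 / 3 * √2 : ℝ) : ℂ) := by unfold t2; push_cast; ring
  have hre : (4 * (x + y * I) / 3 : ℂ).re = 4 * x / 3 := by
    rw [show (4 * (x + y * I) / 3 : ℂ) = ((4 * x / 3 : ℝ) : ℂ) + ((4 * y / 3 : ℝ) : ℂ) * I by
      push_cast; ring]
    simp
  have him : (4 * (x + y * I) / 3 : ℂ).im = 4 * y / 3 := by
    rw [show (4 * (x + y * I) / 3 : ℂ) = ((4 * x / 3 : ℝ) : ℂ) + ((4 * y / 3 : ℝ) : ℂ) * I by
      push_cast; ring]
    simp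
  rw [e0, im_div, Complex.normSq_apply, cos_re, cos_im, hre, him]
  have h1 : Real.cos (8 * x / 3) = 2 * Real.cos (4 * x / 3) ^ 2 - 1 := by
    rw [← Real.cos_two_mul]; congr 1; ring
  have h2 : Real.cosh (8 * y / 3) = Real.cosh (4 * y / 3) ^ 2 + Real.sinh (4 * y / 3) ^ 2 := by
    rw [← Real.cosh_two_mul]; congr 1; ring
  have h3 := Real.cosh_sq (4 * y / 3)
  have h4 := Real.sin_sq_add_cos_sq (4 * x / 3)
  have h5 : Real.cos (8 * x / 3) + Real.cosh (8 * y / 3) =
      2 * (Real.cos (4 * x / 3) * Real.cosh (4 * y / 3) *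
      (Real.cos (4 * x / 3) * Real.cosh (4 * y / 3)) +
      -(Real.sin (4 * x / 3) * Real.sinh (4 * y / 3)) *
      -(Real.sin (4 * x / 3) * Real.sinh (4 * y / 3))) := by
    rw [h1, h2]
    linear_combination (1 - 2 * Real.cos (4 * x / 3) ^ 2) * h3 +
      (-2 * Real.sinh (4 * y / 3) ^ 2) * h4
  have key : ∀ A D : ℝ, -(2 / 3 * √2 * -A) / D = 4 * √2 / 3 * A / (2 * D) := by
    intro A D; ring
  rw [h5]
  exact key _ _

lemma E_im (x y : ℝ) : (1 / (Complex.cos (2 * (x + y * I)) + t2 / 2)).im = Nk x y := by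
  unfold Nk P2F.H
  have hre : (2 * (x + y * I) : ℂ).re = 2 * x := by simp
  have him : (2 * (x + y * I) : ℂ).im = 2 * y := by simp
  have ht : (t2 / 2).re = √2 / 2 := by
    unfold t2
    rw [show ((√2 : ℝ) : ℂ) / 2 = ((√2 / 2 : ℝ) : ℂ) by push_cast; ring, Complex.ofReal_re]
  have ht' : (t2 / 2).im = 0 := by
    unfold t2
    rw [show ((√2 : ℝ) : ℂ) / 2 = ((√2 / 2 : ℝ) : ℂ) by push_cast; ring, Complex.ofReal_im]
  have h := im_div 1 (Complex.cos (2 * (x + y * I)) + t2 / 2)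
  rw [Complex.ofReal_one] at h
  rw [h, Complex.normSq_apply, Complex.add_re, Complex.add_im, ht, ht', cos_re, cos_im, hre, him]
  have h3 := Real.cosh_sq (2 * y)
  have h4 := Real.sin_sq_add_cos_sq (2 * x)
  have h5 : √2 ^ 2 = 2 := Real.sq_sqrt (by norm_num)
  have h6 : Real.cos (2 * x) ^ 2 + Real.cosh (2 * y) ^ 2 + √2 * Real.cos (2 * x) * Real.cosh (2 * y) -
      1 / 2 = (Real.cos (2 * x) * Real.cosh (2 * y) + √2 / 2) *
      (Real.cos (2 * x) * Real.cosh (2 * y) + √2 / 2) +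
      (-(Real.sin (2 * x) * Real.sinh (2 * y)) + 0) *
      (-(Real.sin (2 * x) * Real.sinh (2 * y)) + 0) := by
    linear_combination (1 - Real.cos (2 * x) ^ 2) * h3 + (-(Real.sinh (2 * y) ^ 2)) * h4 -
      (1 / 4) * h5
  rw [h6]
  ring

/-- **The sech identity.** -/
theorem sech_id {x y : ℝ} (hx : 0 < x) (hx1 : x < 3 * Real.pi / 16) :
    Integrable (fun η : ℝ => Gk x (y + η / 2) / Real.cosh η) ∧
      Gk x y - Nk x y = (1 / (2 * Real.pi)) * ∫ η : ℝ, Gk x (y + η / 2) / Real.cosh η := by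
  have hpi := Real.pi_pos
  set z0 : ℂ := x + y * I with hz0
  have hz0re : z0.re = x := by simp [hz0]
  have hstrip : ∀ z : ℂ, |z.re| ≤ Real.pi / 4 → |(z0 + z).re| ≤ 7 * Real.pi / 16 := by
    intro z hz
    have := abs_le.1 hz
    rw [Complex.add_re, hz0re, abs_le]
    constructor <;> linarith
  have hdiff : ∀ z : ℂ, |z.re| ≤ Real.pi / 4 → DifferentiableAt ℂ (fun z => gg (z0 + z)) z := by
    intro z hz
    exact (gg_diff (hstrip z hz)).comp z (by fun_prop)
  obtain ⟨i1, i2⟩ := pois0 (f := fun z => gg (z0 + z)) (C := Kg)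
    (fun z hz => (hdiff z hz).continuousAt.continuousWithinAt) (fun z hz => hdiff z hz.le)
    (fun z hz => gg_le (hstrip z hz))
  have hfun : (fun s : ℝ => (gg (z0 + ((Real.pi / 4 : ℝ) + s * I)) +
      gg (z0 + (-((Real.pi / 4 : ℝ) : ℂ) + s * I))) * (((Real.cosh (2 * s))⁻¹ : ℝ) : ℂ)) =
      fun s : ℝ => Etc (x + (y + s : ℝ) * I) * (((Real.cosh (2 * s))⁻¹ : ℝ) : ℂ) := by
    funext s
    congr 1
    have hre : ((x : ℂ) + (y + s : ℝ) * I).re = x := by simp
    have := fe (z := (x : ℂ) + (y + s : ℝ) * I) (by rw [hre, abs_of_pos hx]; exact hx1)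
    rw [← this]
    congr 2 <;> (rw [hz0]; push_cast; ring)
  rw [hfun] at i1 i2
  have hGim : ∀ s : ℝ, (Etc (x + (y + s : ℝ) * I) * (((Real.cosh (2 * s))⁻¹ : ℝ) : ℂ)).im =
      Gk x (y + s) / Real.cosh (2 * s) := by
    intro s
    rw [Complex.im_mul_ofReal, Etc_im, div_eq_mul_inv]
  have j1 : Integrable fun s : ℝ => Gk x (y + s) / Real.cosh (2 * s) := by
    refine i1.im.congr (Eventually.of_forall fun s => ?_)
    exact hGim s
  have j2 : ∫ s : ℝ, Gk x (y + s) / Real.cosh (2 * s) = Real.pi * (Gk x y - Nk x y) := by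
    have h1 : ∫ s : ℝ, (Etc (x + (y + s : ℝ) * I) * (((Real.cosh (2 * s))⁻¹ : ℝ) : ℂ)).im =
        (∫ s : ℝ, Etc (x + (y + s : ℝ) * I) * (((Real.cosh (2 * s))⁻¹ : ℝ) : ℂ)).im :=
      Complex.imCLM.integral_comp_comm i1
    simp only [hGim] at h1
    rw [h1, i2]
    have h2 : gg (z0 + 0) = Etc z0 - 1 / (Complex.cos (2 * z0) + t2 / 2) := by
      rw [add_zero]
      exact gg_eq (by rw [hz0re, abs_of_pos hx]; linarith)
    rw [Complex.im_ofReal_mul, h2, Complex.sub_im, hz0, Etc_im, E_im]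
  have hcomp : (fun η : ℝ => Gk x (y + η / 2) / Real.cosh η) =
      fun η : ℝ => (fun s : ℝ => Gk x (y + s) / Real.cosh (2 * s)) ((1 / 2) * η) := by
    funext η
    simp only
    rw [show (1 / 2 : ℝ) * η = η / 2 by ring, show 2 * (η / 2) = η by ring]
  refine ⟨?_, ?_⟩
  · rw [hcomp]
    exact j1.comp_mul_left' (by norm_num)
  · rw [hcomp, Measure.integral_comp_mul_left (fun s : ℝ => Gk x (y + s) / Real.cosh (2 * s)), j2]
    rw [show ((1 / 2 : ℝ))⁻¹ = 2 by norm_num, abs_two, smul_eq_mul]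
    field_simp

end

end EXG
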