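import Pool.Agent.EXG.Const1
import Pool.Agent.EXG.Sech

/-!
EXG/Const2 (helper42): the inner product of the explicit solution with R eps; two applications of Fubini.
-/

set_option autoImplicit false

namespace EXG

open Real MeasureTheory Filter Topology Set Ex.P2

noncomputable section

/-- the weight of the limit operator -/
def sw (η : ℝ) : ℝ := exp (-(2 * η / 3)) / cosh η

lemma sw_pos (η : ℝ) : 0 < sw η := div_pos (exp_pos _) (cosh_pos _)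

lemma sw_cont : Continuous sw := by
  unfold sw
  refine Continuous.div (by fun_prop) continuous_cosh fun y => (cosh_pos y).ne'

lemma sw_le (η : ℝ) : sw η ≤ 2 * exp (-(1 / 3) * |η|) := by
  unfold sw
  rw [div_eq_mul_inv]
  have h1 := inv_cosh_le η
  have h2 : exp (-(2 * η / 3)) ≤ exp (2 / 3 * |η|) := exp_le_exp.2 (by linarith [neg_abs_le η])
  calc exp (-(2 * η / 3)) * (cosh η)⁻¹ ≤ exp (2 / 3 * |η|) * (2 * exp (-1 * |η|)) :=
        mul_le_mul h2 h1 (inv_nonneg.2 (cosh_pos _).le) (exp_pos _).le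
    _ = 2 * exp (-(1 / 3) * |η|) := by
      rw [mul_left_comm, ← exp_add]
      congr 2
      ring

lemma sw_int : Integrable sw := by
  refine ((EXS.int_exp_abs (b := 1 / 3) (by norm_num)).const_mul 2).mono'
    sw_cont.aestronglyMeasurable (Eventually.of_forall fun η => ?_)
  rw [Real.norm_eq_abs, abs_of_pos (sw_pos η)]
  exact sw_le η

lemma eps_norm_sq {a : ℝ} (ha : 0 < a) : ‖eps a‖ ^ 2 = 1 / (2 * a) := by
  rw [← real_inner_self_eq_norm_sq, inner_eps ha ha, two_mul]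

lemma eps_cont : ContinuousOn eps (Ioi (0 : ℝ)) := by
  intro a ha
  have ha0 : 0 < a := ha
  have h1 : Tendsto (fun b => 1 / (2 * b) - 2 * (1 / (b + a)) + 1 / (2 * a)) (𝓝[Ioi 0] a)
      (𝓝 (1 / (2 * a) - 2 * (1 / (a + a)) + 1 / (2 * a))) := by
    have hc : ContinuousAt (fun b => 1 / (2 * b) - 2 * (1 / (b + a)) + 1 / (2 * a)) a := by
      have e1 : (2 : ℝ) * a ≠ 0 := by positivity
      have e2 : a + a ≠ 0 := by positivity
      fun_prop (disch := assumption)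
    exact hc.tendsto.mono_left nhdsWithin_le_nhds
  have h0 : 1 / (2 * a) - 2 * (1 / (a + a)) + 1 / (2 * a) = 0 := by
    field_simp
    ring
  rw [h0] at h1
  have h2 : Tendsto (fun b => ‖eps b - eps a‖ ^ 2) (𝓝[Ioi 0] a) (𝓝 0) := by
    refine h1.congr' ?_
    filter_upwards [self_mem_nhdsWithin] with b hb
    have hb0 : 0 < b := hb
    rw [norm_sub_sq_real, inner_eps hb0 ha0, eps_norm_sq hb0, eps_norm_sq ha0]
  rw [ContinuousWithinAt, tendsto_iff_norm_sub_tendsto_zero]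
  have h3 := (Real.continuous_sqrt.tendsto 0).comp h2
  rw [Real.sqrt_zero] at h3
  refine h3.congr fun b => ?_
  exact Real.sqrt_sq (norm_nonneg _)

lemma vec_int {a : ℝ} (ha : 0 < a) : Integrable (fun η : ℝ => sw η • eps (a * exp (-(4 * η / 3)))) := by
  have hc : Continuous (fun η : ℝ => sw η • eps (a * exp (-(4 * η / 3)))) := by
    refine sw_cont.smul ?_
    exact eps_cont.comp_continuous (by fun_prop) fun η => mul_pos ha (exp_pos _)
  refine (integrable_inv_cosh.const_mul (1 / √(2 * a))).mono' hc.aestronglyMeasurable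
    (Eventually.of_forall fun η => le_of_eq ?_)
  have hb : 0 < a * exp (-(4 * η / 3)) := mul_pos ha (exp_pos _)
  have h1 : ‖eps (a * exp (-(4 * η / 3)))‖ = 1 / √(2 * a) * exp (2 * η / 3) := by
    have h2 := eps_norm_sq hb
    have h3 : (1 / √(2 * a) * exp (2 * η / 3)) ^ 2 = 1 / (2 * (a * exp (-(4 * η / 3)))) := by
      rw [mul_pow, div_pow, one_pow, Real.sq_sqrt (by positivity), ← Real.exp_nat_mul,
        show ((2 : ℕ) : ℝ) * (2 * η / 3) = 4 * η / 3 by push_cast; ring, Real.exp_neg]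
      have := (exp_pos (4 * η / 3)).ne'
      field_simp
    rw [← h3] at h2
    exact (pow_left_inj₀ (norm_nonneg _) (by positivity) two_ne_zero).1 h2
  rw [norm_smul, h1, Real.norm_eq_abs, abs_of_pos (sw_pos η)]
  unfold sw
  have h4 : exp (-(2 * η / 3)) * exp (2 * η / 3) = 1 := by
    rw [← Real.exp_add, neg_add_cancel, Real.exp_zero]
  calc exp (-(2 * η / 3)) / cosh η * (1 / √(2 * a) * exp (2 * η / 3))
      = 1 / √(2 * a) * (cosh η)⁻¹ * (exp (-(2 * η / 3)) * exp (2 * η / 3)) := by ring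
    _ = 1 / √(2 * a) * (cosh η)⁻¹ := by rw [h4, mul_one]

/-- the explicit solution as a vector -/
def uT : X := ut_memLp.toLp ut

/-- its image as a vector -/
def hT : X := Hf_memLp.toLp Hf

lemma uT_coe : (uT : ℝ → ℝ) =ᵐ[volume.restrict (Ioi 0)] ut := MemLp.coeFn_toLp _

lemma hT_coe : (hT : ℝ → ℝ) =ᵐ[volume.restrict (Ioi 0)] Hf := MemLp.coeFn_toLp _

lemma inner_uT {b : ℝ} (hb : 0 < b) : inner ℝ uT (eps b) = ∫ y in Ioi (0 : ℝ), ut y * exp (-(b * y)) := by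
  rw [L2.inner_def]
  refine integral_congr_ae ?_
  filter_upwards [uT_coe, eps_coe hb] with y h1 h2
  rw [h1, h2]
  simp [mul_comm]

lemma inner_hT {b : ℝ} (hb : 0 < b) : inner ℝ hT (eps b) = ∫ y in Ioi (0 : ℝ), Hf y * exp (-(b * y)) := by
  rw [L2.inner_def]
  refine integral_congr_ae ?_
  filter_upwards [hT_coe, eps_coe hb] with y h1 h2
  rw [h1, h2]
  simp [mul_comm]

/-- Fubini 1 -/
lemma fub1 {a : ℝ} (ha : 0 < a) :
    ∫ η : ℝ, sw η * (∫ y in Ioi (0 : ℝ), ut y * exp (-(a * exp (-(4 * η / 3)) * y))) =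
      ∫ y in Ioi (0 : ℝ), ut y * ∫ η : ℝ, sw η * exp (-(a * exp (-(4 * η / 3)) * y)) := by
  have h1 : ∀ η : ℝ, sw η * (∫ y in Ioi (0 : ℝ), ut y * exp (-(a * exp (-(4 * η / 3)) * y))) =
      ∫ y in Ioi (0 : ℝ), sw η * (ut y * exp (-(a * exp (-(4 * η / 3)) * y))) := fun η => by
    rw [integral_const_mul]
  have h2 : ∀ y : ℝ, ut y * (∫ η : ℝ, sw η * exp (-(a * exp (-(4 * η / 3)) * y))) =
      ∫ η : ℝ, sw η * (ut y * exp (-(a * exp (-(4 * η / 3)) * y))) := fun y => by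
    rw [← integral_const_mul]
    congr 1
    funext η
    ring
  simp_rw [h1, h2]
  refine integral_integral_swap (f := fun η y => sw η * (ut y * exp (-(a * exp (-(4 * η / 3)) * y)))) ?_
  have hprod : Integrable (fun z : ℝ × ℝ => sw z.1 * ut z.2) (volume.prod (volume.restrict (Ioi (0 : ℝ)))) :=
    sw_int.mul_prod ut_int
  have hg : Measurable fun z : ℝ × ℝ => exp (-(a * exp (-(4 * z.1 / 3)) * z.2)) := by fun_prop
  have hm : AEStronglyMeasurable (Function.uncurry fun η y => sw η * (ut y * exp (-(a * exp (-(4 * η / 3)) * y))))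
      (volume.prod (volume.restrict (Ioi (0 : ℝ)))) := by
    have := hprod.1.mul hg.aestronglyMeasurable
    refine this.congr (Eventually.of_forall fun z => ?_)
    simp only [Function.uncurry, Pi.mul_apply]
    ring
  refine hprod.mono hm ?_
  have hpos : ∀ᵐ z : ℝ × ℝ ∂(volume.prod (volume.restrict (Ioi (0 : ℝ)))), 0 < z.2 := by
    have : volume.prod (volume.restrict (Ioi (0 : ℝ))) = (volume.prod volume).restrict
        ((univ : Set ℝ) ×ˢ (Ioi (0 : ℝ))) := by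
      rw [← Measure.prod_restrict, Measure.restrict_univ]
    rw [this]
    filter_upwards [ae_restrict_mem (MeasurableSet.univ.prod measurableSet_Ioi)] with z hz
    exact hz.2
  filter_upwards [hpos] with z hz
  simp only [Function.uncurry]
  rw [← mul_assoc, norm_mul]
  have h3 : ‖exp (-(a * exp (-(4 * z.1 / 3)) * z.2))‖ ≤ 1 := by
    rw [Real.norm_eq_abs, abs_of_pos (exp_pos _)]
    refine exp_le_one_iff.2 ?_
    have := mul_pos (mul_pos ha (exp_pos (-(4 * z.1 / 3)))) hz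
    linarith
  exact mul_le_of_le_one_right (norm_nonneg _) h3

/-- the inner integral -/
def JJ (a Y : ℝ) : ℝ := ∫ x in Ioi (0 : ℝ), exp (-(a * x)) * x ^ (1 / 4 : ℝ) / (x ^ (3 / 2 : ℝ) + Y)

/-- substitution Y = y ^ (3/2) -/
lemma subst (a : ℝ) : ∫ y in Ioi (0 : ℝ), ut y * (3 / 2 * y ^ (1 / 4 : ℝ) * JJ a (y ^ (3 / 2 : ℝ))) =
    ∫ Y in Ioc (0 : ℝ) 1, Carl.W 0 Y * JJ a Y := by
  have h1 := integral_comp_rpow_Ioi_of_pos (g := (Iio (1 : ℝ)).indicator fun Y => Carl.W 0 Y * JJ a Y)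
    (p := 3 / 2) (by norm_num)
  have h2 : ∫ Y in Ioi (0 : ℝ), (Iio (1 : ℝ)).indicator (fun Y => Carl.W 0 Y * JJ a Y) Y =
      ∫ Y in Ioc (0 : ℝ) 1, Carl.W 0 Y * JJ a Y := by
    rw [integral_indicator measurableSet_Iio, Measure.restrict_restrict measurableSet_Iio, inter_comm,
      Ioi_inter_Iio, integral_Ioc_eq_integral_Ioo]
  rw [← h2, ← h1]
  refine setIntegral_congr_fun measurableSet_Ioi fun y hy => ?_
  have hy0 : 0 < y := hy
  simp only [smul_eq_mul]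
  by_cases h : y < 1
  · have h3 : y ^ (3 / 2 : ℝ) ∈ Iio (1 : ℝ) := Real.rpow_lt_one hy0.le h (by norm_num)
    have h4 : y ∈ Iio (1 : ℝ) := h
    unfold ut
    rw [indicator_of_mem h3, indicator_of_mem h4]
    have h5 : y ^ ((3 / 2 : ℝ) - 1) = y ^ (1 / 4 : ℝ) * y ^ (1 / 4 : ℝ) := by
      rw [← Real.rpow_add hy0]
      norm_num
    rw [h5]
    ring
  · have h3 : y ^ (3 / 2 : ℝ) ∉ Iio (1 : ℝ) := notMem_Iio.2 (Real.one_le_rpow (not_lt.1 h) (by norm_num))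
    have h4 : y ∉ Iio (1 : ℝ) := h
    unfold ut
    rw [indicator_of_notMem h3, indicator_of_notMem h4]
    simp

lemma den_le {x Y : ℝ} (hx : 0 < x) (hY : 0 < Y) :
    x ^ (1 / 4 : ℝ) / (x ^ (3 / 2 : ℝ) + Y) ≤ x ^ (-(1 / 2) : ℝ) * Y ^ (-(1 / 2) : ℝ) := by
  have hX : 0 < x ^ (3 / 2 : ℝ) := Real.rpow_pos_of_pos hx _
  rw [div_le_iff₀ (by positivity)]
  have h1 : x ^ (3 / 2 : ℝ) = (x ^ (3 / 4 : ℝ)) ^ 2 := by
    rw [← Real.rpow_mul_natCast hx.le]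
    norm_num
  have h2 : Y = (Y ^ (1 / 2 : ℝ)) ^ 2 := by
    rw [← Real.rpow_mul_natCast hY.le]
    norm_num
  set p := x ^ (3 / 4 : ℝ) with hp
  set q := Y ^ (1 / 2 : ℝ) with hq
  have hp0 : 0 < p := Real.rpow_pos_of_pos hx _
  have hq0 : 0 < q := Real.rpow_pos_of_pos hY _
  have h3 : x ^ (1 / 4 : ℝ) = x ^ (-(1 / 2) : ℝ) * p := by
    rw [hp, ← Real.rpow_add hx]
    norm_num
  have h4 : Y ^ (-(1 / 2) : ℝ) * q = 1 := by
    rw [hq, ← Real.rpow_add hY]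
    norm_num
  have h5 : 0 < x ^ (-(1 / 2) : ℝ) := Real.rpow_pos_of_pos hx _
  have h6 : 0 < Y ^ (-(1 / 2) : ℝ) := Real.rpow_pos_of_pos hY _
  have h7 : p * q ≤ x ^ (3 / 2 : ℝ) + Y := by
    rw [h1]
    nlinarith [sq_nonneg (p - q), h2, mul_pos hp0 hq0]
  calc x ^ (1 / 4 : ℝ) = x ^ (-(1 / 2) : ℝ) * Y ^ (-(1 / 2) : ℝ) * (p * q) := by
        rw [h3]
        linear_combination (-(x ^ (-(1 / 2) : ℝ) * p)) * h4
    _ ≤ x ^ (-(1 / 2) : ℝ) * Y ^ (-(1 / 2) : ℝ) * (x ^ (3 / 2 : ℝ) + Y) :=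
      mul_le_mul_of_nonneg_left h7 (mul_pos h5 h6).le

lemma gam_int {a : ℝ} (ha : 0 < a) : IntegrableOn (fun x : ℝ => exp (-(a * x)) * x ^ (-(1 / 2) : ℝ)) (Ioi 0) := by
  have h := integrableOn_rpow_mul_exp_neg_mul_rpow (p := 1) (s := -(1 / 2)) (b := a) (by norm_num) (by norm_num) ha
  refine h.congr_fun (fun x _ => ?_) measurableSet_Ioi
  simp only [Real.rpow_one, neg_mul]
  ring

/-- Fubini 2 -/
lemma fub2 {a : ℝ} (ha : 0 < a) : 1 / (2 * π) * ∫ Y in Ioc (0 : ℝ) 1, Carl.W 0 Y * JJ a Y =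
    ∫ x in Ioi (0 : ℝ), Hf x * exp (-(a * x)) := by
  have h1 : ∀ Y : ℝ, Carl.W 0 Y * JJ a Y = ∫ x in Ioi (0 : ℝ),
      Carl.W 0 Y * (exp (-(a * x)) * x ^ (1 / 4 : ℝ) / (x ^ (3 / 2 : ℝ) + Y)) := fun Y => by
    rw [integral_const_mul, JJ]
  have h2 : ∀ x : ℝ, Hf x * exp (-(a * x)) = 1 / (2 * π) * ∫ Y in Ioc (0 : ℝ) 1,
      Carl.W 0 Y * (exp (-(a * x)) * x ^ (1 / 4 : ℝ) / (x ^ (3 / 2 : ℝ) + Y)) := fun x => by
    unfold Hf Carl.KK
    have : ∀ Y : ℝ, Carl.W 0 Y * (exp (-(a * x)) * x ^ (1 / 4 : ℝ) / (x ^ (3 / 2 : ℝ) + Y)) =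
        exp (-(a * x)) * x ^ (1 / 4 : ℝ) * (Carl.W 0 Y / (x ^ (3 / 2 : ℝ) + Y)) := fun Y => by ring
    simp_rw [this]
    rw [integral_const_mul]
    ring
  simp_rw [h1, h2]
  rw [integral_const_mul]
  congr 1
  refine integral_integral_swap (f := fun Y x => Carl.W 0 Y *
    (exp (-(a * x)) * x ^ (1 / 4 : ℝ) / (x ^ (3 / 2 : ℝ) + Y))) ?_
  have hY : Integrable (fun Y : ℝ => 4 * Y ^ (-(5 / 6) : ℝ)) (volume.restrict (Ioc (0 : ℝ) 1)) := by
    have := (intervalIntegral.intervalIntegrable_rpow' (a := 0) (b := 1) (r := -(5 / 6)) (by norm_num))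
    rw [intervalIntegrable_iff_integrableOn_Ioc_of_le zero_le_one] at this
    exact this.const_mul 4
  have hprod := hY.mul_prod (gam_int ha)
  have hm : AEStronglyMeasurable (Function.uncurry fun Y x => Carl.W 0 Y *
      (exp (-(a * x)) * x ^ (1 / 4 : ℝ) / (x ^ (3 / 2 : ℝ) + Y)))
      ((volume.restrict (Ioc (0 : ℝ) 1)).prod (volume.restrict (Ioi (0 : ℝ)))) := by
    have hw : AEStronglyMeasurable (fun z : ℝ × ℝ => Carl.W 0 z.1)
        ((volume.restrict (Ioc (0 : ℝ) 1)).prod (volume.restrict (Ioi (0 : ℝ)))) := (Carl.W_Bd 0).meas.comp_fst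
    have hg : Measurable fun z : ℝ × ℝ => exp (-(a * z.2)) * z.2 ^ (1 / 4 : ℝ) / (z.2 ^ (3 / 2 : ℝ) + z.1) := by
      fun_prop
    exact hw.mul hg.aestronglyMeasurable
  refine hprod.mono hm ?_
  have hpos : ∀ᵐ z : ℝ × ℝ ∂((volume.restrict (Ioc (0 : ℝ) 1)).prod (volume.restrict (Ioi (0 : ℝ)))),
      z ∈ (Ioc (0 : ℝ) 1) ×ˢ (Ioi (0 : ℝ)) := by
    rw [Measure.prod_restrict]
    exact ae_restrict_mem (measurableSet_Ioc.prod measurableSet_Ioi)
  filter_upwards [hpos] with z hz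
  obtain ⟨hz1, hz2⟩ := hz
  have hY0 : 0 < z.1 := hz1.1
  have hx0 : 0 < z.2 := hz2
  simp only [Function.uncurry]
  have hX : 0 < z.2 ^ (3 / 2 : ℝ) := Real.rpow_pos_of_pos hx0 _
  have hq : 0 < z.2 ^ (1 / 4 : ℝ) := Real.rpow_pos_of_pos hx0 _
  have hW := (Carl.W_Bd 0).le z.1 hY0 hz1.2
  have hd := den_le hx0 hY0
  have hh : 0 < z.2 ^ (-(1 / 2) : ℝ) := Real.rpow_pos_of_pos hx0 _
  have hk : 0 < z.1 ^ (-(5 / 6) : ℝ) := Real.rpow_pos_of_pos hY0 _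
  have he : 0 < exp (-(a * z.2)) := exp_pos _
  have h56 : Carl.ph z.1 * z.1 ^ (-(1 / 2) : ℝ) = z.1 ^ (-(5 / 6) : ℝ) := by
    unfold Carl.ph
    rw [← Real.rpow_add hY0]
    norm_num
  have e1 : ‖Carl.W 0 z.1 * (exp (-(a * z.2)) * z.2 ^ (1 / 4 : ℝ) / (z.2 ^ (3 / 2 : ℝ) + z.1))‖ =
      |Carl.W 0 z.1| * (exp (-(a * z.2)) * (z.2 ^ (1 / 4 : ℝ) / (z.2 ^ (3 / 2 : ℝ) + z.1))) := by
    rw [norm_mul, Real.norm_eq_abs, Real.norm_eq_abs, mul_div_assoc,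
      abs_of_pos (show 0 < exp (-(a * z.2)) * (z.2 ^ (1 / 4 : ℝ) / (z.2 ^ (3 / 2 : ℝ) + z.1)) by positivity)]
  have e2 : ‖4 * z.1 ^ (-(5 / 6) : ℝ) * (exp (-(a * z.2)) * z.2 ^ (-(1 / 2) : ℝ))‖ =
      4 * z.1 ^ (-(5 / 6) : ℝ) * (exp (-(a * z.2)) * z.2 ^ (-(1 / 2) : ℝ)) := by
    rw [Real.norm_eq_abs, abs_of_pos (by positivity)]
  rw [e1, e2]
  calc |Carl.W 0 z.1| * (exp (-(a * z.2)) * (z.2 ^ (1 / 4 : ℝ) / (z.2 ^ (3 / 2 : ℝ) + z.1)))
      ≤ (4 * Carl.ph z.1) * (exp (-(a * z.2)) * (z.2 ^ (-(1 / 2) : ℝ) * z.1 ^ (-(1 / 2) : ℝ))) := by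
        refine mul_le_mul hW (mul_le_mul_of_nonneg_left hd he.le) (by positivity) ?_
        have := Carl.ph_pos hY0
        positivity
    _ = 4 * (Carl.ph z.1 * z.1 ^ (-(1 / 2) : ℝ)) * (exp (-(a * z.2)) * z.2 ^ (-(1 / 2) : ℝ)) := by ring
    _ = _ := by rw [h56]

end

end EXG
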