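import Pool.Agent.EXG.Defs

/-! Dens2: total set of exponentials in the form used (helper81). -/

set_option autoImplicit false

namespace EXG

open Real MeasureTheory Filter Topology Set Ex.P2

theorem dens : Dense (Submodule.span ℝ (Set.range fun k : ℕ => eps ((k : ℝ) + 1)) : Set X) := by
  apply dense_exp
  intro k
  have h : (0 : ℝ) < (k : ℝ) + 1 := by positivity
  unfold eps
  rw [dif_pos h]
  exact (memLp_exp h).coeFn_toLp

end EXG
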