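import Pool.Agent.EXS.Disp

/-! SHARP/81: the kernel of the limit operator on exponentials (helper6). -/

set_option autoImplicit false

namespace EXG

open MeasureTheory Set

lemma inv_cosh_le' (η : ℝ) : 1 / Real.cosh η ≤ 2 * Real.exp (-|η|) := by
  have hc := Real.cosh_pos η
  rw [div_le_iff₀ hc, Real.cosh_eq]
  have h1 : Real.exp |η| ≤ Real.exp η + Real.exp (-η) := by
    rcases abs_cases η with ⟨h, _⟩ | ⟨h, _⟩ <;> rw [h]
    · linarith [Real.exp_pos (-η)]
    · linarith [Real.exp_pos η]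
  have h2 : Real.exp (-|η|) * Real.exp |η| = 1 := by rw [← Real.exp_add]; simp
  have h3 := Real.exp_pos (-|η|)
  calc (1:ℝ) = Real.exp (-|η|) * Real.exp |η| := h2.symm
    _ ≤ Real.exp (-|η|) * (Real.exp η + Real.exp (-η)) := by gcongr
    _ = 2 * Real.exp (-|η|) * ((Real.exp η + Real.exp (-η)) / 2) := by ring

lemma base_int : Integrable (fun η : ℝ => Real.exp (-(2 * η / 3)) / Real.cosh η) := by
  have h := (EXS.int_exp_abs (b := 1 / 3) (by norm_num)).const_mul 2
  refine h.mono' ?_ (Filter.Eventually.of_forall fun η => ?_)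
  · refine Continuous.aestronglyMeasurable ?_
    refine Continuous.div (by fun_prop) Real.continuous_cosh fun x => (Real.cosh_pos x).ne'
  · have hc := Real.cosh_pos η
    rw [Real.norm_of_nonneg (by positivity)]
    calc Real.exp (-(2 * η / 3)) / Real.cosh η = Real.exp (-(2 * η / 3)) * (1 / Real.cosh η) := by ring
      _ ≤ Real.exp (2 / 3 * |η|) * (2 * Real.exp (-|η|)) := by
          gcongr
          · have := neg_abs_le η
            linarith
          · exact inv_cosh_le' η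
      _ = 2 * Real.exp (-(1 / 3) * |η|) := by
          rw [mul_left_comm, ← Real.exp_add]
          congr 2
          ring

theorem kern_int {a y : ℝ} (ha : 0 < a) (hy : 0 < y) : Integrable (fun η : ℝ =>
    (Real.exp (-(2 * η / 3)) / Real.cosh η) * Real.exp (-(a * Real.exp (-(4 * η / 3)) * y))) := by
  refine base_int.mono' ?_ (Filter.Eventually.of_forall fun η => ?_)
  · refine Continuous.aestronglyMeasurable ?_
    refine Continuous.mul ?_ (by fun_prop)
    refine Continuous.div (by fun_prop) Real.continuous_cosh fun x => (Real.cosh_pos x).ne'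
  · have hc := Real.cosh_pos η
    rw [Real.norm_of_nonneg (by positivity)]
    have h1 : Real.exp (-(a * Real.exp (-(4 * η / 3)) * y)) ≤ 1 := by
      rw [Real.exp_le_one_iff]
      have : 0 < a * Real.exp (-(4 * η / 3)) * y := by positivity
      linarith
    calc Real.exp (-(2 * η / 3)) / Real.cosh η * Real.exp (-(a * Real.exp (-(4 * η / 3)) * y))
        ≤ Real.exp (-(2 * η / 3)) / Real.cosh η * 1 := by gcongr
      _ = _ := mul_one _

theorem kern {a y : ℝ} (_ha : 0 < a) (hy : 0 < y) :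
    ∫ η : ℝ, (Real.exp (-(2 * η / 3)) / Real.cosh η) *
      Real.exp (-(a * Real.exp (-(4 * η / 3)) * y)) =
    (3 / 2) * y ^ (1 / 4 : ℝ) * ∫ x in Set.Ioi (0 : ℝ),
      Real.exp (-(a * x)) * x ^ (1 / 4 : ℝ) / (x ^ (3 / 2 : ℝ) + y ^ (3 / 2 : ℝ)) := by
  have hder : ∀ η ∈ (Set.univ : Set ℝ), HasDerivWithinAt (fun η : ℝ => y * Real.exp (-(4 * η / 3)))
      (y * (Real.exp (-(4 * η / 3)) * (-(4 * 1 / 3)))) Set.univ η := by
    intro η _
    have h1 : HasDerivAt (fun η : ℝ => -(4 * η / 3)) (-(4 * 1 / 3)) η :=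
      (((hasDerivAt_id η).const_mul 4).div_const 3).neg
    exact (h1.exp.const_mul y).hasDerivWithinAt
  have hinj : Set.InjOn (fun η : ℝ => y * Real.exp (-(4 * η / 3))) Set.univ := by
    intro s _ t _ h
    have h1 := mul_left_cancel₀ hy.ne' h
    have h2 := Real.exp_injective h1
    linarith
  have himg : (fun η : ℝ => y * Real.exp (-(4 * η / 3))) '' Set.univ = Set.Ioi 0 := by
    ext x
    constructor
    · rintro ⟨η, _, rfl⟩
      have := Real.exp_pos (-(4 * η / 3))
      exact mul_pos hy this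
    · intro hx
      have hx0 : 0 < x := hx
      refine ⟨-(3 / 4) * Real.log (x / y), trivial, ?_⟩
      have e : -(4 * (-(3 / 4) * Real.log (x / y)) / 3) = Real.log (x / y) := by ring
      simp only
      rw [e, Real.exp_log (by positivity)]
      field_simp
  have hch := integral_image_eq_integral_abs_deriv_smul (f := fun η : ℝ => y * Real.exp (-(4 * η / 3)))
    (f' := fun η => y * (Real.exp (-(4 * η / 3)) * (-(4 * 1 / 3)))) MeasurableSet.univ hder hinj
    (fun x : ℝ => Real.exp (-(a * x)) * x ^ (1 / 4 : ℝ) / (x ^ (3 / 2 : ℝ) + y ^ (3 / 2 : ℝ)))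
  rw [himg, Measure.restrict_univ] at hch
  rw [hch, ← integral_const_mul]
  refine integral_congr_ae (Filter.Eventually.of_forall fun η => ?_)
  simp only
  rw [smul_eq_mul]
  have hE := Real.exp_pos (-(4 * η / 3))
  have habs : |y * (Real.exp (-(4 * η / 3)) * (-(4 * 1 / 3)))| = 4 / 3 * (y * Real.exp (-(4 * η / 3))) := by
    rw [abs_of_nonpos]
    · ring
    · have : 0 < y * Real.exp (-(4 * η / 3)) := by positivity
      linarith
  rw [habs]
  -- powers
  have p1 : (y * Real.exp (-(4 * η / 3))) ^ (1 / 4 : ℝ) = y ^ (1 / 4 : ℝ) * Real.exp (-(η / 3)) := by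
    rw [Real.mul_rpow hy.le hE.le, ← Real.exp_mul]
    congr 2
    ring
  have p2 : (y * Real.exp (-(4 * η / 3))) ^ (3 / 2 : ℝ) = y ^ (3 / 2 : ℝ) * Real.exp (-(2 * η)) := by
    rw [Real.mul_rpow hy.le hE.le, ← Real.exp_mul]
    congr 2
    ring
  rw [p1, p2]
  have hy14 : 0 < y ^ (1 / 4 : ℝ) := Real.rpow_pos_of_pos hy _
  have hy32 : 0 < y ^ (3 / 2 : ℝ) := Real.rpow_pos_of_pos hy _
  have q1 : y ^ (1 / 4 : ℝ) * y ^ (1 / 4 : ℝ) * y = y ^ (3 / 2 : ℝ) := by
    conv_lhs => rw [← Real.rpow_add hy, ← Real.rpow_one y, ← Real.rpow_mul hy.le]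
    rw [← Real.rpow_add hy]
    norm_num
  have q2 : Real.exp (-(2 * η)) + 1 = 2 * Real.cosh η * Real.exp (-η) := by
    rw [Real.cosh_eq]
    have e1 : Real.exp η * Real.exp (-η) = 1 := by rw [← Real.exp_add]; simp
    have e2 : Real.exp (-η) * Real.exp (-η) = Real.exp (-(2 * η)) := by
      rw [← Real.exp_add]; congr 1; ring
    linear_combination (-1 : ℝ) * e1 - e2
  have q3 : Real.exp (-(η / 3)) * Real.exp (-(4 * η / 3)) = Real.exp (-(2 * η / 3)) * Real.exp (-η) := by
    rw [← Real.exp_add, ← Real.exp_add]; congr 1; ring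
  have hc := Real.cosh_pos η
  have he := Real.exp_pos (-η)
  have e0 : Real.exp (-(a * Real.exp (-(4 * η / 3)) * y)) = Real.exp (-(a * (y * Real.exp (-(4 * η / 3))))) := by
    congr 1; ring
  rw [e0]
  set X := Real.exp (-(a * (y * Real.exp (-(4 * η / 3)))))
  have hden : y ^ (3 / 2 : ℝ) * Real.exp (-(2 * η)) + y ^ (3 / 2 : ℝ) =
      y ^ (3 / 2 : ℝ) * (2 * Real.cosh η * Real.exp (-η)) := by
    rw [← q2]; ring
  rw [hden]
  have hden0 : y ^ (3 / 2 : ℝ) * (2 * Real.cosh η * Real.exp (-η)) ≠ 0 := by positivity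
  rw [div_mul_eq_mul_div, div_eq_iff hc.ne']
  have key : 3 / 2 * y ^ (1 / 4 : ℝ) * (4 / 3 * (y * Real.exp (-(4 * η / 3))) *
      (X * (y ^ (1 / 4 : ℝ) * Real.exp (-(η / 3))) /
        (y ^ (3 / 2 : ℝ) * (2 * Real.cosh η * Real.exp (-η))))) * Real.cosh η =
      (2 * (y ^ (1 / 4 : ℝ) * y ^ (1 / 4 : ℝ) * y) * X * (Real.exp (-(η / 3)) * Real.exp (-(4 * η / 3)))
        * Real.cosh η) / (y ^ (3 / 2 : ℝ) * (2 * Real.cosh η * Real.exp (-η))) := by
    ring
  rw [key, q1, q3, eq_div_iff hden0]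
  ring

end EXG
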