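import Pool.Agent.EXG.Const2
import Pool.Agent.EXG.Kern
import Pool.Agent.EXG.Dens2

/-!
EXG/Const3 (helper42): the value of the quadratic form of the limit problem.
-/

set_option autoImplicit false

namespace EXG

open Real MeasureTheory Filter Topology Set Ex.P2

noncomputable section

/-- R maps the explicit solution to its image -/
lemma R_uT {R : X →L[ℝ] X} (hsym : ∀ f g, inner ℝ (R f) g = inner ℝ f (R g))
    (hRe : ∀ a : ℝ, 0 < a → R (eps a) = (1 / (2 * π)) • ∫ η : ℝ, (exp (-(2 * η / 3)) / cosh η) •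
      eps (a * exp (-(4 * η / 3)))) : R uT = hT := by
  refine dens.eq_of_inner_left ℝ fun v hv => ?_
  induction hv using Submodule.span_induction with
  | mem x hx =>
    obtain ⟨k, rfl⟩ := hx
    have ha : (0 : ℝ) < (k : ℝ) + 1 := by positivity
    set a : ℝ := (k : ℝ) + 1 with ha'
    show inner ℝ (R uT) (eps a) = inner ℝ hT (eps a)
    rw [hsym, hRe a ha, inner_smul_right]
    have h1 := integral_inner (𝕜 := ℝ) (vec_int ha) uT
    have h2 : (∫ η : ℝ, (exp (-(2 * η / 3)) / cosh η) • eps (a * exp (-(4 * η / 3)))) =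
      ∫ η : ℝ, sw η • eps (a * exp (-(4 * η / 3))) := rfl
    rw [h2, ← h1]
    have h3 : ∀ η : ℝ, inner ℝ uT (sw η • eps (a * exp (-(4 * η / 3)))) =
        sw η * (∫ y in Ioi (0 : ℝ), ut y * exp (-(a * exp (-(4 * η / 3)) * y))) := fun η => by
      rw [inner_smul_right, inner_uT (mul_pos ha (exp_pos _))]
    simp_rw [h3]
    rw [fub1 ha]
    have h4 : ∫ y in Ioi (0 : ℝ), ut y * (∫ η : ℝ, sw η * exp (-(a * exp (-(4 * η / 3)) * y))) =
        ∫ y in Ioi (0 : ℝ), ut y * (3 / 2 * y ^ (1 / 4 : ℝ) * JJ a (y ^ (3 / 2 : ℝ))) := by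
      refine setIntegral_congr_fun measurableSet_Ioi fun y hy => ?_
      have hy0 : 0 < y := hy
      have h5 := kern ha hy0
      congr 1
    rw [h4, subst, fub2 ha, inner_hT ha]
  | zero => rw [inner_zero_right, inner_zero_right]
  | add x y _ _ hx hy => rw [inner_add_right, inner_add_right, hx, hy]
  | smul c x _ hx => rw [inner_smul_right, inner_smul_right, hx]

lemma uT_eq {V : X} {C : ℝ} (hV : (V : ℝ → ℝ) =ᵐ[volume.restrict (Ioi (0 : ℝ))]
      fun x => C * x ^ (1 / 4 : ℝ) * (Iio (1 : ℝ)).indicator 1 x) : C • uT = V + PX (C • hT) := by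
  apply Lp.ext
  filter_upwards [hV, uT_coe, hT_coe, Lp.coeFn_smul C uT, Lp.coeFn_smul C hT, PX_coe (C • hT),
    Lp.coeFn_add V (PX (C • hT)), ae_restrict_mem measurableSet_Ioi] with x e1 e2 e3 e4 e5 e6 e7 hx
  have hx0 : 0 < x := hx
  have hX : 0 < x ^ (3 / 2 : ℝ) := Real.rpow_pos_of_pos hx0 _
  rw [e4, e7, Pi.smul_apply, Pi.add_apply, e1, e2, e6]
  unfold ut
  by_cases h : x ∈ Iio (1 : ℝ)
  · rw [indicator_of_mem h, indicator_of_mem h, indicator_of_mem h, e5, Pi.smul_apply, e3, Pi.one_apply,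
      smul_eq_mul, smul_eq_mul]
    unfold Hf
    rw [Carl.W_eq 0 hX, pow_zero]
    ring
  · rw [indicator_of_notMem h, indicator_of_notMem h, indicator_of_notMem h]
    simp

/-- **the value of the quadratic form** -/
theorem q_val {R : X →L[ℝ] X} (hR : ‖R‖ ≤ 1 / 2) (hsym : ∀ f g, inner ℝ (R f) g = inner ℝ f (R g))
    (hRe : ∀ a : ℝ, 0 < a → R (eps a) = (1 / (2 * π)) • ∫ η : ℝ, (exp (-(2 * η / 3)) / cosh η) •
      eps (a * exp (-(4 * η / 3)))) {V U : X} {C : ℝ}
    (hV : (V : ℝ → ℝ) =ᵐ[volume.restrict (Ioi (0 : ℝ))]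
      fun x => C * x ^ (1 / 4 : ℝ) * (Iio (1 : ℝ)).indicator 1 x)
    (hU : U = V + PX (R U)) : inner ℝ V U = C ^ 2 * (2 / 3 * Carl.w 0 ^ 2) := by
  have h1 := R_uT hsym hRe
  have h2 := uT_eq hV
  have h3 : C • uT = V + PX (R (C • uT)) := by
    rw [map_smul, h1]
    exact h2
  have h4 : U - C • uT = PX (R (U - C • uT)) := by
    have : U - C • uT = (V + PX (R U)) - (V + PX (R (C • uT))) := congrArg₂ (fun a b => a - b) hU h3
    refine this.trans ?_
    rw [map_sub, map_sub]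
    abel
  have h5 : ‖U - C • uT‖ ≤ 1 / 2 * ‖U - C • uT‖ := by
    calc ‖U - C • uT‖ = ‖PX (R (U - C • uT))‖ := congrArg norm h4
      _ ≤ ‖R (U - C • uT)‖ := PX_norm _
      _ ≤ ‖R‖ * ‖U - C • uT‖ := R.le_opNorm _
      _ ≤ 1 / 2 * ‖U - C • uT‖ := mul_le_mul_of_nonneg_right hR (norm_nonneg _)
  have h6 : ‖U - C • uT‖ = 0 := by
    have := norm_nonneg (U - C • uT)
    linarith
  have h7 : U = C • uT := sub_eq_zero.1 (norm_eq_zero.1 h6)
  rw [h7, inner_smul_right, Carl.w0_sq]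
  have h8 : inner ℝ V uT = C * (2 / 3 * Carl.m 0 0) := by
    rw [L2.inner_def]
    have h9 : ∫ x in Ioi (0 : ℝ), inner ℝ ((V : ℝ → ℝ) x) ((uT : ℝ → ℝ) x) =
        ∫ x in Ioi (0 : ℝ), (C * (2 / 3)) * ((3 / 2 * x ^ ((3 / 2 : ℝ) - 1)) •
          (Iio (1 : ℝ)).indicator (fun Y => Carl.W 0 Y) (x ^ (3 / 2 : ℝ))) := by
      refine integral_congr_ae ?_
      filter_upwards [hV, uT_coe, ae_restrict_mem measurableSet_Ioi] with x e1 e2 hx
      have hx0 : 0 < x := hx
      rw [e1, e2]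
      unfold ut
      have h10 : x ^ ((3 / 2 : ℝ) - 1) = x ^ (1 / 4 : ℝ) * x ^ (1 / 4 : ℝ) := by
        rw [← Real.rpow_add hx0]
        norm_num
      by_cases h : x < 1
      · have h3 : x ^ (3 / 2 : ℝ) ∈ Iio (1 : ℝ) := Real.rpow_lt_one hx0.le h (by norm_num)
        have h4 : x ∈ Iio (1 : ℝ) := h
        rw [indicator_of_mem h3, indicator_of_mem h4, indicator_of_mem h4, h10]
        simp
        ring
      · have h3 : x ^ (3 / 2 : ℝ) ∉ Iio (1 : ℝ) := notMem_Iio.2 (Real.one_le_rpow (not_lt.1 h) (by norm_num))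
        have h4 : x ∉ Iio (1 : ℝ) := h
        rw [indicator_of_notMem h3, indicator_of_notMem h4, indicator_of_notMem h4]
        simp
    rw [h9, integral_const_mul, integral_comp_rpow_Ioi_of_pos (by norm_num : (0 : ℝ) < 3 / 2)
      (g := (Iio (1 : ℝ)).indicator fun Y => Carl.W 0 Y)]
    rw [integral_indicator measurableSet_Iio, Measure.restrict_restrict measurableSet_Iio, inter_comm,
      Ioi_inter_Iio, ← integral_Ioc_eq_integral_Ioo]
    unfold Carl.m
    simp only [pow_zero, one_mul]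
    ring
  rw [h8]
  ring

end

end EXG
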