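import Pool.Agent.EXG.Defs

/-! Emb: the step embeddings of `ℓ²(ℕ)` in `L²(0, ∞)` (helper6). -/

set_option autoImplicit false

namespace EXG

open Real MeasureTheory Filter Topology Set Ex.P2

/-- the block `[i/n, (i+1)/n)` -/
def blk (n i : ℕ) : Set ℝ := Ico ((i : ℝ) / n) (((i : ℝ) + 1) / n)

noncomputable section

lemma blk_meas (n i : ℕ) : MeasurableSet (blk n i) := measurableSet_Ico

lemma blk_sub {n i : ℕ} : blk n i ⊆ Ici 0 := by
  intro x hx
  have : (0:ℝ) ≤ (i:ℝ) / n := by positivity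
  exact this.trans hx.1

lemma mu_eq : (volume.restrict (Ioi (0:ℝ))) = volume.restrict (Ici (0:ℝ)) :=
  Measure.restrict_congr_set Ioi_ae_eq_Ici

lemma mu_restrict (n i : ℕ) :
    (volume.restrict (Ioi (0:ℝ))).restrict (blk n i) = volume.restrict (blk n i) := by
  rw [mu_eq, Measure.restrict_restrict (blk_meas n i), inter_eq_left.2 blk_sub]

lemma mu_blk (n i : ℕ) : (volume.restrict (Ioi (0:ℝ))) (blk n i) = ENNReal.ofReal (1 / n) := by
  rw [mu_eq, Measure.restrict_apply (blk_meas n i), inter_eq_left.2 blk_sub, blk, Real.volume_Ico]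
  congr 1
  ring

lemma mu_blk_ne (n i : ℕ) : (volume.restrict (Ioi (0:ℝ))) (blk n i) ≠ ⊤ := by
  rw [mu_blk]; exact ENNReal.ofReal_ne_top

lemma mu_real_blk (n i : ℕ) : (volume.restrict (Ioi (0:ℝ))).real (blk n i) = 1 / n := by
  rw [Measure.real, mu_blk, ENNReal.toReal_ofReal (by positivity)]

lemma blk_disj {n i j : ℕ} (hij : i < j) : Disjoint (blk n i) (blk n j) := by
  rw [Set.disjoint_left]
  intro x hx hy
  have h1 := hx.2
  have h2 := hy.1
  have h3 : ((i:ℝ) + 1) / n ≤ (j:ℝ) / n := by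
    apply div_le_div_of_nonneg_right _ (by positivity)
    exact_mod_cast hij
  linarith

lemma blk_inter {n i j : ℕ} (hij : i ≠ j) : blk n i ∩ blk n j = ∅ := by
  rcases lt_or_gt_of_ne hij with h | h
  · exact (blk_disj h).inter_eq
  · rw [inter_comm]; exact (blk_disj h).inter_eq

/-- the unit step vectors -/
def sv (n : ℕ) (s : ℝ) (i : ℕ) : X :=
  (√n * s ^ i) • indicatorConstLp 2 (blk_meas n i) (mu_blk_ne n i) (1 : ℝ)

lemma sv_coe (n : ℕ) (s : ℝ) (i : ℕ) : (sv n s i : ℝ → ℝ) =ᵐ[volume.restrict (Ioi 0)]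
    fun x => √n * s ^ i * (blk n i).indicator 1 x := by
  unfold sv
  have h1 := Lp.coeFn_smul (√n * s ^ i) (indicatorConstLp 2 (blk_meas n i) (mu_blk_ne n i) (1 : ℝ))
  have h2 := indicatorConstLp_coeFn (p := 2) (hs := blk_meas n i) (hμs := mu_blk_ne n i)
    (c := (1 : ℝ))
  filter_upwards [h1, h2] with x e1 e2
  rw [e1, Pi.smul_apply, e2, smul_eq_mul]
  rfl

lemma sv_orthonormal {n : ℕ} (hn : 1 ≤ n) {s : ℝ} (hs : s ^ 2 = 1) :
    Orthonormal ℝ (sv n s) := by
  rw [orthonormal_iff_ite]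
  intro i j
  unfold sv
  rw [real_inner_smul_left, real_inner_smul_right,
    L2.real_inner_indicatorConstLp_one_indicatorConstLp_one _ _ (mu_blk_ne n i) (mu_blk_ne n j)]
  have hn0 : (0:ℝ) < n := by exact_mod_cast hn
  split_ifs with h
  · subst h
    rw [inter_self, mu_real_blk]
    have e1 : √(n:ℝ) * √(n:ℝ) = n := Real.mul_self_sqrt hn0.le
    have e2 : s ^ i * s ^ i = 1 := by
      rw [← pow_add, ← two_mul, pow_mul, hs, one_pow]
    calc √(n:ℝ) * s ^ i * (√(n:ℝ) * s ^ i * (1 / n)) =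
          (√(n:ℝ) * √(n:ℝ)) * (s ^ i * s ^ i) * (1 / n) := by ring
      _ = 1 := by rw [e1, e2]; field_simp
  · rw [blk_inter h]
    simp [Measure.real]

lemma sq_of {s : ℝ} (hs : s = 1 ∨ s = -1) : s ^ 2 = 1 := by
  rcases hs with h | h <;> rw [h] <;> norm_num

/-- existence of the step embedding -/
theorem exists_step {n : ℕ} (hn : 1 ≤ n) {s : ℝ} (hs : s = 1 ∨ s = -1) :
    ∃ I : L2N →ₗᵢ[ℝ] X, IsStep n s I := by
  have ho := sv_orthonormal hn (sq_of hs)
  refine ⟨ho.orthogonalFamily.linearIsometry, fun i => ?_⟩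
  have h1 : ho.orthogonalFamily.linearIsometry (ev i) = sv n s i := by
    unfold ev
    rw [OrthogonalFamily.linearIsometry_apply_single]
    simp
  rw [h1]
  exact sv_coe n s i

lemma IsStep.eq_sv {n : ℕ} {s : ℝ} {I : L2N →ₗᵢ[ℝ] X} (h : IsStep n s I) (i : ℕ) :
    I (ev i) = sv n s i :=
  Lp.ext ((h i).trans (sv_coe n s i).symm)

lemma inner_sv (n : ℕ) (s : ℝ) (i : ℕ) (f : X) :
    inner ℝ (sv n s i) f = √n * s ^ i * ∫ x in blk n i, f x := by
  unfold sv
  rw [real_inner_smul_left, L2.inner_indicatorConstLp_one, mu_restrict]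

lemma ev_inner (i : ℕ) (x : L2N) : inner ℝ (ev i) x = (x : ℕ → ℝ) i := by
  unfold ev
  rw [lp.inner_single_left]
  simp

/-- coordinates of the adjoint -/
lemma adj_coord {n : ℕ} {s : ℝ} {I : L2N →ₗᵢ[ℝ] X} (h : IsStep n s I) (f : X) (i : ℕ) :
    ((ContinuousLinearMap.adjoint I.toContinuousLinearMap f : L2N) : ℕ → ℝ) i =
      √n * s ^ i * ∫ x in blk n i, f x := by
  rw [← ev_inner, ContinuousLinearMap.adjoint_inner_right, ← inner_sv n s i f, ← h.eq_sv i]
  rfl

/-! ### exponentials -/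

lemma eps_coe {a : ℝ} (ha : 0 < a) : (eps a : ℝ → ℝ) =ᵐ[volume.restrict (Ioi 0)]
    fun x => exp (-(a * x)) := by
  unfold eps
  rw [dif_pos ha]
  exact MemLp.coeFn_toLp _

lemma inner_eps {a b : ℝ} (ha : 0 < a) (hb : 0 < b) : inner ℝ (eps a) (eps b) = 1 / (a + b) := by
  rw [L2.inner_def]
  have h1 : (fun x => inner ℝ ((eps a : ℝ → ℝ) x) ((eps b : ℝ → ℝ) x)) =ᵐ[volume.restrict (Ioi 0)]
      fun x => exp (-(a + b) * x) := by
    filter_upwards [eps_coe ha, eps_coe hb] with x e1 e2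
    rw [e1, e2, real_inner_eq_re_inner]
    simp only [RCLike.inner_apply, conj_trivial, RCLike.re_to_real]
    rw [← exp_add]
    congr 1
    ring
  rw [integral_congr_ae h1, integral_exp_mul_Ioi (by linarith)]
  rw [mul_zero, exp_zero]
  have : a + b ≠ 0 := by linarith
  field_simp

lemma int_exp_blk {a : ℝ} (ha : 0 < a) {n : ℕ} (hn : 1 ≤ n) (i : ℕ) :
    ∫ x in blk n i, exp (-(a * x)) = (1 - exp (-(a / n))) / a * exp (-(a / n)) ^ i := by
  have hn0 : (0:ℝ) < n := by exact_mod_cast hn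
  have hle : (i:ℝ) / n ≤ ((i:ℝ) + 1) / n := by
    apply div_le_div_of_nonneg_right _ hn0.le
    linarith
  unfold blk
  rw [integral_Ico_eq_integral_Ioc, ← intervalIntegral.integral_of_le hle]
  have h : ∀ x ∈ Set.uIcc ((i:ℝ) / n) (((i:ℝ) + 1) / n),
      HasDerivAt (fun x => -(exp (-(a * x)) / a)) (exp (-(a * x))) x := by
    intro x _
    have h1 : HasDerivAt (fun x : ℝ => -(a * x)) (-(a * 1)) x := ((hasDerivAt_id x).const_mul a).neg
    have h2 := (h1.exp.div_const a).neg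
    have e : exp (-(a * x)) = -(exp (-(a * x)) * (-(a * 1)) / a) := by
      have := ha.ne'
      field_simp
    rw [← e] at h2
    exact h2
  rw [intervalIntegral.integral_eq_sub_of_hasDerivAt h
    (Continuous.intervalIntegrable (by fun_prop) _ _)]
  have e1 : exp (-(a / n)) ^ i = exp (-(a * ((i:ℝ) / n))) := by
    rw [← exp_nat_mul]; congr 1; ring
  have e2 : exp (-(a * (((i:ℝ) + 1) / n))) = exp (-(a / n)) * exp (-(a * ((i:ℝ) / n))) := by
    rw [← exp_add]; congr 1; field_simp; ring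
  rw [e1, e2]
  ring

/-- **the adjoint of the step embedding on exponentials** -/
theorem IsStep.adj_eps {n : ℕ} (hn : 1 ≤ n) {s : ℝ} (hs' : s = 1 ∨ s = -1) {I : L2N →ₗᵢ[ℝ] X}
    (h : IsStep n s I) {a : ℝ} (ha : 0 < a) :
    ContinuousLinearMap.adjoint I.toContinuousLinearMap (eps a) =
      (√n * (1 - exp (-(a / n))) / a) • kv (s * exp (-(a / n))) := by
  have hn0 : (0:ℝ) < n := by exact_mod_cast hn
  have hs := sq_of hs'
  have hlt : |s * exp (-(a / n))| < 1 := by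
    have hs1 : |s| = 1 := by
      have : |s| ^ 2 = 1 := by rw [sq_abs, hs]
      nlinarith [abs_nonneg s]
    rw [abs_mul, hs1, one_mul, abs_of_pos (exp_pos _), exp_lt_one_iff]
    have : 0 < a / n := by positivity
    linarith
  apply lp.ext
  funext i
  rw [adj_coord h, lp.coeFn_smul, Pi.smul_apply, kv_apply hlt, smul_eq_mul]
  have h1 : ∫ x in blk n i, (eps a : ℝ → ℝ) x = ∫ x in blk n i, exp (-(a * x)) := by
    rw [← mu_restrict n i]
    exact integral_congr_ae (ae_restrict_of_ae (eps_coe ha))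
  rw [h1, int_exp_blk ha hn, mul_pow]
  ring

/-! ### the cut-off `1_{x < 1}` -/

lemma PX_mem (f : X) : MemLp ((Iio (1:ℝ)).indicator (f : ℝ → ℝ)) 2 (volume.restrict (Ioi (0:ℝ))) :=
  (Lp.memLp f).indicator measurableSet_Iio

/-- multiplication by `1_{x < 1}` as a linear map -/
def PXl : X →ₗ[ℝ] X where
  toFun f := (PX_mem f).toLp _
  map_add' f g := by
    apply Lp.ext
    filter_upwards [MemLp.coeFn_toLp (PX_mem (f + g)), MemLp.coeFn_toLp (PX_mem f),
      MemLp.coeFn_toLp (PX_mem g), Lp.coeFn_add f g,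
      Lp.coeFn_add ((PX_mem f).toLp _) ((PX_mem g).toLp _)] with x e1 e2 e3 e4 e5
    rw [e1, e5, Pi.add_apply, e2, e3]
    by_cases hx : x ∈ Iio (1:ℝ)
    · rw [indicator_of_mem hx, indicator_of_mem hx, indicator_of_mem hx, e4, Pi.add_apply]
    · rw [indicator_of_notMem hx, indicator_of_notMem hx, indicator_of_notMem hx, add_zero]
  map_smul' c f := by
    apply Lp.ext
    filter_upwards [MemLp.coeFn_toLp (PX_mem (c • f)), MemLp.coeFn_toLp (PX_mem f),
      Lp.coeFn_smul c f, Lp.coeFn_smul c ((PX_mem f).toLp _)] with x e1 e2 e4 e5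
    rw [RingHom.id_apply, e1, e5, Pi.smul_apply, e2]
    by_cases hx : x ∈ Iio (1:ℝ)
    · rw [indicator_of_mem hx, indicator_of_mem hx, e4, Pi.smul_apply]
    · rw [indicator_of_notMem hx, indicator_of_notMem hx, smul_zero]

/-- multiplication by `1_{x < 1}` -/
def PX : X →L[ℝ] X := PXl.mkContinuous 1 (fun f => by
  rw [one_mul]
  show ‖(PX_mem f).toLp _‖ ≤ ‖f‖
  rw [Lp.norm_toLp, Lp.norm_def]
  exact ENNReal.toReal_mono (Lp.eLpNorm_ne_top f) (eLpNorm_indicator_le _))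

lemma PX_opNorm : ‖PX‖ ≤ 1 := LinearMap.mkContinuous_norm_le _ zero_le_one _

lemma PX_coe (f : X) : (PX f : ℝ → ℝ) =ᵐ[volume.restrict (Ioi 0)]
    (Iio (1:ℝ)).indicator (f : ℝ → ℝ) := MemLp.coeFn_toLp (PX_mem f)

lemma PX_sv {n : ℕ} (hn : 1 ≤ n) (s : ℝ) (i : ℕ) :
    PX (sv n s i) = if i < n then sv n s i else 0 := by
  have hn0 : (0:ℝ) < n := by exact_mod_cast hn
  apply Lp.ext
  split_ifs with h
  · filter_upwards [PX_coe (sv n s i), sv_coe n s i] with x e1 e2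
    rw [e1]
    by_cases hx : x ∈ Iio (1:ℝ)
    · rw [indicator_of_mem hx]
    · rw [indicator_of_notMem hx, e2]
      have h1 : x ∉ blk n i := by
        intro hb
        have h2 := hb.2
        have h3 : ((i:ℝ) + 1) / n ≤ 1 := by
          rw [div_le_one hn0]
          exact_mod_cast h
        exact hx (show x < 1 by linarith)
      rw [indicator_of_notMem h1, mul_zero]
  · filter_upwards [PX_coe (sv n s i), sv_coe n s i,
      Lp.coeFn_zero ℝ 2 (volume.restrict (Ioi (0:ℝ)))] with x e1 e2 e3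
    rw [e1, e3]
    by_cases hx : x ∈ Iio (1:ℝ)
    · rw [indicator_of_mem hx, e2]
      have h1 : x ∉ blk n i := by
        intro hb
        have h2 := hb.1
        have h3 : 1 ≤ (i:ℝ) / n := by
          rw [one_le_div hn0]
          exact_mod_cast not_lt.1 h
        have h4 : x < 1 := hx
        linarith
      rw [indicator_of_notMem h1, mul_zero]
      rfl
    · rw [indicator_of_notMem hx]
      rfl

lemma hasSum_ev (x : L2N) : HasSum (fun i => (x : ℕ → ℝ) i • ev i) x := by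
  have h := lp.hasSum_single (p := 2) (by norm_num) x
  refine h.congr_fun ?_ |> fun h => h
  intro i
  unfold ev
  rw [← lp.single_smul]
  simp

theorem PX_norm (f : X) : ‖PX f‖ ≤ ‖f‖ := by
  have h := PX.le_opNorm f
  have h2 := PX_opNorm
  nlinarith [norm_nonneg f]

theorem exists_PX : ∃ P : X →L[ℝ] X, ∀ f : X, (P f : ℝ → ℝ) =ᵐ[volume.restrict (Ioi (0 : ℝ))]
    (Iio (1 : ℝ)).indicator (f : ℝ → ℝ) := ⟨PX, PX_coe⟩

/-- **the cut-off is compatible with the step embedding** -/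
theorem IsStep.trunc {n : ℕ} (hn : 1 ≤ n) {s : ℝ} {I : L2N →ₗᵢ[ℝ] X} (h : IsStep n s I) (x : L2N) :
    PX (I x) = I (tr n x) := by
  have h1 : HasSum (fun i => (x : ℕ → ℝ) i • PX (I (ev i))) (PX (I x)) := by
    have h2 := (hasSum_ev x).mapL (PX.comp I.toContinuousLinearMap)
    simpa using h2
  have h3 : HasSum (fun i => (x : ℕ → ℝ) i • PX (I (ev i))) (I (tr n x)) := by
    have h4 : I (tr n x) = ∑ i ∈ Finset.range n, (x : ℕ → ℝ) i • PX (I (ev i)) := by
      rw [tr_apply, map_sum]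
      refine Finset.sum_congr rfl fun i hi => ?_
      rw [map_smul, h.eq_sv, PX_sv hn, if_pos (Finset.mem_range.1 hi), ev_inner]
    rw [h4]
    apply hasSum_sum_of_ne_finset_zero
    intro i hi
    rw [h.eq_sv, PX_sv hn, if_neg (by simpa using hi), smul_zero]
  exact h1.unique h3

/-! ### Lemma E -/

lemma n_one_sub_exp {a : ℝ} (ha : 0 < a) :
    Tendsto (fun n : ℕ => (n : ℝ) * (1 - exp (-(a / n)))) atTop (𝓝 a) := by
  have h0 : Tendsto (fun n : ℕ => -(a / (n : ℝ))) atTop (𝓝 0) := by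
    have := (tendsto_const_div_atTop_nhds_zero_nat a).neg
    simpa using this
  have h1 : Tendsto (fun n : ℕ => exp (-(a / (n : ℝ)))) atTop (𝓝 1) := by
    have := (Real.continuous_exp.tendsto 0).comp h0
    rw [exp_zero] at this
    exact this
  have h2 : Tendsto (fun n : ℕ => a * exp (-(a / (n : ℝ)))) atTop (𝓝 a) := by
    have := h1.const_mul a
    simpa using this
  refine tendsto_of_tendsto_of_tendsto_of_le_of_le' h2 tendsto_const_nhds ?_ ?_
  · filter_upwards [eventually_ge_atTop 1] with n hn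
    have hn0 : (0:ℝ) < n := by exact_mod_cast hn
    have e1 := add_one_le_exp (a / (n:ℝ))
    have e2 : exp (-(a / (n:ℝ))) * exp (a / (n:ℝ)) = 1 := by rw [← exp_add]; simp
    have e3 := exp_pos (-(a / (n:ℝ)))
    have e4 : exp (-(a / (n:ℝ))) * (a / n + 1) ≤ exp (-(a / (n:ℝ))) * exp (a / (n:ℝ)) :=
      mul_le_mul_of_nonneg_left e1 e3.le
    rw [e2] at e4
    have e5 : exp (-(a / (n:ℝ))) * (a / n) ≤ 1 - exp (-(a / (n:ℝ))) := by linarith
    calc a * exp (-(a / (n:ℝ))) = n * (exp (-(a / (n:ℝ))) * (a / n)) := by field_simp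
      _ ≤ _ := mul_le_mul_of_nonneg_left e5 hn0.le
  · filter_upwards [eventually_ge_atTop 1] with n hn
    have hn0 : (0:ℝ) < n := by exact_mod_cast hn
    have e1 := one_sub_le_exp_neg (a / (n:ℝ))
    calc (n:ℝ) * (1 - exp (-(a / (n:ℝ)))) ≤ n * (a / n) :=
          mul_le_mul_of_nonneg_left (by linarith) hn0.le
      _ = a := by field_simp

/-- Lemma E -/
theorem step_kv_tendsto {I : ℕ → L2N →ₗᵢ[ℝ] X} (hI : ∀ n, 1 ≤ n → IsStep n 1 (I n)) {τ : ℕ → ℝ}
    (hτ : ∀ᶠ n in atTop, |τ n| < 1) {a : ℝ} (ha : 0 < a)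
    (h : Tendsto (fun n : ℕ => (n : ℝ) * (1 - τ n)) atTop (𝓝 a)) :
    Tendsto (fun n : ℕ => (√(n : ℝ))⁻¹ • I n (kv (τ n))) atTop (𝓝 (eps a)) := by
  have hn := tendsto_natCast_atTop_atTop (R := ℝ)
  -- τ → 1
  have h1 : Tendsto (fun n : ℕ => 1 - τ n) atTop (𝓝 0) := by
    have h2 : Tendsto (fun n : ℕ => (n : ℝ) * (1 - τ n) * (n : ℝ)⁻¹) atTop (𝓝 (a * 0)) :=
      h.mul (tendsto_inv_atTop_zero.comp hn)
    rw [mul_zero] at h2
    refine h2.congr' ?_
    filter_upwards [eventually_ge_atTop 1] with n hn1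
    have hn0 : (n:ℝ) ≠ 0 := by
      have : 0 < n := hn1
      exact_mod_cast this.ne'
    field_simp
  have hτ1 : Tendsto τ atTop (𝓝 1) := by
    have := (tendsto_const_nhds (x := (1:ℝ))).sub h1
    simpa using this
  have hq := n_one_sub_exp ha
  have hq1 : Tendsto (fun n : ℕ => exp (-(a / (n : ℝ)))) atTop (𝓝 1) := by
    have h0 : Tendsto (fun n : ℕ => -(a / (n : ℝ))) atTop (𝓝 0) := by
      have := (tendsto_const_div_atTop_nhds_zero_nat a).neg
      simpa using this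
    have := (Real.continuous_exp.tendsto 0).comp h0
    rw [exp_zero] at this
    exact this
  -- the three terms
  have t1 : Tendsto (fun n : ℕ => 1 / ((n : ℝ) * (1 - τ n) * (1 + τ n))) atTop
      (𝓝 (1 / (a * (1 + 1)))) := by
    refine Tendsto.div tendsto_const_nhds (h.mul (tendsto_const_nhds.add hτ1)) ?_
    positivity
  have t2 : Tendsto (fun n : ℕ => ((n : ℝ) * (1 - exp (-(a / n))) / a) /
      ((n : ℝ) * (1 - τ n) + τ n * ((n : ℝ) * (1 - exp (-(a / n)))))) atTop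
      (𝓝 ((a / a) / (a + 1 * a))) := by
    refine Tendsto.div (hq.div_const a) (h.add (hτ1.mul hq)) ?_
    positivity
  have t3 : Tendsto (fun n : ℕ => 1 / ((n : ℝ) * (1 - τ n) * (1 + τ n)) -
      2 * (((n : ℝ) * (1 - exp (-(a / n))) / a) /
      ((n : ℝ) * (1 - τ n) + τ n * ((n : ℝ) * (1 - exp (-(a / n)))))) + 1 / (a + a)) atTop (𝓝 0) := by
    have := (t1.sub (t2.const_mul 2)).add_const (1 / (a + a))
    have e : 1 / (a * (1 + 1)) - 2 * ((a / a) / (a + 1 * a)) + 1 / (a + a) = 0 := by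
      have := ha.ne'
      field_simp
      ring
    rwa [e] at this
  rw [tendsto_iff_norm_sub_tendsto_zero]
  have key : Tendsto (fun n : ℕ => ‖(√(n : ℝ))⁻¹ • I n (kv (τ n)) - eps a‖ ^ 2) atTop (𝓝 0) := by
    refine t3.congr' ?_
    filter_upwards [eventually_ge_atTop 1, hτ] with n hn1 hτn
    have hn0 : (0:ℝ) < n := by exact_mod_cast hn1
    have hq : |exp (-(a / (n:ℝ)))| < 1 := by
      rw [abs_of_pos (exp_pos _), exp_lt_one_iff]
      have : 0 < a / (n:ℝ) := by positivity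
      linarith
    have e1 : ‖I n (kv (τ n))‖ ^ 2 = 1 / (1 - τ n * τ n) := by
      rw [LinearIsometry.norm_map, ← real_inner_self_eq_norm_sq, inner_kv hτn hτn]
    have e2 : inner ℝ (I n (kv (τ n))) (eps a) =
        √n * (1 - exp (-(a / n))) / a * (1 / (1 - τ n * exp (-(a / n)))) := by
      have h5 : inner ℝ (I n (kv (τ n))) (eps a) = inner ℝ (kv (τ n))
          (ContinuousLinearMap.adjoint (I n).toContinuousLinearMap (eps a)) := by
        rw [ContinuousLinearMap.adjoint_inner_right]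
        rfl
      rw [h5, (hI n hn1).adj_eps hn1 (Or.inl rfl) ha, real_inner_smul_right, one_mul,
        inner_kv hτn hq]
    have e3 : ‖eps a‖ ^ 2 = 1 / (a + a) := by
      rw [← real_inner_self_eq_norm_sq, inner_eps ha ha]
    rw [norm_sub_sq_real, norm_smul, mul_pow, e1, real_inner_smul_left, e2, e3]
    have e4 : ‖(√(n:ℝ))⁻¹‖ ^ 2 = (n:ℝ)⁻¹ := by
      rw [norm_inv, Real.norm_of_nonneg (Real.sqrt_nonneg _), inv_pow, Real.sq_sqrt hn0.le]
    have e5 : (√(n:ℝ))⁻¹ * √(n:ℝ) = 1 := inv_mul_cancel₀ (Real.sqrt_pos.2 hn0).ne'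
    rw [e4]
    have e6 : (n : ℝ) * (1 - τ n) + τ n * ((n : ℝ) * (1 - exp (-(a / n)))) =
        n * (1 - τ n * exp (-(a / n))) := by ring
    have e7 : (1 : ℝ) - τ n * τ n ≠ 0 := by
      have := abs_lt.1 hτn
      nlinarith [this.1, this.2]
    have e8 : 1 - τ n * exp (-(a / (n:ℝ))) ≠ 0 := by
      have h1 := abs_lt.1 hτn
      have h2 := abs_lt.1 hq
      have h3 := exp_pos (-(a / (n:ℝ)))
      nlinarith [h1.2, h2.2]
    have e9 : (n : ℝ) * (1 - τ n) * (1 + τ n) = n * (1 - τ n * τ n) := by ring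
    rw [e6, e9]
    have e10 : (√(n:ℝ))⁻¹ * (√(n:ℝ) * (1 - exp (-(a / n))) / a *
        (1 / (1 - τ n * exp (-(a / n))))) = (1 - exp (-(a / n))) / a *
        (1 / (1 - τ n * exp (-(a / n)))) := by
      calc _ = ((√(n:ℝ))⁻¹ * √(n:ℝ)) * ((1 - exp (-(a / n))) / a *
        (1 / (1 - τ n * exp (-(a / n))))) := by ring
        _ = _ := by rw [e5, one_mul]
    rw [e10]
    have e11 : (n : ℝ) * (1 - exp (-(a / n))) / a / (n * (1 - τ n * exp (-(a / n)))) =
        (1 - exp (-(a / n))) / a * (1 / (1 - τ n * exp (-(a / n)))) := by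
      have := ha.ne'
      have := hn0.ne'
      field_simp
    rw [e11]
    have e12 : 1 / ((n:ℝ) * (1 - τ n * τ n)) = (n:ℝ)⁻¹ * (1 / (1 - τ n * τ n)) := by
      have := hn0.ne'
      field_simp
    rw [e12]
  have h7 := key.sqrt
  rw [Real.sqrt_zero] at h7
  refine h7.congr fun n => ?_
  exact Real.sqrt_sq (norm_nonneg _)

/-! ### profiles of sequences -/

lemma mem_blk_iff {n : ℕ} (hn : 1 ≤ n) {x : ℝ} (hx : 0 < x) (i : ℕ) :
    x ∈ blk n i ↔ i = ⌊(n:ℝ) * x⌋₊ := by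
  have hn0 : (0:ℝ) < n := by exact_mod_cast hn
  have hnx : 0 ≤ (n:ℝ) * x := by positivity
  unfold blk
  rw [mem_Ico, div_le_iff₀ hn0, lt_div_iff₀ hn0, mul_comm x, eq_comm, Nat.floor_eq_iff hnx]

lemma step_Fv_coe {n : ℕ} (hn : 1 ≤ n) {s : ℝ} (hs : s ^ 2 = 1) {I : L2N →ₗᵢ[ℝ] X}
    (h : IsStep n s I) (G : ℕ → ℝ) : (I (Fv (fun i => s ^ i * G i) n) : ℝ → ℝ)
      =ᵐ[volume.restrict (Ioi (0 : ℝ))]
      fun x => √(n:ℝ) * (Iio (1:ℝ)).indicator (fun x => G ⌊(n:ℝ) * x⌋₊) x := by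
  have hn0 : (0:ℝ) < n := by exact_mod_cast hn
  have h1 : I (Fv (fun i => s ^ i * G i) n) =
      ∑ i ∈ Finset.range n, (s ^ i * G i) • sv n s i := by
    unfold Fv
    rw [map_sum]
    refine Finset.sum_congr rfl fun i _ => ?_
    rw [map_smul, h.eq_sv]
  have h2 : ∀ᵐ x ∂(volume.restrict (Ioi (0 : ℝ))), ∀ i : ℕ,
      ((s ^ i * G i) • sv n s i : X) x = (s ^ i * G i) * (√n * s ^ i * (blk n i).indicator 1 x) := by
    rw [ae_all_iff]
    intro i
    filter_upwards [Lp.coeFn_smul (s ^ i * G i) (sv n s i), sv_coe n s i] with x e1 e2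
    rw [e1, Pi.smul_apply, e2, smul_eq_mul]
  rw [h1]
  filter_upwards [Lp.coeFn_fun_finsetSum (Finset.range n) (fun i => (s ^ i * G i) • sv n s i), h2,
    ae_restrict_mem measurableSet_Ioi] with x e1 e2 hx
  have hx0 : 0 < x := hx
  rw [e1, Finset.sum_congr rfl (fun i _ => e2 i)]
  have h3 : ∀ i ∈ Finset.range n, (s ^ i * G i) * (√(n:ℝ) * s ^ i * (blk n i).indicator 1 x) =
      if i = ⌊(n:ℝ) * x⌋₊ then √(n:ℝ) * G i else 0 := by
    intro i _
    split_ifs with hi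
    · rw [indicator_of_mem ((mem_blk_iff hn hx0 i).2 hi)]
      have e : s ^ i * s ^ i = 1 := by rw [← pow_add, ← two_mul, pow_mul, hs, one_pow]
      simp only [Pi.one_apply]
      linear_combination (√(n:ℝ) * G i) * e
    · rw [indicator_of_notMem (fun hb => hi ((mem_blk_iff hn hx0 i).1 hb))]
      ring
  rw [Finset.sum_congr rfl h3, Finset.sum_ite_eq']
  by_cases hx1 : x ∈ Iio (1:ℝ)
  · rw [indicator_of_mem hx1, if_pos]
    rw [Finset.mem_range, Nat.floor_lt (by positivity)]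
    have : x < 1 := hx1
    nlinarith
  · rw [indicator_of_notMem hx1, if_neg, mul_zero]
    rw [Finset.mem_range, not_lt]
    apply Nat.le_floor
    have : 1 ≤ x := not_lt.1 hx1
    nlinarith

lemma memLp_cut {g : ℝ → ℝ} (hg : Measurable g) {M : ℝ} (hM : ∀ x, 0 < x → x < 1 → |g x| ≤ M) :
    MemLp ((Iio (1:ℝ)).indicator g) 2 (volume.restrict (Ioi (0 : ℝ))) := by
  rw [memLp_indicator_iff_restrict measurableSet_Iio, Measure.restrict_restrict measurableSet_Iio]
  have hfin : IsFiniteMeasure (volume.restrict (Iio (1:ℝ) ∩ Ioi 0)) := by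
    constructor
    rw [Measure.restrict_apply_univ, inter_comm, Ioi_inter_Iio, Real.volume_Ioo]
    exact ENNReal.ofReal_lt_top
  refine MemLp.of_bound hg.aestronglyMeasurable M ?_
  filter_upwards [ae_restrict_mem (measurableSet_Iio.inter measurableSet_Ioi)] with x hx
  exact hM x hx.2 hx.1

lemma norm_sq_eq (f : X) : ‖f‖ ^ 2 = ∫ x in Ioi (0:ℝ), (f : ℝ → ℝ) x ^ 2 := by
  rw [← real_inner_self_eq_norm_sq, L2.inner_def]
  refine integral_congr_ae (Eventually.of_forall fun x => ?_)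
  simp [sq]

lemma cut_tendsto {g : ℝ → ℝ} (hg : Measurable g) {M : ℝ} (hM : ∀ x, 0 < x → x < 1 → |g x| ≤ M)
    {V : ℕ → X} {F : ℕ → ℝ → ℝ}
    (hV : ∀ n, 1 ≤ n → (V n : ℝ → ℝ) =ᵐ[volume.restrict (Ioi (0 : ℝ))] (Iio (1:ℝ)).indicator (F n))
    (hF : ∀ n, 1 ≤ n → ∀ x, 0 < x → x < 1 → |F n x| ≤ M)
    (hlim : ∀ x, 0 < x → x < 1 → Tendsto (fun n => F n x) atTop (𝓝 (g x))) :
    Tendsto V atTop (𝓝 ((memLp_cut hg hM).toLp _)) := by
  set V0 : X := (memLp_cut hg hM).toLp _ with hV0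
  have hco : ∀ᵐ x ∂(volume.restrict (Ioi (0 : ℝ))), ∀ n : ℕ, 1 ≤ n →
      ((V n - V0 : X) : ℝ → ℝ) x = (Iio (1:ℝ)).indicator (fun x => F n x - g x) x := by
    rw [ae_all_iff]
    intro n
    by_cases hn : 1 ≤ n
    · filter_upwards [hV n hn, MemLp.coeFn_toLp (memLp_cut hg hM), Lp.coeFn_sub (V n) V0]
        with x e1 e2 e3 _
      rw [e3, Pi.sub_apply, e1, hV0, e2]
      by_cases hx : x ∈ Iio (1:ℝ)
      · rw [indicator_of_mem hx, indicator_of_mem hx, indicator_of_mem hx]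
      · rw [indicator_of_notMem hx, indicator_of_notMem hx, indicator_of_notMem hx, sub_zero]
    · exact Eventually.of_forall fun x h => absurd h hn
  have hint : Integrable ((Iio (1:ℝ)).indicator fun _ : ℝ => (2 * M) ^ 2)
      (volume.restrict (Ioi (0 : ℝ))) := by
    rw [integrable_indicator_iff measurableSet_Iio, IntegrableOn,
      Measure.restrict_restrict measurableSet_Iio]
    have hfin : IsFiniteMeasure (volume.restrict (Iio (1:ℝ) ∩ Ioi 0)) := by
      constructor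
      rw [Measure.restrict_apply_univ, inter_comm, Ioi_inter_Iio, Real.volume_Ioo]
      exact ENNReal.ofReal_lt_top
    exact integrable_const _
  have key : Tendsto (fun n => ∫ x in Ioi (0:ℝ), ((V n - V0 : X) : ℝ → ℝ) x ^ 2) atTop
      (𝓝 (∫ _ in Ioi (0:ℝ), (0:ℝ))) := by
    refine tendsto_integral_filter_of_dominated_convergence _
      (Eventually.of_forall fun n => (Lp.aestronglyMeasurable (V n - V0)).pow 2) ?_ hint ?_
    · filter_upwards [eventually_ge_atTop 1] with n hn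
      filter_upwards [hco, ae_restrict_mem measurableSet_Ioi] with x hx hx0
      rw [hx n hn]
      by_cases hx1 : x ∈ Iio (1:ℝ)
      · rw [indicator_of_mem hx1, indicator_of_mem hx1, Real.norm_eq_abs, abs_pow]
        have h1 := hF n hn x hx0 hx1
        have h2 := hM x hx0 hx1
        have h3 : |F n x - g x| ≤ 2 * M := (abs_sub _ _).trans (by linarith)
        exact pow_le_pow_left₀ (abs_nonneg _) h3 2
      · rw [indicator_of_notMem hx1, indicator_of_notMem hx1]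
        simp
    · filter_upwards [hco, ae_restrict_mem measurableSet_Ioi] with x hx hx0
      by_cases hx1 : x ∈ Iio (1:ℝ)
      · have h1 : Tendsto (fun n => (F n x - g x) ^ 2) atTop (𝓝 0) := by
          have := ((hlim x hx0 hx1).sub_const (g x)).pow 2
          simpa using this
        refine h1.congr' ?_
        filter_upwards [eventually_ge_atTop 1] with n hn
        rw [hx n hn, indicator_of_mem hx1]
      · refine Tendsto.congr' ?_ tendsto_const_nhds
        filter_upwards [eventually_ge_atTop 1] with n hn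
        rw [hx n hn, indicator_of_notMem hx1]
        simp
  rw [integral_zero] at key
  rw [tendsto_iff_norm_sub_tendsto_zero]
  have h7 := key.sqrt
  rw [Real.sqrt_zero] at h7
  refine h7.congr fun n => ?_
  rw [← norm_sq_eq]
  exact Real.sqrt_sq (norm_nonneg _)

/-- the profile of a sequence G i ~ C i ^ β, explicit limit -/
theorem step_tendsto' {s : ℝ} (hs : s = 1 ∨ s = -1) {I : ℕ → L2N →ₗᵢ[ℝ] X}
    (hI : ∀ n, 1 ≤ n → IsStep n s (I n)) {G : ℕ → ℝ} {β C : ℝ} (hβ : 0 ≤ β)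
    (hG : Tendsto (fun i : ℕ => G i / (i : ℝ) ^ β) atTop (𝓝 C)) :
    ∃ V0 : X, ((V0 : ℝ → ℝ) =ᵐ[volume.restrict (Ioi (0 : ℝ))]
        fun x => C * x ^ β * (Iio (1 : ℝ)).indicator 1 x) ∧
      Tendsto (fun n : ℕ => ((n : ℝ) ^ (-(1 / 2) - β)) •
      I n (Fv (fun i => s ^ i * G i) n)) atTop (𝓝 V0) := by
  have hs2 := sq_of hs
  -- bound of the sequence
  obtain ⟨K, hK⟩ : ∃ K : ℝ, ∀ i : ℕ, |G i / (i : ℝ) ^ β| ≤ K := by
    obtain ⟨K, hK⟩ := hG.norm.bddAbove_range
    exact ⟨K, fun i => hK ⟨i, rfl⟩⟩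
  have hK0 : 0 ≤ K := (abs_nonneg _).trans (hK 0)
  set M : ℝ := K + |G 0| + |C| with hM
  have hCM : |C| ≤ M := by rw [hM]; have := abs_nonneg (G 0); linarith
  have hbound : ∀ n : ℕ, 1 ≤ n → ∀ i : ℕ, i < n → |(n:ℝ) ^ (-β) * G i| ≤ M := by
    intro n hn i hi
    have hn0 : (0:ℝ) < n := by exact_mod_cast hn
    have hnb : (0:ℝ) < (n:ℝ) ^ (-β) := Real.rpow_pos_of_pos hn0 _
    rw [abs_mul, abs_of_pos hnb]
    rcases Nat.eq_zero_or_pos i with h0 | h0
    · subst h0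
      have h1 : (n:ℝ) ^ (-β) ≤ 1 := by
        apply Real.rpow_le_one_of_one_le_of_nonpos _ (by linarith)
        exact_mod_cast hn
      have h2 := abs_nonneg (G 0)
      have h3 := abs_nonneg C
      calc (n:ℝ) ^ (-β) * |G 0| ≤ 1 * |G 0| := by gcongr
        _ ≤ M := by rw [hM]; linarith
    · have hi0 : (0:ℝ) < i := by exact_mod_cast h0
      have hib : (0:ℝ) < (i:ℝ) ^ β := Real.rpow_pos_of_pos hi0 _
      have h1 := hK i
      rw [abs_div, abs_of_pos hib, div_le_iff₀ hib] at h1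
      have h2 : (n:ℝ) ^ (-β) * (i:ℝ) ^ β ≤ 1 := by
        rw [Real.rpow_neg hn0.le, inv_mul_le_iff₀ (Real.rpow_pos_of_pos hn0 _), mul_one]
        apply Real.rpow_le_rpow hi0.le _ hβ
        exact_mod_cast hi.le
      calc (n:ℝ) ^ (-β) * |G i| ≤ (n:ℝ) ^ (-β) * (K * (i:ℝ) ^ β) := by gcongr
        _ = K * ((n:ℝ) ^ (-β) * (i:ℝ) ^ β) := by ring
        _ ≤ K * 1 := by gcongr
        _ ≤ M := by rw [hM]; have := abs_nonneg (G 0); have := abs_nonneg C; linarith
  have hg : Measurable fun x : ℝ => C * x ^ β := by fun_prop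
  have hgM : ∀ x : ℝ, 0 < x → x < 1 → |C * x ^ β| ≤ M := by
    intro x hx0 hx1
    rw [abs_mul, abs_of_pos (Real.rpow_pos_of_pos hx0 _)]
    have h1 : x ^ β ≤ 1 := Real.rpow_le_one hx0.le hx1.le hβ
    calc |C| * x ^ β ≤ |C| * 1 := by gcongr
      _ ≤ M := by linarith
  refine ⟨(memLp_cut hg hgM).toLp _, ?_, cut_tendsto hg hgM
    (F := fun n x => (n:ℝ) ^ (-β) * G ⌊(n:ℝ) * x⌋₊) ?_ ?_ ?_⟩
  · filter_upwards [MemLp.coeFn_toLp (memLp_cut hg hgM)] with x e1
    rw [e1]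
    by_cases hx : x ∈ Iio (1:ℝ)
    · rw [indicator_of_mem hx, indicator_of_mem hx, Pi.one_apply, mul_one]
    · rw [indicator_of_notMem hx, indicator_of_notMem hx, mul_zero]
  · intro n hn
    have hn0 : (0:ℝ) < n := by exact_mod_cast hn
    filter_upwards [Lp.coeFn_smul ((n : ℝ) ^ (-(1 / 2) - β)) (I n (Fv (fun i => s ^ i * G i) n)),
      step_Fv_coe hn hs2 (hI n hn) G] with x e1 e2
    rw [e1, Pi.smul_apply, e2, smul_eq_mul]
    have e3 : (n : ℝ) ^ (-(1 / 2) - β) * √(n:ℝ) = (n:ℝ) ^ (-β) := by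
      rw [Real.sqrt_eq_rpow, ← Real.rpow_add hn0]
      congr 1
      ring
    rw [← mul_assoc, e3]
    by_cases hx : x ∈ Iio (1:ℝ)
    · rw [indicator_of_mem hx, indicator_of_mem hx]
    · rw [indicator_of_notMem hx, indicator_of_notMem hx, mul_zero]
  · intro n hn x hx0 hx1
    have hn0 : (0:ℝ) < n := by exact_mod_cast hn
    apply hbound n hn
    rw [Nat.floor_lt (by positivity)]
    nlinarith
  · intro x hx0 hx1
    have hfl : Tendsto (fun n : ℕ => ⌊(n:ℝ) * x⌋₊) atTop atTop := by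
      have h1 : Tendsto (fun n : ℕ => (n:ℝ) * x) atTop atTop :=
        Tendsto.atTop_mul_const hx0 tendsto_natCast_atTop_atTop
      exact tendsto_nat_floor_atTop.comp h1
    have h1 := hG.comp hfl
    have h2 : Tendsto (fun n : ℕ => ((⌊(n:ℝ) * x⌋₊ : ℝ) / n)) atTop (𝓝 x) := by
      have := (tendsto_nat_floor_mul_div_atTop hx0.le).comp (tendsto_natCast_atTop_atTop (R := ℝ))
      refine this.congr fun n => ?_
      simp [mul_comm x]
    have h3 : Tendsto (fun n : ℕ => ((⌊(n:ℝ) * x⌋₊ : ℝ) / n) ^ β) atTop (𝓝 (x ^ β)) :=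
      h2.rpow_const (Or.inl hx0.ne')
    refine (h1.mul h3).congr' ?_
    have hpos : ∀ᶠ n : ℕ in atTop, 1 ≤ ⌊(n:ℝ) * x⌋₊ := hfl.eventually_ge_atTop 1
    filter_upwards [hpos, eventually_ge_atTop 1] with n hn1 hn
    have hn0 : (0:ℝ) < n := by exact_mod_cast hn
    have hi0 : (0:ℝ) < (⌊(n:ℝ) * x⌋₊ : ℝ) := by exact_mod_cast hn1
    simp only [Function.comp]
    rw [Real.div_rpow hi0.le hn0.le, Real.rpow_neg hn0.le]
    have := (Real.rpow_pos_of_pos hi0 β).ne'
    have := (Real.rpow_pos_of_pos hn0 β).ne'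
    field_simp

/-- the profile of a sequence G i ~ C i ^ β -/
theorem step_tendsto {s : ℝ} (hs : s = 1 ∨ s = -1) {I : ℕ → L2N →ₗᵢ[ℝ] X}
    (hI : ∀ n, 1 ≤ n → IsStep n s (I n)) {G : ℕ → ℝ} {β C : ℝ} (hβ : 0 ≤ β)
    (hG : Tendsto (fun i : ℕ => G i / (i : ℝ) ^ β) atTop (𝓝 C)) :
    ∃ V0 : X, Tendsto (fun n : ℕ => ((n : ℝ) ^ (-(1 / 2) - β)) •
      I n (Fv (fun i => s ^ i * G i) n)) atTop (𝓝 V0) := by
  obtain ⟨V0, _, h⟩ := step_tendsto' hs hI hβ hG
  exact ⟨V0, h⟩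

end

end EXG
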