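import Mathlib

/-!
# EXG / FA : strong limits of bounded operators and of the solutions of `U = V + P (R U)`

`strong_limit` : uniformly bounded operators which converge on a total set converge strongly.
`FA` : if `‖R n‖ ≤ 1/2`, `R n` converges on a total set, `‖P‖ ≤ 1`, `V n → V0` and
`U n = V n + P (R n (U n))`, then `U n` converges. `FA_inner`: the inner products `⟪V n, U n⟫`
converge. `FA_zero` : if `R n f → 0` on the total set, then `U n → V0` and the limit is `‖V0‖ ^ 2`.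
-/

namespace EXG

open Filter Topology

variable {X : Type*} [NormedAddCommGroup X] [InnerProductSpace ℝ X]

/-- Convergence on a total set of a uniformly bounded sequence of operators, for a given limit. -/
lemma strong_of_dense (R : ℕ → X →L[ℝ] X) (S : X →L[ℝ] X) (C : ℝ) (hC : ∀ n, ‖R n‖ ≤ C)
    (D : Set X) (hD : Dense (Submodule.span ℝ D : Set X))
    (hconv : ∀ f ∈ D, Tendsto (fun n => R n f) atTop (𝓝 (S f))) (f : X) :
    Tendsto (fun n => R n f) atTop (𝓝 (S f)) := by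
  have hspan : ∀ g ∈ Submodule.span ℝ D, Tendsto (fun n => R n g) atTop (𝓝 (S g)) := by
    intro g hg
    induction hg using Submodule.span_induction with
    | mem x hx => exact hconv x hx
    | zero => simp
    | add x y _ _ hx hy => simpa using hx.add hy
    | smul a x _ hx => simpa using hx.const_smul a
  have hC0 : 0 ≤ C := (norm_nonneg _).trans (hC 0)
  rw [Metric.tendsto_atTop]
  intro ε hε
  obtain ⟨g, hg, hgf⟩ : ∃ g ∈ (Submodule.span ℝ D : Set X), dist f g <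
      ε / (2 * (C + ‖S‖ + 1)) := by
    have := Metric.dense_iff.1 hD f (ε / (2 * (C + ‖S‖ + 1))) (by positivity)
    obtain ⟨g, hg1, hg2⟩ := this
    exact ⟨g, hg2, by rw [dist_comm]; exact hg1⟩
  obtain ⟨N, hN⟩ := Metric.tendsto_atTop.1 (hspan g hg) (ε / 2) (by positivity)
  refine ⟨N, fun n hn => ?_⟩
  have h1 : dist (R n f) (S f) ≤ dist (R n f) (R n g) + dist (R n g) (S g) + dist (S g) (S f) :=
    dist_triangle4 _ _ _ _
  have h2 : dist (R n f) (R n g) ≤ C * dist f g := by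
    rw [dist_eq_norm, dist_eq_norm, ← map_sub]
    exact ((R n).le_opNorm _).trans (mul_le_mul_of_nonneg_right (hC n) (norm_nonneg _))
  have h3 : dist (S g) (S f) ≤ ‖S‖ * dist f g := by
    rw [dist_comm f g, dist_eq_norm, dist_eq_norm, ← map_sub]
    exact S.le_opNorm _
  have h4 := hN n hn
  have h5 : (C + ‖S‖) * dist f g < ε / 2 := by
    have h6 : (C + ‖S‖) * dist f g ≤ (C + ‖S‖ + 1) * dist f g :=
      mul_le_mul_of_nonneg_right (by linarith) dist_nonneg
    have h7 : (C + ‖S‖ + 1) * dist f g < (C + ‖S‖ + 1) * (ε / (2 * (C + ‖S‖ + 1))) :=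
      mul_lt_mul_of_pos_left hgf (by positivity)
    have h8 : (C + ‖S‖ + 1) * (ε / (2 * (C + ‖S‖ + 1))) = ε / 2 := by
      field_simp
    linarith
  nlinarith [h1, h2, h3, h4, h5]

variable [CompleteSpace X]

/-- Uniformly bounded operators which converge on a total set converge strongly. -/
lemma strong_limit (R : ℕ → X →L[ℝ] X) (C : ℝ) (hC : ∀ n, ‖R n‖ ≤ C) (D : Set X)
    (hD : Dense (Submodule.span ℝ D : Set X))
    (hconv : ∀ f ∈ D, ∃ g, Tendsto (fun n => R n f) atTop (𝓝 g)) :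
    ∃ S : X →L[ℝ] X, ‖S‖ ≤ C ∧ ∀ f, Tendsto (fun n => R n f) atTop (𝓝 (S f)) := by
  have hC0 : 0 ≤ C := (norm_nonneg _).trans (hC 0)
  have hspan : ∀ g ∈ Submodule.span ℝ D, ∃ k, Tendsto (fun n => R n g) atTop (𝓝 k) := by
    intro g hg
    induction hg using Submodule.span_induction with
    | mem x hx => exact hconv x hx
    | zero => exact ⟨0, by simp⟩
    | add x y _ _ hx hy =>
      obtain ⟨a, ha⟩ := hx
      obtain ⟨b, hb⟩ := hy
      exact ⟨a + b, by simpa using ha.add hb⟩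
    | smul c x _ hx =>
      obtain ⟨a, ha⟩ := hx
      exact ⟨c • a, by simpa using ha.const_smul c⟩
  have hall : ∀ f : X, ∃ k, Tendsto (fun n => R n f) atTop (𝓝 k) := by
    intro f
    apply cauchySeq_tendsto_of_complete
    rw [Metric.cauchySeq_iff]
    intro ε hε
    obtain ⟨g, hg, hgf⟩ : ∃ g ∈ (Submodule.span ℝ D : Set X), dist f g < ε / (4 * (C + 1)) := by
      obtain ⟨g, hg1, hg2⟩ := Metric.dense_iff.1 hD f (ε / (4 * (C + 1))) (by positivity)
      exact ⟨g, hg2, by rw [dist_comm]; exact hg1⟩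
    obtain ⟨k, hk⟩ := hspan g hg
    obtain ⟨N, hN⟩ := Metric.cauchySeq_iff.1 hk.cauchySeq (ε / 2) (by positivity)
    refine ⟨N, fun m hm n hn => ?_⟩
    have h2 : ∀ j, dist (R j f) (R j g) ≤ C * dist f g := fun j => by
      rw [dist_eq_norm, dist_eq_norm, ← map_sub]
      exact ((R j).le_opNorm _).trans (mul_le_mul_of_nonneg_right (hC j) (norm_nonneg _))
    have h1 : dist (R m f) (R n f) ≤ dist (R m f) (R m g) + dist (R m g) (R n g) +
        dist (R n g) (R n f) := dist_triangle4 _ _ _ _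
    have h3 := h2 n
    rw [dist_comm (R n f) (R n g)] at h3
    have h4 := hN m hm n hn
    have h5 : C * dist f g < ε / 4 := by
      have h6 : C * dist f g ≤ (C + 1) * dist f g :=
        mul_le_mul_of_nonneg_right (by linarith) dist_nonneg
      have h7 : (C + 1) * dist f g < (C + 1) * (ε / (4 * (C + 1))) :=
        mul_lt_mul_of_pos_left hgf (by positivity)
      have h8 : (C + 1) * (ε / (4 * (C + 1))) = ε / 4 := by field_simp
      linarith
    linarith [h2 m]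
  choose k hk using hall
  let L : X →ₗ[ℝ] X :=
    { toFun := k
      map_add' := fun x y => tendsto_nhds_unique (hk (x + y)) (by simpa using (hk x).add (hk y))
      map_smul' := fun c x =>
        tendsto_nhds_unique (hk (c • x)) (by simpa using (hk x).const_smul c) }
  have hL : ∀ x, ‖L x‖ ≤ C * ‖x‖ := fun x =>
    le_of_tendsto (hk x).norm (Eventually.of_forall fun n =>
      ((R n).le_opNorm x).trans (mul_le_mul_of_nonneg_right (hC n) (norm_nonneg _)))
  exact ⟨L.mkContinuous C hL, LinearMap.mkContinuous_norm_le _ hC0 _, fun f => hk f⟩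

/-- Solutions of `U = V + P (R U)`. -/
theorem FA (R : ℕ → X →L[ℝ] X) (hR : ∀ n, ‖R n‖ ≤ 1 / 2) (D : Set X)
    (hD : Dense (Submodule.span ℝ D : Set X))
    (hconv : ∀ f ∈ D, ∃ g, Tendsto (fun n => R n f) atTop (𝓝 g))
    (P : X →L[ℝ] X) (hP : ‖P‖ ≤ 1) (V U : ℕ → X) (V0 : X) (hV : Tendsto V atTop (𝓝 V0))
    (hU : ∀ n, U n = V n + P (R n (U n))) :
    ∃ U0 : X, Tendsto U atTop (𝓝 U0) := by
  obtain ⟨S, hS, hRS⟩ := strong_limit R (1 / 2) hR D hD hconv
  have hPS : ‖P.comp S‖ < 1 := by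
    refine lt_of_le_of_lt (ContinuousLinearMap.opNorm_comp_le _ _) ?_
    have : ‖P‖ * ‖S‖ ≤ 1 * (1 / 2) := mul_le_mul hP hS (norm_nonneg _) (by norm_num)
    linarith
  obtain ⟨U0, hU0⟩ : ∃ U0 : X, U0 = V0 + P (S U0) := by
    let u := Units.oneSub (P.comp S) hPS
    refine ⟨(↑u⁻¹ : X →L[ℝ] X) V0, ?_⟩
    have h1 : (u : X →L[ℝ] X) * (↑u⁻¹ : X →L[ℝ] X) = 1 := u.mul_inv
    have h2 := congrArg (fun T : X →L[ℝ] X => T V0) h1
    change (u : X →L[ℝ] X) ((↑u⁻¹ : X →L[ℝ] X) V0) = V0 at h2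
    have h3 : (u : X →L[ℝ] X) = 1 - P.comp S := rfl
    rw [h3] at h2
    change (↑u⁻¹ : X →L[ℝ] X) V0 - P (S ((↑u⁻¹ : X →L[ℝ] X) V0)) = V0 at h2
    rw [sub_eq_iff_eq_add] at h2
    exact h2
  refine ⟨U0, ?_⟩
  rw [tendsto_iff_norm_sub_tendsto_zero]
  have hlim : Tendsto (fun n => 2 * (‖V n - V0‖ + ‖R n U0 - S U0‖)) atTop (𝓝 0) := by
    have h1 := tendsto_iff_norm_sub_tendsto_zero.1 hV
    have h2 := tendsto_iff_norm_sub_tendsto_zero.1 (hRS U0)
    have h3 := (h1.add h2).const_mul 2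
    simpa using h3
  refine squeeze_zero (fun n => norm_nonneg _) (fun n => ?_) hlim
  have h1 : U n - U0 = (V n - V0) + P (R n U0 - S U0) + P (R n (U n - U0)) := by
    have e3 : U n - U0 = (V n + P (R n (U n))) - (V0 + P (S U0)) :=
      congrArg₂ (fun a b => a - b) (hU n) hU0
    refine e3.trans ?_
    simp only [map_sub]
    abel
  have h2 : ‖U n - U0‖ ≤ ‖V n - V0‖ + ‖R n U0 - S U0‖ + 1 / 2 * ‖U n - U0‖ := by
    calc ‖U n - U0‖ = ‖(V n - V0) + P (R n U0 - S U0) + P (R n (U n - U0))‖ := by rw [← h1]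
      _ ≤ ‖V n - V0‖ + ‖P (R n U0 - S U0)‖ + ‖P (R n (U n - U0))‖ := norm_add₃_le
      _ ≤ ‖V n - V0‖ + ‖R n U0 - S U0‖ + 1 / 2 * ‖U n - U0‖ := by
        have h3 : ‖P (R n U0 - S U0)‖ ≤ 1 * ‖R n U0 - S U0‖ :=
          (P.le_opNorm _).trans (mul_le_mul_of_nonneg_right hP (norm_nonneg _))
        have h4 : ‖P (R n (U n - U0))‖ ≤ 1 * ‖R n (U n - U0)‖ :=
          (P.le_opNorm _).trans (mul_le_mul_of_nonneg_right hP (norm_nonneg _))
        have h5 : ‖R n (U n - U0)‖ ≤ 1 / 2 * ‖U n - U0‖ :=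
          ((R n).le_opNorm _).trans (mul_le_mul_of_nonneg_right (hR n) (norm_nonneg _))
        linarith
  linarith

/-- The inner products converge. -/
theorem FA_inner (R : ℕ → X →L[ℝ] X) (hR : ∀ n, ‖R n‖ ≤ 1 / 2) (D : Set X)
    (hD : Dense (Submodule.span ℝ D : Set X))
    (hconv : ∀ f ∈ D, ∃ g, Tendsto (fun n => R n f) atTop (𝓝 g))
    (P : X →L[ℝ] X) (hP : ‖P‖ ≤ 1) (V U : ℕ → X) (V0 : X) (hV : Tendsto V atTop (𝓝 V0))
    (hU : ∀ n, U n = V n + P (R n (U n))) :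
    ∃ q : ℝ, Tendsto (fun n => inner ℝ (V n) (U n)) atTop (𝓝 q) := by
  obtain ⟨U0, hU0⟩ := FA R hR D hD hconv P hP V U V0 hV hU
  exact ⟨inner ℝ V0 U0, hV.inner hU0⟩

omit [CompleteSpace X] in
/-- If `R n → 0` on a total set, then `U n → V0`. -/
theorem FA_zero (R : ℕ → X →L[ℝ] X) (hR : ∀ n, ‖R n‖ ≤ 1 / 2) (D : Set X)
    (hD : Dense (Submodule.span ℝ D : Set X))
    (hconv : ∀ f ∈ D, Tendsto (fun n => R n f) atTop (𝓝 0))
    (P : X →L[ℝ] X) (hP : ‖P‖ ≤ 1) (V U : ℕ → X) (V0 : X) (hV : Tendsto V atTop (𝓝 V0))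
    (hU : ∀ n, U n = V n + P (R n (U n))) :
    Tendsto U atTop (𝓝 V0) ∧ Tendsto (fun n => inner ℝ (V n) (U n)) atTop (𝓝 (‖V0‖ ^ 2)) := by
  have hR0 : ∀ f, Tendsto (fun n => R n f) atTop (𝓝 0) := fun f => by
    simpa using strong_of_dense R 0 (1 / 2) hR D hD (by simpa using hconv) f
  have hU0 : Tendsto U atTop (𝓝 V0) := by
    rw [tendsto_iff_norm_sub_tendsto_zero]
    have hlim : Tendsto (fun n => 2 * (‖V n - V0‖ + ‖R n V0‖)) atTop (𝓝 0) := by
      have h1 := tendsto_iff_norm_sub_tendsto_zero.1 hV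
      have h2 := (hR0 V0).norm
      have h3 := (h1.add h2).const_mul 2
      simpa using h3
    refine squeeze_zero (fun n => norm_nonneg _) (fun n => ?_) hlim
    have h1 : U n - V0 = (V n - V0) + P (R n V0) + P (R n (U n - V0)) := by
      conv_lhs => rw [hU n]
      simp only [map_sub]
      abel
    have h2 : ‖U n - V0‖ ≤ ‖V n - V0‖ + ‖R n V0‖ + 1 / 2 * ‖U n - V0‖ := by
      calc ‖U n - V0‖ = ‖(V n - V0) + P (R n V0) + P (R n (U n - V0))‖ := by rw [← h1]
        _ ≤ ‖V n - V0‖ + ‖P (R n V0)‖ + ‖P (R n (U n - V0))‖ := norm_add₃_le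
        _ ≤ ‖V n - V0‖ + ‖R n V0‖ + 1 / 2 * ‖U n - V0‖ := by
          have h3 : ‖P (R n V0)‖ ≤ 1 * ‖R n V0‖ :=
            (P.le_opNorm _).trans (mul_le_mul_of_nonneg_right hP (norm_nonneg _))
          have h4 : ‖P (R n (U n - V0))‖ ≤ 1 * ‖R n (U n - V0)‖ :=
            (P.le_opNorm _).trans (mul_le_mul_of_nonneg_right hP (norm_nonneg _))
          have h5 : ‖R n (U n - V0)‖ ≤ 1 / 2 * ‖U n - V0‖ :=
            ((R n).le_opNorm _).trans (mul_le_mul_of_nonneg_right (hR n) (norm_nonneg _))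
          linarith
    linarith
  refine ⟨hU0, ?_⟩
  have := hV.inner (𝕜 := ℝ) hU0
  simpa [real_inner_self_eq_norm_sq] using this

end EXG
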