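import Pool.Agent.EXG.KerExt

/-! Ker: the kernel on (-1, 1)² : Gram form of the vectors and the diagonal at -1. -/

set_option autoImplicit false

namespace EXG

open Real MeasureTheory Filter Topology Set Ex.P2

theorem inner_vv_Kf {s t : ℝ} (hs : |s| < 1 / 20) (ht : |t| < 1 / 20) :
    inner ℝ (P2F.vv s) (P2F.vv t) = Kf s t := by
  rw [P2F.inner_vv hs ht, P2F.cos_two_xx hs, P2F.cos_two_xx ht, P2F.gam_eq hs, P2F.gam_eq ht]
  rfl

/-- closed form of the diagonal -/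
theorem Kf_diag_eq {t : ℝ} (h0 : 0 < t) (h1 : t < 1) :
    (1 - t ^ 2) * Kf (-t) (-t) = (3 * √2 / (2 * (2 + √2))) *
      ((√(2 + 2 * P2F.hh (-t)) + 1) ^ 2 * (√(2 + 2 * P2F.hh (-t)) + √2) /
        ((√(2 + 2 * P2F.hh (-t)) + 2) * (√(2 + 2 * P2F.hh (-t)) ^ 2 + √2 * √(2 + 2 * P2F.hh (-t)) - 1))) := by
  have hs1 : -1 < -t := by linarith
  have hs2 : -t < 1 := by linarith
  have hh := hh_pos' hs1 hs2
  have hS := P2F.SS_sq (-t)
  have hSp := P2F.SS_pos (-t)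
  have hw : √2 * √2 = 2 := Real.mul_self_sqrt (by norm_num)
  have hwp : 0 < √2 := Real.sqrt_pos.2 (by norm_num)
  have hv2 : √(2 + 2 * P2F.hh (-t)) ^ 2 = 2 + 2 * P2F.hh (-t) := Real.sq_sqrt (by positivity)
  have hvw : √2 < √(2 + 2 * P2F.hh (-t)) := Real.sqrt_lt_sqrt (by norm_num) (by linarith)
  have hH := H_pos' (cf_gt hs1 hs2) (cf_gt hs1 hs2)
  have hh0 := P2F.h0_pos
  have hhe : P2F.hh (-t) = P2F.h0 * (1 - t) / (1 + t) := by
    unfold P2F.hh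
    congr 1
    ring
  have hK : P2F.K1 ^ 2 = 3 * √2 * P2F.h0 / 4 := by
    unfold P2F.K1
    rw [div_pow, Real.sq_sqrt (Real.sqrt_nonneg _), Real.sq_sqrt (by positivity)]
    field_simp
  generalize √(2 + 2 * P2F.hh (-t)) = v at *
  have hvp : 0 < v := hwp.trans hvw
  -- the denominator
  have hHe : P2F.H (cf (-t)) (cf (-t)) = (2 + √2) / 4 * ((v - √2) * (v ^ 2 + √2 * v - 1)) := by
    have e1 : cf (-t) ^ 2 = (2 + v) * (v - 1) ^ 2 / 4 := by
      unfold cf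
      have : ((P2F.SS (-t) ^ 3 - 3 * P2F.SS (-t)) / 2) ^ 2 =
        P2F.SS (-t) ^ 2 * (P2F.SS (-t) ^ 2 - 3) ^ 2 / 4 := by ring
      rw [this, hS]
      ring
    have e2 : P2F.H (cf (-t)) (cf (-t)) = (2 + √2) * cf (-t) ^ 2 - 1 / 2 := by
      unfold P2F.H
      ring
    rw [e2, e1]
    linear_combination (-(1 / 4) + v / 2 + √2 * v / 4) * hw
  have hD : 0 < v ^ 2 + √2 * v - 1 := by nlinarith [mul_pos hwp hvp]
  have h1t : 0 < 1 + t := by linarith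
  have h1t' : 0 < 1 - t := by linarith
  have hvm : v - √2 = 2 * P2F.h0 * (1 - t) / ((1 + t) * (v + √2)) := by
    have e3 : (v - √2) * (v + √2) = 2 * (P2F.h0 * (1 - t) / (1 + t)) := by
      rw [← hhe]
      linear_combination hv2 - hw
    have h4 : v + √2 ≠ 0 := by positivity
    rw [eq_div_iff (by positivity)]
    have e5 : (v - √2) * ((1 + t) * (v + √2)) = ((v - √2) * (v + √2)) * (1 + t) := by ring
    rw [e5, e3]
    field_simp
  have hSS : (P2F.SS (-t) - 1 / P2F.SS (-t)) ^ 2 = (v + 1) ^ 2 / (v + 2) := by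
    have e3 : (P2F.SS (-t) - 1 / P2F.SS (-t)) ^ 2 = (P2F.SS (-t) ^ 2 - 1) ^ 2 / P2F.SS (-t) ^ 2 := by
      field_simp
    rw [e3, hS]
    congr 1 <;> ring
  have hF : P2F.F1f (-t) * P2F.F1f (-t) = (3 * √2 * P2F.h0 / 4) * ((v + 1) ^ 2 / (v + 2)) / (1 + t) ^ 2 := by
    unfold P2F.F1f
    rw [← hK, ← hSS, sub_neg_eq_add, div_mul_div_comm, ← pow_two (1 + t), ← mul_pow, ← pow_two]
  unfold Kf
  rw [hF, hHe, hvm]
  field_simp
  ring

theorem Kf_diag : Tendsto (fun t : ℝ => (1 - t ^ 2) * Kf (-t) (-t)) (𝓝[<] 1) (𝓝 1) := by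
  have hw : √2 * √2 = 2 := Real.mul_self_sqrt (by norm_num)
  have hwp : 0 < √2 := Real.sqrt_pos.2 (by norm_num)
  have hv : Tendsto (fun t : ℝ => √(2 + 2 * P2F.hh (-t))) (𝓝[<] 1) (𝓝 √2) := by
    have h1 : ContinuousAt (fun t : ℝ => √(2 + 2 * P2F.hh (-t))) 1 := by
      unfold P2F.hh
      have : (1 : ℝ) - -1 ≠ 0 := by norm_num
      fun_prop (disch := assumption)
    have h2 := h1.tendsto
    have e : √(2 + 2 * P2F.hh (-1)) = √2 := by
      unfold P2F.hh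
      norm_num
    rw [e] at h2
    exact h2.mono_left nhdsWithin_le_nhds
  have hg : ContinuousAt (fun v : ℝ => (3 * √2 / (2 * (2 + √2))) *
      ((v + 1) ^ 2 * (v + √2) / ((v + 2) * (v ^ 2 + √2 * v - 1)))) √2 := by
    have h1 : (√2 + 2) * (√2 ^ 2 + √2 * √2 - 1) ≠ 0 := by
      have : √2 ^ 2 + √2 * √2 - 1 = 3 := by nlinarith
      rw [this]
      positivity
    fun_prop (disch := assumption)
  have hlim := hg.tendsto.comp hv
  have e : (3 * √2 / (2 * (2 + √2))) *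
      ((√2 + 1) ^ 2 * (√2 + √2) / ((√2 + 2) * (√2 ^ 2 + √2 * √2 - 1))) = 1 := by
    have : √2 ^ 2 + √2 * √2 - 1 = 3 := by nlinarith
    rw [this]
    field_simp
    have h3 : √2 ^ 2 = 2 := by nlinarith
    have h4 : √2 ^ 3 = 2 * √2 := by nlinarith
    have h5 : √2 ^ 4 = 4 := by nlinarith
    nlinarith
  rw [e] at hlim
  refine hlim.congr' ?_
  have : ∀ᶠ t : ℝ in 𝓝[<] 1, 0 < t ∧ t < 1 := by
    have h1 : ∀ᶠ t : ℝ in 𝓝[<] 1, 0 < t := mem_nhdsWithin_of_mem_nhds (Ioi_mem_nhds one_pos)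
    filter_upwards [h1, self_mem_nhdsWithin] with t h h'
    exact ⟨h, h'⟩
  filter_upwards [this] with t ht
  rw [Function.comp_apply, Kf_diag_eq ht.1 ht.2]

end EXG
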