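import Pool.Agent.EXG.Defs

/-! KerExt: analytic continuation of the kernel to (-1, 1)² (helper99). -/

set_option autoImplicit false

namespace EXG

open Real MeasureTheory Filter Topology Set Ex.P2

/-! ### power series with square summable coefficients -/

lemma inner_kv_eq_tsum (w : L2N) {t : ℝ} (ht : |t| < 1) :
    inner ℝ w (kv t) = ∑' j, (w : ℕ → ℝ) j * t ^ j := by
  rw [lp.inner_eq_tsum]
  refine tsum_congr fun j => ?_
  rw [kv_apply ht]
  simp [mul_comm]

lemma coord_le (w : L2N) (j : ℕ) : |(w : ℕ → ℝ) j| ≤ ‖w‖ := by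
  have := lp.norm_apply_le_norm (p := 2) (by norm_num) w j
  simpa using this

lemma analytic_inner_kv (w : L2N) : AnalyticOnNhd ℝ (fun t => inner ℝ w (kv t)) (Ioo (-1) 1) := by
  set p := FormalMultilinearSeries.ofScalars ℝ (fun j => (w : ℕ → ℝ) j) with hp
  have hrad : (1 : ENNReal) ≤ p.radius := by
    have h := p.le_radius_of_bound (r := 1) ‖w‖ (fun n => by
      rw [NNReal.coe_one, one_pow, mul_one, hp, FormalMultilinearSeries.ofScalars_norm,
        Real.norm_eq_abs]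
      exact coord_le w n)
    simpa using h
  have hpos : 0 < p.radius := lt_of_lt_of_le one_pos hrad
  have h1 : AnalyticOnNhd ℝ p.sum (Metric.eball 0 p.radius) :=
    (p.hasFPowerSeriesOnBall hpos).analyticOnNhd
  have hsub : Ioo (-1 : ℝ) 1 ⊆ Metric.eball 0 p.radius := by
    intro t ht
    rw [Metric.mem_eball]
    refine lt_of_lt_of_le ?_ hrad
    rw [edist_dist, dist_zero_right, Real.norm_eq_abs]
    rw [ENNReal.ofReal_lt_one]
    exact abs_lt.2 ht
  refine (h1.mono hsub).congr isOpen_Ioo fun t ht => ?_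
  have ht' : |t| < 1 := abs_lt.2 ht
  rw [inner_kv_eq_tsum w ht']
  have h2 := FormalMultilinearSeries.ofScalars_sum_eq (E := ℝ) (fun j => (w : ℕ → ℝ) j) t
  exact h2

/-! ### the closed form is analytic -/

lemma hh_pos' {t : ℝ} (h1 : -1 < t) (h2 : t < 1) : 0 < P2F.hh t := by
  unfold P2F.hh
  have := P2F.h0_pos
  exact div_pos (mul_pos this (by linarith)) (by linarith)

lemma SS_gt {t : ℝ} (h1 : -1 < t) (h2 : t < 1) : P2F.r1 < P2F.SS t := by
  have hh := hh_pos' h1 h2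
  have h3 : √2 < √(2 + 2 * P2F.hh t) := Real.sqrt_lt_sqrt (by norm_num) (by linarith)
  have h4 := P2F.SS_sq t
  have h5 := P2F.r1_sq
  have h6 : P2F.r1 ^ 2 < P2F.SS t ^ 2 := by rw [h4, h5]; linarith
  exact lt_of_pow_lt_pow_left₀ 2 (P2F.SS_pos t).le h6

lemma cf_gt {t : ℝ} (h1 : -1 < t) (h2 : t < 1) : P2F.r2 / 2 < cf t := by
  have h3 := SS_gt h1 h2
  have h4 := P2F.r1_cube
  have h5 := P2F.r1_pos
  have h6 := P2F.r1_sq
  have h7 : 0 < √2 := Real.sqrt_pos.2 (by norm_num)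
  unfold cf
  have h8 : P2F.r2 < P2F.SS t ^ 3 - 3 * P2F.SS t := by
    rw [← h4]
    have h9 : P2F.SS t ^ 3 - 3 * P2F.SS t - (P2F.r1 ^ 3 - 3 * P2F.r1) =
        (P2F.SS t - P2F.r1) * (P2F.SS t ^ 2 + P2F.SS t * P2F.r1 + P2F.r1 ^ 2 - 3) := by ring
    have h10 : 0 < (P2F.SS t - P2F.r1) *
        (P2F.SS t ^ 2 + P2F.SS t * P2F.r1 + P2F.r1 ^ 2 - 3) := by
      apply mul_pos (by linarith)
      nlinarith [mul_pos (lt_trans h5 h3) h5]
    linarith
  linarith

lemma H_pos' {c d : ℝ} (hc : P2F.r2 / 2 < c) (hd : P2F.r2 / 2 < d) : 0 < P2F.H c d := by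
  have h1 := P2F.r2_pos
  have h2 := P2F.r2_sq
  have h7 : 0 < √2 := Real.sqrt_pos.2 (by norm_num)
  have h8 : √2 * √2 = 2 := Real.mul_self_sqrt (by norm_num)
  unfold P2F.H
  have e1 : (P2F.r2 / 2) ^ 2 < c ^ 2 := pow_lt_pow_left₀ hc (by positivity) two_ne_zero
  have e2 : (P2F.r2 / 2) ^ 2 < d ^ 2 := pow_lt_pow_left₀ hd (by positivity) two_ne_zero
  have e3 : (P2F.r2 / 2) * (P2F.r2 / 2) < c * d := mul_lt_mul'' hc hd (by positivity) (by positivity)
  have e4 : √2 * ((P2F.r2 / 2) * (P2F.r2 / 2)) < √2 * (c * d) := mul_lt_mul_of_pos_left e3 h7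
  have e5 : (P2F.r2 / 2) ^ 2 = (2 - √2) / 4 := by rw [div_pow, h2]; norm_num
  have e6 : (P2F.r2 / 2) * (P2F.r2 / 2) = (2 - √2) / 4 := by rw [← e5]; ring
  rw [e5] at e1 e2
  rw [e6] at e4
  nlinarith

lemma analyticAt_sqrt' {f : ℝ → ℝ} {x : ℝ} (hf : AnalyticAt ℝ f x) (hx : f x ≠ 0) :
    AnalyticAt ℝ (fun y => √(f y)) x :=
  (ContDiffAt.sqrt (n := ⊤) hf.contDiffAt hx).analyticAt

lemma analytic_hh {t : ℝ} (h2 : t < 1) : AnalyticAt ℝ P2F.hh t := by
  have h3 : (1 : ℝ) - t ≠ 0 := by linarith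
  exact (analyticAt_const.mul (analyticAt_const.add analyticAt_id)).div
    (analyticAt_const.sub analyticAt_id) h3

lemma analytic_SS {t : ℝ} (h1 : -1 < t) (h2 : t < 1) : AnalyticAt ℝ P2F.SS t := by
  have hh := hh_pos' h1 h2
  have h3 : AnalyticAt ℝ (fun y => √(2 + 2 * P2F.hh y)) t :=
    analyticAt_sqrt' (analyticAt_const.add (analyticAt_const.mul (analytic_hh h2)))
      (by positivity)
  exact analyticAt_sqrt' (analyticAt_const.add h3) (by positivity)

lemma analytic_cf {t : ℝ} (h1 : -1 < t) (h2 : t < 1) : AnalyticAt ℝ cf t := by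
  have h := analytic_SS h1 h2
  exact ((h.pow 3).sub (analyticAt_const.mul h)).div analyticAt_const two_ne_zero

lemma analytic_F1f {t : ℝ} (h1 : -1 < t) (h2 : t < 1) : AnalyticAt ℝ P2F.F1f t := by
  have h := analytic_SS h1 h2
  have h3 : (1 : ℝ) - t ≠ 0 := by linarith
  exact (analyticAt_const.mul (h.sub (analyticAt_const.div h (P2F.SS_pos t).ne'))).div
    (analyticAt_const.sub analyticAt_id) h3

lemma analytic_Kf {s : ℝ} (hs : |s| < 1) : AnalyticOnNhd ℝ (fun t => Kf s t) (Ioo (-1) 1) := by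
  intro t ht
  obtain ⟨s1, s2⟩ := abs_lt.1 hs
  have hc := analytic_cf ht.1 ht.2
  unfold Kf
  refine (analyticAt_const.mul (analytic_F1f ht.1 ht.2)).div ?_
    (H_pos' (cf_gt s1 s2) (cf_gt ht.1 ht.2)).ne'
  unfold P2F.H
  exact (((analyticAt_const.add (hc.pow 2)).add (analyticAt_const.mul hc)).sub analyticAt_const)

lemma Kf_comm (s t : ℝ) : Kf s t = Kf t s := by
  unfold Kf P2F.H
  rw [mul_comm (P2F.F1f s)]
  congr 1
  ring

/-! ### the continuation -/

variable {H : Type} [NormedAddCommGroup H] [InnerProductSpace ℝ H] [CompleteSpace H]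

lemma analytic_T (T : L2N →L[ℝ] H) (s : ℝ) :
    AnalyticOnNhd ℝ (fun t => inner ℝ (T (kv s)) (T (kv t))) (Ioo (-1) 1) := by
  have h := analytic_inner_kv (ContinuousLinearMap.adjoint T (T (kv s)))
  refine h.congr isOpen_Ioo fun t _ => ?_
  rw [ContinuousLinearMap.adjoint_inner_left]

/-- real analytic continuation in one variable -/
lemma ker_ext_one (T : L2N →L[ℝ] H) {s : ℝ} (hs : |s| < 1)
    (hT : ∀ t : ℝ, |t| < 1 / 20 → inner ℝ (T (kv s)) (T (kv t)) = Kf s t) :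
    ∀ t : ℝ, |t| < 1 → inner ℝ (T (kv s)) (T (kv t)) = Kf s t := by
  intro t ht
  have h := (analytic_T T s).eqOn_of_preconnected_of_eventuallyEq (analytic_Kf hs)
    isPreconnected_Ioo (z₀ := 0) ⟨by norm_num, by norm_num⟩ (by
      have h1 : ∀ᶠ t : ℝ in 𝓝 0, |t| < 1 / 20 := by
        have : Tendsto (fun t : ℝ => |t|) (𝓝 0) (𝓝 |(0 : ℝ)|) := continuous_abs.tendsto 0
        rw [abs_zero] at this
        exact this.eventually (gt_mem_nhds (by norm_num))
      filter_upwards [h1] with t ht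
      exact hT t ht)
  exact h (abs_lt.1 ht)

/-- real analytic continuation, first in t, then in s -/
theorem ker_ext (T : L2N →L[ℝ] H)
    (hT : ∀ s t : ℝ, |s| < 1 / 20 → |t| < 1 / 20 → inner ℝ (T (kv s)) (T (kv t)) = Kf s t) :
    ∀ s t : ℝ, |s| < 1 → |t| < 1 → inner ℝ (T (kv s)) (T (kv t)) = Kf s t := by
  intro s t hs ht
  refine ker_ext_one T hs (fun t' ht' => ?_) t ht
  rw [real_inner_comm, Kf_comm]
  refine ker_ext_one T (by linarith) (fun s' hs' => ?_) s hs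
  exact hT t' s' ht' hs'

end EXG
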