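import Pool.Agent.EXG.Sup
import Pool.Agent.EXG.Emb

/-! LimA: convergence of the rescaled operators on exponentials (helper46). -/

set_option autoImplicit false

namespace EXG

open Real MeasureTheory Filter Topology Set Ex.P2

variable {H : Type} [NormedAddCommGroup H] [InnerProductSpace ℝ H] [CompleteSpace H]

theorem RR_norm {T : L2N →L[ℝ] H} (hS : Sand T) (I : L2N →ₗᵢ[ℝ] X) : ‖RR I (AA T)‖ ≤ 1 / 2 := by
  refine ContinuousLinearMap.opNorm_le_bound _ (by norm_num) fun x => ?_
  have h1 : RR I (AA T) x = I (AA T (ContinuousLinearMap.adjoint I.toContinuousLinearMap x)) := rfl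
  rw [h1, LinearIsometry.norm_map]
  refine (AA_norm hS _).trans ?_
  refine mul_le_mul_of_nonneg_left ?_ (by norm_num)
  refine (ContinuousLinearMap.le_opNorm _ _).trans ?_
  have h2 : ‖ContinuousLinearMap.adjoint I.toContinuousLinearMap‖ ≤ 1 := by
    rw [LinearIsometryEquiv.norm_map]
    exact I.norm_toContinuousLinearMap_le
  exact mul_le_of_le_one_left (norm_nonneg _) h2

/-- n (1 - exp (-a/n)) → a -/
theorem n_one_sub_exp_all (a : ℝ) :
    Tendsto (fun n : ℕ => (n : ℝ) * (1 - exp (-(a / n)))) atTop (𝓝 a) := by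
  have h1 : HasDerivAt (fun x : ℝ => 1 - exp (-(a * x))) a 0 := by
    have h2 : HasDerivAt (fun x : ℝ => -(a * x)) (-a) 0 := by
      have h4 := ((hasDerivAt_id' (0 : ℝ)).const_mul (-a))
      rw [mul_one] at h4
      refine h4.congr_of_eventuallyEq (Eventually.of_forall fun x => ?_)
      simp only
      ring
    have h3 := (h2.exp).const_sub 1
    simpa using h3
  have h2 := h1.tendsto_slope_zero_right
  have h3 : Tendsto (fun n : ℕ => ((n : ℝ))⁻¹) atTop (𝓝[>] 0) := by
    refine tendsto_nhdsWithin_of_tendsto_nhds_of_eventually_within _ tendsto_inv_atTop_nhds_zero_nat ?_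
    filter_upwards [eventually_gt_atTop 0] with n hn
    have hn0 : (0 : ℝ) < n := by exact_mod_cast hn
    exact inv_pos.2 hn0
  refine (h2.comp h3).congr' ?_
  filter_upwards [eventually_gt_atTop 0] with n hn
  simp only [Function.comp_apply, inv_inv, zero_add, mul_zero, neg_zero, exp_zero, sub_self, sub_zero,
    smul_eq_mul, div_eq_mul_inv]

theorem limA' {T : L2N →L[ℝ] H}
    (hT : ∀ s t : ℝ, |s| < 1 → |t| < 1 → inner ℝ (T (kv s)) (T (kv t)) = Kf s t)
    {I : ℕ → L2N →ₗᵢ[ℝ] X} (hI : ∀ n, 1 ≤ n → IsStep n 1 (I n)) {a : ℝ} (ha : 0 < a) :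
    Tendsto (fun n => RR (I n) (AA T) (eps a)) atTop
      (𝓝 ((1 / (2 * π)) • ∫ η : ℝ, (exp (-(2 * η / 3)) / cosh η) • eps (a * exp (-(4 * η / 3))))) := by
  set τ : ℕ → ℝ := fun n => exp (-(a / n)) with hτ
  set c : ℕ → ℝ := fun n => (n : ℝ) * (1 - τ n) / a with hc
  have hnτ : Tendsto (fun n : ℕ => (n : ℝ) * (1 - τ n)) atTop (𝓝 a) := n_one_sub_exp_all a
  have hc1 : Tendsto c atTop (𝓝 1) := by
    have := hnτ.div_const a
    rwa [div_self ha.ne'] at this
  -- τ n → 1 from the left
  have hτ1 : ∀ᶠ n in atTop, τ n < 1 := by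
    filter_upwards [eventually_gt_atTop 0] with n hn
    rw [hτ]
    simp only
    rw [exp_lt_one_iff, neg_lt_zero]
    exact div_pos ha (by exact_mod_cast hn)
  have hτt : Tendsto τ atTop (𝓝[<] 1) := by
    refine tendsto_nhdsWithin_of_tendsto_nhds_of_eventually_within _ ?_ hτ1
    have h1 : Tendsto (fun n : ℕ => -(a / (n : ℝ))) atTop (𝓝 0) := by
      have := (tendsto_const_div_atTop_nhds_zero_nat a).neg
      rwa [neg_zero] at this
    have h2 := (continuous_exp.tendsto 0).comp h1
    rw [exp_zero] at h2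
    exact h2
  set y : ℕ → ℝ := fun n => yy (τ n) with hy
  have hyt : Tendsto y atTop atTop := yy_tendsto.comp hτt
  have hyτ : ∀ᶠ n in atTop, tt (y n) = τ n := hτt.eventually tt_yy
  have hy1 : ∀ᶠ n in atTop, 1 ≤ y n := hyt.eventually_ge_atTop 1
  -- the integrand
  set F : ℕ → ℝ → X := fun n η => c n • (rr (y n) η / cosh η) •
    ((√(n : ℝ))⁻¹ • I n (kv (tt (y n + η / 2)))) with hF
  have hrepr : ∀ᶠ n in atTop, RR (I n) (AA T) (eps a) = (1 / (2 * π)) • ∫ η : ℝ, F n η := by
    filter_upwards [hyτ, hy1, eventually_gt_atTop 0] with n h1 h2 h3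
    have hn : 1 ≤ n := h3
    have hn0 : (0 : ℝ) < n := by exact_mod_cast h3
    have e1 : RR (I n) (AA T) (eps a) =
        I n (AA T (ContinuousLinearMap.adjoint (I n).toContinuousLinearMap (eps a))) := rfl
    rw [e1, (hI n hn).adj_eps hn (Or.inl rfl) ha, one_mul, map_smul, map_smul]
    have e2 : exp (-(a / (n : ℝ))) = tt (y n) := h1.symm
    rw [e2, AA_kv hT h2]
    have e3 : (I n) ((1 / (2 * π)) • ∫ η : ℝ, (rr (y n) η / cosh η) • kv (tt (y n + η / 2))) =
        (1 / (2 * π)) • ∫ η : ℝ, (rr (y n) η / cosh η) • (I n) (kv (tt (y n + η / 2))) := by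
      rw [map_smul]
      congr 1
      have h4 := (I n).toContinuousLinearMap.integral_comp_comm (rr_integrable h2)
      simp only [map_smul] at h4
      exact h4.symm
    rw [e3, smul_comm, ← integral_smul]
    congr 1
    refine integral_congr_ae (Eventually.of_forall fun η => ?_)
    simp only [hF, hc]
    rw [smul_smul, smul_smul, smul_smul, ← h1]
    congr 1
    have hs : √(n : ℝ) * √(n : ℝ) = n := mul_self_sqrt hn0.le
    have hs0 : √(n : ℝ) ≠ 0 := (sqrt_pos.2 hn0).ne'
    field_simp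
    rw [sq, hs]
    ring
  have hlim : Tendsto (fun n => ∫ η : ℝ, F n η) atTop
      (𝓝 (∫ η : ℝ, (exp (-(2 * η / 3)) / cosh η) • eps (a * exp (-(4 * η / 3))))) := by
    refine tendsto_integral_filter_of_dominated_convergence
      (fun η => 2 * √(2 / a) * (1 / cosh η)) ?_ ?_ (sech_integrable.const_mul _) ?_
    · filter_upwards [hy1] with n h2
      have h4 := ((I n).toContinuousLinearMap.integrable_comp (rr_integrable h2)).aestronglyMeasurable
      have h5 := (h4.const_smul (√(n : ℝ))⁻¹).const_smul (c n)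
      refine h5.congr (Eventually.of_forall fun η => ?_)
      simp only [hF, Pi.smul_apply]
      rw [show (I n).toContinuousLinearMap ((rr (y n) η / cosh η) • kv (tt (y n + η / 2))) =
        (rr (y n) η / cosh η) • I n (kv (tt (y n + η / 2))) from map_smul _ _ _]
      rw [smul_comm (rr (y n) η / cosh η)]
    · have hc2 : ∀ᶠ n in atTop, |c n| < 2 := by
        have := hc1.abs
        rw [abs_one] at this
        exact this.eventually_lt_const (by norm_num)
      have hb : ∀ᶠ n : ℕ in atTop, (n : ℝ)⁻¹ * (2 / (1 - τ n ^ 2)) < 2 / a := by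
        have h1 : Tendsto (fun n : ℕ => ((n : ℝ) * (1 - τ n)) * (1 + τ n)) atTop (𝓝 (a * (1 + 1))) :=
          hnτ.mul ((tendsto_nhds_of_tendsto_nhdsWithin hτt).const_add 1)
        have h2 : Tendsto (fun n : ℕ => 2 / (((n : ℝ) * (1 - τ n)) * (1 + τ n))) atTop
            (𝓝 (2 / (a * (1 + 1)))) := tendsto_const_nhds.div h1 (by positivity)
        have h3 : 2 / (a * (1 + 1)) < 2 / a := by
          apply div_lt_div_of_pos_left (by norm_num) ha
          linarith
        filter_upwards [h2.eventually_lt_const h3] with n hn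
        refine lt_of_eq_of_lt ?_ hn
        rw [show (n : ℝ) * (1 - τ n) * (1 + τ n) = n * (1 - τ n ^ 2) by ring, ← div_div, inv_mul_eq_div,
          div_div, div_div, mul_comm]
      filter_upwards [hc2, hb, hy1, hyτ, eventually_gt_atTop 0] with n g1 g2 g3 g4 g5
      refine Eventually.of_forall fun η => ?_
      have hn0 : (0 : ℝ) < n := by exact_mod_cast g5
      have hcosh : 0 < cosh η := cosh_pos η
      have r1 := rr_norm g3 η
      rw [g4] at r1
      simp only [hF]
      rw [norm_smul, smul_comm (rr (y n) η / cosh η), norm_smul]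
      have r2 : ‖(rr (y n) η / cosh η) • I n (kv (tt (y n + η / 2)))‖ =
          ‖rr (y n) η • kv (tt (y n + η / 2))‖ * (1 / cosh η) := by
        rw [norm_smul, norm_smul, LinearIsometry.norm_map, norm_div, Real.norm_of_nonneg hcosh.le]
        ring
      rw [r2, Real.norm_eq_abs, Real.norm_of_nonneg (inv_nonneg.2 (sqrt_nonneg _))]
      have r3 : (√(n : ℝ))⁻¹ * ‖rr (y n) η • kv (tt (y n + η / 2))‖ ≤ √(2 / a) := by
        apply le_sqrt_of_sq_le
        rw [mul_pow, inv_pow, sq_sqrt hn0.le]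
        exact (mul_le_mul_of_nonneg_left r1 (by positivity)).trans g2.le
      calc |c n| * ((√(n : ℝ))⁻¹ * (‖rr (y n) η • kv (tt (y n + η / 2))‖ * (1 / cosh η)))
          = |c n| * ((√(n : ℝ))⁻¹ * ‖rr (y n) η • kv (tt (y n + η / 2))‖) * (1 / cosh η) := by ring
        _ ≤ 2 * √(2 / a) * (1 / cosh η) := by
            refine mul_le_mul_of_nonneg_right ?_ (by positivity)
            exact mul_le_mul g1.le r3 (by positivity) (by norm_num)
    · refine Eventually.of_forall fun η => ?_
      have h1 : Tendsto (fun n => rr (y n) η / cosh η) atTop (𝓝 (exp (-(2 * η / 3)) / cosh η)) :=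
        ((rr_tendsto η).comp hyt).div_const _
      have h2 : Tendsto (fun n : ℕ => (n : ℝ) * (1 - tt (y n + η / 2))) atTop
          (𝓝 (a * exp (-(4 * η / 3)))) := by
        have h3 := hnτ.mul ((tt_ratio η).comp hyt)
        refine h3.congr' ?_
        filter_upwards [hyτ, hτ1] with n g1 g2
        simp only [Function.comp_apply]
        rw [g1]
        have : (1 : ℝ) - τ n ≠ 0 := by linarith
        field_simp
      have h3 := step_kv_tendsto hI (τ := fun n => tt (y n + η / 2))
        (Eventually.of_forall fun n => tt_abs _) (mul_pos ha (exp_pos _)) h2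
      have h4 := hc1.smul (h1.smul h3)
      rw [one_smul] at h4
      exact h4
  exact (hlim.const_smul (1 / (2 * π))).congr' (hrepr.mono fun n hn => hn.symm)

theorem limA {T : L2N →L[ℝ] H} (_hS : Sand T)
    (hT : ∀ s t : ℝ, |s| < 1 → |t| < 1 → inner ℝ (T (kv s)) (T (kv t)) = Kf s t)
    {I : ℕ → L2N →ₗᵢ[ℝ] X} (hI : ∀ n, 1 ≤ n → IsStep n 1 (I n)) {a : ℝ} (ha : 0 < a) :
    ∃ g : X, Tendsto (fun n => RR (I n) (AA T) (eps a)) atTop (𝓝 g) :=
  ⟨_, limA' hT hI ha⟩

end EXG
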