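import Pool.Agent.EXG.OpW
import Pool.Agent.EXG.Ker
import Pool.Agent.EXG.Emb

/-! LimB: the alternating part tends to 0 (helper33). -/

set_option autoImplicit false

namespace EXG

open Real MeasureTheory Filter Topology Set Ex.P2

variable {H : Type} [NormedAddCommGroup H] [InnerProductSpace ℝ H] [CompleteSpace H]

theorem limB_bound {T : L2N →L[ℝ] H} (hS : Sand T)
    (hT : ∀ s t : ℝ, |s| < 1 → |t| < 1 → inner ℝ (T (kv s)) (T (kv t)) = Kf s t)
    {I : L2N →ₗᵢ[ℝ] X} {n : ℕ} (hn : 1 ≤ n) (hI : IsStep n (-1) I) {a : ℝ} (ha : 0 < a) :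
    ‖RR I (AA T) (eps a)‖ ^ 2 ≤ (1 / (2 * a)) *
      (1 - (1 - exp (-(a / n)) ^ 2) * Kf (-exp (-(a / n))) (-exp (-(a / n)))) := by
  have hn' : (0 : ℝ) < n := by exact_mod_cast hn
  set t : ℝ := exp (-(a / n)) with ht
  have ht0 : 0 < t := exp_pos _
  have ht1 : t < 1 := by
    rw [ht, exp_lt_one_iff]
    have : 0 < a / n := by positivity
    linarith
  have habs : |-t| < 1 := by
    rw [abs_neg, abs_of_pos ht0]
    exact ht1
  have h1t : 0 < 1 - t := by linarith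
  have h1t2 : 0 < 1 - t ^ 2 := by nlinarith
  have hadj := hI.adj_eps hn (Or.inr rfl) ha
  rw [neg_one_mul, ← ht] at hadj
  have h1 : ‖RR I (AA T) (eps a)‖ = (√(n : ℝ) * (1 - t) / a) * ‖AA T (kv (-t))‖ := by
    unfold RR
    rw [ContinuousLinearMap.comp_apply, ContinuousLinearMap.comp_apply, hadj, map_smul, map_smul,
      norm_smul, Real.norm_of_nonneg (by positivity)]
    congr 1
    exact I.norm_map _
  have h2 : ‖AA T (kv (-t))‖ ^ 2 ≤ (1 / 2) * (1 / (1 - t ^ 2) - Kf (-t) (-t)) := by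
    refine (AA_norm_sq hS _).trans (le_of_eq ?_)
    rw [inner_AA, inner_kv habs habs, hT _ _ habs habs, neg_mul_neg, ← sq]
  have hmain : 0 ≤ 1 / (1 - t ^ 2) - Kf (-t) (-t) := by
    have := (sq_nonneg ‖AA T (kv (-t))‖).trans h2
    linarith
  have hnt : (n : ℝ) * (1 - t) ≤ a := by
    have h3 : 1 - a / n ≤ t := by
      have := Real.add_one_le_exp (-(a / n))
      rw [ht]
      linarith
    have h4 : (n : ℝ) * (a / n) = a := by field_simp
    nlinarith
  have h5 : (√(n : ℝ) * (1 - t) / a) ^ 2 = (n * (1 - t)) * (1 - t) / a ^ 2 := by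
    rw [div_pow, mul_pow, sq_sqrt hn'.le]
    ring
  have h6 : (√(n : ℝ) * (1 - t) / a) ^ 2 ≤ (1 / a) * (1 - t ^ 2) := by
    rw [h5, div_le_iff₀ (by positivity)]
    have h7 : (1 - t) ≤ 1 - t ^ 2 := by nlinarith
    have h8 : (n : ℝ) * (1 - t) * (1 - t) ≤ a * (1 - t ^ 2) :=
      mul_le_mul hnt h7 h1t.le ha.le
    calc (n : ℝ) * (1 - t) * (1 - t) ≤ a * (1 - t ^ 2) := h8
      _ = 1 / a * (1 - t ^ 2) * a ^ 2 := by field_simp
  rw [h1, mul_pow]
  calc (√(n : ℝ) * (1 - t) / a) ^ 2 * ‖AA T (kv (-t))‖ ^ 2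
      ≤ ((1 / a) * (1 - t ^ 2)) * ((1 / 2) * (1 / (1 - t ^ 2) - Kf (-t) (-t))) := by
        apply mul_le_mul h6 h2 (sq_nonneg _) (by positivity)
    _ = (1 / (2 * a)) * (1 - (1 - t ^ 2) * Kf (-t) (-t)) := by
        field_simp

theorem limB {T : L2N →L[ℝ] H} (hS : Sand T)
    (hT : ∀ s t : ℝ, |s| < 1 → |t| < 1 → inner ℝ (T (kv s)) (T (kv t)) = Kf s t)
    {I : ℕ → L2N →ₗᵢ[ℝ] X} (hI : ∀ n, 1 ≤ n → IsStep n (-1) (I n)) {a : ℝ} (ha : 0 < a) :
    Tendsto (fun n => RR (I n) (AA T) (eps a)) atTop (𝓝 0) := by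
  have ht : Tendsto (fun n : ℕ => exp (-(a / (n : ℝ)))) atTop (𝓝[<] 1) := by
    rw [tendsto_nhdsWithin_iff]
    constructor
    · have h1 : Tendsto (fun n : ℕ => -(a / (n : ℝ))) atTop (𝓝 (-0)) :=
        (tendsto_const_div_atTop_nhds_zero_nat a).neg
      rw [neg_zero] at h1
      have h2 := (continuous_exp.tendsto 0).comp h1
      rw [exp_zero] at h2
      exact h2
    · filter_upwards [eventually_ge_atTop 1] with n hn
      have hn' : (0 : ℝ) < n := by exact_mod_cast hn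
      rw [mem_Iio, exp_lt_one_iff]
      have : 0 < a / n := by positivity
      linarith
  have h0 : Tendsto (fun n : ℕ => (1 / (2 * a)) *
      (1 - (1 - exp (-(a / (n : ℝ))) ^ 2) * Kf (-exp (-(a / n))) (-exp (-(a / n))))) atTop (𝓝 0) := by
    have h1 := (Kf_diag.comp ht)
    have h2 := (tendsto_const_nhds (x := (1 : ℝ))).sub h1
    have h3 := h2.const_mul (1 / (2 * a))
    rw [sub_self, mul_zero] at h3
    exact h3
  rw [tendsto_zero_iff_norm_tendsto_zero]
  have h4 : Tendsto (fun n => ‖RR (I n) (AA T) (eps a)‖ ^ 2) atTop (𝓝 0) := by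
    refine tendsto_of_tendsto_of_tendsto_of_le_of_le' tendsto_const_nhds h0
      (Eventually.of_forall fun n => sq_nonneg _) ?_
    filter_upwards [eventually_ge_atTop 1] with n hn
    exact limB_bound hS hT hn (hI n hn) ha
  have h5 := h4.sqrt
  rw [Real.sqrt_zero] at h5
  refine h5.congr fun n => ?_
  rw [Real.sqrt_sq (norm_nonneg _)]

end EXG
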