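import Pool.Agent.EXG.FA
import Pool.Agent.EXG.Dens2
import Pool.Agent.EXG.LimA
import Pool.Agent.EXG.LimB
import Pool.Agent.EXG.Coef
import Pool.Agent.EXG.Fin
import Pool.Agent.Ex.P2Node

/-! Main: sharp asymptotics from the node relation (helper81). -/

set_option autoImplicit false

namespace EXG

open Real MeasureTheory Filter Topology Set Ex.P2

variable {H : Type} [NormedAddCommGroup H] [InnerProductSpace ℝ H] [CompleteSpace H]

theorem adj_self (I : L2N →ₗᵢ[ℝ] X) (x : L2N) :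
    ContinuousLinearMap.adjoint I.toContinuousLinearMap (I x) = x := by
  refine ext_inner_right ℝ fun y => ?_
  rw [ContinuousLinearMap.adjoint_inner_left]
  exact I.inner_map_map x y

/-- the rescaled fixed point equation -/
theorem step_eq {n : ℕ} (hn : 1 ≤ n) {s : ℝ} {I : L2N →ₗᵢ[ℝ] X} (hI : IsStep n s I) (T : L2N →L[ℝ] H) (c : ℝ)
    {F : ℕ → ℝ} {x : L2N} (hx : x = Fv F n + tr n (AA T x)) :
    c • I x = c • I (Fv F n) + PX (RR I (AA T) (c • I x)) := by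
  have h1 : RR I (AA T) (c • I x) = c • I (AA T x) := by
    unfold RR
    simp only [ContinuousLinearMap.comp_apply, map_smul, LinearIsometry.coe_toContinuousLinearMap]
    rw [adj_self]
  rw [h1, map_smul, hI.trunc hn, ← smul_add, ← map_add, ← hx]

theorem profile_ne {β C : ℝ} (hC : C ≠ 0) {V0 : X}
    (h : (V0 : ℝ → ℝ) =ᵐ[volume.restrict (Ioi (0 : ℝ))] fun x => C * x ^ β * (Iio (1 : ℝ)).indicator (fun _ => 1) x) :
    V0 ≠ 0 := by
  intro h0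
  rw [h0] at h
  have h1 := (Lp.coeFn_zero (E := ℝ) 2 (volume.restrict (Ioi (0 : ℝ)))).symm.trans h
  rw [Filter.EventuallyEq, ae_restrict_iff' measurableSet_Ioi] at h1
  have h2 : ∀ᵐ x : ℝ, x ∉ Ioo (0 : ℝ) 1 := by
    filter_upwards [h1] with x hx hx1
    have h3 := hx hx1.1
    have h4 : (Iio (1 : ℝ)).indicator (fun _ => (1 : ℝ)) x = 1 := indicator_of_mem (mem_Iio.2 hx1.2) _
    rw [h4, mul_one] at h3
    simp only [Pi.zero_apply] at h3
    exact (mul_ne_zero hC (rpow_pos_of_pos hx1.1 β).ne') h3.symm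
  have h5 : volume (Ioo (0 : ℝ) 1) = 0 := by
    rw [ae_iff] at h2
    have e : {a : ℝ | ¬ a ∉ Ioo (0 : ℝ) 1} = Ioo 0 1 := by
      ext a
      simp
    rwa [e] at h2
  rw [volume_Ioo] at h5
  norm_num at h5

/-- lower bound of the quadratic form -/
theorem inner_lower {T : L2N →L[ℝ] H} (hS : Sand T) {n : ℕ} {F : ℕ → ℝ} {x : L2N} (hx1 : tr n x = x)
    (hx : x = Fv F n + tr n (AA T x)) : (2 / 9) * ‖Fv F n‖ ^ 2 ≤ inner ℝ (Fv F n) x := by
  have tr_symm : ∀ y z : L2N, inner ℝ (tr n y) z = inner ℝ y (tr n z) := by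
    intro y z
    rw [tr_apply, tr_apply, sum_inner, inner_sum]
    refine Finset.sum_congr rfl fun i _ => ?_
    rw [real_inner_smul_left, real_inner_smul_right, real_inner_comm y (ev i)]
    ring
  have hF : Fv F n = x - tr n (AA T x) := by
    rw [eq_sub_iff_add_eq]
    exact hx.symm
  have h1 : inner ℝ (Fv F n) x = ‖x‖ ^ 2 - inner ℝ x (AA T x) := by
    rw [hF, inner_sub_left, real_inner_self_eq_norm_sq, tr_symm, hx1, AA_symm]
  have h2 := AA_le hS x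
  have htr : ‖tr n (AA T x)‖ ≤ ‖AA T x‖ := by
    have h3 : ‖tr n (AA T x)‖ ^ 2 = inner ℝ (tr n (AA T x)) (AA T x) := by
      rw [← real_inner_self_eq_norm_sq, tr_symm, tr_symm]
      congr 1
      rw [tr_apply n (tr n (AA T x)), tr_apply n (AA T x)]
      refine Finset.sum_congr rfl fun i hi => ?_
      congr 1
      rw [inner_sum]
      rw [Finset.sum_eq_single i]
      · rw [real_inner_smul_right, inner_ev, if_pos rfl, mul_one]
      · intro b _ hb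
        rw [real_inner_smul_right, inner_ev, if_neg (fun h => hb h.symm), mul_zero]
      · intro h
        exact absurd hi h
    have h4 := real_inner_le_norm (tr n (AA T x)) (AA T x)
    rw [← h3, sq] at h4
    rcases eq_or_lt_of_le (norm_nonneg (tr n (AA T x))) with h5 | h5
    · rw [← h5]; exact norm_nonneg _
    · exact le_of_mul_le_mul_left h4 h5
  have h6 := AA_norm hS x
  have h7 : ‖Fv F n‖ ≤ (3 / 2) * ‖x‖ := by
    rw [hF]
    refine (norm_sub_le _ _).trans ?_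
    linarith
  have h8 : ‖Fv F n‖ ^ 2 ≤ ((3 / 2) * ‖x‖) ^ 2 := pow_le_pow_left₀ (norm_nonneg _) h7 2
  rw [h1]
  nlinarith [sq_nonneg ‖x‖]

theorem sums {B : ℕ → ℝ}
    (hP : ∀ n : ℕ, ∃ b : ℝ → ℝ, Tendsto (fun ε => b ε ^ 2) (𝓝[>] 0) (𝓝 (B n ^ 2)) ∧
      ∀ᶠ ε in 𝓝[>] (0 : ℝ), ∃ g : ℕ → ℝ, ∀ k ≤ n, P2F.Fsf (k * ε) - b ε * P2F.F1f (k * ε) =
        ∑ j ∈ Finset.range n, g j * inner ℝ (P2F.vv (k * ε)) (P2F.vv ((j + 1) * ε))) :
    ∃ u : ℕ → ℝ, ∃ q1 q2 : ℝ, 0 < q1 ∧ 0 < q2 ∧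
      Tendsto (fun n : ℕ => (∑ m ∈ Finset.range n, u m ^ 2) / (n : ℝ) ^ (3 / 2 : ℝ)) atTop (𝓝 q1) ∧
      Tendsto (fun n : ℕ => (∑ m ∈ Finset.range n, B m ^ 2 * u m ^ 2) / (n : ℝ)) atTop (𝓝 q2) := by
  obtain ⟨F1, hF1, C1, hC1, hlim1⟩ := coefG1
  obtain ⟨F2, hF2, C2, hC2, hlim2⟩ := coefG2
  obtain ⟨T, hS, hTv, u, hu⟩ := lim_sums_T (H := Lp ℝ 2 (volume : Measure ℝ)) (v := P2F.vv) (del := 1 / 20)
    (by norm_num) (by norm_num) (fun a z hz => P2F.hv a z hz)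
    (fun z hz => hF1 z (hz.trans (by norm_num))) (fun z hz => hF2 z (hz.trans (by norm_num))) hP
  have hT : ∀ s t : ℝ, |s| < 1 → |t| < 1 → inner ℝ (T (kv s)) (T (kv t)) = Kf s t := by
    apply ker_ext
    intro s t hs ht
    rw [hTv s hs, hTv t ht, inner_vv_Kf hs ht]
  choose x1 x2 hx1 hx2 he1 he2 hs1 hs2 using hu
  have hIp : ∀ n : ℕ, ∃ I : L2N →ₗᵢ[ℝ] X, IsStep (n + 1) 1 I := fun n => exists_step (by omega) (Or.inl rfl)
  have hIm : ∀ n : ℕ, ∃ I : L2N →ₗᵢ[ℝ] X, IsStep (n + 1) (-1) I := fun n => exists_step (by omega) (Or.inr rfl)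
  choose Ip hIp using hIp
  choose Im hIm using hIm
  have sp : ∀ n, 1 ≤ n → IsStep n 1 ((fun n => Ip (n - 1)) n) := by
    intro n hn
    have := hIp (n - 1)
    rwa [Nat.sub_add_cancel hn] at this
  have sm : ∀ n, 1 ≤ n → IsStep n (-1) ((fun n => Im (n - 1)) n) := by
    intro n hn
    have := hIm (n - 1)
    rwa [Nat.sub_add_cancel hn] at this
  have shift : ∀ {α : Type} [TopologicalSpace α] {f : ℕ → α} {a : α}, Tendsto f atTop (𝓝 a) →
      Tendsto (fun n => f (n + 1)) atTop (𝓝 a) := fun {α} _ {f a} h => (tendsto_add_atTop_iff_nat 1).2 h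
  -- the first sum
  obtain ⟨V1, hV1, hV1lim⟩ := step_tendsto' (s := 1) (Or.inl rfl) (I := fun n => Ip (n - 1)) sp
    (β := 1 / 4) (C := C1) (by norm_num) hlim1
  obtain ⟨V2, hV2, hV2lim⟩ := step_tendsto' (s := -1) (Or.inr rfl) (I := fun n => Im (n - 1)) sm
    (G := fun i => (-1 : ℝ) ^ i * F2 i) (β := 0) (C := C2) (by norm_num) (by simpa using hlim2)
  have e1 : ∀ n, Fv (fun i => (1 : ℝ) ^ i * F1 i) n = Fv F1 n := by
    intro n
    simp
  have e2 : ∀ n, Fv (fun i => (-1 : ℝ) ^ i * ((-1 : ℝ) ^ i * F2 i)) n = Fv F2 n := by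
    intro n
    congr 1
    funext i
    rw [← mul_assoc, ← mul_pow]
    norm_num
  have v1 : Tendsto (fun n : ℕ => (((n + 1 : ℕ) : ℝ) ^ (-(1 / 2) - (1 / 4) : ℝ)) • Ip n (Fv F1 (n + 1))) atTop (𝓝 V1) := by
    have := shift hV1lim
    simpa only [e1, Nat.add_sub_cancel] using this
  have v2 : Tendsto (fun n : ℕ => (((n + 1 : ℕ) : ℝ) ^ (-(1 / 2) - 0 : ℝ)) • Im n (Fv F2 (n + 1))) atTop (𝓝 V2) := by
    have := shift hV2lim
    simpa only [e2, Nat.add_sub_cancel] using this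
  have q1' := FA_inner (fun n => RR (Ip n) (AA T)) (fun n => RR_norm hS (Ip n)) _ dens
    (by
      rintro f ⟨k, rfl⟩
      obtain ⟨g, hg⟩ := limA hS hT (I := fun n => Ip (n - 1)) sp (a := (k : ℝ) + 1) (by positivity)
      refine ⟨g, ?_⟩
      have := shift hg
      simpa only [Nat.add_sub_cancel] using this)
    PX PX_opNorm _ (fun n => (((n + 1 : ℕ) : ℝ) ^ (-(1 / 2) - (1 / 4) : ℝ)) • Ip n (x1 (n + 1))) V1 v1
    (fun n => step_eq (by omega) (hIp n) T _ (he1 (n + 1)))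
  have q2' := FA_zero (fun n => RR (Im n) (AA T)) (fun n => RR_norm hS (Im n)) _ dens
    (by
      rintro f ⟨k, rfl⟩
      have hg := limB hS hT (I := fun n => Im (n - 1)) sm (a := (k : ℝ) + 1) (by positivity)
      have := shift hg
      simpa only [Nat.add_sub_cancel] using this)
    PX PX_opNorm _ (fun n => (((n + 1 : ℕ) : ℝ) ^ (-(1 / 2) - 0 : ℝ)) • Im n (x2 (n + 1))) V2 v2
    (fun n => step_eq (by omega) (hIm n) T _ (he2 (n + 1)))
  obtain ⟨q1, hq1⟩ := q1'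
  have hq2 := q2'.2
  have pw : ∀ (n : ℕ) (b : ℝ), 0 < n → ((n : ℝ) ^ (-b : ℝ)) * ((n : ℝ) ^ (-b : ℝ)) = 1 / (n : ℝ) ^ (2 * b) := by
    intro n b hn
    have hn0 : (0 : ℝ) < n := by exact_mod_cast hn
    rw [← rpow_add hn0, one_div, ← rpow_neg hn0.le]
    congr 1
    ring
  have i1 : ∀ n : ℕ, inner ℝ ((((n + 1 : ℕ) : ℝ) ^ (-(1 / 2) - (1 / 4) : ℝ)) • Ip n (Fv F1 (n + 1)))
      ((((n + 1 : ℕ) : ℝ) ^ (-(1 / 2) - (1 / 4) : ℝ)) • Ip n (x1 (n + 1))) =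
      (∑ m ∈ Finset.range (n + 1), u m ^ 2) / ((n + 1 : ℕ) : ℝ) ^ (3 / 2 : ℝ) := by
    intro n
    rw [real_inner_smul_left, real_inner_smul_right, (Ip n).inner_map_map, ← hs1, ← mul_assoc,
      show (-(1 / 2) - (1 / 4) : ℝ) = -(3 / 4) by norm_num, pw (n + 1) (3 / 4) (by omega)]
    rw [show (2 * (3 / 4) : ℝ) = 3 / 2 by norm_num]
    ring
  have i2 : ∀ n : ℕ, inner ℝ ((((n + 1 : ℕ) : ℝ) ^ (-(1 / 2) - 0 : ℝ)) • Im n (Fv F2 (n + 1)))
      ((((n + 1 : ℕ) : ℝ) ^ (-(1 / 2) - 0 : ℝ)) • Im n (x2 (n + 1))) =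
      (∑ m ∈ Finset.range (n + 1), B m ^ 2 * u m ^ 2) / ((n + 1 : ℕ) : ℝ) := by
    intro n
    rw [real_inner_smul_left, real_inner_smul_right, (Im n).inner_map_map, ← hs2, ← mul_assoc,
      show (-(1 / 2) - 0 : ℝ) = -(1 / 2) by norm_num, pw (n + 1) (1 / 2) (by omega)]
    rw [show (2 * (1 / 2) : ℝ) = 1 by norm_num, rpow_one]
    ring
  refine ⟨u, q1, ‖V2‖ ^ 2, ?_, ?_, ?_, ?_⟩
  · -- positivity of q1
    have hV1n : V1 ≠ 0 := profile_ne hC1.ne' hV1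
    have h1 : Tendsto (fun n : ℕ => (2 / 9) * ‖(((n + 1 : ℕ) : ℝ) ^ (-(1 / 2) - (1 / 4) : ℝ)) • Ip n (Fv F1 (n + 1))‖ ^ 2)
        atTop (𝓝 ((2 / 9) * ‖V1‖ ^ 2)) := (v1.norm.pow 2).const_mul _
    have h2 := le_of_tendsto_of_tendsto' h1 hq1 (fun n => by
      rw [real_inner_smul_left, real_inner_smul_right, (Ip n).inner_map_map, norm_smul, mul_pow,
        (Ip n).norm_map, norm_eq_abs, sq_abs]
      have h3 := inner_lower hS (hx1 (n + 1)) (he1 (n + 1))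
      have h4 : 0 ≤ (((n + 1 : ℕ) : ℝ) ^ (-(1 / 2) - (1 / 4) : ℝ)) ^ 2 := sq_nonneg _
      calc 2 / 9 * ((((n + 1 : ℕ) : ℝ) ^ (-(1 / 2) - (1 / 4) : ℝ)) ^ 2 * ‖Fv F1 (n + 1)‖ ^ 2)
          = (((n + 1 : ℕ) : ℝ) ^ (-(1 / 2) - (1 / 4) : ℝ)) ^ 2 * (2 / 9 * ‖Fv F1 (n + 1)‖ ^ 2) := by ring
        _ ≤ (((n + 1 : ℕ) : ℝ) ^ (-(1 / 2) - (1 / 4) : ℝ)) ^ 2 * inner ℝ (Fv F1 (n + 1)) (x1 (n + 1)) :=
          mul_le_mul_of_nonneg_left h3 h4
        _ = _ := by ring)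
    have h5 : 0 < ‖V1‖ := norm_pos_iff.2 hV1n
    have : 0 < (2 / 9) * ‖V1‖ ^ 2 := by positivity
    linarith
  · have h5 : 0 < ‖V2‖ := norm_pos_iff.2 (profile_ne hC2 hV2)
    positivity
  · refine (tendsto_add_atTop_iff_nat 1).1 ?_
    exact hq1.congr i1
  · refine (tendsto_add_atTop_iff_nat 1).1 ?_
    exact hq2.congr i2

/-- the hypothesis in the form of the Hilbert space -/
theorem node_to_vv {B : ℕ → ℝ} (hP : NodeRelE B) (n : ℕ) :
    ∃ b : ℝ → ℝ, Tendsto (fun ε => b ε ^ 2) (𝓝[>] 0) (𝓝 (B n ^ 2)) ∧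
      ∀ᶠ ε in 𝓝[>] (0 : ℝ), ∃ g : ℕ → ℝ, ∀ k ≤ n, P2F.Fsf (k * ε) - b ε * P2F.F1f (k * ε) =
        ∑ j ∈ Finset.range n, g j * inner ℝ (P2F.vv (k * ε)) (P2F.vv ((j + 1) * ε)) := by
  obtain ⟨b, hb, h1⟩ := hP n
  refine ⟨b, hb, ?_⟩
  have h2 : ∀ᶠ ε in 𝓝[>] (0 : ℝ), (n : ℝ) * ε < 1 / 20 := by
    have : Tendsto (fun ε : ℝ => (n : ℝ) * ε) (𝓝[>] 0) (𝓝 0) := by
      have : Tendsto (fun ε : ℝ => (n : ℝ) * ε) (𝓝 0) (𝓝 ((n : ℝ) * 0)) :=
        (continuous_const.mul continuous_id).tendsto 0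
      rw [mul_zero] at this
      exact this.mono_left nhdsWithin_le_nhds
    exact this.eventually (gt_mem_nhds (by norm_num))
  filter_upwards [h1, h2, self_mem_nhdsWithin] with ε he1 he2 he3
  have he3' : (0 : ℝ) < ε := he3
  have small : ∀ k : ℕ, k ≤ n → |(k : ℝ) * ε| < 1 / 20 := by
    intro k hk
    have : (k : ℝ) ≤ n := by exact_mod_cast hk
    rw [abs_of_nonneg (by positivity)]
    exact lt_of_le_of_lt (mul_le_mul_of_nonneg_right this he3'.le) he2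
  obtain ⟨g, hg⟩ := he1
  refine ⟨fun j => g j / P2F.gam ((j + 1) * ε), ?_⟩
  intro k hk
  have hk' := small k hk
  rw [← P2F.gam_F1f hk', ← P2F.gam_mst hk']
  have h3 := hg k hk
  calc P2F.gam (k * ε) * P2F.mst (cos (2 * P2F.xx (k * ε))) - b ε * P2F.gam (k * ε)
      = P2F.gam (k * ε) * (P2F.mst (cos (2 * P2F.xx (k * ε))) - b ε) := by ring
    _ = P2F.gam (k * ε) * ∑ j ∈ Finset.range n, g j /
          P2F.H (cos (2 * P2F.xx (k * ε))) (cos (2 * P2F.xx ((j + 1) * ε))) := by rw [h3]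
    _ = _ := by
        rw [Finset.mul_sum]
        refine Finset.sum_congr rfl fun j hj => ?_
        have hj' : |((j : ℝ) + 1) * ε| < 1 / 20 := by
          have := small (j + 1) (Finset.mem_range.1 hj)
          push_cast at this
          exact this
        rw [P2F.inner_vv hk' hj']
        have hg1 := (P2F.gam_pos hj').ne'
        beta_reduce
        generalize P2F.gam (((j : ℝ) + 1) * ε) = G at hg1 ⊢
        generalize P2F.H (cos (2 * P2F.xx ((k : ℝ) * ε))) (cos (2 * P2F.xx (((j : ℝ) + 1) * ε))) = K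
        generalize P2F.gam ((k : ℝ) * ε) = G'
        rw [div_mul_div_comm, show g j * (G' * G) = G * (G' * g j) by ring,
          mul_div_mul_left _ _ hg1, mul_div_assoc]

/-- sharp asymptotics -/
theorem sharp {A B : ℕ → ℝ} (hA0 : ∀ n, 0 ≤ A n) (hA : ∀ m n, m ≤ n → A n ≤ A m)
    (hAB : ∀ n, A n ^ 2 = B n ^ 2) (hP : NodeRelE B) :
    ∃ b : ℝ, 0 < b ∧ Tendsto (fun n : ℕ => A n * (n : ℝ) ^ (1 / 4 : ℝ)) atTop (𝓝 b) := by
  obtain ⟨u, q1, q2, hq1, hq2, h1, h2⟩ := sums (node_to_vv hP)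
  exact fin hq1 hq2 hA0 (fun m n h => hA m n h) h1 (by simpa only [hAB] using h2)

end EXG
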