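import Pool.Agent.EXG.Main
import Pool.Agent.EXG.Const3

/-!
EXG/MainV (helper42, after helper81's Main): sharp asymptotics with the value of the constant.
-/

set_option autoImplicit false

namespace EXG

open Real MeasureTheory Filter Topology Set Ex.P2

variable {H : Type} [NormedAddCommGroup H] [InnerProductSpace ℝ H] [CompleteSpace H]

/-- the constant of the coefficients of F1 -/
noncomputable def cG1 : ℝ := P2F.K1 * (4 * P2F.h0) ^ (1 / 4 : ℝ) / Real.Gamma (5 / 4)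

/-- the constant of the coefficients of Fs -/
noncomputable def cG2 : ℝ := 8 * √2 / (3 * √3) * P2F.r2 * P2F.K1

section
variable {Y : Type*} [NormedAddCommGroup Y] [InnerProductSpace ℝ Y] [CompleteSpace Y]

/-- the limit equation -/
theorem FA_full (R : ℕ → Y →L[ℝ] Y) (hR : ∀ n, ‖R n‖ ≤ 1 / 2) (D : Set Y)
    (hD : Dense (Submodule.span ℝ D : Set Y))
    (hconv : ∀ f ∈ D, ∃ g, Tendsto (fun n => R n f) atTop (𝓝 g))
    (P : Y →L[ℝ] Y) (hP : ‖P‖ ≤ 1) (V U : ℕ → Y) (V0 : Y) (hV : Tendsto V atTop (𝓝 V0))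
    (hU : ∀ n, U n = V n + P (R n (U n))) :
    ∃ (S : Y →L[ℝ] Y) (U0 : Y), ‖S‖ ≤ 1 / 2 ∧ (∀ f, Tendsto (fun n => R n f) atTop (𝓝 (S f))) ∧
      Tendsto U atTop (𝓝 U0) ∧ U0 = V0 + P (S U0) := by
  obtain ⟨S, hS, hRS⟩ := strong_limit R (1 / 2) hR D hD hconv
  obtain ⟨U0, hU0⟩ := FA R hR D hD hconv P hP V U V0 hV hU
  refine ⟨S, U0, hS, hRS, hU0, ?_⟩
  have h1 : Tendsto (fun n => R n (U n)) atTop (𝓝 (S U0)) := by
    rw [tendsto_iff_norm_sub_tendsto_zero]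
    have hlim : Tendsto (fun n => 1 / 2 * ‖U n - U0‖ + ‖R n U0 - S U0‖) atTop (𝓝 0) := by
      have e1 := tendsto_iff_norm_sub_tendsto_zero.1 hU0
      have e2 := tendsto_iff_norm_sub_tendsto_zero.1 (hRS U0)
      have e3 := (e1.const_mul (1 / 2)).add e2
      simpa using e3
    refine squeeze_zero (fun n => norm_nonneg _) (fun n => ?_) hlim
    have e4 : R n (U n) - S U0 = R n (U n - U0) + (R n U0 - S U0) := by
      rw [map_sub]
      abel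
    rw [e4]
    refine (norm_add_le _ _).trans ?_
    have e5 : ‖R n (U n - U0)‖ ≤ 1 / 2 * ‖U n - U0‖ :=
      ((R n).le_opNorm _).trans (mul_le_mul_of_nonneg_right (hR n) (norm_nonneg _))
    linarith
  have h2 : Tendsto (fun n => V n + P (R n (U n))) atTop (𝓝 (V0 + P (S U0))) :=
    hV.add ((P.continuous.tendsto _).comp h1)
  have h3 : Tendsto U atTop (𝓝 (V0 + P (S U0))) := h2.congr fun n => (hU n).symm
  exact tendsto_nhds_unique hU0 h3

end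

theorem RR_symm (I : L2N →ₗᵢ[ℝ] X) (T : L2N →L[ℝ] H) (f g : X) :
    inner ℝ (RR I (AA T) f) g = inner ℝ f (RR I (AA T) g) := by
  unfold RR
  simp only [ContinuousLinearMap.comp_apply]
  rw [← ContinuousLinearMap.adjoint_inner_right, AA_symm, ContinuousLinearMap.adjoint_inner_left]

theorem norm_V2 {C : ℝ} {V : X} (hV : (V : ℝ → ℝ) =ᵐ[volume.restrict (Ioi (0 : ℝ))]
    fun x => C * x ^ (0 : ℝ) * (Iio (1 : ℝ)).indicator 1 x) : ‖V‖ ^ 2 = C ^ 2 := by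
  rw [norm_sq_eq]
  have h1 : ∫ x in Ioi (0 : ℝ), (V : ℝ → ℝ) x ^ 2 =
      ∫ x in Ioi (0 : ℝ), (Iio (1 : ℝ)).indicator (fun _ => C ^ 2) x := by
    refine integral_congr_ae ?_
    filter_upwards [hV] with x e
    rw [e]
    by_cases h : x ∈ Iio (1 : ℝ)
    · rw [indicator_of_mem h, indicator_of_mem h]
      simp
    · rw [indicator_of_notMem h, indicator_of_notMem h]
      simp
  rw [h1, integral_indicator measurableSet_Iio, Measure.restrict_restrict measurableSet_Iio, inter_comm,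
    Ioi_inter_Iio]
  simp

theorem sums_val {B : ℕ → ℝ}
    (hP : ∀ n : ℕ, ∃ b : ℝ → ℝ, Tendsto (fun ε => b ε ^ 2) (𝓝[>] 0) (𝓝 (B n ^ 2)) ∧
      ∀ᶠ ε in 𝓝[>] (0 : ℝ), ∃ g : ℕ → ℝ, ∀ k ≤ n, P2F.Fsf (k * ε) - b ε * P2F.F1f (k * ε) =
        ∑ j ∈ Finset.range n, g j * inner ℝ (P2F.vv (k * ε)) (P2F.vv ((j + 1) * ε))) :
    ∃ u : ℕ → ℝ,
      Tendsto (fun n : ℕ => (∑ m ∈ Finset.range n, u m ^ 2) / (n : ℝ) ^ (3 / 2 : ℝ)) atTop
        (𝓝 (cG1 ^ 2 * (2 / 3 * Carl.w 0 ^ 2))) ∧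
      Tendsto (fun n : ℕ => (∑ m ∈ Finset.range n, B m ^ 2 * u m ^ 2) / (n : ℝ)) atTop (𝓝 (cG2 ^ 2)) := by
  obtain ⟨F1, hF1, hlim1⟩ := coefG1_val
  obtain ⟨F2, hF2, hlim2⟩ := coefG2_val
  obtain ⟨T, hS, hTv, u, hu⟩ := lim_sums_T (H := Lp ℝ 2 (volume : Measure ℝ)) (v := P2F.vv) (del := 1 / 20)
    (by norm_num) (by norm_num) (fun a z hz => P2F.hv a z hz)
    (fun z hz => hF1 z (hz.trans (by norm_num))) (fun z hz => hF2 z (hz.trans (by norm_num))) hP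
  have hT : ∀ s t : ℝ, |s| < 1 → |t| < 1 → inner ℝ (T (kv s)) (T (kv t)) = Kf s t := by
    apply ker_ext
    intro s t hs ht
    rw [hTv s hs, hTv t ht, inner_vv_Kf hs ht]
  choose x1 x2 hx1 hx2 he1 he2 hs1 hs2 using hu
  have hIp : ∀ n : ℕ, ∃ I : L2N →ₗᵢ[ℝ] X, IsStep (n + 1) 1 I := fun n => exists_step (by omega) (Or.inl rfl)
  have hIm : ∀ n : ℕ, ∃ I : L2N →ₗᵢ[ℝ] X, IsStep (n + 1) (-1) I := fun n => exists_step (by omega) (Or.inr rfl)
  choose Ip hIp using hIp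
  choose Im hIm using hIm
  have sp : ∀ n, 1 ≤ n → IsStep n 1 ((fun n => Ip (n - 1)) n) := by
    intro n hn
    have := hIp (n - 1)
    rwa [Nat.sub_add_cancel hn] at this
  have sm : ∀ n, 1 ≤ n → IsStep n (-1) ((fun n => Im (n - 1)) n) := by
    intro n hn
    have := hIm (n - 1)
    rwa [Nat.sub_add_cancel hn] at this
  have shift : ∀ {α : Type} [TopologicalSpace α] {f : ℕ → α} {a : α}, Tendsto f atTop (𝓝 a) →
      Tendsto (fun n => f (n + 1)) atTop (𝓝 a) := fun {α} _ {f a} h => (tendsto_add_atTop_iff_nat 1).2 h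
  -- the first sum
  obtain ⟨V1, hV1, hV1lim⟩ := step_tendsto' (s := 1) (Or.inl rfl) (I := fun n => Ip (n - 1)) sp
    (β := 1 / 4) (C := cG1) (by norm_num) hlim1
  obtain ⟨V2, hV2, hV2lim⟩ := step_tendsto' (s := -1) (Or.inr rfl) (I := fun n => Im (n - 1)) sm
    (G := fun i => (-1 : ℝ) ^ i * F2 i) (β := 0) (C := cG2) (by norm_num) (by simpa [cG2] using hlim2)
  have e1 : ∀ n, Fv (fun i => (1 : ℝ) ^ i * F1 i) n = Fv F1 n := by
    intro n
    simp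
  have e2 : ∀ n, Fv (fun i => (-1 : ℝ) ^ i * ((-1 : ℝ) ^ i * F2 i)) n = Fv F2 n := by
    intro n
    congr 1
    funext i
    rw [← mul_assoc, ← mul_pow]
    norm_num
  have v1 : Tendsto (fun n : ℕ => (((n + 1 : ℕ) : ℝ) ^ (-(1 / 2) - (1 / 4) : ℝ)) • Ip n (Fv F1 (n + 1))) atTop (𝓝 V1) := by
    have := shift hV1lim
    simpa only [e1, Nat.add_sub_cancel] using this
  have v2 : Tendsto (fun n : ℕ => (((n + 1 : ℕ) : ℝ) ^ (-(1 / 2) - 0 : ℝ)) • Im n (Fv F2 (n + 1))) atTop (𝓝 V2) := by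
    have := shift hV2lim
    simpa only [e2, Nat.add_sub_cancel] using this
  have hlimA : ∀ a : ℝ, 0 < a → Tendsto (fun n => RR (Ip n) (AA T) (eps a)) atTop
      (𝓝 ((1 / (2 * π)) • ∫ η : ℝ, (exp (-(2 * η / 3)) / cosh η) • eps (a * exp (-(4 * η / 3))))) := by
    intro a ha
    have := shift (limA' hT (I := fun n => Ip (n - 1)) sp ha)
    simpa only [Nat.add_sub_cancel] using this
  obtain ⟨S, U0, hSn, hSlim, hU0, hU0eq⟩ := FA_full (fun n => RR (Ip n) (AA T)) (fun n => RR_norm hS (Ip n)) _ dens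
    (by
      rintro f ⟨k, rfl⟩
      exact ⟨_, hlimA ((k : ℝ) + 1) (by positivity)⟩)
    PX PX_opNorm _ (fun n => (((n + 1 : ℕ) : ℝ) ^ (-(1 / 2) - (1 / 4) : ℝ)) • Ip n (x1 (n + 1))) V1 v1
    (fun n => step_eq (by omega) (hIp n) T _ (he1 (n + 1)))
  have hSsym : ∀ f g, inner ℝ (S f) g = inner ℝ f (S g) := by
    intro f g
    have t1 : Tendsto (fun n => inner ℝ (RR (Ip n) (AA T) f) g) atTop (𝓝 (inner ℝ (S f) g)) :=
      (hSlim f).inner tendsto_const_nhds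
    have t2 : Tendsto (fun n => inner ℝ f (RR (Ip n) (AA T) g)) atTop (𝓝 (inner ℝ f (S g))) :=
      tendsto_const_nhds.inner (hSlim g)
    exact tendsto_nhds_unique t1 (t2.congr fun n => (RR_symm (Ip n) T f g).symm)
  have hSe : ∀ a : ℝ, 0 < a → S (eps a) = (1 / (2 * π)) • ∫ η : ℝ, (exp (-(2 * η / 3)) / cosh η) •
      eps (a * exp (-(4 * η / 3))) := fun a ha => tendsto_nhds_unique (hSlim _) (hlimA a ha)
  have hq1val := q_val hSn hSsym hSe hV1 hU0eq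
  have hq1 := Filter.Tendsto.inner (𝕜 := ℝ) v1 hU0
  rw [hq1val] at hq1
  have q2' := FA_zero (fun n => RR (Im n) (AA T)) (fun n => RR_norm hS (Im n)) _ dens
    (by
      rintro f ⟨k, rfl⟩
      have hg := limB hS hT (I := fun n => Im (n - 1)) sm (a := (k : ℝ) + 1) (by positivity)
      have := shift hg
      simpa only [Nat.add_sub_cancel] using this)
    PX PX_opNorm _ (fun n => (((n + 1 : ℕ) : ℝ) ^ (-(1 / 2) - 0 : ℝ)) • Im n (x2 (n + 1))) V2 v2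
    (fun n => step_eq (by omega) (hIm n) T _ (he2 (n + 1)))
  have hq2 := q2'.2
  rw [norm_V2 hV2] at hq2
  have pw : ∀ (n : ℕ) (b : ℝ), 0 < n → ((n : ℝ) ^ (-b : ℝ)) * ((n : ℝ) ^ (-b : ℝ)) = 1 / (n : ℝ) ^ (2 * b) := by
    intro n b hn
    have hn0 : (0 : ℝ) < n := by exact_mod_cast hn
    rw [← rpow_add hn0, one_div, ← rpow_neg hn0.le]
    congr 1
    ring
  have i1 : ∀ n : ℕ, inner ℝ ((((n + 1 : ℕ) : ℝ) ^ (-(1 / 2) - (1 / 4) : ℝ)) • Ip n (Fv F1 (n + 1)))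
      ((((n + 1 : ℕ) : ℝ) ^ (-(1 / 2) - (1 / 4) : ℝ)) • Ip n (x1 (n + 1))) =
      (∑ m ∈ Finset.range (n + 1), u m ^ 2) / ((n + 1 : ℕ) : ℝ) ^ (3 / 2 : ℝ) := by
    intro n
    rw [real_inner_smul_left, real_inner_smul_right, (Ip n).inner_map_map, ← hs1, ← mul_assoc,
      show (-(1 / 2) - (1 / 4) : ℝ) = -(3 / 4) by norm_num, pw (n + 1) (3 / 4) (by omega)]
    rw [show (2 * (3 / 4) : ℝ) = 3 / 2 by norm_num]
    ring
  have i2 : ∀ n : ℕ, inner ℝ ((((n + 1 : ℕ) : ℝ) ^ (-(1 / 2) - 0 : ℝ)) • Im n (Fv F2 (n + 1)))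
      ((((n + 1 : ℕ) : ℝ) ^ (-(1 / 2) - 0 : ℝ)) • Im n (x2 (n + 1))) =
      (∑ m ∈ Finset.range (n + 1), B m ^ 2 * u m ^ 2) / ((n + 1 : ℕ) : ℝ) := by
    intro n
    rw [real_inner_smul_left, real_inner_smul_right, (Im n).inner_map_map, ← hs2, ← mul_assoc,
      show (-(1 / 2) - 0 : ℝ) = -(1 / 2) by norm_num, pw (n + 1) (1 / 2) (by omega)]
    rw [show (2 * (1 / 2) : ℝ) = 1 by norm_num, rpow_one]
    ring
  refine ⟨u, ?_, ?_⟩
  · refine (tendsto_add_atTop_iff_nat 1).1 ?_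
    exact hq1.congr i1
  · refine (tendsto_add_atTop_iff_nat 1).1 ?_
    exact hq2.congr i2

/-- sharp asymptotics with the value -/
theorem sharp_raw {A B : ℕ → ℝ} (hA0 : ∀ n, 0 ≤ A n) (hA : ∀ m n, m ≤ n → A n ≤ A m)
    (hAB : ∀ n, A n ^ 2 = B n ^ 2) (hP : NodeRelE B) :
    Tendsto (fun n : ℕ => A n * (n : ℝ) ^ (1 / 4 : ℝ)) atTop (𝓝 (cG2 / (cG1 * Carl.w 0))) := by
  obtain ⟨u, h1, h2⟩ := sums_val (node_to_vv hP)
  have hK := P2F.K1_pos
  have hr := P2F.r2_pos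
  have hh : 0 < P2F.h0 := by unfold P2F.h0; positivity
  have hG : 0 < Real.Gamma (5 / 4) := Real.Gamma_pos_of_pos (by norm_num)
  have hc1 : 0 < cG1 := by unfold cG1; positivity
  have hc2 : 0 < cG2 := by unfold cG2; positivity
  have hw : 0 < Carl.w 0 := by
    rw [Carl.w_zero]
    have := Real.Gamma_pos_of_pos (s := 5 / 12) (by norm_num)
    have := Real.Gamma_pos_of_pos (s := 13 / 12) (by norm_num)
    positivity
  have h3 := fin_val (q1 := cG1 ^ 2 * (2 / 3 * Carl.w 0 ^ 2)) (q2 := cG2 ^ 2) (by positivity) (by positivity) hA0 (fun m n h => hA m n h) h1 (by simpa only [hAB] using h2)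
  have e : Real.sqrt (cG2 ^ 2 / (cG1 ^ 2 * (2 / 3 * Carl.w 0 ^ 2)) / (3 / 2)) = cG2 / (cG1 * Carl.w 0) := by
    have : cG2 ^ 2 / (cG1 ^ 2 * (2 / 3 * Carl.w 0 ^ 2)) / (3 / 2) = (cG2 / (cG1 * Carl.w 0)) ^ 2 := by
      field_simp
    rw [this, Real.sqrt_sq (by positivity)]
  rwa [e] at h3

end EXG
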