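import Pool.Agent.EXG.Defs

/-! OpW: the bounded operator (helper46). -/

set_option autoImplicit false

open scoped BigOperators Topology
open Filter Finset Ex.P2

namespace EXG

lemma inner_ev_left (j : ℕ) (x : L2N) : inner ℝ (ev j) x = (x : ℕ → ℝ) j := by
  unfold ev
  rw [lp.inner_single_left]
  simp

lemma tr_eq_Fv (n : ℕ) (x : L2N) : tr n x = Fv (fun j => (x : ℕ → ℝ) j) n := by
  rw [tr_apply]
  unfold Fv
  refine sum_congr rfl fun j _ => ?_
  rw [inner_ev_left]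

lemma Fv_apply (F : ℕ → ℝ) (n m : ℕ) : (Fv F n : ℕ → ℝ) m = if m < n then F m else 0 := by
  unfold Fv
  rw [lp.coeFn_sum, Finset.sum_apply]
  simp only [lp.coeFn_smul, Pi.smul_apply, ev_apply, smul_eq_mul, mul_ite, mul_one, mul_zero]
  rw [Finset.sum_ite_eq]
  simp only [mem_range]

lemma inner_Fv (F : ℕ → ℝ) (n : ℕ) (x : L2N) :
    inner ℝ (Fv F n) x = ∑ j ∈ range n, F j * (x : ℕ → ℝ) j := by
  unfold Fv
  rw [sum_inner]
  exact sum_congr rfl fun j _ => by rw [real_inner_smul_left, inner_ev_left]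

lemma Fv_tendsto (x : L2N) : Tendsto (fun n => Fv (fun j => (x : ℕ → ℝ) j) n) atTop (𝓝 x) := by
  have h := (lp.hasSum_single (p := 2) (by norm_num) x).tendsto_sum_nat
  refine h.congr fun n => ?_
  unfold Fv ev
  refine sum_congr rfl fun j _ => ?_
  rw [← lp.single_smul]
  simp

section T

variable {H : Type} [NormedAddCommGroup H] [InnerProductSpace ℝ H] [CompleteSpace H]

lemma exists_T {v : ℝ → H} {δ : ℝ} (hδ0 : 0 < δ) (hδ : δ ≤ 1) (hv : Sandwich v δ) {d : ℕ → H}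
    (hd : ∀ j s, Tendsto (fun ε : ℝ => DD j s ε v) (𝓝[>] 0) (𝓝 (d j))) :
    ∃ T : L2N →L[ℝ] H, (∀ j, T (ev j) = d j) ∧
      (∀ a, (1 / 2) * ‖a‖ ^ 2 ≤ ‖T a‖ ^ 2 ∧ ‖T a‖ ^ 2 ≤ ‖a‖ ^ 2) ∧
      ∀ z, |z| < δ → T (kv z) = v z := by
  have hsand := fun n c => d_sandwich hδ0 hδ hv hd n c
  -- the adjoint
  have hpart : ∀ (h : H) (n : ℕ), ∑ j ∈ range n, (inner ℝ (d j) h) ^ 2 ≤ ‖h‖ ^ 2 := by
    intro h n
    set c : ℕ → ℝ := fun j => inner ℝ (d j) h with hc
    have h1 : ∑ j ∈ range n, c j ^ 2 = inner ℝ (∑ j ∈ range n, c j • d j) h := by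
      rw [sum_inner]
      exact sum_congr rfl fun j _ => by rw [real_inner_smul_left, sq]
    have h2 := real_inner_le_norm (∑ j ∈ range n, c j • d j) h
    have h3 := (hsand n c).2
    have h0 : 0 ≤ ∑ j ∈ range n, c j ^ 2 := sum_nonneg fun _ _ => sq_nonneg _
    rw [← h1] at h2
    rcases eq_or_lt_of_le h0 with h4 | h4
    · rw [← h4]; positivity
    · have h5 : (∑ j ∈ range n, c j ^ 2) ^ 2 ≤ (∑ j ∈ range n, c j ^ 2) * ‖h‖ ^ 2 := by
        calc (∑ j ∈ range n, c j ^ 2) ^ 2 ≤ (‖∑ j ∈ range n, c j • d j‖ * ‖h‖) ^ 2 :=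
              pow_le_pow_left₀ h0 h2 2
          _ = ‖∑ j ∈ range n, c j • d j‖ ^ 2 * ‖h‖ ^ 2 := by ring
          _ ≤ _ := mul_le_mul_of_nonneg_right h3 (by positivity)
      rw [sq] at h5
      exact le_of_mul_le_mul_left h5 h4
  have hsummable : ∀ h : H, Summable (fun j => (inner ℝ (d j) h : ℝ) ^ 2) := fun h =>
    summable_of_sum_range_le (fun _ => sq_nonneg _) (hpart h)
  have hmem : ∀ h : H, Memℓp (fun j => (inner ℝ (d j) h : ℝ)) 2 := by
    intro h
    apply memℓp_gen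
    refine (hsummable h).congr fun j => ?_
    simp
  let S0 : H →ₗ[ℝ] L2N :=
    { toFun := fun h => ⟨fun j => (inner ℝ (d j) h : ℝ), hmem h⟩
      map_add' := by
        intro x y
        ext j
        simp [inner_add_right]
      map_smul' := by
        intro c x
        ext j
        simp [real_inner_smul_right] }
  have hS0 : ∀ h j, (S0 h : ℕ → ℝ) j = inner ℝ (d j) h := fun _ _ => rfl
  have hS0n : ∀ h, ‖S0 h‖ ≤ 1 * ‖h‖ := by
    intro h
    rw [one_mul]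
    have h1 : ‖S0 h‖ ^ 2 = ∑' j, (inner ℝ (d j) h : ℝ) ^ 2 := by
      rw [← real_inner_self_eq_norm_sq, lp.inner_eq_tsum]
      refine tsum_congr fun m => ?_
      rw [hS0]
      simp [sq]
    have h2 : ‖S0 h‖ ^ 2 ≤ ‖h‖ ^ 2 := by
      rw [h1]
      exact (hsummable h).tsum_le_of_sum_range_le (hpart h)
    exact le_of_sq_le_sq h2 (norm_nonneg _)
  let S : H →L[ℝ] L2N := S0.mkContinuous 1 hS0n
  have hS : ∀ h j, (S h : ℕ → ℝ) j = inner ℝ (d j) h := fun _ _ => rfl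
  let T : L2N →L[ℝ] H := ContinuousLinearMap.adjoint S
  have hTev : ∀ j, T (ev j) = d j := by
    intro j
    refine ext_inner_right ℝ fun h => ?_
    rw [ContinuousLinearMap.adjoint_inner_left, inner_ev_left, hS]
  have hTcut : ∀ (F : ℕ → ℝ) n, T (Fv F n) = ∑ j ∈ range n, F j • d j := by
    intro F n
    unfold Fv
    rw [map_sum]
    exact sum_congr rfl fun j _ => by rw [map_smul, hTev]
  have hbd : ∀ a : L2N, (1 / 2) * ‖a‖ ^ 2 ≤ ‖T a‖ ^ 2 ∧ ‖T a‖ ^ 2 ≤ ‖a‖ ^ 2 := by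
    intro a
    have t1 := Fv_tendsto a
    have t2 : Tendsto (fun n => ‖Fv (fun j => (a : ℕ → ℝ) j) n‖ ^ 2) atTop (𝓝 (‖a‖ ^ 2)) :=
      (t1.norm).pow 2
    have t3 : Tendsto (fun n => ‖T (Fv (fun j => (a : ℕ → ℝ) j) n)‖ ^ 2) atTop (𝓝 (‖T a‖ ^ 2)) :=
      (((T.continuous.tendsto a).comp t1).norm).pow 2
    have e1 : ∀ n, ‖Fv (fun j => (a : ℕ → ℝ) j) n‖ ^ 2 = ∑ j ∈ range n, (a : ℕ → ℝ) j ^ 2 :=
      fun n => norm_sq_sum_ev n _
    constructor
    · refine le_of_tendsto_of_tendsto' (t2.const_mul (1 / 2)) t3 fun n => ?_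
      rw [e1, hTcut]
      exact (hsand n _).1
    · refine le_of_tendsto_of_tendsto' t3 t2 fun n => ?_
      rw [e1, hTcut]
      exact (hsand n _).2
  refine ⟨T, hTev, hbd, fun z hz => ?_⟩
  have hz1 : |z| < 1 := lt_of_lt_of_le hz hδ
  -- comparison of v z with the partial sums
  have hcomp : ∀ n : ℕ, ‖v z - ∑ j ∈ range n, z ^ j • d j‖ ≤ ‖kv z - Fv (fun j => z ^ j) n‖ := by
    intro n
    have t1 : Tendsto (fun ε : ℝ => ‖v z - ∑ j ∈ range n, z ^ j • DD j 0 ε v‖) (𝓝[>] 0)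
        (𝓝 ‖v z - ∑ j ∈ range n, z ^ j • d j‖) :=
      (tendsto_const_nhds.sub (tendsto_finsetSum _ fun j _ => (hd j 0).const_smul (z ^ j))).norm
    have t2 : Tendsto (fun ε : ℝ => ‖kv z - ∑ j ∈ range n, z ^ j • DD j 0 ε kv‖) (𝓝[>] 0)
        (𝓝 ‖kv z - Fv (fun j => z ^ j) n‖) :=
      (tendsto_const_nhds.sub (tendsto_finsetSum _ fun j _ =>
        (DD_kv_tendsto j 0).const_smul (z ^ j))).norm
    refine le_of_tendsto_of_tendsto t1 t2 ?_
    filter_upwards [ev_small ((n : ℕ) : ℝ) δ hδ0] with ε hε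
    have hmem2 : Finsupp.single z (1 : ℝ) - ∑ j ∈ range n, z ^ j • DDf j 0 ε ∈
        Finsupp.supported ℝ ℝ {z : ℝ | |z| < δ} := by
      refine Submodule.sub_mem _ (Finsupp.single_mem_supported ℝ _ hz) ?_
      refine Submodule.sum_mem _ fun j hj => Submodule.smul_mem _ _ (DDf_supp hε.1.le ?_)
      refine lt_of_le_of_lt ?_ hε.2
      refine mul_le_mul_of_nonneg_right ?_ hε.1.le
      have := mem_range.1 hj
      exact_mod_cast (by omega : 0 + j ≤ n)
    have h1 := norm_le_of_sandwich hδ hv _ hmem2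
    simp only [map_sub, map_sum, map_smul, lc_DDf, Finsupp.linearCombination_single, one_smul] at h1
    exact h1
  have t3 : Tendsto (fun n : ℕ => ‖kv z - Fv (fun j => z ^ j) n‖) atTop (𝓝 0) := by
    have h1 := Fv_tendsto (kv z)
    have h2 : (fun j => (kv z : ℕ → ℝ) j) = fun j => z ^ j := by
      funext j
      exact kv_apply hz1 j
    rw [h2] at h1
    have h3 := (tendsto_const_nhds (x := kv z)).sub h1
    rw [sub_self] at h3
    have h4 := h3.norm
    rw [norm_zero] at h4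
    exact h4
  have t4 : Tendsto (fun n : ℕ => ‖v z - ∑ j ∈ range n, z ^ j • d j‖) atTop (𝓝 ‖v z - T (kv z)‖) := by
    have h1 := (T.continuous.tendsto (kv z)).comp (Fv_tendsto (kv z))
    have h2 : (fun j => (kv z : ℕ → ℝ) j) = fun j => z ^ j := by
      funext j
      exact kv_apply hz1 j
    rw [h2] at h1
    refine ((tendsto_const_nhds (x := v z)).sub h1).norm.congr fun n => ?_
    show ‖v z - T (Fv (fun j => z ^ j) n)‖ = _
    rw [hTcut]
  have h5 : ‖v z - T (kv z)‖ ≤ 0 := le_of_tendsto_of_tendsto' t4 t3 hcomp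
  have h6 : v z - T (kv z) = 0 := norm_le_zero_iff.1 h5
  exact (sub_eq_zero.1 h6).symm

theorem inner_AA (T : L2N →L[ℝ] H) (x y : L2N) :
    inner ℝ x (AA T y) = inner ℝ x y - inner ℝ (T x) (T y) := by
  show inner ℝ x (y - ContinuousLinearMap.adjoint T (T y)) = _
  rw [inner_sub_right, ContinuousLinearMap.adjoint_inner_right]

theorem AA_symm (T : L2N →L[ℝ] H) (x y : L2N) : inner ℝ (AA T x) y = inner ℝ x (AA T y) := by
  rw [real_inner_comm, inner_AA, inner_AA, real_inner_comm, real_inner_comm (T y)]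

theorem AA_nonneg {T : L2N →L[ℝ] H} (hT : Sand T) (x : L2N) : 0 ≤ inner ℝ x (AA T x) := by
  rw [inner_AA, real_inner_self_eq_norm_sq, real_inner_self_eq_norm_sq]
  linarith [(hT x).2]

theorem AA_le {T : L2N →L[ℝ] H} (hT : Sand T) (x : L2N) :
    inner ℝ x (AA T x) ≤ 1 / 2 * ‖x‖ ^ 2 := by
  rw [inner_AA, real_inner_self_eq_norm_sq, real_inner_self_eq_norm_sq]
  linarith [(hT x).1]

theorem AA_norm_sq {T : L2N →L[ℝ] H} (hT : Sand T) (x : L2N) :
    ‖AA T x‖ ^ 2 ≤ (1 / 2) * inner ℝ x (AA T x) := by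
  have e1 := AA_nonneg hT (x - (2 : ℝ) • AA T x)
  have e2 := AA_le hT (AA T x)
  rw [map_sub, map_smul, inner_sub_left, inner_sub_right, inner_sub_right, real_inner_smul_left,
    real_inner_smul_left, real_inner_smul_right, real_inner_smul_right, ← AA_symm T x (AA T x),
    real_inner_self_eq_norm_sq] at e1
  linarith

theorem AA_norm {T : L2N →L[ℝ] H} (hT : Sand T) (x : L2N) : ‖AA T x‖ ≤ (1 / 2) * ‖x‖ := by
  have e1 := AA_norm_sq hT x
  have e2 := AA_le hT x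
  have e3 : ‖AA T x‖ ^ 2 ≤ (1 / 2 * ‖x‖) ^ 2 := by nlinarith
  exact le_of_sq_le_sq e3 (by positivity)

end T

/-- the vectors kv s, |s| < δ, are total -/
theorem dense_kv {δ : ℝ} (hδ : 0 < δ) (_hδ1 : δ ≤ 1) :
    Dense (Submodule.span ℝ {f : L2N | ∃ s : ℝ, |s| < δ ∧ f = kv s} : Set L2N) := by
  set S : Submodule ℝ L2N := Submodule.span ℝ {f : L2N | ∃ s : ℝ, |s| < δ ∧ f = kv s} with hS
  have hev : ∀ j, ev j ∈ S.topologicalClosure := by
    intro j
    refine mem_closure_of_tendsto (DD_kv_tendsto j 0) ?_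
    filter_upwards [ev_small ((0 + j : ℕ) : ℝ) δ hδ] with ε hε
    rw [DD_eq_sum]
    refine Submodule.sum_mem _ fun k hk => Submodule.smul_mem _ _ (Submodule.subset_span ⟨_, ?_, rfl⟩)
    have hk' : k ≤ j := by simpa [Nat.lt_succ_iff] using hk
    rw [abs_of_nonneg (mul_nonneg (by positivity) hε.1.le)]
    refine lt_of_le_of_lt (mul_le_mul_of_nonneg_right ?_ hε.1.le) hε.2
    exact_mod_cast (by omega : 0 + k ≤ 0 + j)
  intro x
  have h1 : x ∈ S.topologicalClosure := by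
    refine S.isClosed_topologicalClosure.mem_of_tendsto (Fv_tendsto x) (Eventually.of_forall fun n => ?_)
    unfold Fv
    exact Submodule.sum_mem _ fun j _ => Submodule.smul_mem _ _ (hev j)
  exact h1

section core

variable {H : Type*} [NormedAddCommGroup H] [InnerProductSpace ℝ H]

/-- the exact form of the sums -/
lemma sum_exact {d : ℕ → H} {q : ℕ → H}
    (hq0 : ∀ n, q n ≠ 0) (hqorth : ∀ m n, m ≠ n → inner ℝ (q m) (q n) = 0)
    {c : ℕ → ℕ → ℝ} (hc1 : ∀ n, c n n = 1) (hqc : ∀ n, q n = ∑ i ∈ range (n + 1), c n i • d i)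
    (F : ℕ → ℝ) (N : ℕ) :
    ∃ ρ : ℕ → ℝ, (∀ j, j < N → ∑ i ∈ range N, ρ i * inner ℝ (d j) (d i) = F j) ∧
      ∑ m ∈ range N, ((∑ i ∈ range (m + 1), c m i * F i) / ‖q m‖) ^ 2 = ∑ j ∈ range N, F j * ρ j := by
  set val : ℕ → ℝ := fun m => ∑ i ∈ range (m + 1), c m i * F i with hval
  set R : H := ∑ m ∈ range N, (val m / ‖q m‖ ^ 2) • q m with hR
  have hqn : ∀ m, 0 < ‖q m‖ := fun m => norm_pos_iff.2 (hq0 m)
  have hRq : ∀ m, m < N → inner ℝ R (q m) = val m := by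
    intro m hm
    rw [hR, sum_inner, sum_eq_single m]
    · rw [real_inner_smul_left, real_inner_self_eq_norm_sq]
      have := (hqn m).ne'
      field_simp
    · intro b _ hb
      rw [real_inner_smul_left, hqorth b m hb, mul_zero]
    · intro h
      exact absurd (mem_range.2 hm) h
  have hRd : ∀ j, j < N → inner ℝ R (d j) = F j := by
    intro j
    induction j using Nat.strong_induction_on with
    | _ j ih =>
      intro hj
      have h1 := hRq j hj
      rw [hqc j, inner_sum, hval] at h1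
      simp only [real_inner_smul_right] at h1
      rw [sum_range_succ, sum_range_succ, hc1 j] at h1
      have h2 : ∑ i ∈ range j, c j i * inner ℝ R (d i) = ∑ i ∈ range j, c j i * F i := by
        refine sum_congr rfl fun i hi => ?_
        have hi' := mem_range.1 hi
        rw [ih i hi' (by omega)]
      rw [h2] at h1
      linarith
  have hnormR : ‖R‖ ^ 2 = ∑ m ∈ range N, (val m / ‖q m‖) ^ 2 := by
    rw [← real_inner_self_eq_norm_sq]
    nth_rewrite 2 [hR]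
    rw [inner_sum]
    refine sum_congr rfl fun m hm => ?_
    rw [real_inner_smul_right, hRq m (mem_range.1 hm)]
    ring
  obtain ⟨ρ, hρ⟩ : ∃ ρ : ℕ → ℝ, R = ∑ i ∈ range N, ρ i • d i := by
    apply mem_span_Iio
    rw [hR]
    refine Submodule.sum_mem _ fun m hm => Submodule.smul_mem _ _ ?_
    rw [hqc m]
    refine Submodule.sum_mem _ fun i hi => Submodule.smul_mem _ _ (Submodule.subset_span ⟨i, ?_, rfl⟩)
    have h1 := mem_range.1 hm
    have h2 := mem_range.1 hi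
    exact Set.mem_Iio.2 (by omega)
  refine ⟨ρ, fun j hj => ?_, ?_⟩
  · rw [← hRd j hj, hρ, sum_inner]
    exact sum_congr rfl fun i _ => by rw [real_inner_smul_left, real_inner_comm]
  · rw [← hnormR, ← real_inner_self_eq_norm_sq]
    nth_rewrite 2 [hρ]
    rw [inner_sum]
    exact sum_congr rfl fun j hj => by
      rw [real_inner_smul_right, hRd j (mem_range.1 hj), mul_comm]

lemma gs_lin {v : ℝ → H} {δ : ℝ} (hδ0 : 0 < δ) (hδ : δ ≤ 1) (hv : Sandwich v δ) {d : ℕ → H}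
    (hd : ∀ j s, Tendsto (fun ε : ℝ => DD j s ε v) (𝓝[>] 0) (𝓝 (d j))) : LinearIndependent ℝ d := by
  have hsand := fun n c => d_sandwich hδ0 hδ hv hd n c
  rw [linearIndependent_iff']
  intro s g hg i hi
  obtain ⟨n, hn⟩ : ∃ n, ∀ j ∈ s, j < n := ⟨s.sup id + 1, fun j hj =>
    Nat.lt_succ_of_le (Finset.le_sup (f := id) hj)⟩
  let g' : ℕ → ℝ := fun j => if j ∈ s then g j else 0
  have h1 : ∑ j ∈ range n, g' j • d j = 0 := by
    rw [← hg]
    symm
    refine Finset.sum_subset_zero_on_sdiff (fun j hj => mem_range.2 (hn j hj)) ?_ ?_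
    · intro j hj
      have : j ∉ s := (Finset.mem_sdiff.1 hj).2
      show (if j ∈ s then g j else 0) • d j = 0
      rw [if_neg this, zero_smul]
    · intro j hj
      show g j • d j = (if j ∈ s then g j else 0) • d j
      rw [if_pos hj]
  have h2 := (hsand n g').1
  rw [h1, norm_zero] at h2
  have h5 : ∑ j ∈ range n, g' j ^ 2 = 0 :=
    le_antisymm (by nlinarith) (sum_nonneg fun j _ => sq_nonneg _)
  rw [sum_eq_zero_iff_of_nonneg (fun j _ => sq_nonneg _)] at h5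
  have h6 := h5 i (mem_range.2 (hn i hi))
  have h7 : g' i = 0 := by simpa using h6
  have h8 : g' i = g i := by
    show (if i ∈ s then g i else 0) = g i
    rw [if_pos hi]
  rw [← h8, h7]

end core

/-- x = F + P A x from the linear system of the Gram matrix -/
lemma fix_of_gram {H : Type} [NormedAddCommGroup H] [InnerProductSpace ℝ H] [CompleteSpace H]
    {d : ℕ → H} {T : L2N →L[ℝ] H} (hT : ∀ j, T (ev j) = d j) {F ρ : ℕ → ℝ} {N : ℕ}
    (h : ∀ j, j < N → ∑ i ∈ range N, ρ i * inner ℝ (d j) (d i) = F j) :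
    Fv ρ N = Fv F N + tr N (AA T (Fv ρ N)) := by
  ext j
  rw [lp.coeFn_add, Pi.add_apply, tr_eq_Fv, Fv_apply, Fv_apply, Fv_apply]
  by_cases hj : j < N
  · rw [if_pos hj, if_pos hj, if_pos hj]
    have h1 : (AA T (Fv ρ N) : ℕ → ℝ) j = ρ j - F j := by
      rw [← inner_ev_left]
      unfold Fv
      rw [map_sum, inner_sum]
      simp only [map_smul, real_inner_smul_right, inner_AA, inner_ev, hT]
      rw [← h j hj]
      have e1 : ρ j = ∑ i ∈ range N, ρ i * (if j = i then (1 : ℝ) else 0) := by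
        simp only [mul_ite, mul_one, mul_zero]
        rw [Finset.sum_ite_eq, if_pos (mem_range.2 hj)]
      have e2 : ρ j - ∑ i ∈ range N, ρ i * inner ℝ (d j) (d i) =
          ∑ i ∈ range N, ρ i * (if j = i then (1 : ℝ) else 0) -
            ∑ i ∈ range N, ρ i * inner ℝ (d j) (d i) := by rw [← e1]
      rw [e2, ← sum_sub_distrib]
      exact sum_congr rfl fun i _ => by ring
    rw [h1]
    ring
  · rw [if_neg hj, if_neg hj, if_neg hj]
    ring

/-- lim_sums with the exact formulas -/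
theorem lim_sums_T {H : Type} [NormedAddCommGroup H] [InnerProductSpace ℝ H] [CompleteSpace H]
    {v : ℝ → H} {del : ℝ} (hdel : 0 < del) (hdel1 : del ≤ 1)
    (hv : ∀ {ι : Type} [Fintype ι] (a z : ι → ℝ), (∀ i, |z i| < del) →
      (1 / 2) * ∑ i, ∑ j, a i * a j / (1 - z i * z j) ≤ ‖∑ i, a i • v (z i)‖ ^ 2 ∧
        ‖∑ i, a i • v (z i)‖ ^ 2 ≤ ∑ i, ∑ j, a i * a j / (1 - z i * z j))
    {f1 f2 : ℝ → ℝ} {F1 F2 : ℕ → ℝ}
    (hf1 : ∀ z, |z| < del → HasSum (fun j => F1 j * z ^ j) (f1 z))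
    (hf2 : ∀ z, |z| < del → HasSum (fun j => F2 j * z ^ j) (f2 z))
    {B : ℕ → ℝ}
    (hP : ∀ n : ℕ, ∃ b : ℝ → ℝ, Tendsto (fun ε => b ε ^ 2) (𝓝[>] 0) (𝓝 (B n ^ 2)) ∧
      ∀ᶠ ε in 𝓝[>] (0 : ℝ), ∃ g : ℕ → ℝ, ∀ k ≤ n, f2 (k * ε) - b ε * f1 (k * ε) =
        ∑ j ∈ Finset.range n, g j * inner ℝ (v (k * ε)) (v ((j + 1) * ε))) :
    ∃ T : L2N →L[ℝ] H, Sand T ∧ (∀ z, |z| < del → T (kv z) = v z) ∧ ∃ u : ℕ → ℝ, ∀ n, ∃ x1 x2 : L2N,
      tr n x1 = x1 ∧ tr n x2 = x2 ∧ x1 = Fv F1 n + tr n (AA T x1) ∧ x2 = Fv F2 n + tr n (AA T x2) ∧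
      ∑ m ∈ Finset.range n, u m ^ 2 = inner ℝ (Fv F1 n) x1 ∧
      ∑ m ∈ Finset.range n, B m ^ 2 * u m ^ 2 = inner ℝ (Fv F2 n) x2 := by
  have hv' : Sandwich v del := fun ι _ a z h => hv a z h
  choose d hd using fun j => exists_limit hdel hdel1 hv' j
  obtain ⟨T, hT1, hT2, hT3⟩ := exists_T hdel hdel1 hv' hd
  have hli := gs_lin hdel hdel1 hv' hd
  set q : ℕ → H := InnerProductSpace.gramSchmidt ℝ d with hq
  choose c hc1 hqc using fun n => gs_repr d n
  have hq0 : ∀ n, q n ≠ 0 := fun n => InnerProductSpace.gramSchmidt_ne_zero n hli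
  have hqorth : ∀ m n, m ≠ n → inner ℝ (q m) (q n) = 0 := fun m n h =>
    InnerProductSpace.gramSchmidt_orthogonal ℝ d h
  have hrel : ∀ n, (∑ i ∈ range (n + 1), c n i * F2 i) ^ 2 =
      B n ^ 2 * (∑ i ∈ range (n + 1), c n i * F1 i) ^ 2 := by
    intro n
    obtain ⟨b, hb, hg⟩ := hP n
    refine lim_relation hdel hdel1 hv' hd hf1 hf2 hb ?_ (c n) ?_
    · filter_upwards [hg] with ε hε
      obtain ⟨g, hg⟩ := hε
      refine ⟨g, fun k hk => ?_⟩
      rw [hg k hk]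
      push_cast
      rfl
    · intro l hl
      rw [← hqc n]
      exact InnerProductSpace.gramSchmidt_inv_triangular ℝ d hl
  have htr : ∀ (ρ : ℕ → ℝ) n, tr n (Fv ρ n) = Fv ρ n := by
    intro ρ n
    ext j
    rw [tr_eq_Fv, Fv_apply, Fv_apply]
    split_ifs <;> rfl
  have hin : ∀ (F ρ : ℕ → ℝ) n, inner ℝ (Fv F n) (Fv ρ n) = ∑ j ∈ range n, F j * ρ j := by
    intro F ρ n
    rw [inner_Fv]
    refine sum_congr rfl fun j hj => ?_
    rw [Fv_apply, if_pos (mem_range.1 hj)]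
  refine ⟨T, hT2, hT3, fun m => (∑ i ∈ range (m + 1), c m i * F1 i) / ‖q m‖, fun n => ?_⟩
  obtain ⟨ρ1, h1, h2⟩ := sum_exact hq0 hqorth hc1 hqc F1 n
  obtain ⟨ρ2, h3, h4⟩ := sum_exact hq0 hqorth hc1 hqc F2 n
  refine ⟨Fv ρ1 n, Fv ρ2 n, htr _ _, htr _ _, fix_of_gram hT1 h1, fix_of_gram hT1 h3, ?_, ?_⟩
  · rw [hin, ← h2]
  · rw [hin, ← h4]
    refine sum_congr rfl fun m _ => ?_
    show B m ^ 2 * ((∑ i ∈ range (m + 1), c m i * F1 i) / ‖q m‖) ^ 2 = _
    rw [div_pow, div_pow, hrel m]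
    ring

end EXG
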