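import Pool.Agent.EXG.Defs

/-! SupA: elementary facts on tt and rr (helper81). -/

set_option autoImplicit false

namespace EXG

open Real MeasureTheory Filter Topology Set Ex.P2

theorem den_pos (y : ℝ) : 0 < cosh (8 * y / 3) + P2F.h0 := by
  have := cosh_pos (8 * y / 3)
  have := P2F.h0_pos
  linarith

theorem one_sub_tt (y : ℝ) : 1 - tt y = 2 * P2F.h0 / (cosh (8 * y / 3) + P2F.h0) := by
  have := (den_pos y).ne'
  unfold tt
  field_simp
  ring

theorem one_add_tt (y : ℝ) : 1 + tt y = 2 * cosh (8 * y / 3) / (cosh (8 * y / 3) + P2F.h0) := by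
  have := (den_pos y).ne'
  unfold tt
  field_simp
  ring

theorem tt_lt (y : ℝ) : tt y < 1 := by
  have h1 := one_sub_tt y
  have h2 : 0 < 2 * P2F.h0 / (cosh (8 * y / 3) + P2F.h0) :=
    div_pos (by linarith [P2F.h0_pos]) (den_pos y)
  linarith

theorem tt_pos (y : ℝ) : 0 < tt y := by
  unfold tt
  have h1 := one_le_cosh (8 * y / 3)
  have h2 := P2F.h0_lt
  exact div_pos (by linarith) (den_pos y)

theorem tt_abs (y : ℝ) : |tt y| < 1 := by
  rw [abs_of_pos (tt_pos y)]
  exact tt_lt y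

theorem tt_cont : Continuous tt := by
  unfold tt
  refine Continuous.div ?_ ?_ (fun y => (den_pos y).ne')
  · exact (continuous_cosh.comp (by fun_prop)).sub continuous_const
  · exact (continuous_cosh.comp (by fun_prop)).add continuous_const

theorem sinh_pos' {y : ℝ} (hy : 0 < y) : 0 < sinh (4 * y / 3) := sinh_pos_iff.2 (by positivity)

theorem rr_den_pos {y : ℝ} (hy : 0 < y) : 0 < (1 - tt y) * sinh (4 * y / 3) :=
  mul_pos (by linarith [tt_lt y]) (sinh_pos' hy)

theorem rr_cont (y : ℝ) : Continuous (rr y) := by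
  unfold rr
  refine Continuous.div_const ?_ _
  refine Continuous.mul ?_ ?_
  · exact continuous_const.sub (tt_cont.comp (by fun_prop))
  · exact continuous_sinh.comp (by fun_prop)

theorem norm_kv {t : ℝ} (ht : |t| < 1) : ‖kv t‖ ^ 2 = 1 / (1 - t ^ 2) := by
  rw [← real_inner_self_eq_norm_sq, inner_kv ht ht, sq]

theorem kv_contOn : ContinuousOn kv {t : ℝ | |t| < 1} := by
  intro s hs
  have hs' : |s| < 1 := hs
  rw [ContinuousWithinAt, tendsto_iff_norm_sub_tendsto_zero]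
  have hprod : ∀ {a b : ℝ}, |a| < 1 → |b| < 1 → 1 - a * b ≠ 0 := by
    intro a b ha hb h
    have : |a * b| < 1 := by
      rw [abs_mul]
      nlinarith [abs_nonneg a, abs_nonneg b]
    have h2 : a * b = 1 := by linarith
    rw [h2, abs_one] at this
    exact lt_irrefl _ this
  have h1 : Tendsto (fun t : ℝ => 1 / (1 - t * t) - 2 * (1 / (1 - t * s)) + 1 / (1 - s * s))
      (𝓝[{t : ℝ | |t| < 1}] s) (𝓝 0) := by
    have hc : ContinuousAt (fun t : ℝ => 1 / (1 - t * t) - 2 * (1 / (1 - t * s)) + 1 / (1 - s * s)) s := by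
      have c1 : ContinuousAt (fun t : ℝ => 1 / (1 - t * t)) s :=
        ContinuousAt.div continuousAt_const (by fun_prop) (hprod hs' hs')
      have c2 : ContinuousAt (fun t : ℝ => 1 / (1 - t * s)) s :=
        ContinuousAt.div continuousAt_const (by fun_prop) (hprod hs' hs')
      exact (c1.sub (continuousAt_const.mul c2)).add continuousAt_const
    have h2 := hc.tendsto.mono_left (nhdsWithin_le_nhds (s := {t : ℝ | |t| < 1}))
    have e : 1 / (1 - s * s) - 2 * (1 / (1 - s * s)) + 1 / (1 - s * s) = 0 := by ring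
    rwa [e] at h2
  have h3 := h1.sqrt
  rw [sqrt_zero] at h3
  refine h3.congr' ?_
  filter_upwards [self_mem_nhdsWithin] with t ht
  have ht' : |t| < 1 := ht
  have e : 1 / (1 - t * t) - 2 * (1 / (1 - t * s)) + 1 / (1 - s * s) = ‖kv t - kv s‖ ^ 2 := by
    rw [norm_sub_sq_real, norm_kv ht', norm_kv hs', inner_kv ht' hs']
    rw [sq, sq]
  rw [e, sqrt_sq (norm_nonneg _)]

theorem kv_tt_cont (y : ℝ) : Continuous (fun η : ℝ => kv (tt (y + η / 2))) :=
  kv_contOn.comp_continuous (tt_cont.comp (by fun_prop)) (fun η => tt_abs _)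

theorem sinh_sq_half (y : ℝ) : sinh (4 * y / 3) ^ 2 = (cosh (8 * y / 3) - 1) / 2 := by
  have h1 : cosh (8 * y / 3) = cosh (2 * (4 * y / 3)) := by
    congr 1
    ring
  rw [h1, cosh_two_mul, cosh_sq]
  ring

theorem sig_sq (y : ℝ) : ((1 - tt y) * sinh (4 * y / 3)) ^ 2 =
    (1 - tt y ^ 2) * (P2F.h0 / 2 * ((cosh (8 * y / 3) - 1) / cosh (8 * y / 3))) := by
  have h1 : 1 - tt y ^ 2 = (1 - tt y) * (1 + tt y) := by ring
  rw [h1, mul_pow, sinh_sq_half, one_sub_tt, one_add_tt]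
  have h2 := (den_pos y).ne'
  have h3 := (cosh_pos (8 * y / 3)).ne'
  field_simp

theorem two_le_cosh {y : ℝ} (hy : 1 ≤ y) : 2 ≤ cosh (8 * y / 3) := by
  have h1 := sinh_sq_half y
  have h2 : 4 * y / 3 ≤ sinh (4 * y / 3) := self_le_sinh_iff.2 (by positivity)
  have h3 : (4 / 3 : ℝ) ≤ 4 * y / 3 := by linarith
  have h4 : (4 / 3 : ℝ) ^ 2 ≤ sinh (4 * y / 3) ^ 2 := pow_le_pow_left₀ (by norm_num) (h3.trans h2) 2
  rw [h1] at h4
  linarith

/-- the norm bound -/
theorem rr_norm {y : ℝ} (hy : 1 ≤ y) (η : ℝ) : ‖rr y η • kv (tt (y + η / 2))‖ ^ 2 ≤ 2 / (1 - tt y ^ 2) := by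
  have hy0 : 0 < y := by linarith
  rw [norm_smul, mul_pow, norm_kv (tt_abs _), norm_eq_abs, sq_abs]
  unfold rr
  rw [div_pow, sig_sq (y + η / 2), sig_sq y]
  set t' := tt (y + η / 2) with ht'
  set t := tt y with ht
  set C' := cosh (8 * (y + η / 2) / 3) with hC'
  set C := cosh (8 * y / 3) with hC
  have hC'1 : 1 ≤ C' := one_le_cosh _
  have hC2 : 2 ≤ C := two_le_cosh hy
  have h0 := P2F.h0_pos
  have hsq : ∀ u : ℝ, |u| < 1 → 0 < 1 - u ^ 2 := by
    intro u hu
    have : u ^ 2 < 1 := by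
      rw [← sq_abs]
      nlinarith [abs_nonneg u]
    linarith
  have p1 := hsq t' (tt_abs _)
  have p2 := hsq t (tt_abs _)
  have hC0 : 0 < C := by linarith
  have hC'0 : 0 < C' := by linarith
  have q1 : 0 < C - 1 := by linarith
  have e1 : (1 - t' ^ 2) * (P2F.h0 / 2 * ((C' - 1) / C')) / ((1 - t ^ 2) * (P2F.h0 / 2 * ((C - 1) / C))) *
      (1 / (1 - t' ^ 2)) = (1 / (1 - t ^ 2)) * (((C' - 1) / C') * (C / (C - 1))) := by
    field_simp
  rw [e1, div_eq_mul_one_div 2, mul_comm 2]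
  refine mul_le_mul_of_nonneg_left ?_ (by positivity)
  have e2 : (C' - 1) / C' ≤ 1 := by
    rw [div_le_one hC'0]
    linarith
  have e3 : C / (C - 1) ≤ 2 := by
    rw [div_le_iff₀ q1]
    linarith
  have e4 : 0 ≤ (C' - 1) / C' := div_nonneg (by linarith) hC'0.le
  calc (C' - 1) / C' * (C / (C - 1)) ≤ 1 * 2 := mul_le_mul e2 e3 (by positivity) (by norm_num)
    _ = 2 := by norm_num

/-! limits -/

theorem tanh_tendsto : Tendsto (fun a : ℝ => sinh a / cosh a) atTop (𝓝 1) := by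
  have h1 : (fun a : ℝ => sinh a / cosh a) = fun a => 1 - exp (-a) / cosh a := by
    funext a
    have := (cosh_pos a).ne'
    field_simp
    rw [← cosh_sub_sinh]
    ring
  rw [h1]
  have h2 : Tendsto (fun a : ℝ => exp (-a) / cosh a) atTop (𝓝 0) := by
    have h3 : Tendsto (fun a : ℝ => exp (-a)) atTop (𝓝 0) := tendsto_exp_neg_atTop_nhds_zero
    refine tendsto_of_tendsto_of_tendsto_of_le_of_le tendsto_const_nhds h3 (fun a => ?_) (fun a => ?_)
    · exact div_nonneg (exp_pos _).le (cosh_pos a).le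
    · exact div_le_self (exp_pos _).le (one_le_cosh a)
  simpa using tendsto_const_nhds.sub h2

theorem lin_atTop {c : ℝ} (hc : 0 < c) : Tendsto (fun y : ℝ => c * y / 3) atTop atTop := by
  have : (fun y : ℝ => c * y / 3) = fun y => (c / 3) * y := by
    funext y
    ring
  rw [this]
  exact tendsto_id.const_mul_atTop (by positivity)

theorem inv_cosh_tendsto : Tendsto (fun a : ℝ => 1 / cosh a) atTop (𝓝 0) := by
  have h3 : Tendsto (fun a : ℝ => 2 * exp (-a)) atTop (𝓝 0) := by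
    simpa using tendsto_exp_neg_atTop_nhds_zero.const_mul (2 : ℝ)
  refine tendsto_of_tendsto_of_tendsto_of_le_of_le tendsto_const_nhds h3 (fun a => ?_) (fun a => ?_)
  · exact (div_pos one_pos (cosh_pos a)).le
  · show 1 / cosh a ≤ 2 * exp (-a)
    rw [div_le_iff₀ (cosh_pos a), cosh_eq]
    have : exp (-a) * exp a = 1 := by rw [← exp_add]; simp
    nlinarith [exp_pos (-a), exp_pos a]

theorem tt_ratio (η : ℝ) : Tendsto (fun y => (1 - tt (y + η / 2)) / (1 - tt y)) atTop (𝓝 (exp (-(4 * η / 3)))) := by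
  have h0 := P2F.h0_pos
  have key : ∀ y : ℝ, (1 - tt (y + η / 2)) / (1 - tt y) = (1 + P2F.h0 * (1 / cosh (8 * y / 3))) /
      (cosh (4 * η / 3) + (sinh (8 * y / 3) / cosh (8 * y / 3)) * sinh (4 * η / 3) +
        P2F.h0 * (1 / cosh (8 * y / 3))) := by
    intro y
    rw [one_sub_tt, one_sub_tt]
    have e1 : 8 * (y + η / 2) / 3 = 8 * y / 3 + 4 * η / 3 := by ring
    have h2 := (den_pos (y + η / 2))
    rw [e1, cosh_add] at h2
    rw [e1, cosh_add]
    have h3 := cosh_pos (8 * y / 3)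
    have h4 := den_pos y
    have h5 : cosh (4 * η / 3) + (sinh (8 * y / 3) / cosh (8 * y / 3)) * sinh (4 * η / 3) +
        P2F.h0 * (1 / cosh (8 * y / 3)) = (cosh (8 * y / 3) * cosh (4 * η / 3) +
          sinh (8 * y / 3) * sinh (4 * η / 3) + P2F.h0) / cosh (8 * y / 3) := by
      field_simp
    rw [h5]
    have h3' := h3.ne'
    have h4' := h4.ne'
    have h2' := h2.ne'
    field_simp
  have t1 : Tendsto (fun y : ℝ => P2F.h0 * (1 / cosh (8 * y / 3))) atTop (𝓝 0) := by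
    simpa using (inv_cosh_tendsto.comp (lin_atTop (c := 8) (by norm_num))).const_mul P2F.h0
  have t2 : Tendsto (fun y : ℝ => sinh (8 * y / 3) / cosh (8 * y / 3)) atTop (𝓝 1) :=
    tanh_tendsto.comp (lin_atTop (c := 8) (by norm_num))
  have t3 : Tendsto (fun y : ℝ => (1 + P2F.h0 * (1 / cosh (8 * y / 3))) /
      (cosh (4 * η / 3) + (sinh (8 * y / 3) / cosh (8 * y / 3)) * sinh (4 * η / 3) +
        P2F.h0 * (1 / cosh (8 * y / 3)))) atTop
      (𝓝 ((1 + 0) / (cosh (4 * η / 3) + 1 * sinh (4 * η / 3) + 0))) := by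
    refine (t1.const_add 1).div ((((t2.mul_const _).const_add _)).add t1) ?_
    rw [one_mul, add_zero, cosh_add_sinh]
    exact (exp_pos _).ne'
  have e : (1 + 0) / (cosh (4 * η / 3) + 1 * sinh (4 * η / 3) + 0) = exp (-(4 * η / 3)) := by
    rw [one_mul, add_zero, add_zero, cosh_add_sinh, exp_neg, one_div]
  rw [e] at t3
  exact t3.congr fun y => (key y).symm

theorem sinh_ratio (η : ℝ) : Tendsto (fun y => sinh (4 * (y + η / 2) / 3) / sinh (4 * y / 3)) atTop
    (𝓝 (exp (2 * η / 3))) := by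
  have t2 : Tendsto (fun y : ℝ => (sinh (4 * y / 3) / cosh (4 * y / 3))⁻¹) atTop (𝓝 1) := by
    simpa using (tanh_tendsto.comp (lin_atTop (c := 4) (by norm_num))).inv₀ one_ne_zero
  have t3 : Tendsto (fun y : ℝ => cosh (2 * η / 3) + (sinh (4 * y / 3) / cosh (4 * y / 3))⁻¹ * sinh (2 * η / 3))
      atTop (𝓝 (cosh (2 * η / 3) + 1 * sinh (2 * η / 3))) := (t2.mul_const _).const_add _
  have e : cosh (2 * η / 3) + 1 * sinh (2 * η / 3) = exp (2 * η / 3) := by
    rw [one_mul, cosh_add_sinh]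
  rw [e] at t3
  refine t3.congr' ?_
  filter_upwards [eventually_gt_atTop 0] with y hy
  have h1 := (sinh_pos' hy).ne'
  have h2 := (cosh_pos (4 * y / 3)).ne'
  rw [show 4 * (y + η / 2) / 3 = 4 * y / 3 + 2 * η / 3 by ring, sinh_add]
  field_simp

theorem rr_tendsto (η : ℝ) : Tendsto (fun y => rr y η) atTop (𝓝 (exp (-(2 * η / 3)))) := by
  have h1 := (tt_ratio η).mul (sinh_ratio η)
  have e : exp (-(4 * η / 3)) * exp (2 * η / 3) = exp (-(2 * η / 3)) := by
    rw [← exp_add]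
    congr 1
    ring
  rw [e] at h1
  refine h1.congr fun y => ?_
  unfold rr
  rw [div_mul_div_comm]

/-- the inverse function of tt, close to 1 -/
noncomputable def yy (t : ℝ) : ℝ := 3 / 8 * arcosh (P2F.hh t)

theorem hh_atTop : Tendsto P2F.hh (𝓝[<] 1) atTop := by
  unfold P2F.hh
  have h1 : Tendsto (fun t : ℝ => 1 - t) (𝓝[<] 1) (𝓝[>] 0) := by
    refine tendsto_nhdsWithin_iff.2 ⟨?_, ?_⟩
    · have : Tendsto (fun t : ℝ => 1 - t) (𝓝 1) (𝓝 (1 - 1)) := (continuous_const.sub continuous_id).tendsto 1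
      rw [sub_self] at this
      exact this.mono_left nhdsWithin_le_nhds
    · filter_upwards [self_mem_nhdsWithin] with t ht
      have : t < 1 := ht
      show 0 < 1 - t
      linarith
  have h2 : Tendsto (fun t : ℝ => (1 - t)⁻¹) (𝓝[<] 1) atTop := tendsto_inv_nhdsGT_zero.comp h1
  have h3 : Tendsto (fun t : ℝ => P2F.h0 * (1 + t)) (𝓝[<] 1) (𝓝 (P2F.h0 * (1 + 1))) := by
    have : Tendsto (fun t : ℝ => P2F.h0 * (1 + t)) (𝓝 1) (𝓝 (P2F.h0 * (1 + 1))) :=
      (continuous_const.mul (continuous_const.add continuous_id)).tendsto 1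
    exact this.mono_left nhdsWithin_le_nhds
  have h4 := h3.pos_mul_atTop (by have := P2F.h0_pos; linarith) h2
  exact h4.congr fun t => by rw [div_eq_mul_inv]

theorem cosh_yy {t : ℝ} (h : 1 ≤ P2F.hh t) : cosh (8 * yy t / 3) = P2F.hh t := by
  have e : 8 * yy t / 3 = arcosh (P2F.hh t) := by
    unfold yy
    ring
  rw [e, cosh_arcosh h]

theorem tt_yy : ∀ᶠ t in 𝓝[<] (1 : ℝ), tt (yy t) = t := by
  have h1 := hh_atTop.eventually_ge_atTop 1
  filter_upwards [h1, self_mem_nhdsWithin] with t h2 h3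
  have h3' : t < 1 := h3
  unfold tt
  rw [cosh_yy h2]
  unfold P2F.hh at h2 ⊢
  have h4 : 1 - t ≠ 0 := by linarith
  have h5 := P2F.h0_pos.ne'
  have e1 : P2F.h0 * (1 + t) / (1 - t) - P2F.h0 = P2F.h0 * (2 * t) / (1 - t) := by
    field_simp
    ring
  have e2 : P2F.h0 * (1 + t) / (1 - t) + P2F.h0 = P2F.h0 * 2 / (1 - t) := by
    field_simp
    ring
  rw [e1, e2, div_div_div_cancel_right₀ h4, mul_div_mul_left _ _ h5]
  ring

theorem log_le_arcosh {x : ℝ} (hx : 1 ≤ x) : log x ≤ arcosh x := by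
  rw [← exp_le_exp, exp_arcosh hx, exp_log (by linarith)]
  have := sqrt_nonneg (x ^ 2 - 1)
  linarith

theorem yy_tendsto : Tendsto yy (𝓝[<] 1) atTop := by
  have h1 : Tendsto (fun t => 3 / 8 * log (P2F.hh t)) (𝓝[<] 1) atTop :=
    (tendsto_log_atTop.comp hh_atTop).const_mul_atTop (by norm_num)
  refine tendsto_atTop_mono' _ ?_ h1
  filter_upwards [hh_atTop.eventually_ge_atTop 1] with t ht
  unfold yy
  exact mul_le_mul_of_nonneg_left (log_le_arcosh ht) (by norm_num)

theorem sech_integrable : Integrable (fun η : ℝ => 1 / cosh η) := by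
  have h1 := P2W.isW_wt.integrable 0 (by simp; positivity)
  have h2 : Integrable (fun k : ℝ => 1 / cosh (3 * π / 4 * k)) := by
    refine (h1.const_mul √2).congr (Eventually.of_forall fun k => ?_)
    simp only [mul_zero, exp_zero, one_mul]
    unfold P2W.wt
    have := (cosh_pos (3 * π * k / 4)).ne'
    have e : √2 * √2 = 2 := mul_self_sqrt (by norm_num)
    rw [show 3 * π / 4 * k = 3 * π * k / 4 by ring]
    have e2 : √2 * (√2 / 2 / cosh (3 * π * k / 4)) = (√2 * √2) / 2 / cosh (3 * π * k / 4) := by ring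
    rw [e2, e]
    norm_num
  have h3 : (3 * π / 4 : ℝ) ≠ 0 := by positivity
  have h4 := (integrable_comp_mul_left_iff (fun η : ℝ => 1 / cosh η) h3).1 h2
  exact h4

end EXG
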