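import Pool.Agent.EXG.Defs

/-! SupK: the kernels in the variables s, y (helper44). -/

set_option autoImplicit false

namespace EXG

open Real MeasureTheory Filter Topology Set Ex.P2

theorem SupK_den (y : ℝ) : 0 < cosh (8 * y / 3) + P2F.h0 := by
  have h1 := cosh_pos (8 * y / 3)
  have h2 := P2F.h0_pos
  linarith

theorem SupK_sub (y : ℝ) : 1 - tt y = 2 * P2F.h0 / (cosh (8 * y / 3) + P2F.h0) := by
  have := (SupK_den y).ne'
  unfold tt
  field_simp
  ring

theorem SupK_add (y : ℝ) : 1 + tt y = 2 * cosh (8 * y / 3) / (cosh (8 * y / 3) + P2F.h0) := by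
  have := (SupK_den y).ne'
  unfold tt
  field_simp
  ring

theorem SupK_sub_pos (y : ℝ) : 0 < 1 - tt y := by
  rw [SupK_sub]
  exact div_pos (by linarith [P2F.h0_pos]) (SupK_den y)

/-- the variable h at the point i y -/
theorem hh_tt (y : ℝ) : P2F.hh (tt y) = cosh (8 * y / 3) := by
  have h1 := (SupK_den y).ne'
  have h2 := P2F.h0_pos.ne'
  unfold P2F.hh
  rw [SupK_sub, SupK_add]
  field_simp

theorem SS_tt (y : ℝ) : P2F.SS (tt y) = 2 * cosh (2 * y / 3) := by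
  unfold P2F.SS
  rw [hh_tt]
  have h1 : 2 + 2 * cosh (8 * y / 3) = (2 * cosh (4 * y / 3)) ^ 2 := by
    have h := cosh_two_mul (4 * y / 3)
    have e : 2 * (4 * y / 3) = 8 * y / 3 := by ring
    rw [e] at h
    have h' := cosh_sq (4 * y / 3)
    rw [h]
    nlinarith
  have h2 : 2 + 2 * cosh (4 * y / 3) = (2 * cosh (2 * y / 3)) ^ 2 := by
    have h := cosh_two_mul (2 * y / 3)
    have e : 2 * (2 * y / 3) = 4 * y / 3 := by ring
    rw [e] at h
    have h' := cosh_sq (2 * y / 3)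
    rw [h]
    nlinarith
  rw [h1, sqrt_sq (by linarith [cosh_pos (4 * y / 3)]), h2,
    sqrt_sq (by linarith [cosh_pos (2 * y / 3)])]

theorem cf_tt (y : ℝ) : cf (tt y) = cosh (2 * y) := by
  unfold cf
  rw [SS_tt]
  have h := cosh_three_mul (2 * y / 3)
  have e : 3 * (2 * y / 3) = 2 * y := by ring
  rw [e] at h
  rw [h]
  ring

theorem F1f_tt (y : ℝ) :
    P2F.F1f (tt y) * ((1 - tt y) * sinh (4 * y / 3)) = P2F.K1 * sinh (2 * y) := by
  have h1 := (SupK_sub_pos y).ne'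
  have h2 := (cosh_pos (2 * y / 3)).ne'
  unfold P2F.F1f
  rw [SS_tt]
  have h3 : sinh (4 * y / 3) = 2 * sinh (2 * y / 3) * cosh (2 * y / 3) := by
    rw [← sinh_two_mul]
    congr 1
    ring
  have h4 : sinh (2 * y) = 4 * sinh (2 * y / 3) ^ 3 + 3 * sinh (2 * y / 3) := by
    rw [← sinh_three_mul]
    congr 1
    ring
  have h5 := cosh_sq (2 * y / 3)
  rw [h3, h4]
  have h6 : P2F.K1 * (2 * cosh (2 * y / 3) - 1 / (2 * cosh (2 * y / 3))) / (1 - tt y) *
      ((1 - tt y) * (2 * sinh (2 * y / 3) * cosh (2 * y / 3))) =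
      P2F.K1 * sinh (2 * y / 3) * (4 * cosh (2 * y / 3) ^ 2 - 1) := by
    field_simp
    ring
  rw [h6, h5]
  ring

theorem sg_pos {s : ℝ} (hs : |s| < 1 / 20) : 0 < sg s := by
  have h1 := P2F.sin_pos_43 hs
  have h2 : 0 < 1 - s := by linarith [(abs_lt.1 hs).2]
  have h3 := P2F.h0_pos
  unfold sg
  positivity

theorem Gk_eq {s : ℝ} (hs : |s| < 1 / 20) (y : ℝ) :
    Gk (P2F.xx s) y = sg s * ((1 - tt y) * sinh (4 * y / 3)) / (1 - s * tt y) := by
  have h1 : 0 < 1 - s := by linarith [(abs_lt.1 hs).2]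
  have h2 := SupK_sub_pos y
  have h3 := P2F.h0_pos
  have h4 := P2F.cos_xx hs
  have h5 := hh_tt y
  unfold P2F.hh at h4 h5
  have ht0 : -1 < tt y := by
    have h := SupK_add y
    have h' : 0 < 2 * cosh (8 * y / 3) / (cosh (8 * y / 3) + P2F.h0) :=
      div_pos (by linarith [cosh_pos (8 * y / 3)]) (SupK_den y)
    linarith
  have hst : |s * tt y| < 1 := by
    rw [abs_mul]
    have ha : |tt y| ≤ 1 := abs_le.2 ⟨ht0.le, by linarith⟩
    have hb : |s| < 1 := by linarith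
    calc |s| * |tt y| ≤ |s| * 1 := mul_le_mul_of_nonneg_left ha (abs_nonneg s)
      _ < 1 := by linarith
  have h6 : 0 < 1 - s * tt y := by linarith [(abs_lt.1 hst).2]
  unfold Gk sg
  rw [h4, ← h5]
  have h7 : P2F.h0 * (1 + s) / (1 - s) + P2F.h0 * (1 + tt y) / (1 - tt y) =
      2 * P2F.h0 * (1 - s * tt y) / ((1 - s) * (1 - tt y)) := by
    field_simp
    ring
  rw [h7]
  have := h1.ne'
  have := h2.ne'
  have := h3.ne'
  have := h6.ne'
  field_simp
  ring

theorem Nk_eq {s : ℝ} (hs : |s| < 1 / 20) (y : ℝ) :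
    Nk (P2F.xx s) y = sg s * ((1 - tt y) * sinh (4 * y / 3)) * Kf s (tt y) := by
  have h1 : 0 < 1 - s := by linarith [(abs_lt.1 hs).2]
  have h3 := P2F.h0_pos
  have h4 := P2F.sin_pos_43 hs
  unfold Nk Kf
  rw [cf_tt]
  have h5 : cf s = cos (2 * P2F.xx s) := (P2F.cos_two_xx hs).symm
  rw [h5]
  have h6 : sg s * ((1 - tt y) * sinh (4 * y / 3)) *
      (P2F.F1f s * P2F.F1f (tt y) / P2F.H (cos (2 * P2F.xx s)) (cosh (2 * y))) =
      (sg s * P2F.F1f s * (P2F.F1f (tt y) * ((1 - tt y) * sinh (4 * y / 3)))) /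
        P2F.H (cos (2 * P2F.xx s)) (cosh (2 * y)) := by ring
  rw [h6, F1f_tt]
  have h7 : sg s * P2F.F1f s * P2F.K1 = sin (2 * P2F.xx s) := by
    rw [← P2F.gam_F1f hs]
    unfold sg P2F.gam P2F.rho P2F.K1
    have h8 : 0 < √(4 / (3 * P2F.h0)) := sqrt_pos.2 (by positivity)
    have h9 : √(4 / (3 * P2F.h0)) * √(4 / (3 * P2F.h0)) = 4 / (3 * P2F.h0) :=
      mul_self_sqrt (by positivity)
    have h10 : √(√2) * √(√2) = √2 := mul_self_sqrt (sqrt_nonneg 2)
    have h11 : √2 * √2 = (2 : ℝ) := mul_self_sqrt (by norm_num)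
    have e : 2 * √2 / (3 * P2F.h0) * (sin (4 * P2F.xx s / 3) * (1 - s)) *
        (√(√2) * sin (2 * P2F.xx s) / (√(4 / (3 * P2F.h0)) * (1 - s) * sin (4 * P2F.xx s / 3))) *
        (√(√2) / √(4 / (3 * P2F.h0))) =
        2 * √2 / (3 * P2F.h0) * (√(√2) * √(√2)) /
          (√(4 / (3 * P2F.h0)) * √(4 / (3 * P2F.h0))) * sin (2 * P2F.xx s) := by
      have := h1.ne'
      have := h4.ne'
      have := h8.ne'
      field_simp
    rw [e, h9, h10]
    have e2 : 2 * √2 / (3 * P2F.h0) * √2 / (4 / (3 * P2F.h0)) = (√2 * √2) / 2 := by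
      have := h3.ne'
      field_simp
      ring
    rw [e2, h11]
    ring
  have h12 : sg s * P2F.F1f s * (P2F.K1 * sinh (2 * y)) =
      (sg s * P2F.F1f s * P2F.K1) * sinh (2 * y) := by ring
  rw [h12, h7]

end EXG
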