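import Pool.Agent.EXG.Sech
import Pool.Agent.EXG.OpW
import Pool.Agent.EXG.SupA
import Pool.Agent.EXG.SupK

/-! Sup: the operator on the vectors kv t, t close to 1 (helper99). -/

set_option autoImplicit false

namespace EXG

open Real MeasureTheory Filter Topology Set Ex.P2

variable {H : Type} [NormedAddCommGroup H] [InnerProductSpace ℝ H] [CompleteSpace H]

theorem rr_kv_norm_le {y : ℝ} (hy : 1 ≤ y) (η : ℝ) :
    ‖(rr y η / cosh η) • kv (tt (y + η / 2))‖ ≤ √(2 / (1 - tt y ^ 2)) * (1 / cosh η) := by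
  have h1 := rr_norm hy η
  have h2 : ‖rr y η • kv (tt (y + η / 2))‖ ≤ √(2 / (1 - tt y ^ 2)) := Real.le_sqrt_of_sq_le h1
  have h3 : (rr y η / cosh η) • kv (tt (y + η / 2)) =
      (1 / cosh η) • (rr y η • kv (tt (y + η / 2))) := by
    rw [smul_smul]
    congr 1
    ring
  have h4 : 0 < 1 / cosh η := div_pos one_pos (cosh_pos η)
  rw [h3, norm_smul, Real.norm_eq_abs, abs_of_pos h4, mul_comm]
  exact mul_le_mul_of_nonneg_right h2 h4.le

theorem rr_integrable {y : ℝ} (hy : 1 ≤ y) :
    Integrable (fun η : ℝ => (rr y η / cosh η) • kv (tt (y + η / 2))) := by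
  refine (sech_integrable.const_mul (√(2 / (1 - tt y ^ 2)))).mono' ?_
    (Eventually.of_forall fun η => rr_kv_norm_le hy η)
  apply Continuous.aestronglyMeasurable
  have hc : Continuous (fun η : ℝ => rr y η / cosh η) :=
    (rr_cont y).div continuous_cosh fun η => (cosh_pos η).ne'
  exact hc.smul (kv_tt_cont y)

/-- the scalar identity -/
theorem scalar {s : ℝ} (hs : |s| < 1 / 20) {y : ℝ} (hy : 0 < y) :
    1 / (1 - s * tt y) - Kf s (tt y) =
      (1 / (2 * π)) * ∫ η : ℝ, rr y η / (1 - s * tt (y + η / 2)) / cosh η := by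
  have hx0 := P2F.xx_pos hs
  have hx1 : P2F.xx s < 3 * π / 16 := (abs_lt.1 (P2F.xx_abs hs)).2
  obtain ⟨-, h1⟩ := sech_id (y := y) hx0 hx1
  have hsg := sg_pos hs
  have hD := rr_den_pos hy
  have h2 : ∀ η : ℝ, Gk (P2F.xx s) (y + η / 2) / cosh η =
      (sg s * ((1 - tt y) * sinh (4 * y / 3))) *
        (rr y η / (1 - s * tt (y + η / 2)) / cosh η) := by
    intro η
    rw [Gk_eq hs]
    unfold rr
    have h3 := hD.ne'
    generalize (1 - tt y) * sinh (4 * y / 3) = D at h3 ⊢
    generalize (1 - tt (y + η / 2)) * sinh (4 * (y + η / 2) / 3) = N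
    generalize 1 - s * tt (y + η / 2) = Q
    generalize cosh η = C
    have h4 : D * (N / D) = N := by field_simp
    rw [show sg s * D * (N / D / Q / C) = sg s * (D * (N / D)) / Q / C by ring, h4]
  simp_rw [h2] at h1
  rw [integral_const_mul, Gk_eq hs, Nk_eq hs] at h1
  have h4 : (sg s * ((1 - tt y) * sinh (4 * y / 3))) ≠ 0 := (mul_pos hsg hD).ne'
  apply mul_left_cancel₀ h4
  calc (sg s * ((1 - tt y) * sinh (4 * y / 3))) * (1 / (1 - s * tt y) - Kf s (tt y))
      = sg s * ((1 - tt y) * sinh (4 * y / 3)) / (1 - s * tt y) -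
        sg s * ((1 - tt y) * sinh (4 * y / 3)) * Kf s (tt y) := by ring
    _ = _ := by rw [h1]; ring

theorem AA_kv {T : L2N →L[ℝ] H}
    (hT : ∀ s t : ℝ, |s| < 1 → |t| < 1 → inner ℝ (T (kv s)) (T (kv t)) = Kf s t) {y : ℝ} (hy : 1 ≤ y) :
    AA T (kv (tt y)) = (1 / (2 * π)) • ∫ η : ℝ, (rr y η / cosh η) • kv (tt (y + η / 2)) := by
  have hd := dense_kv (δ := 1 / 20) (by norm_num) (by norm_num)
  refine hd.eq_of_inner_left ℝ fun v hv => ?_
  -- it is enough to test with the vectors `kv s`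
  have key : ∀ s : ℝ, |s| < 1 / 20 → inner ℝ (AA T (kv (tt y))) (kv s) =
      inner ℝ ((1 / (2 * π)) • ∫ η : ℝ, (rr y η / cosh η) • kv (tt (y + η / 2))) (kv s) := by
    intro s hs
    have hs1 : |s| < 1 := by linarith
    rw [real_inner_comm, inner_AA, inner_kv hs1 (tt_abs y), hT s _ hs1 (tt_abs y),
      scalar hs (by linarith)]
    rw [real_inner_smul_left, real_inner_comm, ← integral_inner (rr_integrable hy)]
    congr 1
    refine integral_congr_ae (Eventually.of_forall fun η => ?_)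
    simp only
    rw [real_inner_smul_right, inner_kv hs1 (tt_abs _)]
    ring
  replace hv : v ∈ Submodule.span ℝ {f : L2N | ∃ s : ℝ, |s| < 1 / 20 ∧ f = kv s} := hv
  induction hv using Submodule.span_induction with
  | mem x hx =>
    obtain ⟨s, hs, rfl⟩ := hx
    exact key s hs
  | zero => simp
  | add a b _ _ ha hb => rw [inner_add_right, inner_add_right, ha, hb]
  | smul c a _ ha => rw [real_inner_smul_right, real_inner_smul_right, ha]

end EXG
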